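import Pool.Agent.Lib.MP_4a593f_gt.Big.A7

/-! Task C3: existence of an eigensystem.

`D` is a symmetric bilinear form on the finite dimensional inner product space of skew matrices
(inner product `ip`).  Coordinates: pairs `a < b`; `ip` becomes the standard inner product of
`L ↦ (L_ab)_{a<b}`.  So take the real symmetric matrix `D(e_a∧e_b, e_c∧e_d)` indexed by
`{(a,b) // a < b}` and use `Matrix.IsHermitian.spectral_theorem` / `eigenvectorBasis`
(reindex by `Fin m`). -/

open scoped BigOperators

namespace HopfBig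

variable {n : ℕ} {p : ℝ} {H : Type} [NormedAddCommGroup H] [InnerProductSpace ℝ H]

/-- pairs `a < b` -/
private abbrev C3I (n : ℕ) := {q : Fin n × Fin n // q.1 < q.2}

private def C3e (q : C3I n) : Mat n :=
  wd (Pi.single q.1.1 1) (Pi.single q.1.2 1)

private theorem C3_ip_e {M : Mat n} (hM : Skew M) (q : C3I n) : ip M (C3e q) = M q.1.1 q.1.2 := by
  rw [C3e, ip_wd hM, Finset.sum_eq_single q.1.1]
  · simp
  · intro i _ hi
    rw [Pi.single_eq_of_ne hi, zero_mul]
  · intro h
    exact absurd (Finset.mem_univ _) h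

private theorem C3_e_entry (q r : C3I n) : C3e q r.1.1 r.1.2 = if q = r then 1 else 0 := by
  have hq := q.2
  have hr := r.2
  simp only [C3e, wd, Matrix.of_apply, Pi.single_apply]
  by_cases h : q = r
  · subst h
    simp [hq.ne, hq.ne']
  · rw [if_neg h]
    have h1 : ¬ (r.1.1 = q.1.1 ∧ r.1.2 = q.1.2) := by
      rintro ⟨h1, h2⟩
      exact h (Subtype.ext (Prod.ext h1.symm h2.symm))
    have h2 : ¬ (r.1.2 = q.1.1 ∧ r.1.1 = q.1.2) := by
      rintro ⟨h1, h2⟩
      rw [← h1, ← h2] at hq
      exact absurd hq (not_lt.2 hr.le)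
    by_cases h3 : r.1.1 = q.1.1
    · have h4 : r.1.2 ≠ q.1.2 := fun h4 => h1 ⟨h3, h4⟩
      by_cases h5 : r.1.2 = q.1.1
      · have h6 : r.1.1 ≠ q.1.2 := fun h6 => h2 ⟨h5, h6⟩
        simp [h4, h6]
      · simp [h4, h5]
    · by_cases h5 : r.1.2 = q.1.1
      · have h6 : r.1.1 ≠ q.1.2 := fun h6 => h2 ⟨h5, h6⟩
        simp [h3, h6]
      · simp [h3, h5]

private theorem C3_ip_ee (q r : C3I n) : ip (C3e q) (C3e r) = if q = r then 1 else 0 := by
  have h : Skew (C3e q) := Skew.wd _ _
  rw [C3_ip_e h, C3_e_entry]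

/-- expansion of a skew matrix -/
private theorem C3_expand {L : Mat n} (hL : Skew L) :
    L = ∑ q : C3I n, L q.1.1 q.1.2 • C3e q := by
  have hN : Skew (L - ∑ q : C3I n, L q.1.1 q.1.2 • C3e q) :=
    hL.sub (Skew.sum fun q => Skew.smul _ (Skew.wd _ _))
  have hz : ∀ r : C3I n, (L - ∑ q : C3I n, L q.1.1 q.1.2 • C3e q) r.1.1 r.1.2 = 0 := by
    intro r
    rw [Matrix.sub_apply, Matrix.sum_apply]
    simp only [Matrix.smul_apply, smul_eq_mul, C3_e_entry]
    rw [Finset.sum_eq_single r]
    · simp
    · intro q _ hq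
      rw [if_neg hq, mul_zero]
    · intro h
      exact absurd (Finset.mem_univ _) h
  set N := L - ∑ q : C3I n, L q.1.1 q.1.2 • C3e q with hNdef
  have hN0 : N = 0 := by
    ext a b
    rcases lt_trichotomy a b with h | h | h
    · exact hz ⟨(a, b), h⟩
    · subst h
      have := hN a a
      rw [Matrix.zero_apply]
      linarith
    · have h1 := hz ⟨(b, a), h⟩
      have h2 := hN b a
      rw [Matrix.zero_apply, h2]
      have h3 : N b a = 0 := h1
      rw [h3, neg_zero]
  exact sub_eq_zero.1 hN0

/-- spectral theorem for a symmetric bilinear form on skew matrices -/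
theorem exists_eig_form (b : Mat n →ₗ[ℝ] Mat n →ₗ[ℝ] ℝ) (hb : ∀ L M, b L M = b M L) :
    ∃ (m : ℕ) (E : Fin m → Mat n) (d : Fin m → ℝ),
      (∀ i, Skew (E i)) ∧ (∀ i j, ip (E i) (E j) = if i = j then 1 else 0) ∧
      (∀ L, Skew L → L = ∑ i, ip (E i) L • E i) ∧
      (∀ i M, Skew M → b (E i) M = d i * ip (E i) M) ∧ Antitone d := by
  classical
  set S : Matrix (C3I n) (C3I n) ℝ := Matrix.of fun q r => b (C3e q) (C3e r) with hSdef
  have hS : S.IsHermitian := by
    ext q r
    rw [Matrix.conjTranspose_apply]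
    simp only [hSdef, Matrix.of_apply, star_trivial]
    exact hb _ _
  set e : Fin (Fintype.card (C3I n)) ≃ C3I n := Fintype.equivOfCardEq (Fintype.card_fin _) with he
  set v : C3I n → C3I n → ℝ := fun i q => hS.eigenvectorBasis i q with hv
  have horth : ∀ i j, ∑ q, v i q * v j q = if i = j then 1 else 0 := by
    intro i j
    have h1 := hS.eigenvectorBasis.inner_eq_ite i j
    rw [PiLp.inner_apply] at h1
    rw [← h1]
    refine Finset.sum_congr rfl fun k _ => ?_
    simp only [hv, RCLike.inner_apply, conj_trivial]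
    ring
  have hcomp : ∀ q r, ∑ i, v i q * v i r = if q = r then 1 else 0 := by
    intro q r
    have h1 : (Matrix.of v) * (Matrix.of v).transpose = 1 := by
      ext i j
      rw [Matrix.mul_apply, Matrix.one_apply]
      exact horth i j
    have h2 : (Matrix.of v).transpose * (Matrix.of v) = 1 := mul_eq_one_comm.1 h1
    have h3 := congrFun (congrFun h2 q) r
    rw [Matrix.mul_apply, Matrix.one_apply] at h3
    exact h3
  have hev : ∀ i, S.mulVec (v i) = hS.eigenvalues i • v i := fun i =>
    hS.mulVec_eigenvectorBasis i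
  set E' : C3I n → Mat n := fun i => ∑ q, v i q • C3e q with hE'
  have hskew : ∀ i, Skew (E' i) := fun i => Skew.sum fun q => Skew.smul _ (Skew.wd _ _)
  have hipL : ∀ i L, Skew L → ip (E' i) L = ∑ q, v i q * L q.1.1 q.1.2 := by
    intro i L hL
    rw [hE', ip_sum_left]
    refine Finset.sum_congr rfl fun q _ => ?_
    rw [ip_smul_left, ip_symm, C3_ip_e hL]
  have hentry : ∀ i (r : C3I n), E' i r.1.1 r.1.2 = v i r := by
    intro i r
    simp only [hE']
    rw [Matrix.sum_apply]
    simp only [Matrix.smul_apply, smul_eq_mul, C3_e_entry]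
    rw [Finset.sum_eq_single r]
    · simp
    · intro q _ hq
      rw [if_neg hq, mul_zero]
    · intro h
      exact absurd (Finset.mem_univ _) h
  refine ⟨Fintype.card (C3I n), fun j => E' (e j), fun j => hS.eigenvalues (e j),
    fun j => hskew _, ?_, ?_, ?_, ?_⟩
  · intro i j
    rw [hipL _ _ (hskew _)]
    simp only [hentry]
    rw [horth]
    simp only [EmbeddingLike.apply_eq_iff_eq]
  · intro L hL
    have h1 : ∑ i, ip (E' (e i)) L • E' (e i) = ∑ i, ip (E' i) L • E' i :=
      Equiv.sum_comp e fun i => ip (E' i) L • E' i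
    rw [h1]
    conv_lhs => rw [C3_expand hL]
    simp only [hipL _ _ hL]
    simp only [hE', Finset.smul_sum, smul_smul]
    rw [Finset.sum_comm]
    refine Finset.sum_congr rfl fun r _ => ?_
    rw [← Finset.sum_smul]
    congr 1
    simp only [Finset.sum_mul]
    rw [Finset.sum_comm]
    have h2 : ∀ q : C3I n, ∑ i, v i q * L q.1.1 q.1.2 * v i r =
        L q.1.1 q.1.2 * if q = r then 1 else 0 := by
      intro q
      rw [← hcomp, Finset.mul_sum]
      exact Finset.sum_congr rfl fun i _ => by ring
    simp only [h2]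
    rw [Finset.sum_eq_single r]
    · simp
    · intro q _ hq
      rw [if_neg hq, mul_zero]
    · intro h
      exact absurd (Finset.mem_univ _) h
  · intro j M hM
    have h1 : b (E' (e j)) M = ∑ r : C3I n, M r.1.1 r.1.2 * (S.mulVec (v (e j))) r := by
      conv_lhs => rw [C3_expand hM]
      rw [map_sum]
      refine Finset.sum_congr rfl fun r _ => ?_
      rw [map_smul, smul_eq_mul]
      congr 1
      simp only [hE', map_sum, LinearMap.sum_apply, map_smul, LinearMap.smul_apply, smul_eq_mul,
        Matrix.mulVec, dotProduct, hSdef, Matrix.of_apply]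
      refine Finset.sum_congr rfl fun q _ => ?_
      rw [hb (C3e r) (C3e q)]
      ring
    rw [h1, hev, hipL _ _ hM, Finset.mul_sum]
    refine Finset.sum_congr rfl fun r _ => ?_
    rw [Pi.smul_apply, smul_eq_mul]
    ring
  · have h1 : (fun j => hS.eigenvalues (e j)) = hS.eigenvalues₀ := by
      funext j
      rw [Matrix.IsHermitian.eigenvalues]
      congr 1
      exact e.symm_apply_apply j
    rw [h1]
    exact hS.eigenvalues₀_antitone

theorem exists_eig (X : FormData n p H) :
    ∃ (m : ℕ) (E : Fin m → Mat n) (d : Fin m → ℝ), Eig X E d ∧ Antitone d := by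
  obtain ⟨m, E, d, h1, h2, h3, h4, h5⟩ := exists_eig_form
    (LinearMap.mk₂ ℝ (fun L M : Mat n => X.D L M)
      (fun L L' M => by
        simp only [FormData.D, map_add, LinearMap.add_apply, inner_add_left])
      (fun c L M => by
        simp only [FormData.D, map_smul, LinearMap.smul_apply, real_inner_smul_left, smul_eq_mul])
      (fun L M M' => by
        simp only [FormData.D, map_add, LinearMap.add_apply, inner_add_right])
      (fun c L M => by
        simp only [FormData.D, map_smul, LinearMap.smul_apply, real_inner_smul_right,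
          smul_eq_mul]))
    (fun L M => by
      simp only [LinearMap.mk₂_apply]
      exact X.D_symm L M)
  exact ⟨m, E, d, ⟨h1, h2, h3, fun i M hM => h4 i M hM⟩, h5⟩

end HopfBig
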