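import Pool.Agent.Lib.MP_4a593f_gt.Big.K0
import Pool.Agent.Lib.MP_4a593f_gt.Big.C3

/-! Task K1: spectral decomposition of the curvature operator.

The bilinear form `b(L,M) = (1/4) ∑ R_abcd L_ab M_cd` is symmetric (pair symmetry follows from
the skew symmetries and the first Bianchi identity).  `exists_eig_form` gives `E_i, r_i`.  With
`e_ab = e_a ∧ e_b`: `R_abcd = b(e_ab, e_cd) = ∑_i r_i E_i(a,b) E_i(c,d)`.  So for a 4-form `f`
`∑ r_i f(E_i) = ∑ t_abcd R_abcd = 0` by the Bianchi identity and total antisymmetry.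
`K`-positivity: apply it to the eigenvectors of the `k` smallest eigenvalues. -/

open scoped BigOperators

namespace HopfBig

theorem pair_symm {n : ℕ} {R : Fin n → Fin n → Fin n → Fin n → ℝ} (h : IsCurvature R)
    (i j k l : Fin n) : R i j k l = R k l i j := by
  obtain ⟨h1, h2, h3⟩ := h
  have b1 := h3 i j k l
  have b2 := h3 j k l i
  have b3 := h3 k l i j
  have b4 := h3 l i j k
  have e1 : R j k l i = -R j k i l := h2 j k i l
  have e2 : R k l j i = -R k l i j := h2 k l i j
  have e3 : R l j k i = -R l j i k := h2 l j i k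
  have e4 : R l i k j = -R l i j k := h2 l i j k
  have e5 : R i k l j = -R i k j l := h2 i k j l
  have e6 : R k i j l = -R i k j l := h1 i k j l
  have e7 : R i j l k = -R i j k l := h2 i j k l
  have e8 : R j l i k = -R l j i k := h1 l j i k
  have e9 : R i l j k = -R l i j k := h1 l i j k
  have e10 : R k j l i = -R j k l i := h1 j k l i
  have e11 : R j l k i = -R l j k i := h1 l j k i
  have e12 : R l k i j = -R k l i j := h1 k l i j
  linarith

/-- the standard basis 2-form -/
private def K1e {n : ℕ} (a b : Fin n) : Mat n := wd (Pi.single a 1) (Pi.single b 1)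

private theorem K1_ip_e {n : ℕ} {M : Mat n} (hM : Skew M) (a b : Fin n) :
    ip M (K1e a b) = M a b := by
  rw [K1e, ip_wd hM, Finset.sum_eq_single a]
  · simp
  · intro i _ hi
    rw [Pi.single_eq_of_ne hi, zero_mul]
  · intro h
    exact absurd (Finset.mem_univ _) h

private theorem K1_e_entry {n : ℕ} (a b c d : Fin n) :
    K1e a b c d = (if c = a then 1 else 0) * (if d = b then 1 else 0) -
      (if d = a then 1 else 0) * (if c = b then 1 else 0) := by
  simp only [K1e, wd, Matrix.of_apply, Pi.single_apply]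

private theorem K1_skew_e {n : ℕ} (a b : Fin n) : Skew (K1e a b) := Skew.wd _ _

/-- the completeness relation in components -/
private theorem K1_complete {n m : ℕ} (E : Fin m → Mat n) (hs : ∀ i, Skew (E i))
    (hc : ∀ L, Skew L → L = ∑ i, ip (E i) L • E i) (a b c d : Fin n) :
    ∑ i, E i a b * E i c d = (if c = a then 1 else 0) * (if d = b then 1 else 0) -
      (if d = a then 1 else 0) * (if c = b then 1 else 0) := by
  rw [← K1_e_entry, hc _ (K1_skew_e a b), Matrix.sum_apply]
  refine Finset.sum_congr rfl fun i _ => ?_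
  rw [Matrix.smul_apply, smul_eq_mul, K1_ip_e (hs i)]

private theorem K1_card {n m : ℕ} (E : Fin m → Mat n) (hs : ∀ i, Skew (E i))
    (ho : ∀ i j, ip (E i) (E j) = if i = j then 1 else 0)
    (hc : ∀ L, Skew L → L = ∑ i, ip (E i) L • E i) : m = n * (n - 1) / 2 := by
  have h1 : ∑ a : Fin n, ∑ b : Fin n, ∑ i, E i a b * E i a b = 2 * (m : ℝ) := by
    have h2 : ∀ i, ∑ a : Fin n, ∑ b : Fin n, E i a b * E i a b = 2 := by
      intro i
      have h3 := ho i i
      rw [if_pos rfl, ip] at h3
      linarith
    have h4 : ∑ a : Fin n, ∑ b : Fin n, ∑ i, E i a b * E i a b =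
        ∑ i, ∑ a : Fin n, ∑ b : Fin n, E i a b * E i a b := by
      have h5 : ∀ a : Fin n, ∑ b : Fin n, ∑ i, E i a b * E i a b =
          ∑ i, ∑ b : Fin n, E i a b * E i a b := fun a => Finset.sum_comm
      simp only [h5]
      exact Finset.sum_comm
    rw [h4]
    simp only [h2]
    rw [Finset.sum_const, Finset.card_univ, Fintype.card_fin, nsmul_eq_mul]
    ring
  have h6 : ∑ a : Fin n, ∑ b : Fin n, ∑ i, E i a b * E i a b = (n : ℝ) * n - n := by
    simp only [K1_complete E hs hc, if_true, mul_one]
    have h7 : ∀ a : Fin n, ∑ b : Fin n, ((1 : ℝ) - (if b = a then 1 else 0) *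
        (if a = b then 1 else 0)) = n - 1 := by
      intro a
      rw [Finset.sum_sub_distrib, Finset.sum_const, Finset.card_univ, Fintype.card_fin,
        nsmul_eq_mul, mul_one, Finset.sum_eq_single a]
      · simp
      · intro b _ hb
        rw [if_neg hb, zero_mul]
      · intro h
        exact absurd (Finset.mem_univ _) h
    simp only [h7]
    rw [Finset.sum_const, Finset.card_univ, Fintype.card_fin, nsmul_eq_mul]
    ring
  have h8 : 2 * (m : ℝ) = (n : ℝ) * n - n := by rw [← h1, h6]
  have h9 : 2 * m + n = n * n := by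
    have : (2 * (m : ℝ)) + n = n * n := by linarith
    exact_mod_cast this
  have h10 : n * (n - 1) = 2 * m := by
    rw [Nat.mul_sub, mul_one]
    omega
  rw [h10]
  simp

/-- rotate the first three summation indices -/
private theorem K1_rot {n : ℕ} (F : Fin n → Fin n → Fin n → Fin n → ℝ) :
    ∑ a, ∑ b, ∑ c, ∑ d, F a b c d = ∑ a, ∑ b, ∑ c, ∑ d, F b c a d := by
  have h1 : ∑ a, ∑ b, ∑ c, ∑ d, F b c a d = ∑ b, ∑ a, ∑ c, ∑ d, F b c a d := Finset.sum_comm
  rw [h1]
  refine Finset.sum_congr rfl fun a _ => ?_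
  exact Finset.sum_comm

private theorem K1_bianchi {n : ℕ} {R t : Fin n → Fin n → Fin n → Fin n → ℝ}
    (h : IsCurvature R) (ht : Alt4 t) : ∑ a, ∑ b, ∑ c, ∑ d, t a b c d * R a b c d = 0 := by
  obtain ⟨t1, t2, t3⟩ := ht
  have c1 : ∀ a b c d, t b c a d = t a b c d := by
    intro a b c d
    have e1 := t2 b a c d
    have e2 := t1 a b c d
    rw [e1, e2]
    ring
  have s1 : ∑ a, ∑ b, ∑ c, ∑ d, t a b c d * R a b c d =
      ∑ a, ∑ b, ∑ c, ∑ d, t a b c d * R b c a d := by
    rw [K1_rot]
    simp only [c1]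
  have s2 : ∑ a, ∑ b, ∑ c, ∑ d, t a b c d * R b c a d =
      ∑ a, ∑ b, ∑ c, ∑ d, t a b c d * R c a b d := by
    rw [K1_rot]
    simp only [c1]
  have s3 : ∑ a, ∑ b, ∑ c, ∑ d, t a b c d * R a b c d +
      ∑ a, ∑ b, ∑ c, ∑ d, t a b c d * R b c a d +
      ∑ a, ∑ b, ∑ c, ∑ d, t a b c d * R c a b d = 0 := by
    simp only [← Finset.sum_add_distrib, ← mul_add]
    refine Finset.sum_eq_zero fun a _ => Finset.sum_eq_zero fun b _ =>
      Finset.sum_eq_zero fun c _ => Finset.sum_eq_zero fun d _ => ?_
    rw [h.2.2 a b c d, mul_zero]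
  linarith

/-- exchange of `∑ i` with the four tensor sums -/
private theorem K1_swap {n m : ℕ} (F : Fin m → Fin n → Fin n → Fin n → Fin n → ℝ) :
    ∑ i, ∑ a, ∑ b, ∑ c, ∑ d, F i a b c d = ∑ a, ∑ b, ∑ c, ∑ d, ∑ i, F i a b c d := by
  rw [Finset.sum_comm]
  refine Finset.sum_congr rfl fun a _ => ?_
  rw [Finset.sum_comm]
  refine Finset.sum_congr rfl fun b _ => ?_
  rw [Finset.sum_comm]
  refine Finset.sum_congr rfl fun c _ => ?_
  exact Finset.sum_comm

/-- the bilinear form of a curvature tensor on matrices -/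
private noncomputable def K1b {n : ℕ} (R : Fin n → Fin n → Fin n → Fin n → ℝ) (L M : Mat n) : ℝ :=
  (1 / 4) * ∑ a, ∑ b, ∑ c, ∑ d, R a b c d * L a b * M c d

private theorem K1b_symm {n : ℕ} {R : Fin n → Fin n → Fin n → Fin n → ℝ} (h : IsCurvature R)
    (L M : Mat n) : K1b R L M = K1b R M L := by
  unfold K1b
  congr 1
  have h1 : ∀ a b : Fin n, ∑ c, ∑ d, R a b c d * L a b * M c d =
      ∑ c, ∑ d, R c d a b * M c d * L a b := by
    intro a b
    refine Finset.sum_congr rfl fun c _ => Finset.sum_congr rfl fun d _ => ?_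
    rw [pair_symm h a b c d]
    ring
  simp only [h1]
  have h2 : ∀ a : Fin n, ∑ b, ∑ c, ∑ d, R c d a b * M c d * L a b =
      ∑ c, ∑ d, ∑ b, R c d a b * M c d * L a b := by
    intro a
    rw [Finset.sum_comm]
    refine Finset.sum_congr rfl fun c _ => ?_
    exact Finset.sum_comm
  simp only [h2]
  rw [Finset.sum_comm]
  refine Finset.sum_congr rfl fun c _ => ?_
  exact Finset.sum_comm

private theorem K1b_e {n : ℕ} {R : Fin n → Fin n → Fin n → Fin n → ℝ} (h : IsCurvature R)
    (a b c d : Fin n) : K1b R (K1e a b) (K1e c d) = R a b c d := by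
  have hone : ∀ (M : Mat n) (a b : Fin n), ∑ i, ∑ j, M i j * K1e a b i j = M a b - M b a := by
    intro M a b
    have h1 : ∑ i, ∑ j, M i j * ((if i = a then (1 : ℝ) else 0) * (if j = b then 1 else 0)) =
        M a b := by
      rw [Finset.sum_eq_single a]
      · rw [Finset.sum_eq_single b]
        · simp
        · intro j _ hj
          rw [if_neg hj, mul_zero, mul_zero]
        · intro h
          exact absurd (Finset.mem_univ _) h
      · intro i _ hi
        refine Finset.sum_eq_zero fun j _ => ?_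
        rw [if_neg hi, zero_mul, mul_zero]
      · intro h
        exact absurd (Finset.mem_univ _) h
    have h2 : ∑ i, ∑ j, M i j * ((if j = a then (1 : ℝ) else 0) * (if i = b then 1 else 0)) =
        M b a := by
      rw [Finset.sum_eq_single b]
      · rw [Finset.sum_eq_single a]
        · simp
        · intro j _ hj
          rw [if_neg hj, zero_mul, mul_zero]
        · intro h
          exact absurd (Finset.mem_univ _) h
      · intro i _ hi
        refine Finset.sum_eq_zero fun j _ => ?_
        rw [if_neg hi, mul_zero, mul_zero]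
      · intro h
        exact absurd (Finset.mem_univ _) h
    simp only [K1_e_entry, mul_sub, Finset.sum_sub_distrib]
    rw [h1, h2]
  have h3 : ∀ i j : Fin n, ∑ k, ∑ l, R i j k l * K1e a b i j * K1e c d k l =
      (R i j c d - R i j d c) * K1e a b i j := by
    intro i j
    rw [← hone (fun k l => R i j k l) c d, Finset.sum_mul]
    refine Finset.sum_congr rfl fun k _ => ?_
    rw [Finset.sum_mul]
    refine Finset.sum_congr rfl fun l _ => ?_
    ring
  unfold K1b
  simp only [h3]
  rw [hone (fun i j => R i j c d - R i j d c) a b]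
  have e1 := h.1 a b c d
  have e2 := h.2.1 a b c d
  have e3 := h.1 a b d c
  linarith

/-- spectral decomposition; `r` is monotone increasing -/
theorem curv_spectral {n : ℕ} {R : Fin n → Fin n → Fin n → Fin n → ℝ} (h : IsCurvature R) :
    ∃ (m : ℕ) (E : Fin m → Mat n) (r : Fin m → ℝ), m = n * (n - 1) / 2 ∧
      (∀ i, Skew (E i)) ∧ (∀ i j, ip (E i) (E j) = if i = j then 1 else 0) ∧
      (∀ L, Skew L → L = ∑ i, ip (E i) L • E i) ∧ Monotone r ∧
      (∀ a b c d, R a b c d = ∑ i, r i * E i a b * E i c d) ∧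
      (∀ i, curvOp R (E i) = r i) ∧
      (∀ f : Mat n → ℝ, Four f → ∑ i, r i * f (E i) = 0) := by
  obtain ⟨m, E, r, h1, h2, h3, h4, h5⟩ := exists_eig_form
    (LinearMap.mk₂ ℝ (fun L M : Mat n => K1b R L M)
      (fun L L' M => by
        simp only [K1b, Matrix.add_apply, mul_add, add_mul, Finset.sum_add_distrib])
      (fun c L M => by
        simp only [K1b, Matrix.smul_apply, smul_eq_mul]
        have e1 : ∀ a b k l, R a b k l * (c * L a b) * M k l = c * (R a b k l * L a b * M k l) := by
          intro a b k l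
          ring
        simp only [e1, ← Finset.mul_sum]
        ring)
      (fun L M M' => by
        simp only [K1b, Matrix.add_apply, mul_add, Finset.sum_add_distrib])
      (fun c L M => by
        simp only [K1b, Matrix.smul_apply, smul_eq_mul]
        have e1 : ∀ a b k l, R a b k l * L a b * (c * M k l) = c * (R a b k l * L a b * M k l) := by
          intro a b k l
          ring
        simp only [e1, ← Finset.mul_sum]
        ring))
    (fun L M => K1b_symm h L M)
  have hb : ∀ i M, Skew M → K1b R (E i) M = r i * ip (E i) M := fun i M hM => h4 i M hM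
  have hsuml : ∀ (c : Fin m → ℝ) (M : Mat n), K1b R (∑ i, c i • E i) M =
      ∑ i, c i * K1b R (E i) M := by
    intro c M
    unfold K1b
    simp only [Matrix.sum_apply, Matrix.smul_apply, smul_eq_mul]
    simp only [Finset.mul_sum, Finset.sum_mul]
    rw [K1_swap]
    refine Finset.sum_congr rfl fun a _ => Finset.sum_congr rfl fun b _ =>
      Finset.sum_congr rfl fun c' _ => Finset.sum_congr rfl fun d _ =>
      Finset.sum_congr rfl fun i _ => ?_
    ring
  have hR : ∀ a b c d, R a b c d = ∑ i, r i * E i a b * E i c d := by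
    intro a b c d
    rw [← K1b_e h a b c d]
    conv_lhs => rw [h3 _ (K1_skew_e a b)]
    rw [hsuml]
    refine Finset.sum_congr rfl fun i _ => ?_
    rw [hb i _ (K1_skew_e c d), K1_ip_e (h1 i), K1_ip_e (h1 i)]
    ring
  have hcurv : ∀ i, curvOp R (E i) = r i := by
    intro i
    have e1 : curvOp R (E i) = K1b R (E i) (E i) := rfl
    rw [e1, hb i _ (h1 i), h2, if_pos rfl, mul_one]
  have hfour : ∀ f : Mat n → ℝ, Four f → ∑ i, r i * f (E i) = 0 := by
    intro f hf
    obtain ⟨t, ht, hft⟩ := hf
    have e1 : ∀ i, r i * f (E i) =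
        ∑ a, ∑ b, ∑ c, ∑ d, r i * (t a b c d * E i a b * E i c d) := by
      intro i
      rw [hft _ (h1 i)]
      simp only [Finset.mul_sum]
    simp only [e1]
    rw [K1_swap, ← K1_bianchi h ht]
    refine Finset.sum_congr rfl fun a _ => Finset.sum_congr rfl fun b _ =>
      Finset.sum_congr rfl fun c _ => Finset.sum_congr rfl fun d _ => ?_
    rw [hR a b c d, Finset.mul_sum]
    refine Finset.sum_congr rfl fun i _ => ?_
    ring
  refine ⟨m, fun i => E i.rev, fun i => r i.rev, K1_card E h1 h2 h3, fun i => h1 _, ?_, ?_, ?_,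
    ?_, fun i => hcurv _, ?_⟩
  · intro i j
    rw [h2]
    simp only [Fin.rev_inj]
  · intro L hL
    have e1 := Equiv.sum_comp (Fin.revPerm (n := m)) fun i => ip (E i) L • E i
    simp only [Fin.revPerm_apply] at e1
    rw [e1]
    exact h3 L hL
  · intro i j hij
    exact h5 (Fin.rev_le_rev.2 hij)
  · intro a b c d
    have e1 := Equiv.sum_comp (Fin.revPerm (n := m)) fun i => r i * E i a b * E i c d
    simp only [Fin.revPerm_apply] at e1
    rw [e1]
    exact hR a b c d
  · intro f hf
    have e1 := Equiv.sum_comp (Fin.revPerm (n := m)) fun i => r i * f (E i)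
    simp only [Fin.revPerm_apply] at e1
    rw [e1]
    exact hfour f hf

/-- sums over orthonormal bases of 2-forms: every 4-form has trace 0 -/
theorem four_trace {n m : ℕ} (E : Fin m → Mat n) (hs : ∀ i, Skew (E i))
    (ho : ∀ i j, ip (E i) (E j) = if i = j then 1 else 0)
    (hc : ∀ L, Skew L → L = ∑ i, ip (E i) L • E i) (f : Mat n → ℝ) (hf : Four f) :
    ∑ i, f (E i) = 0 := by
  obtain ⟨t, ⟨t1, t2, t3⟩, hft⟩ := hf
  have e1 : ∀ i, f (E i) = ∑ a, ∑ b, ∑ c, ∑ d, t a b c d * E i a b * E i c d := fun i =>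
    hft _ (hs i)
  simp only [e1]
  rw [K1_swap]
  refine Finset.sum_eq_zero fun a _ => Finset.sum_eq_zero fun b _ =>
    Finset.sum_eq_zero fun c _ => Finset.sum_eq_zero fun d _ => ?_
  have e2 : ∑ i, t a b c d * E i a b * E i c d = t a b c d * ∑ i, E i a b * E i c d := by
    rw [Finset.mul_sum]
    refine Finset.sum_congr rfl fun i _ => ?_
    ring
  rw [e2, K1_complete E hs hc]
  have hz : ∀ x y : Fin n, t x x y y = 0 := by
    intro x y
    have := t1 x x y y
    linarith
  have hz1 : ∀ x y : Fin n, t x y x y = 0 := by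
    intro x y
    have e3 := t2 x x y y
    rw [e3, hz, neg_zero]
  have hz2 : ∀ x y : Fin n, t x y y x = 0 := by
    intro x y
    have e3 := t3 x y x y
    rw [e3, hz1, neg_zero]
  by_cases h1 : c = a
  · by_cases h2 : d = b
    · rw [h1, h2, hz1, zero_mul]
    · by_cases h3 : d = a
      · by_cases h4 : c = b
        · rw [h3, h4, hz2, zero_mul]
        · rw [if_neg h2, if_neg h4]
          ring
      · rw [if_neg h2, if_neg h3]
        ring
  · by_cases h3 : d = a
    · by_cases h4 : c = b
      · rw [h3, h4, hz2, zero_mul]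
      · rw [if_neg h1, if_neg h4]
        ring
    · rw [if_neg h1, if_neg h3]
      ring

end HopfBig
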