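import Pool.Agent.Lib.MP_4a593f_gt.Big.G1

/-! Task G3: `rho` is a representation by skew operators preserving degrees. -/

open scoped BigOperators

namespace HopfBig

variable {n : ℕ}

theorem rho_apply (L : Mat n) (f : Fk n) :
    rho L f = ∑ a, ∑ b, L a b • cr a (an b f) := by
  show (∑ a, ∑ b, L a b • (cr a ∘ₗ an b)) f = _
  simp only [LinearMap.sum_apply, LinearMap.smul_apply, LinearMap.comp_apply]

theorem rho_skew {L : Mat n} (hL : Skew L) (f g : Fk n) :
    inner ℝ (rho L f) g = -inner ℝ f (rho L g) := by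
  rw [rho_apply, rho_apply]
  simp only [sum_inner, inner_sum, real_inner_smul_left, real_inner_smul_right]
  rw [Finset.sum_comm, ← Finset.sum_neg_distrib]
  refine Finset.sum_congr rfl fun a _ => ?_
  rw [← Finset.sum_neg_distrib]
  refine Finset.sum_congr rfl fun b _ => ?_
  rw [inner_cr, inner_an, hL a b]
  ring

/-- the normally ordered part -/
private noncomputable def G3_S (L M : Mat n) (f : Fk n) : Fk n :=
  ∑ a, ∑ b, ∑ c, ∑ d, (L a b * M c d) • cr a (cr c (an b (an d f)))

private theorem G3_S_comm (L M : Mat n) (f : Fk n) : G3_S L M f = G3_S M L f := by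
  unfold G3_S
  have h1 : ∑ a, ∑ b, ∑ c, ∑ d, (M a b * L c d) • cr a (cr c (an b (an d f))) =
      ∑ c, ∑ d, ∑ a, ∑ b, (M a b * L c d) • cr a (cr c (an b (an d f))) := by
    calc ∑ a, ∑ b, ∑ c, ∑ d, (M a b * L c d) • cr a (cr c (an b (an d f)))
        = ∑ a, ∑ c, ∑ b, ∑ d, (M a b * L c d) • cr a (cr c (an b (an d f))) :=
          Finset.sum_congr rfl fun a _ => Finset.sum_comm
      _ = ∑ a, ∑ c, ∑ d, ∑ b, (M a b * L c d) • cr a (cr c (an b (an d f))) :=
          Finset.sum_congr rfl fun a _ => Finset.sum_congr rfl fun c _ => Finset.sum_comm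
      _ = ∑ c, ∑ a, ∑ d, ∑ b, (M a b * L c d) • cr a (cr c (an b (an d f))) := Finset.sum_comm
      _ = ∑ c, ∑ d, ∑ a, ∑ b, (M a b * L c d) • cr a (cr c (an b (an d f))) :=
          Finset.sum_congr rfl fun c _ => Finset.sum_comm
  rw [h1]
  refine Finset.sum_congr rfl fun a _ => Finset.sum_congr rfl fun b _ =>
    Finset.sum_congr rfl fun c _ => Finset.sum_congr rfl fun d _ => ?_
  rw [cr_cr c a, an_an d b, map_neg, map_neg, neg_neg, mul_comm]

private theorem G3_comp (L M : Mat n) (f : Fk n) :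
    rho L (rho M f) = rho (L * M) f - G3_S L M f := by
  have h1 : rho L (rho M f) =
      ∑ a, ∑ b, ∑ c, ∑ d, (L a b * M c d) • cr a (an b (cr c (an d f))) := by
    rw [rho_apply L, rho_apply M]
    refine Finset.sum_congr rfl fun a _ => Finset.sum_congr rfl fun b _ => ?_
    simp only [map_sum, map_smul, Finset.smul_sum, smul_smul]
  have h2 : ∀ a b c d, cr a (an b (cr c (an d f))) =
      (if b = c then cr a (an d f) else 0) - cr a (cr c (an b (an d f))) := by
    intro a b c d
    rw [an_cr, map_sub]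
    split_ifs
    · rfl
    · rw [map_zero]
  rw [h1]
  simp only [h2, smul_sub, Finset.sum_sub_distrib]
  have h3 : ∑ a, ∑ b, ∑ c, ∑ d, (L a b * M c d) • (if b = c then cr a (an d f) else 0) =
      rho (L * M) f := by
    rw [rho_apply]
    refine Finset.sum_congr rfl fun a _ => ?_
    have h4 : ∀ b, ∑ c, ∑ d, (L a b * M c d) • (if b = c then cr a (an d f) else 0) =
        ∑ d, (L a b * M b d) • cr a (an d f) := by
      intro b
      rw [Finset.sum_eq_single b]
      · simp only [if_true]
      · intro c _ hc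
        refine Finset.sum_eq_zero fun d _ => ?_
        rw [if_neg (Ne.symm hc), smul_zero]
      · intro h
        exact absurd (Finset.mem_univ b) h
    simp only [h4]
    rw [Finset.sum_comm]
    refine Finset.sum_congr rfl fun d _ => ?_
    rw [← Finset.sum_smul, Matrix.mul_apply]
  rw [h3]
  rfl

/-- `[dΓ(L), dΓ(M)] = dΓ([L,M])`, for all matrices -/
theorem rho_lie (L M : Mat n) (f : Fk n) :
    rho L (rho M f) - rho M (rho L f) = rho (br L M) f := by
  rw [G3_comp L M, G3_comp M L, G3_S_comm L M]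
  unfold br
  rw [map_sub, LinearMap.sub_apply]
  abel

theorem Deg.rho {p : ℕ} {f : Fk n} (h : Deg p f) (L : Mat n) : Deg p (HopfBig.rho L f) := by
  have hadd : ∀ f g : Fk n, Deg p f → Deg p g → Deg p (f + g) := by
    intro f g hf hg s hs
    rw [PiLp.add_apply, hf s hs, hg s hs, add_zero]
  have hzero : Deg p (0 : Fk n) := fun s _ => rfl
  have hsmul : ∀ (r : ℝ) (f : Fk n), Deg p f → Deg p (r • f) := by
    intro r f hf s hs
    rw [PiLp.smul_apply, hf s hs, smul_zero]
  rw [rho_apply]
  refine Finset.sum_induction _ (Deg p) hadd hzero fun a _ => ?_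
  refine Finset.sum_induction _ (Deg p) hadd hzero fun b _ => ?_
  apply hsmul
  cases p with
  | zero =>
    rw [h.an_zero b, map_zero]
    exact hzero
  | succ q => exact (h.an b).cr a

theorem pr_apply (p : ℕ) (f : Fk n) (s : Finset (Fin n)) :
    pr p f s = if s.card = p then f s else 0 := rfl

theorem deg_pr (p : ℕ) (f : Fk n) : Deg p (pr p f) := by
  intro s hs
  rw [pr_apply, if_neg hs]

theorem pr_of_deg {p : ℕ} {f : Fk n} (h : Deg p f) : pr p f = f := by
  ext s
  rw [pr_apply]
  split_ifs with hs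
  · rfl
  · rw [h s hs]

private theorem G3_pr_cr_an (p : ℕ) (a b : Fin n) (f : Fk n) :
    pr p (cr a (an b f)) = cr a (an b (pr p f)) := by
  ext s
  rw [pr_apply, cr_apply, cr_apply, an_apply, an_apply, pr_apply]
  by_cases ha : a ∈ s
  · rw [if_pos ha, if_pos ha]
    by_cases hb : b ∈ s.erase a
    · rw [if_pos hb, if_pos hb, mul_zero, ite_self]
    · rw [if_neg hb, if_neg hb]
      have hc : (insert b (s.erase a)).card = s.card := by
        rw [Finset.card_insert_of_notMem hb, Finset.card_erase_add_one ha]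
      rw [hc]
      split_ifs
      · rfl
      · rw [mul_zero, mul_zero]
  · rw [if_neg ha, if_neg ha, ite_self]

theorem pr_rho (p : ℕ) (L : Mat n) (f : Fk n) : pr p (rho L f) = rho L (pr p f) := by
  rw [rho_apply, rho_apply]
  simp only [map_sum, map_smul, G3_pr_cr_an]

theorem inner_pr (p : ℕ) (f g : Fk n) : inner ℝ (pr p f) g = inner ℝ f (pr p g) := by
  rw [PiLp.inner_apply, PiLp.inner_apply]
  refine Finset.sum_congr rfl fun s _ => ?_
  rw [pr_apply, pr_apply]
  split_ifs
  · rfl
  · rw [inner_zero_left, inner_zero_right]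

theorem norm_pr_le (p : ℕ) (f : Fk n) : ‖pr p f‖ ≤ ‖f‖ := by
  have h1 : ‖pr p f‖ * ‖pr p f‖ ≤ ‖f‖ * ‖pr p f‖ := by
    rw [← real_inner_self_eq_norm_mul_norm, inner_pr, pr_of_deg (deg_pr p f)]
    exact real_inner_le_norm _ _
  rcases (norm_nonneg (pr p f)).eq_or_lt with h0 | h0
  · rw [← h0]
    exact norm_nonneg _
  · exact le_of_mul_le_mul_right h1 h0

end HopfBig
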