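import Pool.Agent.Lib.MP_4a593f_gt.Big.K0
import Pool.Agent.Lib.MP_4a593f_gt.Big.G3

/-! Task K2: the Weitzenböck term in Fock space.

`ρ_{ab} = cr a an b - cr b an a`.  For a curvature tensor
`(1/4) ∑ R_abcd ⟨ρ_ab ψ, ρ_cd ψ⟩ = ∑ R_abcd ⟨cr a an b ψ, cr c an d ψ⟩`
`= ∑ Ric_bd ⟨an b ψ, an d ψ⟩ - ∑ R_abcd g(b,c,a,d)`, `g(a,b,c,d) = ⟨an b an a ψ, an c an d ψ⟩`, and by
antisymmetry in `b, c` and Bianchi `∑ R_abcd g(b,c,a,d) = -(1/2) ∑ R_abcd g(a,b,c,d)
 = (1/2) ∑ R_abcd ⟨an b an a ψ, an d an c ψ⟩`. -/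

open scoped BigOperators

namespace HopfBig

variable {n : ℕ}

/-- the 2-form `e_a ∧ e_b` -/
def eab (a b : Fin n) : Mat n := wd (Pi.single a 1) (Pi.single b 1)

namespace K2aux

/-- 4-fold sums -/
noncomputable def S4 (f : Fin n → Fin n → Fin n → Fin n → ℝ) : ℝ :=
  ∑ a, ∑ b, ∑ c, ∑ d, f a b c d

theorem S4_12 (f : Fin n → Fin n → Fin n → Fin n → ℝ) :
    S4 (fun a b c d => f b a c d) = S4 f := by
  unfold S4
  exact Finset.sum_comm

theorem S4_23 (f : Fin n → Fin n → Fin n → Fin n → ℝ) :
    S4 (fun a b c d => f a c b d) = S4 f := by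
  unfold S4
  exact Finset.sum_congr rfl fun a _ => Finset.sum_comm

theorem S4_34 (f : Fin n → Fin n → Fin n → Fin n → ℝ) :
    S4 (fun a b c d => f a b d c) = S4 f := by
  unfold S4
  exact Finset.sum_congr rfl fun a _ => Finset.sum_congr rfl fun b _ => Finset.sum_comm

theorem S4_add (f g : Fin n → Fin n → Fin n → Fin n → ℝ) :
    S4 (fun a b c d => f a b c d + g a b c d) = S4 f + S4 g := by
  unfold S4
  simp only [Finset.sum_add_distrib]

theorem S4_sub (f g : Fin n → Fin n → Fin n → Fin n → ℝ) :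
    S4 (fun a b c d => f a b c d - g a b c d) = S4 f - S4 g := by
  unfold S4
  simp only [Finset.sum_sub_distrib]

theorem S4_neg (f : Fin n → Fin n → Fin n → Fin n → ℝ) :
    S4 (fun a b c d => -f a b c d) = -S4 f := by
  unfold S4
  simp only [Finset.sum_neg_distrib]

theorem S4_congr {f g : Fin n → Fin n → Fin n → Fin n → ℝ} (h : ∀ a b c d, f a b c d = g a b c d) :
    S4 f = S4 g := by
  have : f = g := by funext a b c d; exact h a b c d
  rw [this]

/-- `K(a,b;c,d)` -/
noncomputable def K (ψ : Fk n) (a b c d : Fin n) : ℝ :=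
  inner ℝ (an b (an a ψ)) (an d (an c ψ))

noncomputable def N (ψ : Fk n) (a b : Fin n) : ℝ := inner ℝ (an a ψ) (an b ψ)

theorem K_swap1 (ψ : Fk n) (a b c d : Fin n) : K ψ b a c d = -K ψ a b c d := by
  unfold K
  rw [an_an a b, inner_neg_left]

theorem K_swap2 (ψ : Fk n) (a b c d : Fin n) : K ψ a b d c = -K ψ a b c d := by
  unfold K
  rw [an_an c d, inner_neg_right]

theorem K_pair (ψ : Fk n) (a b c d : Fin n) : K ψ c d a b = K ψ a b c d := by
  unfold K
  rw [real_inner_comm]

theorem inner_ca (ψ : Fk n) (a b c d : Fin n) :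
    inner ℝ (cr a (an b ψ)) (cr c (an d ψ)) =
      (if a = c then N ψ b d else 0) + K ψ a d b c := by
  rw [inner_cr, an_cr, inner_sub_right, ← inner_an]
  have h1 : K ψ a d b c = -inner ℝ (an c (an b ψ)) (an a (an d ψ)) := by
    unfold K
    rw [an_an d a, inner_neg_left, real_inner_comm]
  rw [h1]
  split_ifs with h
  · unfold N; ring
  · rw [inner_zero_right]; ring

theorem eab_apply (a b i j : Fin n) :
    eab a b i j = (if a = i then (if b = j then (1 : ℝ) else 0) else 0) -
      (if a = j then (if b = i then (1 : ℝ) else 0) else 0) := by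
  unfold eab wd
  simp only [Matrix.of_apply, Pi.single_apply]
  simp only [@eq_comm _ i a, @eq_comm _ j b, @eq_comm _ j a, @eq_comm _ i b]
  split_ifs <;> simp

theorem rho_eab (a b : Fin n) (f : Fk n) :
    rho (eab a b) f = cr a (an b f) - cr b (an a f) := by
  rw [rho_apply]
  simp only [eab_apply, sub_smul, Finset.sum_sub_distrib]
  congr 1
  · rw [Finset.sum_eq_single a]
    · rw [Finset.sum_eq_single b]
      · simp
      · intro j _ hj; simp [Ne.symm hj]
      · intro hb; exact absurd (Finset.mem_univ b) hb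
    · intro i _ hi
      apply Finset.sum_eq_zero
      intro j _
      simp [Ne.symm hi]
    · intro ha; exact absurd (Finset.mem_univ a) ha
  · rw [Finset.sum_eq_single b]
    · rw [Finset.sum_eq_single a]
      · simp
      · intro j _ hj; simp [Ne.symm hj]
      · intro hb; exact absurd (Finset.mem_univ a) hb
    · intro i _ hi
      apply Finset.sum_eq_zero
      intro j _
      simp [Ne.symm hi]
    · intro ha; exact absurd (Finset.mem_univ b) ha

theorem rho_skew_expand {L : Mat n} (hL : Skew L) (f : Fk n) :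
    rho L f = (1 / 2 : ℝ) • ∑ a, ∑ b, L a b • rho (eab a b) f := by
  simp only [rho_eab, smul_sub, Finset.sum_sub_distrib]
  have h1 : ∑ a, ∑ b, L a b • cr b (an a f) = -∑ a, ∑ b, L a b • cr a (an b f) := by
    rw [Finset.sum_comm, ← Finset.sum_neg_distrib]
    refine Finset.sum_congr rfl fun a _ => ?_
    rw [← Finset.sum_neg_distrib]
    refine Finset.sum_congr rfl fun b _ => ?_
    rw [hL a b, neg_smul]
  rw [h1, rho_apply, ← smul_sub, sub_neg_eq_add, ← two_smul ℝ, smul_smul]
  norm_num

theorem inner_dsum (L : Mat n) (x : Fin n → Fin n → Fk n) :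
    inner ℝ (∑ a, ∑ b, L a b • x a b) (∑ a, ∑ b, L a b • x a b) =
      S4 (fun a b c d => L a b * L c d * inner ℝ (x a b) (x c d)) := by
  unfold S4
  simp only [sum_inner, real_inner_smul_left]
  simp only [inner_sum, real_inner_smul_right]
  refine Finset.sum_congr rfl fun a _ => Finset.sum_congr rfl fun b _ => ?_
  rw [Finset.mul_sum]
  refine Finset.sum_congr rfl fun c _ => ?_
  rw [Finset.mul_sum]
  refine Finset.sum_congr rfl fun d _ => ?_
  ring

end K2aux

open K2aux

theorem weitz_fock {R : Fin n → Fin n → Fin n → Fin n → ℝ} (h : IsCurvature R) (ψ : Fk n) :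
    (1 / 4) * ∑ a, ∑ b, ∑ c, ∑ d, R a b c d * inner ℝ (rho (eab a b) ψ) (rho (eab c d) ψ) =
      (∑ i, ∑ j, ricci R i j * inner ℝ (an i ψ) (an j ψ)) -
        (1 / 2) * ∑ i, ∑ j, ∑ k, ∑ l, R i j k l *
          inner ℝ (an j (an i ψ)) (an l (an k ψ)) := by
  classical
  obtain ⟨h1, h2, h3⟩ := h
  set x : Fin n → Fin n → Fk n := fun a b => cr a (an b ψ) with hx
  have e0 : ∑ a, ∑ b, ∑ c, ∑ d, R a b c d * inner ℝ (rho (eab a b) ψ) (rho (eab c d) ψ) =
      S4 (fun a b c d => R a b c d * inner ℝ (x a b) (x c d)) -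
      S4 (fun a b c d => R a b c d * inner ℝ (x a b) (x d c)) -
      S4 (fun a b c d => R a b c d * inner ℝ (x b a) (x c d)) +
      S4 (fun a b c d => R a b c d * inner ℝ (x b a) (x d c)) := by
    rw [← S4_sub, ← S4_sub, ← S4_add]
    apply S4_congr
    intro a b c d
    rw [rho_eab, rho_eab]
    simp only [inner_sub_left, inner_sub_right, hx]
    ring
  have e1 : S4 (fun a b c d => R a b c d * inner ℝ (x a b) (x d c)) =
      -S4 (fun a b c d => R a b c d * inner ℝ (x a b) (x c d)) := by
    rw [← S4_neg, ← S4_34]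
    apply S4_congr
    intro a b c d
    rw [h2 a b c d]; ring
  have e2 : S4 (fun a b c d => R a b c d * inner ℝ (x b a) (x c d)) =
      -S4 (fun a b c d => R a b c d * inner ℝ (x a b) (x c d)) := by
    rw [← S4_neg, ← S4_12]
    apply S4_congr
    intro a b c d
    rw [h1 a b c d]; ring
  have e3 : S4 (fun a b c d => R a b c d * inner ℝ (x b a) (x d c)) =
      -S4 (fun a b c d => R a b c d * inner ℝ (x a b) (x d c)) := by
    rw [← S4_neg, ← S4_12]
    apply S4_congr
    intro a b c d
    rw [h1 a b c d]; ring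
  have e4 : S4 (fun a b c d => R a b c d * inner ℝ (x a b) (x c d)) =
      S4 (fun a b c d => R a b c d * (if a = c then N ψ b d else 0)) +
      S4 (fun a b c d => R a b c d * K ψ a d b c) := by
    rw [← S4_add]
    apply S4_congr
    intro a b c d
    rw [hx, inner_ca]; ring
  have e5 : S4 (fun a b c d => R a b c d * (if a = c then N ψ b d else 0)) =
      ∑ i, ∑ j, ricci R i j * inner ℝ (an i ψ) (an j ψ) := by
    rw [← S4_12]
    unfold S4
    refine Finset.sum_congr rfl fun b _ => ?_
    -- ∑ a, ∑ c, ∑ d, R a b c d * ite = ∑ d, ricci b d * N b d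
    have : ∀ a, ∑ c, ∑ d, R a b c d * (if a = c then N ψ b d else 0) =
        ∑ d, R b a d a * N ψ b d := by
      intro a
      rw [Finset.sum_eq_single a]
      · refine Finset.sum_congr rfl fun d _ => ?_
        rw [if_pos rfl, h1 b a a d, h2 b a d a]; ring
      · intro c _ hc
        apply Finset.sum_eq_zero
        intro d _
        rw [if_neg (Ne.symm hc), mul_zero]
      · intro ha; exact absurd (Finset.mem_univ a) ha
    simp only [this]
    rw [Finset.sum_comm]
    refine Finset.sum_congr rfl fun d _ => ?_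
    unfold ricci N
    rw [Finset.sum_mul]
  -- Bianchi
  have e6 : S4 (fun a b c d => R a b c d * K ψ a d b c) =
      -(1 / 2) * S4 (fun a b c d => R a b c d * K ψ a b c d) := by
    have b0 : S4 (fun a b c d => R a b c d * K ψ b c a d) +
        S4 (fun a b c d => R b c a d * K ψ b c a d) +
        S4 (fun a b c d => R c a b d * K ψ b c a d) = 0 := by
      rw [← S4_add, ← S4_add]
      have : S4 (fun _ _ _ _ : Fin n => (0 : ℝ)) = 0 := by
        unfold S4; simp
      rw [← this]
      apply S4_congr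
      intro a b c d
      rw [← add_mul, ← add_mul, h3 a b c d, zero_mul]
    have b1 : S4 (fun a b c d => R b c a d * K ψ b c a d) =
        S4 (fun a b c d => R a b c d * K ψ a b c d) :=
      (S4_12 (fun a b c d => R a c b d * K ψ a c b d)).trans
        (S4_23 (fun a b c d => R a b c d * K ψ a b c d))
    have b2 : S4 (fun a b c d => R c a b d * K ψ b c a d) =
        S4 (fun a b c d => R a b c d * K ψ b c a d) := by
      have c1 : S4 (fun a b c d => R c a b d * K ψ b c a d) =
          S4 (fun a b c d => R a b c d * K ψ c a b d) :=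
        (S4_23 (fun a b c d => R b a c d * K ψ c b a d)).trans
          (S4_12 (fun a b c d => R a b c d * K ψ c a b d))
      rw [c1, ← S4_12 (fun a b c d => R a b c d * K ψ c a b d)]
      apply S4_congr
      intro a b c d
      rw [h1 a b c d, K_swap1 ψ b c a d]; ring
    have b3 : S4 (fun a b c d => R a b c d * K ψ a d b c) =
        S4 (fun a b c d => R a b c d * K ψ b c a d) := by
      apply S4_congr
      intro a b c d
      rw [K_pair ψ b c a d]
    rw [b3]
    rw [b1, b2] at b0
    linarith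
  have e7 : ∑ i, ∑ j, ∑ k, ∑ l, R i j k l * inner ℝ (an j (an i ψ)) (an l (an k ψ)) =
      S4 (fun a b c d => R a b c d * K ψ a b c d) := rfl
  rw [e0, e3, e1, e2, e4, e5, e6, e7]
  ring

/-- the spectral form -/
theorem weitz_spectral {R : Fin n → Fin n → Fin n → Fin n → ℝ} {m : ℕ} (E : Fin m → Mat n)
    (r : Fin m → ℝ) (hE : ∀ i, Skew (E i))
    (hR : ∀ a b c d, R a b c d = ∑ i, r i * E i a b * E i c d) (ψ : Fk n) :
    (1 / 4) * ∑ a, ∑ b, ∑ c, ∑ d, R a b c d * inner ℝ (rho (eab a b) ψ) (rho (eab c d) ψ) =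
      ∑ i, r i * inner ℝ (rho (E i) ψ) (rho (E i) ψ) := by
  have e1 : ∀ i, inner ℝ (rho (E i) ψ) (rho (E i) ψ) = (1 / 4) *
      S4 (fun a b c d => E i a b * E i c d *
        inner ℝ (rho (eab a b) ψ) (rho (eab c d) ψ)) := by
    intro i
    rw [rho_skew_expand (hE i), real_inner_smul_left, real_inner_smul_right,
      inner_dsum (E i) (fun a b => rho (eab a b) ψ)]
    ring
  have e2 : ∑ a, ∑ b, ∑ c, ∑ d, R a b c d * inner ℝ (rho (eab a b) ψ) (rho (eab c d) ψ) =
      ∑ i, r i * S4 (fun a b c d => E i a b * E i c d *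
        inner ℝ (rho (eab a b) ψ) (rho (eab c d) ψ)) := by
    unfold S4
    simp only [hR, Finset.mul_sum, Finset.sum_mul]
    -- move the sum over i outside
    have g1 : ∀ a b c : Fin n, ∑ d, ∑ i, r i * E i a b * E i c d *
        inner ℝ (rho (eab a b) ψ) (rho (eab c d) ψ) =
        ∑ i, ∑ d, r i * (E i a b * E i c d *
          inner ℝ (rho (eab a b) ψ) (rho (eab c d) ψ)) := by
      intro a b c
      rw [Finset.sum_comm]
      refine Finset.sum_congr rfl fun i _ => Finset.sum_congr rfl fun d _ => ?_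
      ring
    simp only [g1]
    have g2 : ∀ a b : Fin n, ∑ c, ∑ i, ∑ d, r i * (E i a b * E i c d *
        inner ℝ (rho (eab a b) ψ) (rho (eab c d) ψ)) =
        ∑ i, ∑ c, ∑ d, r i * (E i a b * E i c d *
          inner ℝ (rho (eab a b) ψ) (rho (eab c d) ψ)) := by
      intro a b; rw [Finset.sum_comm]
    simp only [g2]
    have g3 : ∀ a : Fin n, ∑ b, ∑ i, ∑ c, ∑ d, r i * (E i a b * E i c d *
        inner ℝ (rho (eab a b) ψ) (rho (eab c d) ψ)) =
        ∑ i, ∑ b, ∑ c, ∑ d, r i * (E i a b * E i c d *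
          inner ℝ (rho (eab a b) ψ) (rho (eab c d) ψ)) := by
      intro a; rw [Finset.sum_comm]
    simp only [g3]
    rw [Finset.sum_comm]
  rw [e2, Finset.mul_sum]
  refine Finset.sum_congr rfl fun i _ => ?_
  rw [e1]; ring

/-- the trace of `D` on `p`-forms: `∑ ‖ρ_{E_i} ψ‖² = p (n-p) ‖ψ‖²` for an orthonormal basis -/
theorem trace_D {p m : ℕ} (E : Fin m → Mat n) (hs : ∀ i, Skew (E i))
    (ho : ∀ i j, ip (E i) (E j) = if i = j then 1 else 0)
    (hc : ∀ L, Skew L → L = ∑ i, ip (E i) L • E i) {ψ : Fk n} (hd : Deg p ψ) :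
    ∑ i, ‖rho (E i) ψ‖ ^ 2 = p * (n - p) * ‖ψ‖ ^ 2 := by
  classical
  set R : Fin n → Fin n → Fin n → Fin n → ℝ := fun a b c d =>
    (if a = c then (if b = d then (1 : ℝ) else 0) else 0) -
      (if a = d then (if b = c then (1 : ℝ) else 0) else 0) with hRdef
  have hip : ∀ (i : Fin m) (c d : Fin n), ip (E i) (eab c d) = E i c d := by
    intro i c d
    unfold eab
    rw [ip_wd (hs i)]
    rw [Finset.sum_eq_single c]
    · rw [Pi.single_eq_same, one_mul, Matrix.mulVec_single_one]
      rfl
    · intro j _ hj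
      rw [Pi.single_eq_of_ne hj, zero_mul]
    · intro hcc; exact absurd (Finset.mem_univ c) hcc
  have hR : ∀ a b c d, R a b c d = ∑ i, (1 : ℝ) * E i a b * E i c d := by
    intro a b c d
    have h1 := hc (eab a b) (Skew.wd _ _)
    have h2 := congrFun (congrFun h1 c) d
    rw [eab_apply] at h2
    simp only [hRdef]
    rw [h2, Matrix.sum_apply]
    refine Finset.sum_congr rfl fun i _ => ?_
    rw [Matrix.smul_apply, hip, smul_eq_mul, one_mul]
  have hcurv : IsCurvature R := by
    refine ⟨?_, ?_, ?_⟩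
    · intro i j k l
      rw [hR, hR, ← Finset.sum_neg_distrib]
      refine Finset.sum_congr rfl fun s _ => ?_
      rw [hs s i j]; ring
    · intro i j k l
      rw [hR, hR, ← Finset.sum_neg_distrib]
      refine Finset.sum_congr rfl fun s _ => ?_
      rw [hs s k l]; ring
    · intro i j k l
      have hδ : ∀ a b c d : Fin n, R a b c d =
          (if a = c then (1 : ℝ) else 0) * (if b = d then (1 : ℝ) else 0) -
          (if a = d then (1 : ℝ) else 0) * (if b = c then (1 : ℝ) else 0) := by
        intro a b c d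
        simp only [hRdef]
        split_ifs <;> simp
      have hsy : ∀ a b : Fin n, (if a = b then (1 : ℝ) else 0) = if b = a then 1 else 0 := by
        intro a b
        simp only [@eq_comm _ a b]
      rw [hδ, hδ, hδ, hsy k i, hsy j i, hsy k j]
      ring
  have h1 := weitz_spectral E (fun _ => (1 : ℝ)) hs hR ψ
  rw [weitz_fock hcurv ψ] at h1
  have h2 : ∑ i, (1 : ℝ) * inner ℝ (rho (E i) ψ) (rho (E i) ψ) =
      ∑ i, ‖rho (E i) ψ‖ ^ 2 := by
    refine Finset.sum_congr rfl fun i _ => ?_
    rw [one_mul, real_inner_self_eq_norm_sq]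
  rw [← h2, ← h1]
  have h3 : ∀ i j, ricci R i j = if i = j then ((n : ℝ) - 1) else 0 := by
    intro i j
    unfold ricci
    simp only [hRdef, if_true]
    rw [Finset.sum_sub_distrib]
    by_cases hij : i = j
    · subst hij
      simp only [if_true, Finset.sum_const, Finset.card_univ, Fintype.card_fin, nsmul_eq_mul,
        mul_one]
      rw [Finset.sum_eq_single i]
      · simp
      · intro b _ hb; simp [Ne.symm hb]
      · intro hi; exact absurd (Finset.mem_univ i) hi
    · simp only [hij, if_false, Finset.sum_const_zero]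
      rw [Finset.sum_eq_single i]
      · simp [hij]
      · intro b _ hb; simp [Ne.symm hb]
      · intro hi; exact absurd (Finset.mem_univ i) hi
  have h4 : ∑ i, ∑ j, ricci R i j * inner ℝ (an i ψ) (an j ψ) =
      ((n : ℝ) - 1) * (p * ‖ψ‖ ^ 2) := by
    rw [← sum_norm_an hd, Finset.mul_sum]
    refine Finset.sum_congr rfl fun i _ => ?_
    rw [Finset.sum_eq_single i]
    · rw [h3, if_pos rfl, real_inner_self_eq_norm_sq]
    · intro j _ hj
      rw [h3, if_neg (Ne.symm hj), zero_mul]
    · intro hi; exact absurd (Finset.mem_univ i) hi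
  have h5 : ∑ i, ∑ j, ∑ k, ∑ l, R i j k l * inner ℝ (an j (an i ψ)) (an l (an k ψ)) =
      2 * ∑ i, ∑ j, ‖an j (an i ψ)‖ ^ 2 := by
    rw [Finset.mul_sum]
    refine Finset.sum_congr rfl fun i _ => ?_
    rw [Finset.mul_sum]
    refine Finset.sum_congr rfl fun j _ => ?_
    simp only [hRdef, sub_mul, Finset.sum_sub_distrib]
    have g1 : ∑ k, ∑ l, (if i = k then (if j = l then (1 : ℝ) else 0) else 0) *
        inner ℝ (an j (an i ψ)) (an l (an k ψ)) = ‖an j (an i ψ)‖ ^ 2 := by
      rw [Finset.sum_eq_single i]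
      · rw [Finset.sum_eq_single j]
        · simp [real_inner_self_eq_norm_sq]
        · intro l _ hl; simp [Ne.symm hl]
        · intro hj; exact absurd (Finset.mem_univ j) hj
      · intro k _ hk
        apply Finset.sum_eq_zero
        intro l _
        simp [Ne.symm hk]
      · intro hi; exact absurd (Finset.mem_univ i) hi
    have g2 : ∑ k, ∑ l, (if i = l then (if j = k then (1 : ℝ) else 0) else 0) *
        inner ℝ (an j (an i ψ)) (an l (an k ψ)) = -‖an j (an i ψ)‖ ^ 2 := by
      rw [Finset.sum_eq_single j]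
      · rw [Finset.sum_eq_single i]
        · rw [an_an i j, inner_neg_right, real_inner_self_eq_norm_sq]
          simp
        · intro l _ hl; simp [Ne.symm hl]
        · intro hj; exact absurd (Finset.mem_univ i) hj
      · intro k _ hk
        apply Finset.sum_eq_zero
        intro l _
        simp [Ne.symm hk]
      · intro hi; exact absurd (Finset.mem_univ j) hi
    rw [g1, g2]; ring
  have h6 : ∑ i, ∑ j, ‖an j (an i ψ)‖ ^ 2 = (p : ℝ) * ((p : ℝ) - 1) * ‖ψ‖ ^ 2 := by
    rcases p with _ | q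
    · have : ∀ i, an i ψ = 0 := fun i => Deg.an_zero hd i
      simp [this]
    · have : ∀ i, ∑ j, ‖an j (an i ψ)‖ ^ 2 = q * ‖an i ψ‖ ^ 2 := fun i =>
        sum_norm_an (Deg.an hd i)
      simp only [this]
      rw [← Finset.mul_sum, sum_norm_an hd]
      push_cast
      ring
  rw [h4, h5, h6]
  ring

end HopfBig
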