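import Pool.Agent.Lib.MP_4a593f_gt.Big.G0

/-! Task G1: adjointness and canonical anticommutation relations for `an a`, `cr a`.

Key sign facts: `sg a (insert a s) = sg a s = sg a (s.erase a)`; for `a ≠ b`
`sg a (insert b s) * sg b s = - sg b (insert a s) * sg a s` (`a, b ∉ s`), etc.: exactly one of
`b < a`, `a < b` holds. -/

open scoped BigOperators

namespace HopfBig

variable {n : ℕ}

theorem sg_sq (a : Fin n) (s : Finset (Fin n)) : sg a s * sg a s = 1 := by
  unfold sg
  rw [← pow_add, ← two_mul, pow_mul]
  norm_num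

private theorem sg_ins (a : Fin n) (s : Finset (Fin n)) : sg a (insert a s) = sg a s := by
  unfold sg
  rw [Finset.filter_insert, if_neg (lt_irrefl a)]

private theorem sg_ers (a : Fin n) (s : Finset (Fin n)) : sg a (s.erase a) = sg a s := by
  unfold sg
  congr 2
  ext b
  simp only [Finset.mem_filter, Finset.mem_erase]
  constructor
  · rintro ⟨⟨-, h1⟩, h2⟩
    exact ⟨h1, h2⟩
  · rintro ⟨h1, h2⟩
    exact ⟨⟨h2.ne, h1⟩, h2⟩

/-- the sign of the pair `(a, b)` -/
private def ee (a b : Fin n) : ℝ := if b < a then -1 else 1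

private theorem ee_anti {a b : Fin n} (h : a ≠ b) : ee a b = -ee b a := by
  unfold ee
  rcases lt_or_gt_of_ne h with h1 | h1
  · rw [if_neg (not_lt.mpr h1.le), if_pos h1]
    norm_num
  · rw [if_pos h1, if_neg (not_lt.mpr h1.le)]

private theorem sg_insert {a b : Fin n} {s : Finset (Fin n)} (hb : b ∉ s) :
    sg a (insert b s) = ee a b * sg a s := by
  unfold sg ee
  rw [Finset.filter_insert]
  by_cases h : b < a
  · rw [if_pos h, if_pos h, Finset.card_insert_of_notMem, pow_succ]
    · ring
    · intro hc
      exact hb (Finset.mem_filter.mp hc).1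
  · rw [if_neg h, if_neg h, one_mul]

private theorem sg_erase {a b : Fin n} {s : Finset (Fin n)} (hb : b ∈ s) :
    sg a (s.erase b) = ee a b * sg a s := by
  have h1 := sg_insert (a := a) (b := b) (s := s.erase b) (Finset.notMem_erase b s)
  rw [Finset.insert_erase hb] at h1
  have h2 : ee a b * ee a b = 1 := by
    unfold ee
    split_ifs <;> norm_num
  rw [h1, ← mul_assoc, h2, one_mul]

private theorem inner_fk (f g : Fk n) : inner ℝ f g = ∑ s, f s * g s := by
  simp [PiLp.inner_apply, mul_comm]

private theorem sum_switch (a : Fin n) (h : Finset (Fin n) → ℝ) :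
    ∑ s : Finset (Fin n), (if a ∈ s then 0 else h s) =
      ∑ s : Finset (Fin n), (if a ∈ s then h (s.erase a) else 0) := by
  have e1 : ∑ s : Finset (Fin n), (if a ∈ s then 0 else h s) = ∑ s with a ∉ s, h s := by
    rw [Finset.sum_filter]
    refine Finset.sum_congr rfl fun s _ => ?_
    by_cases hs : a ∈ s
    · rw [if_pos hs, if_neg (not_not.mpr hs)]
    · rw [if_neg hs, if_pos hs]
  have e2 : ∑ s : Finset (Fin n), (if a ∈ s then h (s.erase a) else 0) =
      ∑ s : Finset (Fin n) with a ∈ s, h (s.erase a) := by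
    rw [Finset.sum_filter]
  rw [e1, e2]
  refine Finset.sum_nbij' (fun s => insert a s) (fun s => s.erase a) ?_ ?_ ?_ ?_ ?_
  · intro s _
    simp
  · intro s _
    simp
  · intro s hs
    exact Finset.erase_insert (Finset.mem_filter.mp hs).2
  · intro s hs
    exact Finset.insert_erase (Finset.mem_filter.mp hs).2
  · intro s hs
    rw [Finset.erase_insert (Finset.mem_filter.mp hs).2]

/-- adjointness: `∑_s an a f s * g s = ∑_{s ∌ a} sg f(insert a s) g s = ∑_{t ∋ a} ...` -/
theorem inner_an (a : Fin n) (f g : Fk n) : inner ℝ (an a f) g = inner ℝ f (cr a g) := by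
  rw [inner_fk, inner_fk]
  have e1 : ∑ s, an a f s * g s =
      ∑ s : Finset (Fin n), (if a ∈ s then 0 else
        (fun s : Finset (Fin n) => sg a s * f (insert a s) * g s) s) := by
    refine Finset.sum_congr rfl fun s _ => ?_
    rw [an_apply]
    split_ifs <;> simp
  rw [e1, sum_switch]
  refine Finset.sum_congr rfl fun s _ => ?_
  rw [cr_apply]
  by_cases hs : a ∈ s
  · rw [if_pos hs, if_pos hs, sg_ers, Finset.insert_erase hs]
    ring
  · rw [if_neg hs, if_neg hs, mul_zero]

theorem inner_cr (a : Fin n) (f g : Fk n) : inner ℝ (cr a f) g = inner ℝ f (an a g) := by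
  rw [real_inner_comm, ← inner_an, real_inner_comm]

theorem an_an (a b : Fin n) (f : Fk n) : an a (an b f) = -an b (an a f) := by
  ext s
  change an a (an b f) s = -(an b (an a f) s)
  rw [an_apply, an_apply, an_apply, an_apply]
  by_cases hab : a = b
  · subst hab
    simp
  · by_cases ha : a ∈ s
    · have h1 : a ∈ insert b s := Finset.mem_insert_of_mem ha
      rw [if_pos ha, if_pos h1]
      split_ifs <;> simp
    · by_cases hb : b ∈ s
      · have h1 : b ∈ insert a s := Finset.mem_insert_of_mem hb
        rw [if_pos hb, if_pos h1]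
        split_ifs <;> simp
      · have h1 : b ∉ insert a s := by
          rw [Finset.mem_insert, not_or]
          exact ⟨fun h => hab h.symm, hb⟩
        have h2 : a ∉ insert b s := by
          rw [Finset.mem_insert, not_or]
          exact ⟨hab, ha⟩
        rw [if_neg ha, if_neg hb, if_neg h1, if_neg h2, sg_insert ha, sg_insert hb,
          Finset.insert_comm a b s, ee_anti hab]
        ring

theorem cr_cr (a b : Fin n) (f : Fk n) : cr a (cr b f) = -cr b (cr a f) := by
  refine ext_inner_right ℝ fun g => ?_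
  rw [inner_cr, inner_cr, an_an, inner_neg_right, inner_neg_left, inner_cr, inner_cr]

theorem an_cr (a b : Fin n) (f : Fk n) :
    an a (cr b f) = (if a = b then f else 0) - cr b (an a f) := by
  ext s
  by_cases hab : a = b
  · subst hab
    rw [if_pos rfl]
    change an a (cr a f) s = f s - cr a (an a f) s
    rw [an_apply, cr_apply, cr_apply, an_apply]
    by_cases ha : a ∈ s
    · rw [if_pos ha, if_pos ha, if_neg (Finset.notMem_erase a s), sg_ers,
        Finset.insert_erase ha, ← mul_assoc, sg_sq]
      ring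
    · rw [if_neg ha, if_neg ha, if_pos (Finset.mem_insert_self a s), sg_ins,
        Finset.erase_insert ha, ← mul_assoc, sg_sq]
      ring
  · rw [if_neg hab]
    change an a (cr b f) s = 0 - cr b (an a f) s
    rw [an_apply, cr_apply, cr_apply, an_apply]
    by_cases ha : a ∈ s
    · have h1 : a ∈ s.erase b := Finset.mem_erase.mpr ⟨hab, ha⟩
      rw [if_pos ha, if_pos h1]
      split_ifs <;> simp
    · by_cases hb : b ∈ s
      · have h1 : a ∉ s.erase b := fun h => ha (Finset.mem_of_mem_erase h)
        rw [if_neg ha, if_pos hb, if_neg h1, if_pos (Finset.mem_insert_of_mem hb), sg_insert ha,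
          sg_erase hb, Finset.erase_insert_of_ne hab, ee_anti hab]
        ring
      · have h1 : b ∉ insert a s := by
          rw [Finset.mem_insert, not_or]
          exact ⟨fun h => hab h.symm, hb⟩
        rw [if_neg ha, if_neg hb, if_neg h1]
        simp

/-- number operator -/
theorem number_op (f : Fk n) (s : Finset (Fin n)) :
    (∑ a, cr a (an a f)) s = (s.card : ℝ) * f s := by
  have h1 : (∑ a, cr a (an a f)) s = ∑ a, cr a (an a f) s := by
    simp
  rw [h1]
  have h2 : ∀ a, cr a (an a f) s = if a ∈ s then f s else 0 := by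
    intro a
    rw [cr_apply, an_apply]
    by_cases ha : a ∈ s
    · rw [if_pos ha, if_pos ha, if_neg (Finset.notMem_erase a s), sg_ers,
        Finset.insert_erase ha, ← mul_assoc, sg_sq, one_mul]
    · rw [if_neg ha, if_neg ha]
  rw [Finset.sum_congr rfl (fun a _ => h2 a), Finset.sum_ite_mem, Finset.univ_inter,
    Finset.sum_const, nsmul_eq_mul]

theorem Deg.an {p : ℕ} {f : Fk n} (h : Deg (p + 1) f) (a : Fin n) : Deg p (an a f) := by
  intro s hs
  rw [an_apply]
  by_cases ha : a ∈ s
  · rw [if_pos ha]
  · rw [if_neg ha, h (insert a s), mul_zero]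
    rw [Finset.card_insert_of_notMem ha]
    omega

theorem Deg.cr {p : ℕ} {f : Fk n} (h : Deg p f) (a : Fin n) : Deg (p + 1) (cr a f) := by
  intro s hs
  rw [cr_apply]
  by_cases ha : a ∈ s
  · rw [if_pos ha, h (s.erase a), mul_zero]
    rw [Finset.card_erase_of_mem ha]
    have := Finset.card_pos.mpr ⟨a, ha⟩
    omega
  · rw [if_neg ha]

theorem Deg.an_zero {f : Fk n} (h : Deg 0 f) (a : Fin n) : HopfBig.an a f = 0 := by
  ext s
  change HopfBig.an a f s = 0
  rw [an_apply]
  by_cases ha : a ∈ s
  · rw [if_pos ha]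
  · rw [if_neg ha, h (insert a s), mul_zero]
    rw [Finset.card_insert_of_notMem ha]
    omega

theorem sum_inner_an {p : ℕ} {f g : Fk n} (h : Deg p f) :
    ∑ a, inner ℝ (an a f) (an a g) = p * inner ℝ f g := by
  have h1 : ∑ a, cr a (an a f) = (p : ℝ) • f := by
    ext s
    rw [number_op]
    change _ = (p : ℝ) * f s
    by_cases hs : s.card = p
    · rw [hs]
    · rw [h s hs, mul_zero, mul_zero]
  have h2 : ∑ a, inner ℝ (an a f) (an a g) = inner ℝ (∑ a, cr a (an a f)) g := by
    rw [sum_inner]
    exact Finset.sum_congr rfl fun a _ => (inner_cr a _ _).symm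
  rw [h2, h1, inner_smul_left]
  rfl

/-- `∑ ‖i_a f‖² = p ‖f‖²` in degree `p` -/
theorem sum_norm_an {p : ℕ} {f : Fk n} (h : Deg p f) : ∑ a, ‖an a f‖ ^ 2 = p * ‖f‖ ^ 2 := by
  have h1 := sum_inner_an (g := f) h
  rw [real_inner_self_eq_norm_sq] at h1
  rw [← h1]
  exact Finset.sum_congr rfl fun a _ => (real_inner_self_eq_norm_sq _).symm

end HopfBig
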