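import Pool.Agent.Lib.MP_4a593f_gt.Big.K0
import Pool.Agent.Lib.MP_4a593f_gt.Big.G1

/-! Task K3: alternating arrays and Fock space.

`comp p f I = (an i_{p-1} ... an i_1 an i_0 f)(∅)`, `I = (i_0, ..., i_{p-1})`.

* `∑_I comp p f I * comp p g I = p! ⟨f, g⟩` for `f` of degree `p` (induction, `sum_inner_an`;
  degree 0: `⟨f,g⟩ = f ∅ * g ∅`).
* Every alternating array is `comp p f` for some `f` of degree `p`: put
  `f(s) = φ(increasing enumeration of s)` (`s.orderEmbOfFin`).  Then `comp p f` is alternating
  (anticommutation; it is enough to know adjacent transpositions), and both arrays agree on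
  strictly increasing `I`: there all signs are `+`, since `sg i s = 1` if `i` is smaller than all
  elements... (here `an i_{p-1}` acts last: `(an i_{p-1} g)(∅) = g({i_{p-1}})`,
  `(an i_{p-2} g')({i_{p-1}}) = g'({i_{p-2}, i_{p-1}})` as `i_{p-2} < i_{p-1}`, ...).
  An alternating array vanishes on non-injective `I`, and an injective `I` is an increasing one
  composed with a permutation (`Tuple.sort`). -/

open scoped BigOperators

namespace HopfBig

variable {n : ℕ}

/-- components of an element of Fock space -/
noncomputable def comp : (p : ℕ) → Fk n → (Fin p → Fin n) → ℝ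
  | 0, f, _ => f ∅
  | p + 1, f, I => comp p (an (I 0) f) (Fin.tail I)

theorem comp_cons (p : ℕ) (f : Fk n) (i : Fin n) (I : Fin p → Fin n) :
    comp (p + 1) f (Fin.cons i I) = comp p (an i f) I := by
  simp only [comp, Fin.cons_zero, Fin.tail_cons]

namespace K3aux

theorem inner_eq_sum (f g : Fk n) : inner ℝ f g = ∑ s : Finset (Fin n), f s * g s := by
  rw [PiLp.inner_apply]
  refine Finset.sum_congr rfl fun s _ => ?_
  simp [mul_comm]

theorem inner_deg_zero {f : Fk n} (hf : Deg 0 f) (g : Fk n) : inner ℝ f g = f ∅ * g ∅ := by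
  rw [inner_eq_sum]
  refine Finset.sum_eq_single ∅ (fun s _ hs => ?_) (fun h => absurd (Finset.mem_univ _) h)
  rw [hf s (by rw [Ne, Finset.card_eq_zero]; exact hs), zero_mul]

theorem sum_cons {p : ℕ} (F : (Fin (p + 1) → Fin n) → ℝ) :
    ∑ I : Fin (p + 1) → Fin n, F I = ∑ i : Fin n, ∑ J : Fin p → Fin n, F (Fin.cons i J) := by
  rw [← Fintype.sum_prod_type']
  exact (Fintype.sum_equiv (Fin.consEquiv (fun _ : Fin (p + 1) => Fin n)) _ _ (fun x => rfl)).symm

theorem comp_neg (p : ℕ) (f : Fk n) (I : Fin p → Fin n) : comp p (-f) I = -comp p f I := by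
  induction p generalizing f with
  | zero => simp [comp]
  | succ p ih => simp only [comp, map_neg, ih]

theorem comp_swap (m : ℕ) (f : Fk n) (I : Fin (m + 1) → Fin n) (i : Fin m) :
    comp (m + 1) f (I ∘ (Equiv.swap i.castSucc i.succ)) = -comp (m + 1) f I := by
  induction m generalizing f with
  | zero => exact i.elim0
  | succ m ih =>
    refine Fin.cases ?_ (fun i' => ?_) i
    · have h0 : (I ∘ (Equiv.swap (Fin.castSucc (0 : Fin (m + 1))) (Fin.succ 0))) 0 = I 1 := by
        simp [Function.comp]
      have h1 : Fin.tail (I ∘ (Equiv.swap (Fin.castSucc (0 : Fin (m + 1))) (Fin.succ 0))) 0 =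
          I 0 := by
        simp [Fin.tail, Function.comp]
      have h2 : Fin.tail (Fin.tail (I ∘ (Equiv.swap (Fin.castSucc (0 : Fin (m + 1)))
          (Fin.succ 0)))) = Fin.tail (Fin.tail I) := by
        funext j
        simp only [Fin.tail, Function.comp]
        congr 1
      have e1 : comp (m + 1 + 1) f (I ∘ (Equiv.swap (Fin.castSucc (0 : Fin (m + 1)))
          (Fin.succ 0))) = comp m (an (I 0) (an (I 1) f)) (Fin.tail (Fin.tail I)) := by
        rw [comp, comp, h0, h1, h2]
      have e2 : comp (m + 1 + 1) f I = comp m (an (I 1) (an (I 0) f))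
          (Fin.tail (Fin.tail I)) := by
        rw [comp, comp]; rfl
      rw [e1, e2, an_an (I 0) (I 1) f, comp_neg]
    · have h0 : (I ∘ (Equiv.swap (Fin.castSucc i'.succ) (Fin.succ i'.succ))) 0 = I 0 := by
        simp only [Function.comp]
        congr 1
      have h1 : Fin.tail (I ∘ (Equiv.swap (Fin.castSucc i'.succ) (Fin.succ i'.succ))) =
          Fin.tail I ∘ (Equiv.swap i'.castSucc i'.succ) := by
        funext j
        simp only [Fin.tail, Function.comp]
        congr 1
        rw [← Fin.succ_castSucc]
        exact ((Fin.succ_injective _).swap_apply _ _ _)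
      rw [comp, h0, h1, ih]
      rfl

theorem form_ext {p : ℕ} {φ χ : (Fin p → Fin n) → ℝ} (hφ : IsForm φ) (hχ : IsForm χ)
    (h : ∀ I : Fin p → Fin n, StrictMono I → φ I = χ I) : φ = χ := by
  have key : ∀ {ω : (Fin p → Fin n) → ℝ}, IsForm ω → ∀ I : Fin p → Fin n,
      ¬ Function.Injective I → ω I = 0 := by
    intro ω hω I hI
    rw [Function.Injective] at hI
    push Not at hI
    obtain ⟨a, b, hab, hne⟩ := hI
    have h1 := hω (Equiv.swap a b) I
    have h2 : I ∘ (Equiv.swap a b) = I := by
      funext j
      simp only [Function.comp]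
      by_cases ha : j = a
      · subst ha; rw [Equiv.swap_apply_left, hab]
      · by_cases hb : j = b
        · subst hb; rw [Equiv.swap_apply_right, hab]
        · rw [Equiv.swap_apply_of_ne_of_ne ha hb]
    rw [h2, Equiv.Perm.sign_swap hne] at h1
    simp at h1
    linarith
  funext I
  by_cases hI : Function.Injective I
  · have hm : StrictMono (I ∘ Tuple.sort I) :=
      (Tuple.monotone_sort I).strictMono_of_injective (hI.comp (Tuple.sort I).injective)
    have h1 := hφ (Tuple.sort I) I
    have h2 := hχ (Tuple.sort I) I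
    rw [h _ hm, h2] at h1
    have h3 : (((Equiv.Perm.sign (Tuple.sort I) : ℤˣ) : ℤ) : ℝ) ≠ 0 := by
      exact_mod_cast (Equiv.Perm.sign (Tuple.sort I)).ne_zero
    exact (mul_left_cancel₀ h3 h1).symm
  · rw [key hφ I hI, key hχ I hI]

theorem comp_strictMono (p : ℕ) (f : Fk n) (I : Fin p → Fin n) (hI : StrictMono I) :
    comp p f I = f (Finset.univ.image I) := by
  induction p generalizing f with
  | zero =>
    have : (Finset.univ : Finset (Fin 0)) = ∅ := Finset.univ_eq_empty
    rw [this, Finset.image_empty]
    rfl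
  | succ p ih =>
    have ht : StrictMono (Fin.tail I) := fun a b hab => hI (Fin.succ_lt_succ_iff.2 hab)
    have hlt : ∀ j : Fin p, I 0 < Fin.tail I j := fun j => hI (Fin.succ_pos j)
    have hnot : I 0 ∉ Finset.univ.image (Fin.tail I) := by
      intro h
      obtain ⟨j, _, hj⟩ := Finset.mem_image.1 h
      exact absurd hj (ne_of_gt (hlt j))
    have hsg : sg (I 0) (Finset.univ.image (Fin.tail I)) = 1 := by
      rw [sg]
      have : (Finset.univ.image (Fin.tail I)).filter (· < I 0) = ∅ := by
        apply Finset.filter_eq_empty_iff.2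
        intro x hx
        obtain ⟨j, _, hj⟩ := Finset.mem_image.1 hx
        rw [← hj]
        exact not_lt.2 (hlt j).le
      rw [this, Finset.card_empty, pow_zero]
    have hins : insert (I 0) (Finset.univ.image (Fin.tail I)) = Finset.univ.image I := by
      ext x
      simp only [Finset.mem_insert, Finset.mem_image, Finset.mem_univ, true_and]
      constructor
      · rintro (h | ⟨j, hj⟩)
        · exact ⟨0, h.symm⟩
        · exact ⟨j.succ, hj⟩
      · rintro ⟨j, hj⟩
        refine Fin.cases (fun h => Or.inl h.symm) (fun j' h => Or.inr ⟨j', h⟩) j hj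
    rw [comp, ih _ _ ht, an_apply, if_neg hnot, hsg, one_mul, hins]

end K3aux

open K3aux

theorem sum_comp {p : ℕ} {f g : Fk n} (hf : Deg p f) (hg : Deg p g) :
    ∑ I : Fin p → Fin n, comp p f I * comp p g I = (p.factorial : ℝ) * inner ℝ f g := by
  induction p generalizing f g with
  | zero =>
    rw [inner_deg_zero hf]
    simp [comp]
  | succ p ih =>
    rw [sum_cons]
    have h1 : ∀ i : Fin n, ∑ J : Fin p → Fin n, comp (p + 1) f (Fin.cons i J) *
        comp (p + 1) g (Fin.cons i J) = (p.factorial : ℝ) * inner ℝ (an i f) (an i g) := by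
      intro i
      rw [← ih (hf.an i) (hg.an i)]
      refine Finset.sum_congr rfl fun J _ => ?_
      rw [comp_cons, comp_cons]
    rw [Finset.sum_congr rfl fun i _ => h1 i, ← Finset.mul_sum, sum_inner_an hf,
      Nat.factorial_succ]
    push_cast
    ring

theorem comp_isForm (p : ℕ) (f : Fk n) : IsForm (comp p f) := by
  cases p with
  | zero =>
    intro σ I
    have h1 : σ = 1 := Subsingleton.elim _ _
    subst h1
    simp
  | succ m =>
    intro σ
    have hσ : σ ∈ Submonoid.closure (Set.range fun i : Fin m ↦ Equiv.swap i.castSucc i.succ) := by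
      rw [Equiv.Perm.mclosure_swap_castSucc_succ]
      exact Submonoid.mem_top _
    induction hσ using Submonoid.closure_induction with
    | mem x hx =>
      obtain ⟨i, rfl⟩ := hx
      intro I
      simp only
      rw [comp_swap, Equiv.Perm.sign_swap (ne_of_lt (Fin.castSucc_lt_succ))]
      simp
    | one => intro I; simp
    | mul x y _ _ hx hy =>
      intro I
      have e : I ∘ ((x * y : Equiv.Perm (Fin (m + 1)))) = (I ∘ x) ∘ y := rfl
      rw [e, hy, hx, Equiv.Perm.sign_mul]
      push_cast
      ring

theorem exists_comp {p : ℕ} (φ : (Fin p → Fin n) → ℝ) (h : IsForm φ) :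
    ∃ f : Fk n, Deg p f ∧ φ = comp p f := by
  refine ⟨WithLp.toLp 2 fun s => if hs : s.card = p then φ (s.orderEmbOfFin hs) else 0,
    fun s hs => ?_, ?_⟩
  · simp [hs]
  · refine form_ext h (comp_isForm p _) fun I hI => ?_
    rw [comp_strictMono _ _ _ hI]
    have hc : (Finset.univ.image I).card = p := by
      rw [Finset.card_image_of_injective _ hI.injective, Finset.card_univ, Fintype.card_fin]
    have hu := Finset.orderEmbOfFin_unique hc
      (fun x => Finset.mem_image_of_mem I (Finset.mem_univ x)) hI
    simp only [hc, dif_pos]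
    exact congrArg φ hu

/-- the Weitzenböck term of an array in Fock space -/
theorem bochner_comp (R : Fin n → Fin n → Fin n → Fin n → ℝ) {p : ℕ} {f : Fk n}
    (hf : Deg (p + 1) f) :
    bochner R (comp (p + 1) f) = (p.factorial : ℝ) *
      ((∑ i, ∑ j, ricci R i j * inner ℝ (an i f) (an j f)) -
        (1 / 2) * ∑ i, ∑ j, ∑ k, ∑ l, R i j k l *
          inner ℝ (an j (an i f)) (an l (an k f))) := by
  cases p with
  | zero =>
    have h0 : ∀ i j : Fin n, an j (an i f) = 0 := fun i j => (hf.an i).an_zero j
    have h1 : ∀ i : Fin n, comp (0 + 1) f ![i] = (an i f) ∅ := fun i => rfl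
    simp only [h0, inner_zero_left, mul_zero, Finset.sum_const_zero, sub_zero,
      Nat.factorial_zero, Nat.cast_one, one_mul]
    rw [bochner]
    refine Finset.sum_congr rfl fun i _ => Finset.sum_congr rfl fun j _ => ?_
    rw [inner_deg_zero (hf.an i), mul_assoc]
    rfl
  | succ q =>
    have h1 : ∀ i j : Fin n, ∑ I : Fin (q + 1) → Fin n, comp (q + 1 + 1) f (Fin.cons i I) *
        comp (q + 1 + 1) f (Fin.cons j I) =
          ((q + 1).factorial : ℝ) * inner ℝ (an i f) (an j f) := by
      intro i j
      rw [← sum_comp (hf.an i) (hf.an j)]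
      refine Finset.sum_congr rfl fun J _ => ?_
      rw [comp_cons, comp_cons]
    have h2 : ∀ i j k l : Fin n, ∑ K : Fin q → Fin n,
        comp (q + 1 + 1) f (Fin.cons i (Fin.cons j K)) *
        comp (q + 1 + 1) f (Fin.cons k (Fin.cons l K)) =
          (q.factorial : ℝ) * inner ℝ (an j (an i f)) (an l (an k f)) := by
      intro i j k l
      rw [← sum_comp ((hf.an i).an j) ((hf.an k).an l)]
      refine Finset.sum_congr rfl fun J _ => ?_
      rw [comp_cons, comp_cons, comp_cons, comp_cons]
    rw [bochner]
    simp only [h1, h2]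
    have h3 : ∀ i j : Fin n, ricci R i j * (((q + 1).factorial : ℝ) *
        inner ℝ (an i f) (an j f)) =
        ((q + 1).factorial : ℝ) * (ricci R i j * inner ℝ (an i f) (an j f)) :=
      fun i j => by ring
    have h4 : ∀ i j k l : Fin n, R i j k l * ((q.factorial : ℝ) *
        inner ℝ (an j (an i f)) (an l (an k f))) =
        (q.factorial : ℝ) * (R i j k l * inner ℝ (an j (an i f)) (an l (an k f))) :=
      fun i j k l => by ring
    simp only [h3, h4, ← Finset.mul_sum]
    rw [Nat.factorial_succ]
    push_cast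
    ring

end HopfBig
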