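import Mathlib

/-! Public definitions for the final statement.

Components with respect to the standard orthonormal basis of `ℝⁿ`. -/

open scoped BigOperators

namespace HopfBig

/-- algebraic curvature tensors on `ℝⁿ` (components `R i j k l`) -/
def IsCurvature {n : ℕ} (R : Fin n → Fin n → Fin n → Fin n → ℝ) : Prop :=
  (∀ i j k l, R j i k l = -R i j k l) ∧ (∀ i j k l, R i j l k = -R i j k l) ∧
    (∀ i j k l, R i j k l + R j k i l + R k i j l = 0)

/-- 2-forms on `ℝⁿ` as skew arrays -/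
def IsTwoForm {n : ℕ} (α : Fin n → Fin n → ℝ) : Prop := ∀ i j, α j i = -α i j

/-- inner product of 2-forms, `|e_i ∧ e_j| = 1` -/
noncomputable def inner2 {n : ℕ} (α β : Fin n → Fin n → ℝ) : ℝ :=
  (1 / 2) * ∑ i, ∑ j, α i j * β i j

/-- the curvature operator as a quadratic form on 2-forms; `R(e_i∧e_j, e_i∧e_j) = R_ijij` is the
sectional curvature -/
noncomputable def curvOp {n : ℕ} (R : Fin n → Fin n → Fin n → Fin n → ℝ)
    (α : Fin n → Fin n → ℝ) : ℝ :=
  (1 / 4) * ∑ i, ∑ j, ∑ k, ∑ l, R i j k l * α i j * α k l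

/-- the curvature operator is `k`-positive: `∑ R(ω_i, ω_i) > 0` for all orthonormal 2-forms
`ω_1, ..., ω_k`, i.e. the sum of the `k` smallest eigenvalues is positive -/
def KPositive {n : ℕ} (R : Fin n → Fin n → Fin n → Fin n → ℝ) (k : ℕ) : Prop :=
  ∀ ω : Fin k → Fin n → Fin n → ℝ, (∀ i, IsTwoForm (ω i)) →
    (∀ i j, inner2 (ω i) (ω j) = if i = j then 1 else 0) → 0 < ∑ i, curvOp R (ω i)

/-- `p`-forms on `ℝⁿ` as alternating arrays -/
def IsForm {n p : ℕ} (φ : (Fin p → Fin n) → ℝ) : Prop :=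
  ∀ (σ : Equiv.Perm (Fin p)) (I : Fin p → Fin n),
    φ (I ∘ σ) = (Equiv.Perm.sign σ : ℤ) * φ I

/-- Ricci tensor -/
noncomputable def ricci {n : ℕ} (R : Fin n → Fin n → Fin n → Fin n → ℝ) (i j : Fin n) : ℝ :=
  ∑ a, R i a j a

/-- The curvature term of the Weitzenböck formula on `p`-forms,
`Ric_ij φ_{iI} φ_{jI} - ((p-1)/2) R_ijkl φ_{ijJ} φ_{klJ}`
(sum over all indices; `I` has `p-1`, `J` has `p-2` entries). -/
noncomputable def bochner {n : ℕ} (R : Fin n → Fin n → Fin n → Fin n → ℝ) :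
    {p : ℕ} → ((Fin p → Fin n) → ℝ) → ℝ
  | 0, _ => 0
  | 1, φ => ∑ i, ∑ j, ricci R i j * φ ![i] * φ ![j]
  | q + 2, φ =>
      (∑ i, ∑ j, ricci R i j *
        ∑ I : Fin (q + 1) → Fin n, φ (Fin.cons i I) * φ (Fin.cons j I)) -
      ((q + 1 : ℝ) / 2) * ∑ i, ∑ j, ∑ k, ∑ l, R i j k l *
        ∑ K : Fin q → Fin n,
          φ (Fin.cons i (Fin.cons j K)) * φ (Fin.cons k (Fin.cons l K))

end HopfBig
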