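import Pool.Agent.Lib.MP_4a593f_gt.Big.A1

/-! Task A4: 4-forms as quadratic forms on 2-forms. -/

open scoped BigOperators

namespace HopfBig

variable {n : ℕ}

theorem Four.zero : Four (fun _ : Mat n => (0 : ℝ)) :=
  ⟨fun _ _ _ _ => 0, ⟨fun _ _ _ _ => by simp, fun _ _ _ _ => by simp, fun _ _ _ _ => by simp⟩,
    fun L _ => by simp⟩

theorem Four.add {f g : Mat n → ℝ} (hf : Four f) (hg : Four g) :
    Four (fun L => f L + g L) := by
  obtain ⟨t, ⟨h1, h2, h3⟩, ht⟩ := hf
  obtain ⟨s, ⟨k1, k2, k3⟩, hs⟩ := hg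
  refine ⟨fun a b c d => t a b c d + s a b c d, ⟨fun a b c d => ?_, fun a b c d => ?_,
    fun a b c d => ?_⟩, fun L hL => ?_⟩
  · beta_reduce
    rw [h1, k1]; ring
  · beta_reduce
    rw [h2, k2]; ring
  · beta_reduce
    rw [h3, k3]; ring
  · beta_reduce
    rw [ht L hL, hs L hL]
    simp only [add_mul, Finset.sum_add_distrib]

theorem Four.smul {f : Mat n → ℝ} (r : ℝ) (hf : Four f) : Four (fun L => r * f L) := by
  obtain ⟨t, ⟨h1, h2, h3⟩, ht⟩ := hf
  refine ⟨fun a b c d => r * t a b c d, ⟨fun a b c d => ?_, fun a b c d => ?_,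
    fun a b c d => ?_⟩, fun L hL => ?_⟩
  · beta_reduce
    rw [h1]; ring
  · beta_reduce
    rw [h2]; ring
  · beta_reduce
    rw [h3]; ring
  · beta_reduce
    rw [ht L hL]
    simp only [Finset.mul_sum, mul_assoc]

theorem Four.congr_skew {f g : Mat n → ℝ} (hf : Four f) (h : ∀ L, Skew L → g L = f L) :
    Four g := by
  obtain ⟨t, h1, ht⟩ := hf
  exact ⟨t, h1, fun L hL => by rw [h L hL, ht L hL]⟩

theorem Four.sub {f g : Mat n → ℝ} (hf : Four f) (hg : Four g) :
    Four (fun L => f L - g L) := by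
  refine (hf.add (hg.smul (-1))).congr_skew ?_
  intro L _
  beta_reduce
  ring

private theorem sum4 (F : Fin n → Fin n → Fin n → Fin n → ℝ) :
    ∑ a, ∑ b, ∑ c, ∑ d, F a b c d =
      ∑ e : (Fin n × Fin n) × (Fin n × Fin n), F e.1.1 e.1.2 e.2.1 e.2.2 := by
  simp only [Fintype.sum_prod_type]

/-- pull back by the linear map `L ↦ g L gᵀ`:
`t'_{abcd} = ∑ t_{ijkl} g_{ia} g_{jb} g_{kc} g_{ld}` -/
theorem Four.pull {f : Mat n → ℝ} (hf : Four f) (g : Mat n) :
    Four (fun L => f (g * L * g.transpose)) := by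
  obtain ⟨t, ⟨h1, h2, h3⟩, ht⟩ := hf
  refine ⟨fun a b c d => ∑ i, ∑ j, ∑ k, ∑ l, t i j k l * g i a * g j b * g k c * g l d,
    ⟨fun a b c d => ?_, fun a b c d => ?_, fun a b c d => ?_⟩, fun L hL => ?_⟩
  · beta_reduce
    rw [Finset.sum_comm, ← Finset.sum_neg_distrib]
    refine Finset.sum_congr rfl fun i _ => ?_
    rw [← Finset.sum_neg_distrib]
    refine Finset.sum_congr rfl fun j _ => ?_
    rw [← Finset.sum_neg_distrib]
    refine Finset.sum_congr rfl fun k _ => ?_
    rw [← Finset.sum_neg_distrib]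
    refine Finset.sum_congr rfl fun l _ => ?_
    rw [h1 i j k l]
    ring
  · beta_reduce
    rw [← Finset.sum_neg_distrib]
    refine Finset.sum_congr rfl fun i _ => ?_
    rw [Finset.sum_comm, ← Finset.sum_neg_distrib]
    refine Finset.sum_congr rfl fun j _ => ?_
    rw [← Finset.sum_neg_distrib]
    refine Finset.sum_congr rfl fun k _ => ?_
    rw [← Finset.sum_neg_distrib]
    refine Finset.sum_congr rfl fun l _ => ?_
    rw [h2 i j k l]
    ring
  · beta_reduce
    rw [← Finset.sum_neg_distrib]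
    refine Finset.sum_congr rfl fun i _ => ?_
    rw [← Finset.sum_neg_distrib]
    refine Finset.sum_congr rfl fun j _ => ?_
    rw [Finset.sum_comm, ← Finset.sum_neg_distrib]
    refine Finset.sum_congr rfl fun k _ => ?_
    rw [← Finset.sum_neg_distrib]
    refine Finset.sum_congr rfl fun l _ => ?_
    rw [h3 i j k l]
    ring
  · have hM : ∀ i j, (g * L * g.transpose) i j = ∑ e : Fin n × Fin n,
        g i e.1 * g j e.2 * L e.1 e.2 := by
      intro i j
      rw [Fintype.sum_prod_type, Matrix.mul_apply, Finset.sum_comm]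
      refine Finset.sum_congr rfl fun b _ => ?_
      rw [Matrix.mul_apply, Matrix.transpose_apply, Finset.sum_mul]
      refine Finset.sum_congr rfl fun a _ => ?_
      ring
    show f (g * L * g.transpose) = _
    rw [ht _ (Skew.congr g hL), sum4, sum4]
    have hR : ∀ e : (Fin n × Fin n) × (Fin n × Fin n),
        (∑ i, ∑ j, ∑ k, ∑ l, t i j k l * g i e.1.1 * g j e.1.2 * g k e.2.1 * g l e.2.2) *
          L e.1.1 e.1.2 * L e.2.1 e.2.2 =
        ∑ x : (Fin n × Fin n) × (Fin n × Fin n), t x.1.1 x.1.2 x.2.1 x.2.2 *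
          ((g x.1.1 e.1.1 * g x.1.2 e.1.2 * L e.1.1 e.1.2) *
            (g x.2.1 e.2.1 * g x.2.2 e.2.2 * L e.2.1 e.2.2)) := by
      intro e
      rw [sum4, Finset.sum_mul, Finset.sum_mul]
      refine Finset.sum_congr rfl fun x _ => ?_
      ring
    rw [Finset.sum_congr rfl fun e _ => hR e, Finset.sum_comm]
    refine Finset.sum_congr rfl fun x _ => ?_
    rw [hM, hM, mul_assoc, Finset.sum_mul_sum, ← Finset.mul_sum]
    congr 1
    rw [← Fintype.sum_prod_type']

private theorem wedge_aux (G : Mat n) {A L : Mat n} (hA : Skew A) (hL : Skew L) :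
    ∑ a, ∑ b, ∑ c, ∑ d, G a c * A b d * L a b * L c d = ∑ i, (G * L * A * L) i i := by
  refine Finset.sum_congr rfl fun a _ => ?_
  rw [Matrix.mul_apply]
  refine Finset.sum_congr rfl fun b _ => ?_
  rw [Matrix.mul_apply, Finset.sum_mul, Finset.sum_comm]
  refine Finset.sum_congr rfl fun d _ => ?_
  rw [Matrix.mul_apply, Finset.sum_mul, Finset.sum_mul]
  refine Finset.sum_congr rfl fun c _ => ?_
  rw [hA b d, hL a b]
  ring

private theorem wedge_aux' (G : Mat n) {A L : Mat n} (hA : Skew A) (hL : Skew L) :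
    ∑ a, ∑ b, ∑ c, ∑ d, G a d * A b c * L a b * L c d = -∑ i, (G * L * A * L) i i := by
  rw [← wedge_aux G hA hL, ← Finset.sum_neg_distrib]
  refine Finset.sum_congr rfl fun a _ => ?_
  rw [← Finset.sum_neg_distrib]
  refine Finset.sum_congr rfl fun b _ => ?_
  rw [Finset.sum_comm, ← Finset.sum_neg_distrib]
  refine Finset.sum_congr rfl fun c _ => ?_
  rw [← Finset.sum_neg_distrib]
  refine Finset.sum_congr rfl fun d _ => ?_
  rw [hL c d]
  ring

private theorem prod_aux (G A L : Mat n) :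
    ∑ a, ∑ b, ∑ c, ∑ d, G a b * A c d * L a b * L c d = 4 * (ip G L * ip A L) := by
  unfold ip
  have h1 : ∀ a b, ∑ c, ∑ d, G a b * A c d * L a b * L c d =
      G a b * L a b * ∑ c, ∑ d, A c d * L c d := by
    intro a b
    rw [Finset.mul_sum]
    refine Finset.sum_congr rfl fun c _ => ?_
    rw [Finset.mul_sum]
    refine Finset.sum_congr rfl fun d _ => ?_
    ring
  simp only [h1]
  simp only [← Finset.sum_mul]
  ring

/-- the 4-form `(1/2) G ∧ A`:
`⟨G, L⟩ ⟨A, L⟩ - (1/2) tr (G L A L)`; take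
`t_{abcd} = (1/8) (G_ab A_cd + A_ab G_cd - G_ac A_bd - A_ac G_bd + G_ad A_bc + A_ad G_bc)`. -/
theorem four_wedge {G A : Mat n} (hG : Skew G) (hA : Skew A) :
    Four (fun L => ip G L * ip A L - (1 / 2) * ∑ i, (G * L * A * L) i i) := by
  refine ⟨fun a b c d => (1 / 8) * (G a b * A c d + A a b * G c d - G a c * A b d -
    A a c * G b d + G a d * A b c + A a d * G b c),
    ⟨fun a b c d => ?_, fun a b c d => ?_, fun a b c d => ?_⟩, fun L hL => ?_⟩
  · beta_reduce
    rw [hG a b, hA a b]; ring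
  · beta_reduce
    rw [hG b c, hA b c]; ring
  · beta_reduce
    rw [hG c d, hA c d]; ring
  · have e1 := prod_aux G A L
    have e2 := prod_aux A G L
    have e3 := wedge_aux G hA hL
    have e4 := wedge_aux A hG hL
    have e5 := wedge_aux' G hA hL
    have e6 := wedge_aux' A hG hL
    have hcyc : ∑ i, (A * L * G * L) i i = ∑ i, (G * L * A * L) i i := by
      have h := Matrix.trace_mul_comm (A * L) (G * L)
      rw [← Matrix.mul_assoc, ← Matrix.mul_assoc] at h
      exact h
    rw [hcyc] at e4 e6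
    have hsplit : ∑ a, ∑ b, ∑ c, ∑ d, (1 / 8) * (G a b * A c d + A a b * G c d - G a c * A b d -
        A a c * G b d + G a d * A b c + A a d * G b c) * L a b * L c d =
        (1 / 8) * ((∑ a, ∑ b, ∑ c, ∑ d, G a b * A c d * L a b * L c d) +
          (∑ a, ∑ b, ∑ c, ∑ d, A a b * G c d * L a b * L c d) -
          (∑ a, ∑ b, ∑ c, ∑ d, G a c * A b d * L a b * L c d) -
          (∑ a, ∑ b, ∑ c, ∑ d, A a c * G b d * L a b * L c d) +
          (∑ a, ∑ b, ∑ c, ∑ d, G a d * A b c * L a b * L c d) +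
          (∑ a, ∑ b, ∑ c, ∑ d, A a d * G b c * L a b * L c d)) := by
      simp only [sum4, ← Finset.sum_add_distrib, ← Finset.sum_sub_distrib, Finset.mul_sum]
      refine Finset.sum_congr rfl fun x _ => ?_
      ring
    rw [hsplit, e1, e2, e3, e4, e5, e6]
    ring

end HopfBig
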