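import Pool.Agent.Lib.MP_4a593f_gt.Big.T7
import Pool.Agent.Lib.MP_4a593f_gt.Big.C3

/-! Task T8: the core theorem.

WLOG `ε ≤ 1/10`.  `p₀ = max` of `sit_false`, `eig_pair (ε/2)`, `eig_count (ε²/1000)`, `1000/ε²`.
Take an eigensystem (`exists_eig`, antitone).  If `m = 0` all skew matrices vanish (`complete`)
and both sides are 0.  `i0 = 0`.  If `∑|N_j|² = 0` all `N_j = 0` and the left side is `≥ 0`.
Otherwise divide all `P_i, N_j` by `√(∑|N_j|²)` (4-forms and `D` are homogeneous of degree 2).
If `d i0 ≤ (1/2+ε) p`: `∑ D(N_j) ≤ d i0 ∑ |N_j|²` (`D_le_of`).  Otherwise, if the claim fails,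
rotate (`exists_diag`, `FormData.conj`, `Eig.conj`, `exists_frame` with
`OpLe (1/√λ)` from `Eig.opLe`), `P' = Oᵀ P O`; balance by `Four.pull`; this is a `Sit`. -/

open scoped BigOperators

namespace HopfBig

private theorem D_smul_smul {n : ℕ} {p : ℝ} {H : Type} [NormedAddCommGroup H]
    [InnerProductSpace ℝ H] (X : FormData n p H) (r : ℝ) (L : Mat n) :
    X.D (r • L) (r • L) = r ^ 2 * X.D L L := by
  unfold FormData.D
  rw [map_smul, LinearMap.smul_apply, real_inner_smul_left, real_inner_smul_right]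
  ring

/-- the elementary bound with constant `p` -/
theorem core_trivial {n : ℕ} {p : ℝ} {H : Type} [NormedAddCommGroup H] [InnerProductSpace ℝ H]
    (X : FormData n p H) {ι κ : Type} [Fintype ι] [Fintype κ] (P : ι → Mat n)
    (N : κ → Mat n) (hP : ∀ i, Skew (P i)) (hN : ∀ j, Skew (N j)) :
    -(p * ∑ j, ip (N j) (N j)) ≤ ∑ i, X.D (P i) (P i) - ∑ j, X.D (N j) (N j) := by
  have h1 : 0 ≤ ∑ i, X.D (P i) (P i) := Finset.sum_nonneg fun i _ => X.D_nonneg _
  have h2 : ∑ j, X.D (N j) (N j) ≤ p * ∑ j, ip (N j) (N j) := by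
    rw [Finset.mul_sum]
    exact Finset.sum_le_sum fun j _ => X.D_le (hN j)
  linarith

theorem core (ε : ℝ) (hε : 0 < ε) : ∃ p₀ : ℝ, ∀ (n : ℕ) (p : ℝ) (H : Type)
    [NormedAddCommGroup H] [InnerProductSpace ℝ H] [FiniteDimensional ℝ H]
    (X : FormData n p H) (ι κ : Type) [Fintype ι] [Fintype κ] (P : ι → Mat n)
    (N : κ → Mat n), p₀ ≤ p → 0 < p → (∀ i, Skew (P i)) → (∀ j, Skew (N j)) →
    (∀ f : Mat n → ℝ, Four f → ∑ i, f (P i) = ∑ j, f (N j)) →
    -((1 / 2 + ε) * p * ∑ j, ip (N j) (N j)) ≤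
      ∑ i, X.D (P i) (P i) - ∑ j, X.D (N j) (N j) := by
  -- the small epsilon
  set e : ℝ := min ε (1 / 10) with he
  have he0 : 0 < e := lt_min hε (by norm_num)
  have he1 : e ≤ ε := min_le_left _ _
  have he2 : e ≤ 1 / 10 := min_le_right _ _
  obtain ⟨p1, hp1⟩ := sit_false e he0 he2
  obtain ⟨p2, hp2⟩ := eig_pair (e / 2) (by positivity)
  obtain ⟨p3, hp3⟩ := eig_count (e ^ 2 / 1000) (by positivity)
  refine ⟨max (max p1 p2) (max p3 (1000 / e ^ 2)), ?_⟩
  intro n p H _ _ _ X ι κ _ _ P N hp0 hp hP hN hbal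
  have hpp1 : p1 ≤ p := le_trans (le_trans (le_max_left _ _) (le_max_left _ _)) hp0
  have hpp2 : p2 ≤ p := le_trans (le_trans (le_max_right _ _) (le_max_left _ _)) hp0
  have hpp3 : p3 ≤ p := le_trans (le_trans (le_max_left _ _) (le_max_right _ _)) hp0
  have hpp4 : 1000 / e ^ 2 ≤ p := le_trans (le_trans (le_max_right _ _) (le_max_right _ _)) hp0
  set S : ℝ := ∑ j, ip (N j) (N j) with hS
  have hS0 : 0 ≤ S := Finset.sum_nonneg fun j _ => ip_self_nonneg _
  -- it is enough to prove the bound for `e`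
  suffices hmain : -((1 / 2 + e) * p * S) ≤ ∑ i, X.D (P i) (P i) - ∑ j, X.D (N j) (N j) by
    have h1 : (1 / 2 + e) * p * S ≤ (1 / 2 + ε) * p * S := by
      have : (1 / 2 + e) * p ≤ (1 / 2 + ε) * p :=
        mul_le_mul_of_nonneg_right (by linarith) hp.le
      exact mul_le_mul_of_nonneg_right this hS0
    linarith
  obtain ⟨m, E, d, heig, hanti⟩ := exists_eig X
  have hDP : 0 ≤ ∑ i, X.D (P i) (P i) := Finset.sum_nonneg fun i _ => X.D_nonneg _
  rcases Nat.eq_zero_or_pos m with hm | hm
  · subst hm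
    have hz : ∀ j, N j = 0 := by
      intro j
      have := heig.complete (N j) (hN j)
      simpa using this
    have h1 : ∑ j, X.D (N j) (N j) = 0 := by
      refine Finset.sum_eq_zero fun j _ => ?_
      rw [hz j]
      simp [FormData.D]
    have h2 : 0 ≤ (1 / 2 + e) * p * S := by positivity
    rw [h1]
    linarith
  set i0 : Fin m := ⟨0, hm⟩ with hi0
  have hmax : ∀ i, d i ≤ d i0 := by
    intro i
    exact hanti (Fin.mk_le_of_le_val (Nat.zero_le _))
  -- negative part bounded by `d i0 * S`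
  have hDN : ∑ j, X.D (N j) (N j) ≤ d i0 * S := by
    rw [hS, Finset.mul_sum]
    exact Finset.sum_le_sum fun j _ => heig.D_le_of (hN j) fun i _ => hmax i
  by_cases hlam : d i0 ≤ (1 / 2 + e) * p
  · have h1 : d i0 * S ≤ (1 / 2 + e) * p * S := mul_le_mul_of_nonneg_right hlam hS0
    linarith
  push Not at hlam
  rcases hS0.eq_or_lt with hSz | hSpos
  · rw [← hSz] at hDN ⊢
    simp only [mul_zero, neg_zero] at hDN ⊢
    linarith
  by_contra hcon
  push Not at hcon
  have hlam0 : 0 < d i0 := by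
    have : 0 < (1 / 2 + e) * p := by positivity
    linarith
  have hhalf : p / 2 ≤ d i0 := by
    have : p / 2 ≤ (1 / 2 + e) * p := by nlinarith
    linarith
  -- rotation
  obtain ⟨O, t, hO, hd, ht⟩ := exists_diag (E i0) (heig.skew i0)
  have heig' := heig.conj O hO
  have hop := heig'.opLe hlam0
  have hnorm : ip (O.transpose * E i0 * O) (O.transpose * E i0 * O) = 1 := by
    rw [ip_conj hO, heig.orth]
    simp
  obtain ⟨J, a, hframe⟩ := exists_frame (O.transpose * E i0 * O) (heig'.skew i0) t ht hd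
    (d i0) hlam0 hnorm hop
  set r : ℝ := 1 / √S with hr
  have hsq : 0 < √S := Real.sqrt_pos.2 hSpos
  have hr0 : 0 < r := by positivity
  have hr2 : r ^ 2 * S = 1 := by
    rw [hr, div_pow, one_pow, Real.sq_sqrt hS0]
    field_simp
  have hOO : ∀ L : Mat n, O * (O.transpose * L * O) * O.transpose = L := by
    intro L
    calc O * (O.transpose * L * O) * O.transpose
        = (O * O.transpose) * L * (O * O.transpose) := by simp only [Matrix.mul_assoc]
      _ = L := by rw [hO.2]; simp
  refine hp1 n p H (X.conj O hO) m (fun i => O.transpose * E i * O) d i0 J a ι κ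
    (fun i => O.transpose * (r • P i) * O) (fun j => O.transpose * (r • N j) * O) hpp1
    (hp3 n p H X m E d hpp3 hp heig) ?_
  refine
    { eig := heig'
      frame := hframe
      hp := hpp4
      eps_pos := he0
      eps_le := he2
      max := hmax
      lam_gt := hlam
      lam2 := ?_
      skP := fun i => Skew.conj O (Skew.smul r (hP i))
      skN := fun j => Skew.conj O (Skew.smul r (hN j))
      bal := ?_
      trN := ?_
      contra := ?_ }
  · intro i hi
    exact hp2 n p H X m E d hpp2 hp heig i0 hhalf i hi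
  · intro f hf
    have hg := hf.pull (√r • O.transpose)
    have e1 : ∀ L : Mat n, (√r • O.transpose) * L * (√r • O.transpose).transpose =
        O.transpose * (r • L) * O := by
      intro L
      rw [Matrix.transpose_smul, Matrix.transpose_transpose, Matrix.smul_mul, Matrix.smul_mul,
        Matrix.mul_smul, smul_smul, Real.mul_self_sqrt hr0.le, Matrix.mul_smul, Matrix.smul_mul]
    have := hbal _ hg
    simp only [e1] at this
    exact this
  · have e1 : ∀ j, ip (O.transpose * (r • N j) * O) (O.transpose * (r • N j) * O) =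
        r ^ 2 * ip (N j) (N j) := by
      intro j
      rw [ip_conj hO, ip_smul_left, ip_smul_right]
      ring
    simp only [e1]
    rw [← Finset.mul_sum]
    exact hr2
  · have e1 : ∀ L : Mat n, (X.conj O hO).D (O.transpose * (r • L) * O)
        (O.transpose * (r • L) * O) = r ^ 2 * X.D L L := by
      intro L
      rw [FormData.conj_D, hOO, D_smul_smul]
    simp only [e1]
    rw [← Finset.mul_sum, ← Finset.mul_sum, ← mul_sub]
    calc r ^ 2 * (∑ i, X.D (P i) (P i) - ∑ j, X.D (N j) (N j))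
        < r ^ 2 * (-((1 / 2 + e) * p * S)) := mul_lt_mul_of_pos_left hcon (by positivity)
      _ = -((1 / 2 + e) * p) * (r ^ 2 * S) := by ring
      _ = -((1 / 2 + e) * p) := by rw [hr2, mul_one]

end HopfBig
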