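import Pool.Agent.Lib.MP_4a593f_gt.Big.G2
import Pool.Agent.Lib.MP_4a593f_gt.Big.G3

/-! Task G4: norm bounds for `rho` in degree `p`.

(1) `skew_decomp`: `L = ∑ (l_i/2) g_i ∧ f_i`, so
`‖ρ_L φ‖ ≤ (1/2) ∑ l_i ‖ρ_{g_i∧f_i} φ‖ ≤ (1/2) √(∑ l_i²) √(∑_{l_i≠0} ‖ρ_{g_i∧f_i}φ‖²)`
and by `norm_rho_wd_le`, `bessel_anv`, `sum_norm_an` the last sum is `≤ 2p‖φ‖²`;
`∑ l_i² = 2 ip L L`.
(2) `⟨ρ_L φ, ξ⟩ = ∑_ab L_ab ⟨an b φ, an a ξ⟩ = ∑_s ∑_ab L_ab (an b φ)(s) (an a ξ)(s)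
 ≤ r ∑_s |x_s||y_s| ≤ r √p‖φ‖ √p‖ξ‖`, with `ξ = ρ_L φ`. -/

open scoped BigOperators

namespace HopfBig

variable {n : ℕ}

theorem rho_bd {p : ℕ} {φ : Fk n} (h : Deg p φ) {L : Mat n} (hL : Skew L) :
    ‖rho L φ‖ ^ 2 ≤ p * ip L L * ‖φ‖ ^ 2 := by
  classical
  obtain ⟨f, g, l, hl0, hf, hg, hfg, hLe, hl2⟩ := skew_decomp L hL
  have hf1 : ∀ i, ∑ k, f i k ^ 2 = 1 := by
    intro i
    have h1 := hf i i
    rw [if_pos rfl] at h1
    rw [← h1]
    exact Finset.sum_congr rfl fun k _ => sq _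
  have hg1 : ∀ i, l i ≠ 0 → ∑ k, g i k ^ 2 = 1 := by
    intro i hi
    have h1 := hg i i
    rw [if_pos ⟨rfl, hi⟩] at h1
    rw [← h1]
    exact Finset.sum_congr rfl fun k _ => sq _
  set r : Fin n → ℝ := fun i => if l i = 0 then 0 else ‖rho (wd (g i) (f i)) φ‖ with hr
  have hr0 : ∀ i, 0 ≤ r i := by
    intro i
    simp only [hr]
    split_ifs
    · exact le_rfl
    · exact norm_nonneg _
  have hr2 : ∀ i, r i ^ 2 ≤ ‖anv (g i) φ‖ ^ 2 + ‖anv (f i) φ‖ ^ 2 := by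
    intro i
    simp only [hr]
    split_ifs with hi
    · rw [zero_pow two_ne_zero]
      positivity
    · refine norm_rho_wd_le _ _ (hg1 i hi) (hf1 i) ?_ φ
      rw [← hfg i]
      exact Finset.sum_congr rfl fun k _ => mul_comm _ _
  have hn : ‖rho L φ‖ ≤ (1 / 2) * ∑ i, l i * r i := by
    have h1 : rho L φ = ∑ i, (l i / 2) • rho (wd (g i) (f i)) φ := by
      conv_lhs => rw [hLe]
      rw [map_sum, LinearMap.sum_apply]
      refine Finset.sum_congr rfl fun i _ => ?_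
      rw [map_smul, LinearMap.smul_apply]
    rw [h1, Finset.mul_sum]
    refine (norm_sum_le _ _).trans (Finset.sum_le_sum fun i _ => ?_)
    rw [norm_smul, Real.norm_eq_abs, abs_of_nonneg (div_nonneg (hl0 i) (by norm_num))]
    simp only [hr]
    split_ifs with hi
    · rw [hi]
      simp
    · apply le_of_eq
      ring
  have hcs : (∑ i, l i * r i) ^ 2 ≤ (∑ i, l i ^ 2) * ∑ i, r i ^ 2 :=
    Finset.sum_mul_sq_le_sq_mul_sq _ _ _
  have hA := sum_norm_an h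
  have hB1 := bessel_anv g (fun i => l i ≠ 0) hg φ
  have hB2 := bessel_anv f (fun _ => True) (fun i j => by
    rw [hf i j]
    simp only [and_true]) φ
  have hr3 : ∑ i, r i ^ 2 ≤ 2 * (p * ‖φ‖ ^ 2) := by
    refine (Finset.sum_le_sum fun i _ => hr2 i).trans ?_
    rw [Finset.sum_add_distrib]
    linarith
  have hip : 0 ≤ ∑ i, l i ^ 2 := Finset.sum_nonneg fun i _ => sq_nonneg _
  have hpos : 0 ≤ ∑ i, l i * r i := Finset.sum_nonneg fun i _ => mul_nonneg (hl0 i) (hr0 i)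
  have h2 : ‖rho L φ‖ ^ 2 ≤ ((1 / 2) * ∑ i, l i * r i) ^ 2 :=
    pow_le_pow_left₀ (norm_nonneg _) hn 2
  have h3 : (∑ i, l i ^ 2) * ∑ i, r i ^ 2 ≤ (∑ i, l i ^ 2) * (2 * (p * ‖φ‖ ^ 2)) :=
    mul_le_mul_of_nonneg_left hr3 hip
  rw [hl2] at h3 hcs
  nlinarith

private theorem G4_sum_apply {α : Type} (s : Finset α) (f : α → Fk n) (t : Finset (Fin n)) :
    (∑ a ∈ s, f a) t = ∑ a ∈ s, f a t := by
  classical
  induction s using Finset.induction_on with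
  | empty => simp
  | insert a s ha ih => rw [Finset.sum_insert ha, Finset.sum_insert ha, ← ih, PiLp.add_apply]

theorem rho_bdop {p : ℕ} {φ : Fk n} (h : Deg p φ) {L : Mat n} {r : ℝ} (hr : OpLe L r) :
    ‖rho L φ‖ ≤ p * r * ‖φ‖ := by
  obtain ⟨hr0, hop⟩ := hr
  set ξ := rho L φ with hξ
  have hξd : Deg p ξ := h.rho L
  have hA := sum_norm_an h
  have hB := sum_norm_an hξd
  -- the pairing
  have h1 : ‖ξ‖ ^ 2 = ∑ s, ∑ a, (an a ξ) s * (L.mulVec (fun b => (an b φ) s)) a := by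
    have h2 : ‖ξ‖ ^ 2 = inner ℝ (rho L φ) ξ := by
      rw [← hξ, real_inner_self_eq_norm_sq]
    rw [h2, rho_apply, sum_inner]
    simp only [sum_inner, real_inner_smul_left, inner_cr]
    have h3 : ∀ a b, inner ℝ (an b φ) (an a ξ) = ∑ s, (an a ξ) s * (an b φ) s := by
      intro a b
      rw [PiLp.inner_apply]
      refine Finset.sum_congr rfl fun s _ => ?_
      simp [RCLike.inner_apply]
    simp only [h3, Matrix.mulVec, dotProduct, Finset.mul_sum]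
    have h4 : ∀ a : Fin n, ∑ b, ∑ s, L a b * ((an a ξ) s * (an b φ) s) =
        ∑ s, ∑ b, (an a ξ) s * (L a b * (an b φ) s) := by
      intro a
      rw [Finset.sum_comm]
      exact Finset.sum_congr rfl fun s _ => Finset.sum_congr rfl fun b _ => by ring
    simp only [h4]
    rw [Finset.sum_comm]
  set Xs : Finset (Fin n) → ℝ := fun s => ∑ a, ((an a ξ) s) ^ 2 with hXs
  set Ys : Finset (Fin n) → ℝ := fun s => ∑ a, ((an a φ) s) ^ 2 with hYs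
  have hX0 : ∀ s, 0 ≤ Xs s := fun s => Finset.sum_nonneg fun a _ => sq_nonneg _
  have hY0 : ∀ s, 0 ≤ Ys s := fun s => Finset.sum_nonneg fun a _ => sq_nonneg _
  have hXsum : ∑ s, Xs s = p * ‖ξ‖ ^ 2 := by
    rw [← hB]
    simp only [hXs]
    rw [Finset.sum_comm]
    exact Finset.sum_congr rfl fun a _ => (EuclideanSpace.real_norm_sq_eq _).symm
  have hYsum : ∑ s, Ys s = p * ‖φ‖ ^ 2 := by
    rw [← hA]
    simp only [hYs]
    rw [Finset.sum_comm]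
    exact Finset.sum_congr rfl fun a _ => (EuclideanSpace.real_norm_sq_eq _).symm
  have h2 : ∀ s, ∑ a, (an a ξ) s * (L.mulVec (fun b => (an b φ) s)) a ≤
      r * (√(Xs s) * √(Ys s)) := by
    intro s
    have h3 : (∑ a, (an a ξ) s * (L.mulVec (fun b => (an b φ) s)) a) ^ 2 ≤
        (∑ a, ((an a ξ) s) ^ 2) * ∑ a, ((L.mulVec (fun b => (an b φ) s)) a) ^ 2 :=
      Finset.sum_mul_sq_le_sq_mul_sq _ _ _
    have h4 := hop (fun b => (an b φ) s)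
    have h5 : (∑ a, (an a ξ) s * (L.mulVec (fun b => (an b φ) s)) a) ^ 2 ≤
        (r * (√(Xs s) * √(Ys s))) ^ 2 := by
      refine h3.trans ?_
      rw [mul_pow, mul_pow, Real.sq_sqrt (hX0 s), Real.sq_sqrt (hY0 s)]
      have h6 := mul_le_mul_of_nonneg_left h4 (hX0 s)
      refine h6.trans (le_of_eq ?_)
      simp only [hYs]
      ring
    exact le_of_sq_le_sq h5 (by positivity)
  have h3 : ‖ξ‖ ^ 2 ≤ r * (√(p * ‖ξ‖ ^ 2) * √(p * ‖φ‖ ^ 2)) := by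
    refine h1.le.trans ((Finset.sum_le_sum fun s _ => h2 s).trans ?_)
    rw [← Finset.mul_sum]
    refine mul_le_mul_of_nonneg_left ?_ hr0
    rw [← hXsum, ← hYsum]
    exact Real.sum_sqrt_mul_sqrt_le _ hX0 hY0
  have hp0 : (0 : ℝ) ≤ p := Nat.cast_nonneg p
  rw [Real.sqrt_mul hp0, Real.sqrt_mul hp0, Real.sqrt_sq (norm_nonneg _),
    Real.sqrt_sq (norm_nonneg _)] at h3
  have h4 : √(p : ℝ) * √(p : ℝ) = p := Real.mul_self_sqrt hp0
  have h5 : r * (√(p : ℝ) * ‖ξ‖ * (√(p : ℝ) * ‖φ‖)) = p * r * ‖φ‖ * ‖ξ‖ := by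
    calc r * (√(p : ℝ) * ‖ξ‖ * (√(p : ℝ) * ‖φ‖)) = (√(p : ℝ) * √(p : ℝ)) * r * ‖φ‖ * ‖ξ‖ := by ring
      _ = _ := by rw [h4]
  rw [h5, sq] at h3
  rcases (norm_nonneg ξ).eq_or_lt with h6 | h6
  · rw [← h6]
    positivity
  · exact le_of_mul_le_mul_right h3 h6

end HopfBig
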