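import Pool.Agent.Lib.MP_4a593f_gt.Big.G3

/-! Task G5: `F = D + Q - |.|²` is a 4-form.

Write `g(a,b,c,d) = ⟨an b (an a ψ), an c (an d ψ)⟩`.  It is antisymmetric in `a,b` and in `c,d`,
and `g(a,b,c,d) = g(c,d,a,b)` (real inner product).  By the anticommutation relations, for skew `L`:
`‖ρ_L ψ‖² = ∑ L_ab L_ad ⟨an b ψ, an d ψ⟩ - ∑ L_ab L_cd g(b,c,a,d)`,
`‖L∧ψ‖² + ‖i_L ψ‖² = |L|²‖ψ‖² - ∑ L_ab L_ad ⟨an b ψ, an d ψ⟩ + (1/2) ∑ L_ab L_cd g(c,d,b,a)`.
Hence the sum minus `ip L L` (`‖ψ‖=1`) is `∑ t_abcd L_ab L_cd` with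
`t_abcd = -(1/2) g(a,b,c,d) - (1/2) g(b,c,a,d) + (1/2) g(a,c,b,d)`, which is totally
antisymmetric. -/

open scoped BigOperators

namespace HopfBig

variable {n : ℕ}

namespace G5aux

/-- contraction of a 4-tensor with `L ⊗ L` -/
noncomputable def Ph (L : Mat n) (f : Fin n → Fin n → Fin n → Fin n → ℝ) : ℝ :=
  ∑ a, ∑ b, ∑ c, ∑ d, f a b c d * L a b * L c d

theorem Ph_add (L : Mat n) (f g : Fin n → Fin n → Fin n → Fin n → ℝ) :
    Ph L (fun a b c d => f a b c d + g a b c d) = Ph L f + Ph L g := by
  unfold Ph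
  simp only [add_mul, Finset.sum_add_distrib]

theorem Ph_sub (L : Mat n) (f g : Fin n → Fin n → Fin n → Fin n → ℝ) :
    Ph L (fun a b c d => f a b c d - g a b c d) = Ph L f - Ph L g := by
  unfold Ph
  simp only [sub_mul, Finset.sum_sub_distrib]

theorem Ph_smul (L : Mat n) (r : ℝ) (f : Fin n → Fin n → Fin n → Fin n → ℝ) :
    Ph L (fun a b c d => r * f a b c d) = r * Ph L f := by
  unfold Ph
  simp only [mul_assoc, Finset.mul_sum]

theorem Ph_swap1 {L : Mat n} (hL : Skew L) (f : Fin n → Fin n → Fin n → Fin n → ℝ) :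
    Ph L (fun a b c d => f b a c d) = -Ph L f := by
  unfold Ph
  rw [Finset.sum_comm, ← Finset.sum_neg_distrib]
  refine Finset.sum_congr rfl fun a _ => ?_
  rw [← Finset.sum_neg_distrib]
  refine Finset.sum_congr rfl fun b _ => ?_
  rw [← Finset.sum_neg_distrib]
  refine Finset.sum_congr rfl fun c _ => ?_
  rw [← Finset.sum_neg_distrib]
  refine Finset.sum_congr rfl fun d _ => ?_
  rw [hL a b]; ring

theorem Ph_swap2 {L : Mat n} (hL : Skew L) (f : Fin n → Fin n → Fin n → Fin n → ℝ) :
    Ph L (fun a b c d => f a b d c) = -Ph L f := by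
  unfold Ph
  rw [← Finset.sum_neg_distrib]
  refine Finset.sum_congr rfl fun a _ => ?_
  rw [← Finset.sum_neg_distrib]
  refine Finset.sum_congr rfl fun b _ => ?_
  rw [Finset.sum_comm, ← Finset.sum_neg_distrib]
  refine Finset.sum_congr rfl fun c _ => ?_
  rw [← Finset.sum_neg_distrib]
  refine Finset.sum_congr rfl fun d _ => ?_
  rw [hL c d]; ring

theorem inner_dsum (L : Mat n) (x : Fin n → Fin n → Fk n) :
    inner ℝ (∑ a, ∑ b, L a b • x a b) (∑ a, ∑ b, L a b • x a b) =
      Ph L (fun a b c d => inner ℝ (x a b) (x c d)) := by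
  unfold Ph
  simp only [sum_inner, real_inner_smul_left]
  simp only [inner_sum, real_inner_smul_right]
  refine Finset.sum_congr rfl fun a _ => Finset.sum_congr rfl fun b _ => ?_
  rw [Finset.mul_sum]
  refine Finset.sum_congr rfl fun c _ => ?_
  rw [Finset.mul_sum]
  refine Finset.sum_congr rfl fun d _ => ?_
  ring

/-- `K(a,b;c,d)` -/
noncomputable def K (ψ : Fk n) (a b c d : Fin n) : ℝ :=
  inner ℝ (an b (an a ψ)) (an d (an c ψ))

noncomputable def N (ψ : Fk n) (a b : Fin n) : ℝ := inner ℝ (an a ψ) (an b ψ)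

theorem K_swap1 (ψ : Fk n) (a b c d : Fin n) : K ψ b a c d = -K ψ a b c d := by
  unfold K
  rw [an_an a b, inner_neg_left]

theorem K_swap2 (ψ : Fk n) (a b c d : Fin n) : K ψ a b d c = -K ψ a b c d := by
  unfold K
  rw [an_an c d, inner_neg_right]

theorem K_pair (ψ : Fk n) (a b c d : Fin n) : K ψ c d a b = K ψ a b c d := by
  unfold K
  rw [real_inner_comm]

theorem N_symm (ψ : Fk n) (a b : Fin n) : N ψ b a = N ψ a b := by
  unfold N
  rw [real_inner_comm]

theorem inner_ca (ψ : Fk n) (a b c d : Fin n) :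
    inner ℝ (cr a (an b ψ)) (cr c (an d ψ)) =
      (if a = c then N ψ b d else 0) + K ψ a d b c := by
  rw [inner_cr, an_cr, inner_sub_right, ← inner_an]
  have h1 : K ψ a d b c = -inner ℝ (an c (an b ψ)) (an a (an d ψ)) := by
    unfold K
    rw [an_an d a, inner_neg_left, real_inner_comm]
  rw [h1]
  split_ifs with h
  · unfold N; ring
  · rw [inner_zero_right]; ring

theorem inner_cc (ψ : Fk n) (hψ : ‖ψ‖ = 1) (a b c d : Fin n) :
    inner ℝ (cr a (cr b ψ)) (cr c (cr d ψ)) =
      (if a = c then (if b = d then 1 else 0) else 0)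
      - (if b = c then (if a = d then 1 else 0) else 0)
      - (if a = c then N ψ b d else 0) + (if b = c then N ψ a d else 0)
      + (if a = d then N ψ b c else 0) - (if b = d then N ψ a c else 0) + K ψ a b c d := by
  have h0 : inner ℝ ψ ψ = (1 : ℝ) := by
    rw [real_inner_self_eq_norm_sq, hψ]; norm_num
  -- `⟨cr x ψ, cr y ψ⟩ = [x = y] - N y x`
  have h1 : ∀ x y : Fin n, inner ℝ (cr x ψ) (cr y ψ) =
      (if x = y then (1 : ℝ) else 0) - N ψ x y := by
    intro x y
    rw [inner_cr, an_cr, inner_sub_right, ← inner_an]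
    have : inner ℝ (an y ψ) (an x ψ) = N ψ x y := by unfold N; rw [real_inner_comm]
    rw [this]
    split_ifs with h
    · rw [h0]
    · rw [inner_zero_right]
  -- `⟨cr b ψ, cr c (an a (cr d ψ))⟩`
  have h2 : inner ℝ (cr b ψ) (cr c (an a (cr d ψ))) =
      (if a = d then inner ℝ (cr b ψ) (cr c ψ) else 0)
        - inner ℝ (cr b ψ) (cr c (cr d (an a ψ))) := by
    rw [an_cr a d ψ, map_sub, inner_sub_right]
    split_ifs with h
    · rfl
    · rw [map_zero, inner_zero_right]
  have h3 : inner ℝ (cr b ψ) (cr c (cr d (an a ψ))) =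
      (if b = c then N ψ a d else 0) - (if b = d then N ψ a c else 0) + K ψ a b c d := by
    rw [inner_cr, an_cr b c, inner_sub_right]
    have h4 : inner ℝ ψ (cr c (an b (cr d (an a ψ)))) =
        (if b = d then N ψ a c else 0) - K ψ a b c d := by
      rw [an_cr b d, map_sub, inner_sub_right]
      have h5 : inner ℝ ψ (cr c (cr d (an b (an a ψ)))) = K ψ a b c d := by
        rw [← inner_an, ← inner_an]
        unfold K
        rw [real_inner_comm]
      rw [h5]
      split_ifs with h
      · rw [← inner_an]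
        have : inner ℝ (an c ψ) (an a ψ) = N ψ a c := by unfold N; rw [real_inner_comm]
        rw [this]
      · rw [map_zero, inner_zero_right]
    rw [h4]
    have h6 : inner ℝ ψ (if b = c then cr d (an a ψ) else 0) =
        (if b = c then N ψ a d else 0) := by
      split_ifs with h
      · rw [← inner_an]
        unfold N; rw [real_inner_comm]
      · rw [inner_zero_right]
    rw [h6]; ring
  rw [inner_cr, an_cr, inner_sub_right, h2, h3, h1 b c]
  have h7 : inner ℝ (cr b ψ) (if a = c then cr d ψ else 0) =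
      (if a = c then ((if b = d then (1 : ℝ) else 0) - N ψ b d) else 0) := by
    split_ifs with h h'
    · rw [h1, if_pos h']
    · rw [h1, if_neg h']
    · rw [inner_zero_right]
  rw [h7]
  split_ifs <;> ring

end G5aux

open G5aux in
theorem four_form (ψ : Fk n) (hψ : ‖ψ‖ = 1) :
    Four (fun L : Mat n => inner ℝ (rho L ψ) (rho L ψ) +
      (inner ℝ (wdg L ψ) (wdg L ψ) + inner ℝ (ctr L ψ) (ctr L ψ)) - ip L L) := by
  classical
  refine ⟨fun a b c d => (1 / 2) * (K ψ a b c d - K ψ a c b d + K ψ a d b c), ?_, ?_⟩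
  · refine ⟨?_, ?_, ?_⟩
    · intro a b c d
      simp only
      rw [K_swap1 ψ a b c d, K_pair ψ a d b c, K_pair ψ a c b d]
      ring
    · intro a b c d
      simp only
      rw [K_swap2 ψ a d b c]
      ring
    · intro a b c d
      simp only
      rw [K_swap2 ψ a b c d]
      ring
  · intro L hL
    have e1 : inner ℝ (rho L ψ) (rho L ψ) =
        Ph L (fun a b c d => if a = c then N ψ b d else 0) +
          Ph L (fun a b c d => K ψ a d b c) := by
      rw [rho_apply, inner_dsum L (fun a b => cr a (an b ψ)), ← Ph_add]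
      simp only [inner_ca]
    have e2 : inner ℝ (ctr L ψ) (ctr L ψ) = (1 / 4) * Ph L (fun a b c d => K ψ a b c d) := by
      have h1 : ctr L ψ = (1 / 2 : ℝ) • ∑ a, ∑ b, L a b • an b (an a ψ) := by
        simp only [ctr, LinearMap.coe_mk, AddHom.coe_mk, LinearMap.smul_apply,
          LinearMap.sum_apply, LinearMap.comp_apply]
      rw [h1, real_inner_smul_left, real_inner_smul_right,
        inner_dsum L (fun a b => an b (an a ψ))]
      have : (fun a b c d => inner ℝ (an b (an a ψ)) (an d (an c ψ))) =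
          (fun a b c d => K ψ a b c d) := rfl
      rw [this]; ring
    have e3 : inner ℝ (wdg L ψ) (wdg L ψ) = (1 / 4) *
        (Ph L (fun a b c d => (if a = c then (if b = d then 1 else 0) else 0))
        - Ph L (fun a b c d => (if b = c then (if a = d then 1 else 0) else 0))
        - Ph L (fun a b c d => (if a = c then N ψ b d else 0))
        + Ph L (fun a b c d => (if b = c then N ψ a d else 0))
        + Ph L (fun a b c d => (if a = d then N ψ b c else 0))
        - Ph L (fun a b c d => (if b = d then N ψ a c else 0))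
        + Ph L (fun a b c d => K ψ a b c d)) := by
      have h1 : wdg L ψ = (1 / 2 : ℝ) • ∑ a, ∑ b, L a b • cr a (cr b ψ) := by
        simp only [wdg, LinearMap.coe_mk, AddHom.coe_mk, LinearMap.smul_apply,
          LinearMap.sum_apply, LinearMap.comp_apply]
      rw [h1, real_inner_smul_left, real_inner_smul_right,
        inner_dsum L (fun a b => cr a (cr b ψ))]
      simp only [inner_cc ψ hψ]
      rw [← Ph_sub, ← Ph_sub, ← Ph_add, ← Ph_add, ← Ph_sub, ← Ph_add]
      ring
    have s1 : Ph L (fun a b c d => (if b = c then (if a = d then (1 : ℝ) else 0) else 0)) =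
        -Ph L (fun a b c d => (if a = c then (if b = d then 1 else 0) else 0)) :=
      Ph_swap1 hL (fun a b c d => (if a = c then (if b = d then (1 : ℝ) else 0) else 0))
    have s2 : Ph L (fun a b c d => (if b = c then N ψ a d else 0)) =
        -Ph L (fun a b c d => (if a = c then N ψ b d else 0)) :=
      Ph_swap1 hL (fun a b c d => (if a = c then N ψ b d else 0))
    have s3 : Ph L (fun a b c d => (if a = d then N ψ b c else 0)) =
        -Ph L (fun a b c d => (if a = c then N ψ b d else 0)) :=
      Ph_swap2 hL (fun a b c d => (if a = c then N ψ b d else 0))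
    have s4 : Ph L (fun a b c d => (if b = d then N ψ a c else 0)) =
        -Ph L (fun a b c d => (if a = d then N ψ b c else 0)) :=
      Ph_swap1 hL (fun a b c d => (if a = d then N ψ b c else 0))
    have s5 : Ph L (fun a b c d => K ψ a c b d) = -Ph L (fun a b c d => K ψ a d b c) :=
      Ph_swap2 hL (fun a b c d => K ψ a d b c)
    have e4 : Ph L (fun a b c d => (if a = c then (if b = d then (1 : ℝ) else 0) else 0)) =
        2 * ip L L := by
      unfold Ph ip
      rw [← mul_assoc, show (2 : ℝ) * (1 / 2) = 1 by norm_num, one_mul]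
      refine Finset.sum_congr rfl fun a _ => Finset.sum_congr rfl fun b _ => ?_
      rw [Finset.sum_eq_single a]
      · rw [Finset.sum_eq_single b]
        · simp
        · intro d _ hd
          simp [Ne.symm hd]
        · intro hb; exact absurd (Finset.mem_univ b) hb
      · intro c _ hc
        simp [Ne.symm hc]
      · intro ha; exact absurd (Finset.mem_univ a) ha
    have e5 : (∑ a, ∑ b, ∑ c, ∑ d, (1 / 2) * (K ψ a b c d - K ψ a c b d + K ψ a d b c) *
        L a b * L c d) = (1 / 2) * (Ph L (fun a b c d => K ψ a b c d)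
          - Ph L (fun a b c d => K ψ a c b d) + Ph L (fun a b c d => K ψ a d b c)) := by
      rw [← Ph_sub, ← Ph_add, ← Ph_smul]
      rfl
    simp only
    rw [e5, e1, e2, e3, s1, s4, s2, s3, s5, e4]
    ring

end HopfBig
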