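import Pool.Agent.Lib.MP_4a593f_gt.Big.G4
import Pool.Agent.Lib.MP_4a593f_gt.Big.G5

/-! Task G6: the form data of a unit `p`-form.  `ρ = rho ∘ pr p`; use `pr_rho`, `inner_pr`,
`norm_pr_le`, `rho_bd`, `rho_bdop`, `four_form`. -/

open scoped BigOperators

namespace HopfBig

variable {n : ℕ}

/-- `Q(L,M) = ⟨L∧ψ, M∧ψ⟩ + ⟨i_L ψ, i_M ψ⟩` -/
noncomputable def QForm (ψ : Fk n) : Mat n →ₗ[ℝ] Mat n →ₗ[ℝ] ℝ :=
  LinearMap.mk₂ ℝ (fun L M => inner ℝ (wdg L ψ) (wdg M ψ) + inner ℝ (ctr L ψ) (ctr M ψ))
    (by intro a b c; simp only [map_add, LinearMap.add_apply, inner_add_left]; ring)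
    (by intro r a b; simp only [map_smul, LinearMap.smul_apply, real_inner_smul_left,
          smul_eq_mul]; ring)
    (by intro a b c; simp only [map_add, LinearMap.add_apply, inner_add_right]; ring)
    (by intro r a b; simp only [map_smul, LinearMap.smul_apply, real_inner_smul_right,
          smul_eq_mul]; ring)

theorem QForm_apply (ψ : Fk n) (L M : Mat n) :
    QForm ψ L M = inner ℝ (wdg L ψ) (wdg M ψ) + inner ℝ (ctr L ψ) (ctr M ψ) := rfl

private theorem pr_pr (p : ℕ) (x : Fk n) : pr p (pr p x) = pr p x := pr_of_deg (deg_pr p x)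

/-- the data of a unit form of degree `p` -/
noncomputable def formData (p : ℕ) (ψ : Fk n) (hd : Deg p ψ) (hψ : ‖ψ‖ = 1) :
    FormData n (p : ℝ) (Fk n) where
  ρ := LinearMap.mk₂ ℝ (fun L f => rho L (pr p f))
    (by intro a b c; simp only [map_add, LinearMap.add_apply])
    (by intro r a b; simp only [map_smul, LinearMap.smul_apply])
    (by intro a b c; simp only [map_add])
    (by intro r a b; simp only [map_smul])
  ψ := ψ
  Q := QForm ψ
  norm_ψ := hψ
  skew := by
    intro L hL x y
    simp only [LinearMap.mk₂_apply]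
    rw [rho_skew hL, inner_pr, pr_rho]
  lie := by
    intro L M hL hM x
    simp only [LinearMap.mk₂_apply]
    rw [pr_rho, pr_rho, pr_pr, rho_lie]
  bd := by
    intro L hL x
    simp only [LinearMap.mk₂_apply]
    refine (rho_bd (deg_pr p x) hL).trans ?_
    apply mul_le_mul_of_nonneg_left
    · exact pow_le_pow_left₀ (norm_nonneg _) (norm_pr_le p x) 2
    · exact mul_nonneg (Nat.cast_nonneg p) (ip_self_nonneg L)
  bdop := by
    intro L r hL hr x
    simp only [LinearMap.mk₂_apply]
    refine (rho_bdop (deg_pr p x) hr).trans ?_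
    apply mul_le_mul_of_nonneg_left (norm_pr_le p x)
    exact mul_nonneg (Nat.cast_nonneg p) hr.1
  Qsymm := by
    intro L M
    rw [QForm_apply, QForm_apply, real_inner_comm, real_inner_comm (ctr L ψ)]
  Qpos := by
    intro L
    rw [QForm_apply]
    exact add_nonneg real_inner_self_nonneg real_inner_self_nonneg
  four := by
    have h := four_form ψ hψ
    simp only [LinearMap.mk₂_apply]
    rw [pr_of_deg hd]
    exact h

theorem formData_D (p : ℕ) (ψ : Fk n) (hd : Deg p ψ) (hψ : ‖ψ‖ = 1) (L M : Mat n) :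
    (formData p ψ hd hψ).D L M = inner ℝ (rho L ψ) (rho M ψ) := by
  show inner ℝ (rho L (pr p ψ)) (rho M (pr p ψ)) = _
  rw [pr_of_deg hd]

end HopfBig
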