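import Pool.Agent.Lib.MP_4a593f_gt.Big.Defs

/-! Task A1: elementary properties of `ip`, `hs`, `Skew`, `br`.
Everything is finite sums; for skew matrices `ip A B = -(1/2) tr (A B)`. -/

open scoped BigOperators

namespace HopfBig

variable {n : ℕ}

theorem ip_symm (A B : Mat n) : ip A B = ip B A := by
  unfold ip
  simp only [mul_comm]

theorem ip_add_left (A B C : Mat n) : ip (A + B) C = ip A C + ip B C := by
  simp only [ip, Matrix.add_apply, add_mul, Finset.sum_add_distrib, mul_add]

theorem ip_add_right (A B C : Mat n) : ip A (B + C) = ip A B + ip A C := by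
  simp only [ip, Matrix.add_apply, Finset.sum_add_distrib, mul_add]

theorem ip_sub_right (A B C : Mat n) : ip A (B - C) = ip A B - ip A C := by
  simp only [ip, Matrix.sub_apply, Finset.sum_sub_distrib, mul_sub]

theorem ip_sub_left (A B C : Mat n) : ip (A - B) C = ip A C - ip B C := by
  simp only [ip, Matrix.sub_apply, sub_mul, Finset.sum_sub_distrib, mul_sub]

theorem ip_smul_left (r : ℝ) (A B : Mat n) : ip (r • A) B = r * ip A B := by
  simp only [ip, Matrix.smul_apply, smul_eq_mul, mul_assoc, ← Finset.mul_sum]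
  ring

theorem ip_smul_right (r : ℝ) (A B : Mat n) : ip A (r • B) = r * ip A B := by
  rw [ip_symm, ip_smul_left, ip_symm]

theorem ip_sum_right {m : Type} [Fintype m] (A : Mat n) (f : m → Mat n) :
    ip A (∑ i, f i) = ∑ i, ip A (f i) := by
  classical
  have h : ∀ s : Finset m, ip A (∑ i ∈ s, f i) = ∑ i ∈ s, ip A (f i) := by
    intro s
    induction s using Finset.induction_on with
    | empty => simp [ip]
    | insert a s ha ih => rw [Finset.sum_insert ha, Finset.sum_insert ha, ip_add_right, ih]
  exact h Finset.univ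

theorem ip_sum_left {m : Type} [Fintype m] (A : Mat n) (f : m → Mat n) :
    ip (∑ i, f i) A = ∑ i, ip (f i) A := by
  rw [ip_symm, ip_sum_right]
  exact Finset.sum_congr rfl fun i _ => ip_symm _ _

theorem two_ip_self (A : Mat n) : 2 * ip A A = hs A := by
  unfold ip hs
  simp only [← sq]
  ring

theorem hs_nonneg (A : Mat n) : 0 ≤ hs A :=
  Finset.sum_nonneg fun _ _ => Finset.sum_nonneg fun _ _ => sq_nonneg _

theorem ip_self_nonneg (A : Mat n) : 0 ≤ ip A A := by
  have h1 := two_ip_self A
  have h2 := hs_nonneg A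
  linarith

theorem ip_cauchy (A B : Mat n) : |ip A B| ≤ √(ip A A) * √(ip B B) := by
  rw [← Real.sqrt_mul (ip_self_nonneg A)]
  apply Real.abs_le_sqrt
  have h1 := Finset.sum_mul_sq_le_sq_mul_sq Finset.univ (fun q : Fin n × Fin n => A q.1 q.2)
    (fun q => B q.1 q.2)
  rw [Fintype.sum_prod_type, Fintype.sum_prod_type, Fintype.sum_prod_type] at h1
  unfold ip
  simp only [← sq]
  nlinarith

theorem Skew.add {A B : Mat n} (hA : Skew A) (hB : Skew B) : Skew (A + B) := by
  intro i j
  rw [Matrix.add_apply, Matrix.add_apply, hA i j, hB i j]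
  ring

theorem Skew.sub {A B : Mat n} (hA : Skew A) (hB : Skew B) : Skew (A - B) := by
  intro i j
  rw [Matrix.sub_apply, Matrix.sub_apply, hA i j, hB i j]
  ring

theorem Skew.neg {A : Mat n} (hA : Skew A) : Skew (-A) := by
  intro i j
  rw [Matrix.neg_apply, Matrix.neg_apply, hA i j]

theorem Skew.smul {A : Mat n} (r : ℝ) (hA : Skew A) : Skew (r • A) := by
  intro i j
  rw [Matrix.smul_apply, Matrix.smul_apply, hA i j, smul_neg]

theorem Skew.sum {m : Type} [Fintype m] {f : m → Mat n} (h : ∀ i, Skew (f i)) :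
    Skew (∑ i, f i) := by
  intro a b
  rw [Matrix.sum_apply, Matrix.sum_apply, ← Finset.sum_neg_distrib]
  exact Finset.sum_congr rfl fun i _ => h i a b

theorem Skew.transpose {A : Mat n} (hA : Skew A) : A.transpose = -A := by
  ext i j
  rw [Matrix.transpose_apply, Matrix.neg_apply, hA i j]

theorem skew_of_transpose {A : Mat n} (h : A.transpose = -A) : Skew A := by
  intro i j
  have h1 := congrFun (congrFun h i) j
  rwa [Matrix.transpose_apply, Matrix.neg_apply] at h1

theorem ip_eq_trace (A B : Mat n) : ip A B = (1 / 2) * (A.transpose * B).trace := by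
  unfold ip Matrix.trace
  congr 1
  rw [Finset.sum_comm]
  refine Finset.sum_congr rfl fun j _ => ?_
  rw [Matrix.diag_apply, Matrix.mul_apply]
  exact Finset.sum_congr rfl fun i _ => rfl

theorem Skew.br {A B : Mat n} (hA : Skew A) (hB : Skew B) : Skew (br A B) := by
  apply skew_of_transpose
  unfold HopfBig.br
  rw [Matrix.transpose_sub, Matrix.transpose_mul, Matrix.transpose_mul, hA.transpose,
    hB.transpose, neg_mul_neg, neg_mul_neg, neg_sub]

theorem Skew.wd (x y : Fin n → ℝ) : Skew (wd x y) := by
  intro i j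
  simp only [HopfBig.wd, Matrix.of_apply]
  ring

/-- congruence keeps skew matrices -/
theorem Skew.congr {A : Mat n} (g : Mat n) (hA : Skew A) : Skew (g * A * g.transpose) := by
  apply skew_of_transpose
  rw [Matrix.transpose_mul, Matrix.transpose_mul, Matrix.transpose_transpose, hA.transpose,
    neg_mul, mul_neg, Matrix.mul_assoc]

/-- invariance of `ip`: `-(1/2) tr (A [B, C]) = -(1/2) tr ([A, B] C)` -/
theorem ip_br {A B C : Mat n} (hA : Skew A) (hB : Skew B) (hC : Skew C) :
    ip A (br B C) = ip (br A B) C := by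
  have _ := hC
  rw [ip_eq_trace, ip_eq_trace, hA.transpose, (Skew.br hA hB).transpose]
  unfold br
  rw [neg_mul, neg_mul, Matrix.trace_neg, Matrix.trace_neg, mul_sub, sub_mul, Matrix.trace_sub,
    Matrix.trace_sub, ← Matrix.mul_assoc, ← Matrix.mul_assoc, Matrix.trace_mul_cycle A C B]

theorem br_self (A : Mat n) : br A A = 0 := by
  unfold br
  rw [sub_self]

theorem br_neg_comm (A B : Mat n) : br A B = -br B A := by
  unfold br
  rw [neg_sub]

/-- `ip` with a decomposable 2-form -/
theorem ip_wd {A : Mat n} (hA : Skew A) (x y : Fin n → ℝ) :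
    ip A (wd x y) = ∑ i, x i * (A.mulVec y) i := by
  have h1 : ∑ i, x i * (A.mulVec y) i = ∑ i, ∑ j, A i j * (x i * y j) := by
    refine Finset.sum_congr rfl fun i _ => ?_
    rw [Matrix.mulVec, dotProduct, Finset.mul_sum]
    refine Finset.sum_congr rfl fun j _ => ?_
    ring
  have h2 : ∑ i, ∑ j, A i j * (x j * y i) = -∑ i, ∑ j, A i j * (x i * y j) := by
    rw [Finset.sum_comm, ← Finset.sum_neg_distrib]
    refine Finset.sum_congr rfl fun i _ => ?_
    rw [← Finset.sum_neg_distrib]
    refine Finset.sum_congr rfl fun j _ => ?_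
    rw [hA i j]
    ring
  unfold ip wd
  simp only [Matrix.of_apply, mul_sub, Finset.sum_sub_distrib]
  rw [h2, h1]
  ring

end HopfBig
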