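import Pool.Agent.Lib.MP_4a593f_gt.Big.A1

/-! Task A2: operator norm and Hilbert-Schmidt norm. -/

open scoped BigOperators

namespace HopfBig

variable {n : ℕ}

private theorem A2_cs {ι : Type} [Fintype ι] (f g : ι → ℝ) :
    (∑ i, f i * g i) ^ 2 ≤ (∑ i, f i ^ 2) * ∑ i, g i ^ 2 :=
  Finset.sum_mul_sq_le_sq_mul_sq Finset.univ f g

private theorem A2_sq_nonneg {ι : Type} [Fintype ι] (f : ι → ℝ) : 0 ≤ ∑ i, f i ^ 2 :=
  Finset.sum_nonneg fun _ _ => sq_nonneg _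

/-- a bound for the bilinear form gives a bound for the operator norm
(take `x = A y`) -/
theorem OpLe.of_bilin {A : Mat n} {r : ℝ} (hr : 0 ≤ r)
    (h : ∀ x y : Fin n → ℝ, (∑ i, x i * (A.mulVec y) i) ^ 2 ≤
      r ^ 2 * (∑ i, x i ^ 2) * ∑ i, y i ^ 2) : OpLe A r := by
  refine ⟨hr, fun y => ?_⟩
  have h1 := h (A.mulVec y) y
  have e : ∑ i, (A.mulVec y) i * (A.mulVec y) i = ∑ i, (A.mulVec y) i ^ 2 :=
    Finset.sum_congr rfl fun i _ => (sq _).symm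
  rw [e] at h1
  set S := ∑ i, (A.mulVec y) i ^ 2 with hS
  have hS0 : 0 ≤ S := A2_sq_nonneg _
  rcases hS0.eq_or_lt with h0 | h0
  · rw [← h0]
    exact mul_nonneg (sq_nonneg _) (A2_sq_nonneg _)
  · have : S * S ≤ S * (r ^ 2 * ∑ i, y i ^ 2) := by
      calc S * S = S ^ 2 := (sq _).symm
        _ ≤ r ^ 2 * S * ∑ i, y i ^ 2 := h1
        _ = S * (r ^ 2 * ∑ i, y i ^ 2) := by ring
    exact le_of_mul_le_mul_left this h0

private theorem OpLe.bilin {A : Mat n} {r : ℝ} (h : OpLe A r) (x y : Fin n → ℝ) :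
    (∑ i, x i * (A.mulVec y) i) ^ 2 ≤ r ^ 2 * (∑ i, x i ^ 2) * ∑ i, y i ^ 2 := by
  calc (∑ i, x i * (A.mulVec y) i) ^ 2 ≤ (∑ i, x i ^ 2) * ∑ i, (A.mulVec y) i ^ 2 := A2_cs _ _
    _ ≤ (∑ i, x i ^ 2) * (r ^ 2 * ∑ i, y i ^ 2) :=
        mul_le_mul_of_nonneg_left (h.2 y) (A2_sq_nonneg _)
    _ = r ^ 2 * (∑ i, x i ^ 2) * ∑ i, y i ^ 2 := by ring

theorem OpLe.transpose {A : Mat n} {r : ℝ} (h : OpLe A r) : OpLe A.transpose r := by
  refine OpLe.of_bilin h.1 fun x y => ?_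
  have e : ∑ i, x i * (A.transpose.mulVec y) i = ∑ i, y i * (A.mulVec x) i := by
    simp only [Matrix.mulVec, dotProduct, Matrix.transpose_apply, Finset.mul_sum]
    rw [Finset.sum_comm]
    exact Finset.sum_congr rfl fun i _ => Finset.sum_congr rfl fun j _ => by ring
  rw [e]
  calc _ ≤ r ^ 2 * (∑ i, y i ^ 2) * ∑ i, x i ^ 2 := h.bilin y x
    _ = r ^ 2 * (∑ i, x i ^ 2) * ∑ i, y i ^ 2 := by ring

theorem OpLe.mul {A B : Mat n} {r s : ℝ} (hA : OpLe A r) (hB : OpLe B s) :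
    OpLe (A * B) (r * s) := by
  refine ⟨mul_nonneg hA.1 hB.1, fun x => ?_⟩
  rw [← Matrix.mulVec_mulVec]
  calc ∑ i, (A.mulVec (B.mulVec x)) i ^ 2 ≤ r ^ 2 * ∑ i, (B.mulVec x) i ^ 2 := hA.2 _
    _ ≤ r ^ 2 * (s ^ 2 * ∑ i, x i ^ 2) := mul_le_mul_of_nonneg_left (hB.2 x) (sq_nonneg _)
    _ = (r * s) ^ 2 * ∑ i, x i ^ 2 := by ring

theorem OpLe.add {A B : Mat n} {r s : ℝ} (hA : OpLe A r) (hB : OpLe B s) :
    OpLe (A + B) (r + s) := by
  refine OpLe.of_bilin (add_nonneg hA.1 hB.1) fun x y => ?_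
  have e : ∑ i, x i * ((A + B).mulVec y) i =
      ∑ i, x i * (A.mulVec y) i + ∑ i, x i * (B.mulVec y) i := by
    rw [← Finset.sum_add_distrib]
    refine Finset.sum_congr rfl fun i _ => ?_
    rw [Matrix.add_mulVec, Pi.add_apply]
    ring
  rw [e]
  have h1 := hA.bilin x y
  have h2 := hB.bilin x y
  set P := ∑ i, x i * (A.mulVec y) i
  set Q := ∑ i, x i * (B.mulVec y) i
  have hX : 0 ≤ ∑ i, x i ^ 2 := A2_sq_nonneg _
  have hY : 0 ≤ ∑ i, y i ^ 2 := A2_sq_nonneg _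
  set XX := ∑ i, x i ^ 2
  set YY := ∑ i, y i ^ 2
  have hr := hA.1
  have hs := hB.1
  have h3 : P * Q ≤ r * s * (XX * YY) := by
    apply le_of_sq_le_sq _ (by positivity)
    calc (P * Q) ^ 2 = P ^ 2 * Q ^ 2 := by ring
      _ ≤ (r ^ 2 * XX * YY) * (s ^ 2 * XX * YY) :=
          mul_le_mul h1 h2 (sq_nonneg _) (by positivity)
      _ = (r * s * (XX * YY)) ^ 2 := by ring
  calc (P + Q) ^ 2 = P ^ 2 + Q ^ 2 + 2 * (P * Q) := by ring
    _ ≤ r ^ 2 * XX * YY + s ^ 2 * XX * YY + 2 * (r * s * (XX * YY)) := by linarith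
    _ = (r + s) ^ 2 * XX * YY := by ring

theorem OpLe.smul {A : Mat n} {r : ℝ} (t : ℝ) (hA : OpLe A r) : OpLe (t • A) (|t| * r) := by
  refine ⟨mul_nonneg (abs_nonneg _) hA.1, fun x => ?_⟩
  have e : ∑ i, ((t • A).mulVec x) i ^ 2 = t ^ 2 * ∑ i, (A.mulVec x) i ^ 2 := by
    rw [Finset.mul_sum]
    refine Finset.sum_congr rfl fun i _ => ?_
    rw [Matrix.smul_mulVec, Pi.smul_apply, smul_eq_mul]
    ring
  rw [e, mul_pow, sq_abs, mul_assoc]
  exact mul_le_mul_of_nonneg_left (hA.2 x) (sq_nonneg _)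

theorem OpLe.sub {A B : Mat n} {r s : ℝ} (hA : OpLe A r) (hB : OpLe B s) :
    OpLe (A - B) (r + s) := by
  have h := hA.add (hB.smul (-1))
  have e : A + (-1 : ℝ) • B = A - B := by
    rw [neg_one_smul, sub_eq_add_neg]
  rw [e] at h
  simpa using h

theorem OpLe.mono {A : Mat n} {r s : ℝ} (hA : OpLe A r) (h : r ≤ s) : OpLe A s := by
  refine ⟨hA.1.trans h, fun x => (hA.2 x).trans ?_⟩
  apply mul_le_mul_of_nonneg_right _ (A2_sq_nonneg _)
  exact pow_le_pow_left₀ hA.1 h 2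

theorem OpLe.diag {u : Fin n → ℝ} {r : ℝ} (hr : 0 ≤ r) (h : ∀ i, |u i| ≤ r) :
    OpLe (Matrix.diagonal u) r := by
  refine ⟨hr, fun x => ?_⟩
  rw [Finset.mul_sum]
  refine Finset.sum_le_sum fun i _ => ?_
  rw [Matrix.mulVec_diagonal, mul_pow]
  apply mul_le_mul_of_nonneg_right _ (sq_nonneg _)
  rw [← sq_abs]
  exact pow_le_pow_left₀ (abs_nonneg _) (h i) 2

/-- `‖A B‖_HS ≤ ‖A‖ ‖B‖_HS` -/
theorem hs_mul_le_left {A : Mat n} {r : ℝ} (hA : OpLe A r) (B : Mat n) :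
    hs (A * B) ≤ r ^ 2 * hs B := by
  unfold hs
  rw [Finset.sum_comm, Finset.sum_comm (f := fun i j => B i j ^ 2), Finset.mul_sum]
  refine Finset.sum_le_sum fun j _ => ?_
  exact hA.2 (fun i => B i j)

theorem hs_transpose (A : Mat n) : hs A.transpose = hs A := by
  unfold hs
  rw [Finset.sum_comm]
  rfl

/-- `‖B A‖_HS ≤ ‖A‖ ‖B‖_HS` -/
theorem hs_mul_le_right {A : Mat n} {r : ℝ} (hA : OpLe A r) (B : Mat n) :
    hs (B * A) ≤ r ^ 2 * hs B := by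
  rw [← hs_transpose, Matrix.transpose_mul, ← hs_transpose B]
  exact hs_mul_le_left hA.transpose _

theorem abs_trace_mul_le (A B : Mat n) :
    |∑ i, (A * B) i i| ≤ √(hs A) * √(hs B) := by
  rw [← Real.sqrt_mul (hs_nonneg A)]
  apply Real.abs_le_sqrt
  have e1 : ∑ i, (A * B) i i = ∑ q : Fin n × Fin n, A q.1 q.2 * B q.2 q.1 := by
    rw [Fintype.sum_prod_type]
    rfl
  have e2 : hs A = ∑ q : Fin n × Fin n, A q.1 q.2 ^ 2 := by
    rw [Fintype.sum_prod_type]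
    rfl
  have e3 : hs B = ∑ q : Fin n × Fin n, B q.2 q.1 ^ 2 := by
    rw [← hs_transpose, Fintype.sum_prod_type]
    rfl
  rw [e1, e2, e3]
  exact A2_cs _ _

/-- `|[A, B]| ≤ 2 ‖A‖ |B|` -/
theorem ip_br_le {A B : Mat n} {r : ℝ} (hA : OpLe A r) :
    ip (br A B) (br A B) ≤ 4 * r ^ 2 * ip B B := by
  have h1 : 2 * ip (br A B) (br A B) ≤ 2 * hs (A * B) + 2 * hs (B * A) := by
    rw [two_ip_self]
    unfold hs br
    rw [Finset.mul_sum, Finset.mul_sum, ← Finset.sum_add_distrib]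
    refine Finset.sum_le_sum fun i _ => ?_
    rw [Finset.mul_sum, Finset.mul_sum, ← Finset.sum_add_distrib]
    refine Finset.sum_le_sum fun j _ => ?_
    rw [Matrix.sub_apply]
    nlinarith [sq_nonneg ((A * B) i j + (B * A) i j)]
  have h2 := hs_mul_le_left hA B
  have h3 := hs_mul_le_right hA B
  have h4 := two_ip_self B
  rw [← h4] at h2 h3
  nlinarith

private theorem A2_opLe_hs (G : Mat n) : OpLe G (√(hs G)) := by
  refine ⟨Real.sqrt_nonneg _, fun x => ?_⟩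
  rw [Real.sq_sqrt (hs_nonneg G)]
  unfold hs
  rw [Finset.sum_mul]
  refine Finset.sum_le_sum fun i _ => ?_
  exact A2_cs (fun j => G i j) x

/-- `|tr(G L A L)| ≤ 2 ‖G‖_HS ... ` in the crude form used for the negative part:
`|tr (G L A L)| ≤ 4 |G| |A| |L|²` (Hilbert-Schmidt norms dominate operator norms;
`|tr(GLAL)| ≤ ‖GL‖ ‖AL‖ ≤ ‖G‖_HS ‖A‖_HS ‖L‖_HS²`; in terms of `ip` this would be
`√(2 ip G G) √(2 ip A A) * 2 ip L L`; the better constant is not needed). -/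
theorem abs_trace4_le (G A L : Mat n) :
    |∑ i, (G * L * A * L) i i| ≤ 4 * √(ip G G) * √(ip A A) * ip L L := by
  have h1 := abs_trace_mul_le (G * L) (A * L)
  rw [← Matrix.mul_assoc] at h1
  have h2 := hs_mul_le_left (A2_opLe_hs G) L
  have h3 := hs_mul_le_left (A2_opLe_hs A) L
  rw [Real.sq_sqrt (hs_nonneg _)] at h2 h3
  have h4 : √(hs (G * L)) ≤ √(hs G) * √(hs L) := by
    rw [← Real.sqrt_mul (hs_nonneg G)]
    exact Real.sqrt_le_sqrt h2
  have h5 : √(hs (A * L)) ≤ √(hs A) * √(hs L) := by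
    rw [← Real.sqrt_mul (hs_nonneg A)]
    exact Real.sqrt_le_sqrt h3
  have h6 : √(hs G) * √(hs L) * (√(hs A) * √(hs L)) =
      4 * √(ip G G) * √(ip A A) * ip L L := by
    have e1 : √(hs L) * √(hs L) = 2 * ip L L := by
      rw [Real.mul_self_sqrt (hs_nonneg L), two_ip_self]
    have e2 : √(hs G) = √2 * √(ip G G) := by
      rw [← two_ip_self, Real.sqrt_mul (by norm_num)]
    have e3 : √(hs A) = √2 * √(ip A A) := by
      rw [← two_ip_self, Real.sqrt_mul (by norm_num)]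
    have e4 : √(2 : ℝ) * √2 = 2 := Real.mul_self_sqrt (by norm_num)
    rw [e2, e3]
    calc √2 * √(ip G G) * √(hs L) * (√2 * √(ip A A) * √(hs L))
        = (√2 * √2) * √(ip G G) * √(ip A A) * (√(hs L) * √(hs L)) := by ring
      _ = 4 * √(ip G G) * √(ip A A) * ip L L := by
        rw [e1, e4]
        ring
  rw [← h6]
  exact h1.trans (mul_le_mul h4 h5 (Real.sqrt_nonneg _) (by positivity))

end HopfBig
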