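import Pool.Agent.Lib.MP_4a593f_gt.Big.A2

/-! Task A3: decomposition of a skew matrix.
Let `f_i` be an orthonormal eigenbasis of the symmetric positive semidefinite matrix
`-L² = Lᵀ L` (Mathlib: `Matrix.IsHermitian.spectral_theorem`, `eigenvectorBasis`), eigenvalue
`l_i²`, `l_i ≥ 0`; put `g_i = L f_i / l_i` if `l_i ≠ 0` and `g_i = 0` otherwise.  Then
`L f_i = l_i g_i` (if `l_i = 0` then `|L f_i|² = 0`), hence `L = ∑ l_i g_i f_iᵀ`, and taking the
skew part `L = (1/2) ∑ l_i (g_i f_iᵀ - f_i g_iᵀ)`. -/

open scoped BigOperators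

namespace HopfBig

variable {n : ℕ}

private theorem A3_dot_self_zero {x : Fin n → ℝ} (h : ∑ k, x k * x k = 0) : x = 0 := by
  funext k
  have h1 := (Finset.sum_eq_zero_iff_of_nonneg (fun k _ => mul_self_nonneg (x k))).1 h k
    (Finset.mem_univ k)
  exact mul_self_eq_zero.1 h1

private theorem A3_complete (f : Fin n → Fin n → ℝ)
    (h : ∀ i j, ∑ k, f i k * f j k = if i = j then 1 else 0) (a b : Fin n) :
    ∑ i, f i a * f i b = if a = b then 1 else 0 := by
  have h1 : (Matrix.of f) * (Matrix.of f).transpose = 1 := by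
    ext i j
    rw [Matrix.mul_apply, Matrix.one_apply]
    exact h i j
  have h2 : (Matrix.of f).transpose * (Matrix.of f) = 1 := mul_eq_one_comm.1 h1
  have h3 := congrFun (congrFun h2 a) b
  rw [Matrix.mul_apply, Matrix.one_apply] at h3
  exact h3

private theorem A3_quad (f : Fin n → Fin n → ℝ)
    (h : ∀ a b, ∑ i, f i a * f i b = if a = b then 1 else 0) (v : Fin n → ℝ) :
    ∑ i, (∑ a, v a * f i a) ^ 2 = ∑ a, v a ^ 2 := by
  calc ∑ i, (∑ a, v a * f i a) ^ 2 = ∑ i, ∑ a, ∑ b, v a * v b * (f i a * f i b) := by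
        refine Finset.sum_congr rfl fun i _ => ?_
        rw [sq, Finset.sum_mul_sum]
        exact Finset.sum_congr rfl fun a _ => Finset.sum_congr rfl fun b _ => by ring
    _ = ∑ a, ∑ b, v a * v b * ∑ i, f i a * f i b := by
        rw [Finset.sum_comm]
        refine Finset.sum_congr rfl fun a _ => ?_
        rw [Finset.sum_comm]
        exact Finset.sum_congr rfl fun b _ => (Finset.mul_sum _ _ _).symm
    _ = ∑ a, v a ^ 2 := by
        refine Finset.sum_congr rfl fun a _ => ?_
        simp only [h]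
        rw [Finset.sum_eq_single a]
        · simp [sq]
        · intro b _ hb
          rw [if_neg (Ne.symm hb), mul_zero]
        · intro ha
          exact absurd (Finset.mem_univ a) ha

theorem skew_decomp (L : Mat n) (hL : Skew L) :
    ∃ (f g : Fin n → Fin n → ℝ) (l : Fin n → ℝ),
      (∀ i, 0 ≤ l i) ∧
      (∀ i j, ∑ k, f i k * f j k = if i = j then 1 else 0) ∧
      (∀ i j, ∑ k, g i k * g j k = if i = j ∧ l i ≠ 0 then 1 else 0) ∧
      (∀ i, ∑ k, f i k * g i k = 0) ∧
      L = ∑ i, (l i / 2) • wd (g i) (f i) ∧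
      ∑ i, l i ^ 2 = 2 * ip L L := by
  classical
  have hPS : (L.transpose * L).PosSemidef := by
    have := Matrix.posSemidef_conjTranspose_mul_self L
    rwa [Matrix.conjTranspose_eq_transpose_of_trivial] at this
  have hS := hPS.isHermitian
  set f : Fin n → Fin n → ℝ := fun i k => hS.eigenvectorBasis i k with hf
  set μ : Fin n → ℝ := hS.eigenvalues with hμ
  have hμ0 : ∀ i, 0 ≤ μ i := fun i => hPS.eigenvalues_nonneg i
  have horth : ∀ i j, ∑ k, f i k * f j k = if i = j then 1 else 0 := by
    intro i j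
    have h1 := hS.eigenvectorBasis.inner_eq_ite i j
    rw [PiLp.inner_apply] at h1
    rw [← h1]
    refine Finset.sum_congr rfl fun k _ => ?_
    simp only [hf, RCLike.inner_apply, conj_trivial]
    ring
  have hev : ∀ i, (L.transpose * L).mulVec (f i) = μ i • f i := fun i =>
    hS.mulVec_eigenvectorBasis i
  have hcomp := A3_complete f horth
  -- inner products of the images
  have hLL : ∀ i j, ∑ k, (L.mulVec (f i)) k * (L.mulVec (f j)) k = if i = j then μ i else 0 := by
    intro i j
    have h1 : ∑ k, (L.mulVec (f i)) k * (L.mulVec (f j)) k =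
        (f i) ⬝ᵥ ((L.transpose * L).mulVec (f j)) := by
      rw [← Matrix.mulVec_mulVec, Matrix.dotProduct_mulVec, Matrix.vecMul_transpose]
      rfl
    rw [h1, hev, dotProduct_smul, smul_eq_mul]
    have h2 : f i ⬝ᵥ f j = if i = j then 1 else 0 := horth i j
    rw [h2]
    split_ifs with hij
    · rw [hij, mul_one]
    · rw [mul_zero]
  set l : Fin n → ℝ := fun i => √(μ i) with hl
  have hl0 : ∀ i, 0 ≤ l i := fun i => Real.sqrt_nonneg _
  have hl2 : ∀ i, l i ^ 2 = μ i := fun i => Real.sq_sqrt (hμ0 i)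
  set g : Fin n → Fin n → ℝ := fun i => (l i)⁻¹ • L.mulVec (f i) with hg
  have hLg : ∀ i, L.mulVec (f i) = l i • g i := by
    intro i
    by_cases h : l i = 0
    · have h1 := hLL i i
      rw [if_pos rfl, ← hl2 i, h] at h1
      have h2 : L.mulVec (f i) = 0 := A3_dot_self_zero (by simpa using h1)
      rw [h2, h, zero_smul]
    · rw [hg]
      simp only
      rw [smul_smul, mul_inv_cancel₀ h, one_smul]
  have hgg : ∀ i j, ∑ k, g i k * g j k = if i = j ∧ l i ≠ 0 then 1 else 0 := by
    intro i j
    have h1 : ∑ k, g i k * g j k = (l i)⁻¹ * (l j)⁻¹ * ∑ k, (L.mulVec (f i)) k * (L.mulVec (f j)) k := by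
      rw [Finset.mul_sum]
      refine Finset.sum_congr rfl fun k _ => ?_
      simp only [hg, Pi.smul_apply, smul_eq_mul]
      ring
    rw [h1, hLL]
    by_cases hij : i = j
    · subst hij
      rw [if_pos rfl]
      by_cases h : l i = 0
      · rw [if_neg (by simp [h]), h, inv_zero, zero_mul, zero_mul]
      · rw [if_pos ⟨rfl, h⟩, ← hl2 i]
        field_simp
    · rw [if_neg hij, if_neg (fun h => hij h.1), mul_zero]
  have hfg : ∀ i, ∑ k, f i k * g i k = 0 := by
    intro i
    have h1 : ∑ k, f i k * g i k = (l i)⁻¹ * ∑ k, f i k * (L.mulVec (f i)) k := by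
      rw [Finset.mul_sum]
      refine Finset.sum_congr rfl fun k _ => ?_
      simp only [hg, Pi.smul_apply, smul_eq_mul]
      ring
    have h2 : ∑ k, f i k * (L.mulVec (f i)) k = ∑ k, ∑ j, f i k * f i j * L k j := by
      refine Finset.sum_congr rfl fun k _ => ?_
      rw [Matrix.mulVec, dotProduct, Finset.mul_sum]
      exact Finset.sum_congr rfl fun j _ => by ring
    have h3 : ∑ k, ∑ j, f i k * f i j * L k j = -∑ k, ∑ j, f i k * f i j * L k j := by
      nth_rewrite 1 [Finset.sum_comm]
      rw [← Finset.sum_neg_distrib]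
      refine Finset.sum_congr rfl fun k _ => ?_
      rw [← Finset.sum_neg_distrib]
      refine Finset.sum_congr rfl fun j _ => ?_
      rw [hL k j]
      ring
    rw [h1, h2]
    have h4 : ∑ k, ∑ j, f i k * f i j * L k j = 0 := by linarith
    rw [h4, mul_zero]
  have hentry : ∀ a b, L a b = ∑ i, l i * g i a * f i b := by
    intro a b
    have h1 : ∀ i, l i * g i a = ∑ c, L a c * f i c := by
      intro i
      have h2 := congrFun (hLg i) a
      rw [Pi.smul_apply, smul_eq_mul] at h2
      rw [← h2]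
      rfl
    have h2 : ∑ i, l i * g i a * f i b = ∑ c, L a c * ∑ i, f i c * f i b := by
      simp only [h1, Finset.sum_mul, Finset.mul_sum]
      rw [Finset.sum_comm]
      exact Finset.sum_congr rfl fun c _ => Finset.sum_congr rfl fun i _ => by ring
    rw [h2]
    simp only [hcomp]
    rw [Finset.sum_eq_single b]
    · simp
    · intro c _ hc
      rw [if_neg hc, mul_zero]
    · intro hb
      exact absurd (Finset.mem_univ b) hb
  refine ⟨f, g, l, hl0, horth, hgg, hfg, ?_, ?_⟩
  · ext a b
    rw [Matrix.sum_apply]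
    simp only [Matrix.smul_apply, wd, Matrix.of_apply, smul_eq_mul]
    have h1 : L a b = (L a b - L b a) / 2 := by
      rw [hL a b]
      ring
    rw [h1, hentry a b, hentry b a, ← Finset.sum_sub_distrib, Finset.sum_div]
    exact Finset.sum_congr rfl fun i _ => by ring
  · have h1 : ∀ i, l i ^ 2 = ∑ k, (∑ a, L k a * f i a) ^ 2 := by
      intro i
      rw [hl2 i]
      have h2 := hLL i i
      rw [if_pos rfl] at h2
      rw [← h2]
      refine Finset.sum_congr rfl fun k _ => ?_
      rw [sq]
      rfl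
    simp only [h1]
    rw [Finset.sum_comm]
    simp only [A3_quad f hcomp]
    unfold ip
    rw [← mul_assoc, mul_one_div_cancel (by norm_num : (2 : ℝ) ≠ 0), one_mul]
    exact Finset.sum_congr rfl fun k _ => Finset.sum_congr rfl fun a _ => sq _

/-- completeness of an orthonormal family of `n` vectors -/
theorem orth_complete (f : Fin n → Fin n → ℝ)
    (h : ∀ i j, ∑ k, f i k * f j k = if i = j then 1 else 0) (a b : Fin n) :
    ∑ i, f i a * f i b = if a = b then 1 else 0 := A3_complete f h a b

private theorem A3_bessel_vec (v : Fin n → ℝ) (g : Fin n → Fin n → ℝ) (s : Fin n → Prop)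
    [DecidablePred s] (h : ∀ i j, ∑ k, g i k * g j k = if i = j ∧ s i then 1 else 0) :
    ∑ i, (∑ k, v k * g i k) ^ 2 ≤ ∑ k, v k ^ 2 := by
  set c : Fin n → ℝ := fun i => ∑ k, v k * g i k with hc
  have hz : ∀ i, ¬ s i → c i = 0 := by
    intro i hi
    have h1 := h i i
    rw [if_neg (fun h => hi h.2)] at h1
    have h2 : g i = 0 := A3_dot_self_zero h1
    simp [hc, h2]
  have h0 : 0 ≤ ∑ k, (v k - ∑ i, c i * g i k) ^ 2 := Finset.sum_nonneg fun k _ => sq_nonneg _
  have h1 : ∑ k, (v k - ∑ i, c i * g i k) ^ 2 =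
      ∑ k, v k ^ 2 - 2 * ∑ k, v k * ∑ i, c i * g i k + ∑ k, (∑ i, c i * g i k) ^ 2 := by
    rw [Finset.mul_sum, ← Finset.sum_sub_distrib, ← Finset.sum_add_distrib]
    exact Finset.sum_congr rfl fun k _ => by ring
  have h2 : ∑ k, v k * ∑ i, c i * g i k = ∑ i, c i ^ 2 := by
    simp_rw [Finset.mul_sum]
    rw [Finset.sum_comm]
    refine Finset.sum_congr rfl fun i _ => ?_
    have h3 : ∑ k, v k * (c i * g i k) = c i * ∑ k, v k * g i k := by
      rw [Finset.mul_sum]
      exact Finset.sum_congr rfl fun k _ => by ring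
    rw [h3, sq]
  have h3 : ∑ k, (∑ i, c i * g i k) ^ 2 = ∑ i, c i ^ 2 := by
    calc ∑ k, (∑ i, c i * g i k) ^ 2 = ∑ k, ∑ i, ∑ j, c i * c j * (g i k * g j k) := by
          refine Finset.sum_congr rfl fun k _ => ?_
          rw [sq, Finset.sum_mul_sum]
          exact Finset.sum_congr rfl fun a _ => Finset.sum_congr rfl fun b _ => by ring
      _ = ∑ i, ∑ j, c i * c j * ∑ k, g i k * g j k := by
          rw [Finset.sum_comm]
          refine Finset.sum_congr rfl fun a _ => ?_
          rw [Finset.sum_comm]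
          exact Finset.sum_congr rfl fun b _ => (Finset.mul_sum _ _ _).symm
      _ = ∑ i, c i ^ 2 := by
          refine Finset.sum_congr rfl fun i _ => ?_
          simp only [h]
          rw [Finset.sum_eq_single i]
          · by_cases hi : s i
            · rw [if_pos ⟨rfl, hi⟩, mul_one, sq]
            · rw [hz i hi]
              simp
          · intro j _ hj
            rw [if_neg (fun h => hj h.1.symm), mul_zero]
          · intro hi
            exact absurd (Finset.mem_univ i) hi
  rw [h1, h2, h3] at h0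
  linarith

/-- Bessel for matrices: for orthonormal (or partly zero) vectors `g_i`,
`∑ |A g_i|² ≤ ‖A‖_HS²` -/
theorem bessel_hs (A : Mat n) (g : Fin n → Fin n → ℝ) (s : Fin n → Prop)
    [DecidablePred s]
    (h : ∀ i j, ∑ k, g i k * g j k = if i = j ∧ s i then 1 else 0) :
    ∑ i, ∑ k, (A.mulVec (g i)) k ^ 2 ≤ hs A := by
  rw [Finset.sum_comm]
  unfold hs
  exact Finset.sum_le_sum fun k _ => A3_bessel_vec (A k) g s h

end HopfBig
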