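import Pool.Agent.Lib.MP_4a593f_gt.Big.A4

/-! Task A5: comass bound for `F = D + Q - |.|²`.

`F(x∧y, z∧w)` is an alternating 4-linear form in `x, y, z, w` (from `X.four`, by polarisation:
`F` is a symmetric bilinear form on skew matrices and `F(L,L) = ∑ t_{abcd} L_ab L_cd`, so
`F(L,M) = ∑ t_{abcd} L_ab M_cd` as `t_{abcd} = t_{cdab}`).  In particular `F(x∧y,x∧y) = 0`, i.e.
`D(x∧y) + Q(x∧y) = |x∧y|² ≤ |x|²|y|²`.
For the comass: replace `z, w` by their components `z', w'` orthogonal to `x, y` (this does not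
change `F`; if `x, y` are linearly dependent then `F = 0`); then `⟨x∧y, z'∧w'⟩ = 0` and
`|F| = |D(x∧y,z'∧w') + Q(x∧y,z'∧w')| ≤ √(D D) + √(Q Q) ≤ √((D+Q)(x∧y)) √((D+Q)(z'∧w'))
= |x∧y| |z'∧w'| ≤ |x||y||z||w|`. -/

open scoped BigOperators

namespace HopfBig

variable {n : ℕ} {p : ℝ} {H : Type} [NormedAddCommGroup H] [InnerProductSpace ℝ H]

/-- the 4-linear form of a tensor -/
private def T4 (t : Fin n → Fin n → Fin n → Fin n → ℝ) (x y z w : Fin n → ℝ) : ℝ :=
  ∑ a, ∑ b, ∑ c, ∑ d, t a b c d * x a * y b * z c * w d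

private theorem T4_swap12 {t : Fin n → Fin n → Fin n → Fin n → ℝ} (ht : Alt4 t)
    (x y z w : Fin n → ℝ) : T4 t y x z w = -T4 t x y z w := by
  unfold T4
  rw [Finset.sum_comm]
  simp only [← Finset.sum_neg_distrib]
  refine Finset.sum_congr rfl fun a _ => Finset.sum_congr rfl fun b _ =>
    Finset.sum_congr rfl fun c _ => Finset.sum_congr rfl fun d _ => ?_
  rw [ht.1 a b c d]
  ring

private theorem T4_swap23 {t : Fin n → Fin n → Fin n → Fin n → ℝ} (ht : Alt4 t)
    (x y z w : Fin n → ℝ) : T4 t x z y w = -T4 t x y z w := by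
  unfold T4
  simp only [← Finset.sum_neg_distrib]
  refine Finset.sum_congr rfl fun a _ => ?_
  rw [Finset.sum_comm]
  refine Finset.sum_congr rfl fun b _ =>
    Finset.sum_congr rfl fun c _ => Finset.sum_congr rfl fun d _ => ?_
  rw [ht.2.1 a b c d]
  ring

private theorem T4_swap34 {t : Fin n → Fin n → Fin n → Fin n → ℝ} (ht : Alt4 t)
    (x y z w : Fin n → ℝ) : T4 t x y w z = -T4 t x y z w := by
  unfold T4
  simp only [← Finset.sum_neg_distrib]
  refine Finset.sum_congr rfl fun a _ => Finset.sum_congr rfl fun b _ => ?_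
  rw [Finset.sum_comm]
  refine Finset.sum_congr rfl fun c _ => Finset.sum_congr rfl fun d _ => ?_
  rw [ht.2.2 a b c d]
  ring

private theorem T4_self12 {t : Fin n → Fin n → Fin n → Fin n → ℝ} (ht : Alt4 t)
    (x z w : Fin n → ℝ) : T4 t x x z w = 0 := by
  have := T4_swap12 ht x x z w
  linarith

private theorem T4_self13 {t : Fin n → Fin n → Fin n → Fin n → ℝ} (ht : Alt4 t)
    (x y w : Fin n → ℝ) : T4 t x y x w = 0 := by
  have h1 := T4_swap23 ht x x y w
  rw [T4_self12 ht] at h1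
  linarith

private theorem T4_self23 {t : Fin n → Fin n → Fin n → Fin n → ℝ} (ht : Alt4 t)
    (x y w : Fin n → ℝ) : T4 t x y y w = 0 := by
  have h1 := T4_swap23 ht x y y w
  linarith

private theorem T4_lin3 (t : Fin n → Fin n → Fin n → Fin n → ℝ) (x y z z' w : Fin n → ℝ)
    (r : ℝ) : T4 t x y (fun i => z i + r * z' i) w = T4 t x y z w + r * T4 t x y z' w := by
  unfold T4
  simp only [Finset.mul_sum, ← Finset.sum_add_distrib]
  refine Finset.sum_congr rfl fun a _ => Finset.sum_congr rfl fun b _ =>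
    Finset.sum_congr rfl fun c _ => Finset.sum_congr rfl fun d _ => ?_
  ring

private theorem T4_wd {t : Fin n → Fin n → Fin n → Fin n → ℝ} (ht : Alt4 t)
    (x y z w : Fin n → ℝ) :
    ∑ a, ∑ b, ∑ c, ∑ d, t a b c d * wd x y a b * wd z w c d = 4 * T4 t x y z w := by
  have h1 : ∑ a, ∑ b, ∑ c, ∑ d, t a b c d * wd x y a b * wd z w c d =
      T4 t x y z w - T4 t y x z w - T4 t x y w z + T4 t y x w z := by
    unfold T4
    simp only [← Finset.sum_add_distrib, ← Finset.sum_sub_distrib]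
    refine Finset.sum_congr rfl fun a _ => Finset.sum_congr rfl fun b _ =>
      Finset.sum_congr rfl fun c _ => Finset.sum_congr rfl fun d _ => ?_
    simp only [wd, Matrix.of_apply]
    ring
  rw [h1, T4_swap34 ht y x z w, T4_swap34 ht x y z w, T4_swap12 ht x y z w]
  ring

private theorem exists_perp (x y z : Fin n → ℝ) : ∃ (z' : Fin n → ℝ) (α β : ℝ),
    (z = fun i => (z' i + α * x i) + β * y i) ∧ ∑ i, x i * z' i = 0 ∧ ∑ i, y i * z' i = 0 ∧
      ∑ i, z' i ^ 2 ≤ ∑ i, z i ^ 2 := by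
  set X : EuclideanSpace ℝ (Fin n) := WithLp.toLp 2 x with hX
  set Y : EuclideanSpace ℝ (Fin n) := WithLp.toLp 2 y with hY
  set Z : EuclideanSpace ℝ (Fin n) := WithLp.toLp 2 z with hZ
  set K : Submodule ℝ (EuclideanSpace ℝ (Fin n)) := Submodule.span ℝ {X, Y} with hK
  have h1 : K.starProjection Z ∈ K := Submodule.starProjection_apply_mem _ _
  have h2 : Z - K.starProjection Z ∈ Kᗮ := Submodule.sub_starProjection_mem_orthogonal _
  obtain ⟨α, β, hab⟩ := Submodule.mem_span_pair.mp h1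
  set W := Z - K.starProjection Z with hW
  have hXK : X ∈ K := Submodule.subset_span (by simp)
  have hYK : Y ∈ K := Submodule.subset_span (by simp)
  have h3 : inner ℝ X W = 0 := (Submodule.mem_orthogonal K W).mp h2 X hXK
  have h4 : inner ℝ Y W = 0 := (Submodule.mem_orthogonal K W).mp h2 Y hYK
  have h5 : inner ℝ (K.starProjection Z) W = 0 := (Submodule.mem_orthogonal K W).mp h2 _ h1
  have h6 : ‖Z‖ ^ 2 = ‖K.starProjection Z‖ ^ 2 + ‖W‖ ^ 2 := by
    have e : Z = K.starProjection Z + W := by rw [hW]; abel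
    calc ‖Z‖ ^ 2 = ‖K.starProjection Z + W‖ ^ 2 := by rw [← e]
      _ = _ := by
        rw [norm_add_sq_real, h5]
        ring
  refine ⟨fun i => W i, α, β, ?_, ?_, ?_, ?_⟩
  · funext i
    have e : Z = W + (α • X + β • Y) := by rw [hab, hW]; abel
    have e2 := congrArg (fun V : EuclideanSpace ℝ (Fin n) => V i) e
    simp only [PiLp.add_apply, PiLp.smul_apply, smul_eq_mul] at e2
    change z i = W i + (α * x i + β * y i) at e2
    rw [e2]
    ring
  · have : inner ℝ X W = ∑ i, x i * W i := by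
      simp [PiLp.inner_apply, hX, mul_comm]
    rw [← this, h3]
  · have : inner ℝ Y W = ∑ i, y i * W i := by
      simp [PiLp.inner_apply, hY, mul_comm]
    rw [← this, h4]
  · have e1 : ‖W‖ ^ 2 = ∑ i, W i ^ 2 := EuclideanSpace.real_norm_sq_eq W
    have e2 : ‖Z‖ ^ 2 = ∑ i, z i ^ 2 := EuclideanSpace.real_norm_sq_eq Z
    rw [← e1, ← e2, h6]
    have := sq_nonneg ‖K.starProjection Z‖
    linarith

private theorem ip_wd_wd (x y z w : Fin n → ℝ) :
    ip (wd x y) (wd z w) =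
      (∑ i, x i * z i) * (∑ i, y i * w i) - (∑ i, x i * w i) * (∑ i, y i * z i) := by
  unfold ip wd
  simp only [Matrix.of_apply]
  have h1 : ∀ f g : Fin n → ℝ, (∑ i, f i) * (∑ j, g j) = ∑ i, ∑ j, f i * g j := by
    intro f g
    rw [Finset.sum_mul_sum]
  have h2 : ∑ i, ∑ j, (x i * y j - x j * y i) * (z i * w j - z j * w i) =
      2 * ((∑ i, x i * z i) * (∑ i, y i * w i)) - 2 * ((∑ i, x i * w i) * (∑ i, y i * z i)) := by
    have e1 : ∑ i, ∑ j, (x i * y j - x j * y i) * (z i * w j - z j * w i) =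
        (∑ i, ∑ j, (x i * z i) * (y j * w j)) + (∑ i, ∑ j, (y i * w i) * (x j * z j))
          - (∑ i, ∑ j, (x i * w i) * (y j * z j)) - (∑ i, ∑ j, (y i * z i) * (x j * w j)) := by
      simp only [← Finset.sum_add_distrib, ← Finset.sum_sub_distrib]
      refine Finset.sum_congr rfl fun a _ => Finset.sum_congr rfl fun b _ => ?_
      ring
    rw [e1, ← h1, ← h1, ← h1, ← h1]
    ring
  rw [h2]
  ring

private theorem ip_wd_le (x y : Fin n → ℝ) :
    ip (wd x y) (wd x y) ≤ (∑ i, x i ^ 2) * ∑ i, y i ^ 2 := by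
  rw [ip_wd_wd]
  have e1 : ∑ i, x i * x i = ∑ i, x i ^ 2 := Finset.sum_congr rfl fun i _ => (sq _).symm
  have e2 : ∑ i, y i * y i = ∑ i, y i ^ 2 := Finset.sum_congr rfl fun i _ => (sq _).symm
  have e3 : ∑ i, y i * x i = ∑ i, x i * y i := Finset.sum_congr rfl fun i _ => mul_comm _ _
  rw [e1, e2, e3]
  nlinarith [sq_nonneg (∑ i, x i * y i)]

namespace FormData

theorem D_symm (X : FormData n p H) (L M : Mat n) : X.D L M = X.D M L := real_inner_comm _ _

theorem D_nonneg (X : FormData n p H) (L : Mat n) : 0 ≤ X.D L L := real_inner_self_nonneg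

theorem D_cauchy (X : FormData n p H) (L M : Mat n) :
    |X.D L M| ≤ √(X.D L L) * √(X.D M M) := by
  have h : ∀ L, √(X.D L L) = ‖X.ρ L X.ψ‖ := by
    intro L
    unfold D
    rw [real_inner_self_eq_norm_sq, Real.sqrt_sq (norm_nonneg _)]
  rw [h, h]
  exact abs_real_inner_le_norm _ _

theorem D_le (X : FormData n p H) {L : Mat n} (hL : Skew L) : X.D L L ≤ p * ip L L := by
  have h := X.bd L hL X.ψ
  rw [X.norm_ψ] at h
  unfold D
  rw [real_inner_self_eq_norm_sq]
  linarith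

theorem Q_cauchy (X : FormData n p H) (L M : Mat n) :
    |X.Q L M| ≤ √(X.Q L L) * √(X.Q M M) := by
  rw [← Real.sqrt_mul (X.Qpos L)]
  apply Real.abs_le_sqrt
  have h : ∀ s : ℝ, 0 ≤ X.Q M M * (s * s) + 2 * X.Q L M * s + X.Q L L := by
    intro s
    have h1 := X.Qpos (L + s • M)
    have h2 : X.Q (L + s • M) (L + s • M) =
        X.Q M M * (s * s) + 2 * X.Q L M * s + X.Q L L := by
      simp only [map_add, map_smul, LinearMap.add_apply, LinearMap.smul_apply, smul_eq_mul]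
      rw [X.Qsymm M L]
      ring
    rwa [h2] at h1
  have h3 := discrim_le_zero h
  unfold discrim at h3
  nlinarith

private theorem F_bilin (X : FormData n p H) (L M : Mat n) :
    X.F (L + M) (L + M) = X.F L L + 2 * X.F L M + X.F M M := by
  unfold F D
  simp only [map_add, LinearMap.add_apply, inner_add_left, inner_add_right, ip_add_left,
    ip_add_right]
  rw [X.Qsymm M L, ip_symm M L, real_inner_comm (X.ρ L X.ψ) (X.ρ M X.ψ)]
  ring

/-- `F(L, M) = ∑ t_{abcd} L_ab M_cd` -/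
theorem F_tensor (X : FormData n p H) :
    ∃ t : Fin n → Fin n → Fin n → Fin n → ℝ, Alt4 t ∧
      ∀ L M : Mat n, Skew L → Skew M →
        X.F L M = ∑ a, ∑ b, ∑ c, ∑ d, t a b c d * L a b * M c d := by
  obtain ⟨t, ht, h⟩ := X.four
  refine ⟨t, ht, fun L M hL hM => ?_⟩
  have hf : ∀ L, Skew L → X.F L L = ∑ a, ∑ b, ∑ c, ∑ d, t a b c d * L a b * L c d := h
  have h1 := F_bilin X L M
  rw [hf _ (hL.add hM), hf _ hL, hf _ hM] at h1
  have hsym : ∀ a b c d, t c d a b = t a b c d := by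
    intro a b c d
    rw [ht.2.1 c a d b, ht.1 a c d b, ht.2.2 a c b d, ht.2.1 a b c d]
    ring
  have e1 : ∑ a, ∑ b, ∑ c, ∑ d, t a b c d * (L + M) a b * (L + M) c d =
      (∑ a, ∑ b, ∑ c, ∑ d, t a b c d * L a b * L c d) +
      (∑ a, ∑ b, ∑ c, ∑ d, t a b c d * L a b * M c d) +
      (∑ a, ∑ b, ∑ c, ∑ d, t a b c d * M a b * L c d) +
      (∑ a, ∑ b, ∑ c, ∑ d, t a b c d * M a b * M c d) := by
    simp only [← Finset.sum_add_distrib, Matrix.add_apply]
    refine Finset.sum_congr rfl fun a _ => Finset.sum_congr rfl fun b _ =>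
      Finset.sum_congr rfl fun c _ => Finset.sum_congr rfl fun d _ => ?_
    ring
  have e2 : ∑ a, ∑ b, ∑ c, ∑ d, t a b c d * M a b * L c d =
      ∑ a, ∑ b, ∑ c, ∑ d, t a b c d * L a b * M c d := by
    have e3 : ∀ g : Fin n → Fin n → Fin n → Fin n → ℝ,
        ∑ a, ∑ b, ∑ c, ∑ d, g a b c d = ∑ a, ∑ b, ∑ c, ∑ d, g c d a b := by
      intro g
      calc ∑ a, ∑ b, ∑ c, ∑ d, g a b c d = ∑ a, ∑ c, ∑ b, ∑ d, g a b c d :=
            Finset.sum_congr rfl fun a _ => Finset.sum_comm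
        _ = ∑ c, ∑ a, ∑ b, ∑ d, g a b c d := Finset.sum_comm
        _ = ∑ c, ∑ a, ∑ d, ∑ b, g a b c d :=
            Finset.sum_congr rfl fun c _ => Finset.sum_congr rfl fun a _ => Finset.sum_comm
        _ = ∑ c, ∑ d, ∑ a, ∑ b, g a b c d :=
            Finset.sum_congr rfl fun c _ => Finset.sum_comm
    rw [e3]
    refine Finset.sum_congr rfl fun a _ => Finset.sum_congr rfl fun b _ =>
      Finset.sum_congr rfl fun c _ => Finset.sum_congr rfl fun d _ => ?_
    rw [hsym a b c d]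
    ring
  rw [e1, e2] at h1
  linarith

private theorem F_T4 (X : FormData n p H) :
    ∃ t : Fin n → Fin n → Fin n → Fin n → ℝ, Alt4 t ∧
      ∀ x y z w, X.F (wd x y) (wd z w) = 4 * T4 t x y z w := by
  obtain ⟨t, ht, h⟩ := X.F_tensor
  refine ⟨t, ht, fun x y z w => ?_⟩
  rw [h _ _ (Skew.wd x y) (Skew.wd z w), T4_wd ht]

theorem F_wd_self (X : FormData n p H) (x y : Fin n → ℝ) : X.F (wd x y) (wd x y) = 0 := by
  obtain ⟨t, ht, h⟩ := F_T4 X
  rw [h, T4_self13 ht, mul_zero]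

private theorem DQ_wd (X : FormData n p H) (x y : Fin n → ℝ) :
    X.D (wd x y) (wd x y) + X.Q (wd x y) (wd x y) = ip (wd x y) (wd x y) := by
  have h := X.F_wd_self x y
  unfold F at h
  linarith

theorem D_wd_le (X : FormData n p H) (x y : Fin n → ℝ) :
    X.D (wd x y) (wd x y) ≤ (∑ i, x i ^ 2) * ∑ i, y i ^ 2 := by
  have h1 := DQ_wd X x y
  have h2 := X.Qpos (wd x y)
  have h3 := ip_wd_le x y
  linarith

private theorem sqrt_cs {a b c d : ℝ} (ha : 0 ≤ a) (hb : 0 ≤ b) (hc : 0 ≤ c) (hd : 0 ≤ d) :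
    √a * √b + √c * √d ≤ √(a + c) * √(b + d) := by
  rw [← Real.sqrt_mul (add_nonneg ha hc)]
  apply Real.le_sqrt_of_sq_le
  have h1 := Real.sq_sqrt ha
  have h2 := Real.sq_sqrt hb
  have h3 := Real.sq_sqrt hc
  have h4 := Real.sq_sqrt hd
  have e : (a + c) * (b + d) = (√a ^ 2 + √c ^ 2) * (√b ^ 2 + √d ^ 2) := by
    rw [h1, h2, h3, h4]
  rw [e]
  nlinarith [sq_nonneg (√a * √d - √c * √b)]

theorem comass (X : FormData n p H) (x y z w : Fin n → ℝ) :
    |X.F (wd x y) (wd z w)| ≤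
      √(∑ i, x i ^ 2) * √(∑ i, y i ^ 2) * √(∑ i, z i ^ 2) * √(∑ i, w i ^ 2) := by
  obtain ⟨t, ht, h⟩ := F_T4 X
  obtain ⟨z', α, β, hz, hxz, hyz, hzz⟩ := exists_perp x y z
  obtain ⟨w', γ, δ, hw, hxw, hyw, hww⟩ := exists_perp x y w
  -- reduction to `z'`, `w'`
  have e1 : ∀ v, T4 t x y z v = T4 t x y z' v := by
    intro v
    rw [hz, T4_lin3 t x y (fun i => z' i + α * x i) y v β, T4_lin3 t x y z' x v α,
      T4_self13 ht, T4_self23 ht]
    ring
  have e2 : ∀ v, T4 t x y w v = T4 t x y w' v := by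
    intro v
    rw [hw, T4_lin3 t x y (fun i => w' i + γ * x i) y v δ, T4_lin3 t x y w' x v γ,
      T4_self13 ht, T4_self23 ht]
    ring
  have e3 : X.F (wd x y) (wd z w) = X.F (wd x y) (wd z' w') := by
    rw [h, h, e1 w, T4_swap34 ht x y w z', e2 z', T4_swap34 ht x y z' w']
    ring
  have e4 : ip (wd x y) (wd z' w') = 0 := by
    rw [ip_wd_wd, hxz, hyz]
    ring
  have e5 : |X.F (wd x y) (wd z' w')| ≤
      √(ip (wd x y) (wd x y)) * √(ip (wd z' w') (wd z' w')) := by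
    have h1 := X.D_cauchy (wd x y) (wd z' w')
    have h2 := X.Q_cauchy (wd x y) (wd z' w')
    have h3 := sqrt_cs (X.D_nonneg (wd x y)) (X.D_nonneg (wd z' w')) (X.Qpos (wd x y))
      (X.Qpos (wd z' w'))
    rw [DQ_wd, DQ_wd] at h3
    unfold F
    rw [e4, sub_zero]
    exact (abs_add_le _ _).trans (by linarith)
  rw [e3]
  refine e5.trans ?_
  have s1 : √(ip (wd x y) (wd x y)) ≤ √(∑ i, x i ^ 2) * √(∑ i, y i ^ 2) := by
    rw [← Real.sqrt_mul (Finset.sum_nonneg fun i _ => sq_nonneg _)]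
    exact Real.sqrt_le_sqrt (ip_wd_le x y)
  have s2 : √(ip (wd z' w') (wd z' w')) ≤ √(∑ i, z i ^ 2) * √(∑ i, w i ^ 2) := by
    rw [← Real.sqrt_mul (Finset.sum_nonneg fun i _ => sq_nonneg _)]
    refine Real.sqrt_le_sqrt ((ip_wd_le z' w').trans ?_)
    exact mul_le_mul hzz hww (Finset.sum_nonneg fun i _ => sq_nonneg _)
      (Finset.sum_nonneg fun i _ => sq_nonneg _)
  calc √(ip (wd x y) (wd x y)) * √(ip (wd z' w') (wd z' w')) ≤
      (√(∑ i, x i ^ 2) * √(∑ i, y i ^ 2)) * (√(∑ i, z i ^ 2) * √(∑ i, w i ^ 2)) :=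
        mul_le_mul s1 s2 (Real.sqrt_nonneg _) (by positivity)
    _ = _ := by ring

end FormData

end HopfBig
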