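import Pool.Agent.Lib.MP_4a593f_gt.Big.A3
import Pool.Agent.Lib.MP_4a593f_gt.Big.A5

/-! Task A6: `F(g L gᵀ) ≤ (1/2) tr((gᵀg)²) |L|²`.

Write `L = ∑ (l_i/2) g_i ∧ f_i` (`skew_decomp`, I call the vectors `u_i = g_i`, `f_i`).  Then
`g L gᵀ = ∑ (l_i/2) (g u_i) ∧ (g f_i)` and by `comass`
`F ≤ (1/4) (∑ l_i |g u_i| |g f_i|)² ≤ (1/4) (∑ l_i²) ∑ |g u_i|² |g f_i|²
  ≤ (1/4) (2 |L|²) (1/2) ∑ (|g u_i|⁴ + |g f_i|⁴)`, and for a unit vector
`|g u|⁴ = (u · gᵀg u)² ≤ |gᵀ g u|²`, so both sums are `≤ hs (gᵀ g)` (`bessel_hs`).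
Total: `(1/2) hs(gᵀ g) |L|²`. -/

open scoped BigOperators

namespace HopfBig

variable {n : ℕ} {p : ℝ} {H : Type} [NormedAddCommGroup H] [InnerProductSpace ℝ H]

theorem wd_congr (g : Mat n) (x y : Fin n → ℝ) :
    g * wd x y * g.transpose = wd (g.mulVec x) (g.mulVec y) := by
  have h : ∀ a b : Fin n → ℝ, wd a b = Matrix.vecMulVec a b - Matrix.vecMulVec b a := by
    intro a b
    ext i j
    simp only [wd, Matrix.of_apply, Matrix.sub_apply, Matrix.vecMulVec_apply]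
    ring
  rw [h, h, Matrix.mul_sub, Matrix.sub_mul, Matrix.mul_vecMulVec, Matrix.mul_vecMulVec,
    Matrix.vecMulVec_mul, Matrix.vecMulVec_mul, Matrix.vecMul_transpose, Matrix.vecMul_transpose]

private theorem A6_F_left (X : FormData n p H) {m : ℕ} (a : Fin m → ℝ) (W : Fin m → Mat n)
    (M : Mat n) : X.F (∑ i, a i • W i) M = ∑ i, a i * X.F (W i) M := by
  unfold FormData.F FormData.D
  rw [ip_sum_left]
  simp only [map_sum, map_smul, LinearMap.sum_apply, LinearMap.smul_apply, sum_inner,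
    real_inner_smul_left, smul_eq_mul, ip_smul_left, ← Finset.sum_add_distrib,
    ← Finset.sum_sub_distrib]
  refine Finset.sum_congr rfl fun i _ => ?_
  ring

private theorem A6_F_right (X : FormData n p H) {m : ℕ} (a : Fin m → ℝ) (W : Fin m → Mat n)
    (M : Mat n) : X.F M (∑ i, a i • W i) = ∑ i, a i * X.F M (W i) := by
  unfold FormData.F FormData.D
  rw [ip_sum_right]
  simp only [map_sum, map_smul, LinearMap.sum_apply, LinearMap.smul_apply, inner_sum,
    real_inner_smul_right, smul_eq_mul, ip_smul_right, ← Finset.sum_add_distrib,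
    ← Finset.sum_sub_distrib]
  refine Finset.sum_congr rfl fun i _ => ?_
  ring

/-- `|g u|⁴ ≤ |gᵀ g u|²` for `|u| ≤ 1` -/
private theorem A6_four (g : Mat n) (u : Fin n → ℝ) (hu : ∑ k, u k * u k ≤ 1) :
    (∑ k, (g.mulVec u) k ^ 2) ^ 2 ≤ ∑ k, ((g.transpose * g).mulVec u) k ^ 2 := by
  have h1 : ∑ k, (g.mulVec u) k ^ 2 = ∑ k, u k * ((g.transpose * g).mulVec u) k := by
    have h2 : (g.mulVec u) ⬝ᵥ (g.mulVec u) = u ⬝ᵥ ((g.transpose * g).mulVec u) := by
      rw [← Matrix.mulVec_mulVec, Matrix.dotProduct_mulVec u, Matrix.vecMul_transpose]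
    simp only [dotProduct] at h2
    rw [← h2]
    exact Finset.sum_congr rfl fun k _ => by ring
  rw [h1]
  have h3 := Finset.sum_mul_sq_le_sq_mul_sq Finset.univ u ((g.transpose * g).mulVec u)
  have h4 : ∑ k, u k ^ 2 ≤ 1 := by
    refine le_trans (le_of_eq ?_) hu
    exact Finset.sum_congr rfl fun k _ => by ring
  have h5 : 0 ≤ ∑ k, ((g.transpose * g).mulVec u) k ^ 2 :=
    Finset.sum_nonneg fun _ _ => sq_nonneg _
  nlinarith

theorem FormData.F_congr_le (X : FormData n p H) (g L : Mat n) (hL : Skew L) :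
    X.F (g * L * g.transpose) (g * L * g.transpose) ≤
      (1 / 2) * hs (g.transpose * g) * ip L L := by
  classical
  obtain ⟨f, u, l, hl, hf, hu, _, hLd, hls⟩ := skew_decomp L hL
  set W : Fin n → Mat n := fun i => wd (g.mulVec (u i)) (g.mulVec (f i)) with hW
  have hdec : g * L * g.transpose = ∑ i, (l i / 2) • W i := by
    conv_lhs => rw [hLd]
    rw [Matrix.mul_sum, Matrix.sum_mul]
    refine Finset.sum_congr rfl fun i _ => ?_
    rw [Matrix.mul_smul, Matrix.smul_mul, wd_congr]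
  set A : Fin n → ℝ := fun i => ∑ k, (g.mulVec (u i)) k ^ 2 with hA
  set B : Fin n → ℝ := fun i => ∑ k, (g.mulVec (f i)) k ^ 2 with hB
  have hA0 : ∀ i, 0 ≤ A i := fun i => Finset.sum_nonneg fun _ _ => sq_nonneg _
  have hB0 : ∀ i, 0 ≤ B i := fun i => Finset.sum_nonneg fun _ _ => sq_nonneg _
  set b : Fin n → ℝ := fun i => √(A i) * √(B i) with hb
  have hb0 : ∀ i, 0 ≤ b i := fun i => mul_nonneg (Real.sqrt_nonneg _) (Real.sqrt_nonneg _)
  have hbb : ∀ i, b i ^ 2 = A i * B i := by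
    intro i
    simp only [hb]
    rw [mul_pow, Real.sq_sqrt (hA0 i), Real.sq_sqrt (hB0 i)]
  have hF : ∀ i j, X.F (W i) (W j) ≤ b i * b j := by
    intro i j
    refine (le_abs_self _).trans ((X.comass _ _ _ _).trans (le_of_eq ?_))
    simp only [hb, hA, hB]
    ring
  have h1 : X.F (g * L * g.transpose) (g * L * g.transpose) ≤ (∑ i, (l i / 2) * b i) ^ 2 := by
    rw [hdec, A6_F_left, pow_two, Finset.sum_mul]
    refine Finset.sum_le_sum fun i _ => ?_
    rw [A6_F_right, mul_assoc, Finset.mul_sum, Finset.mul_sum, Finset.mul_sum]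
    refine Finset.sum_le_sum fun j _ => ?_
    have h2 := mul_le_mul_of_nonneg_left (hF i j)
      (mul_nonneg (div_nonneg (hl i) two_pos.le) (div_nonneg (hl j) two_pos.le))
    calc l i / 2 * (l j / 2 * X.F (W i) (W j)) = l i / 2 * (l j / 2) * X.F (W i) (W j) := by ring
      _ ≤ l i / 2 * (l j / 2) * (b i * b j) := h2
      _ = l i / 2 * (b i * (l j / 2 * b j)) := by ring
  have h2 : (∑ i, (l i / 2) * b i) ^ 2 ≤ (∑ i, (l i / 2) ^ 2) * ∑ i, b i ^ 2 :=
    Finset.sum_mul_sq_le_sq_mul_sq _ _ _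
  have h3 : ∑ i, (l i / 2) ^ 2 = (1 / 2) * ip L L := by
    have h4 : ∑ i, (l i / 2) ^ 2 = (1 / 4) * ∑ i, l i ^ 2 := by
      rw [Finset.mul_sum]
      exact Finset.sum_congr rfl fun i _ => by ring
    rw [h4, hls]
    ring
  have hAs : ∑ i, A i ^ 2 ≤ hs (g.transpose * g) := by
    refine le_trans (Finset.sum_le_sum fun i _ => A6_four g (u i) ?_)
      (bessel_hs (g.transpose * g) u (fun i => l i ≠ 0) ?_)
    · rw [hu i i]
      split_ifs
      · exact le_rfl
      · exact zero_le_one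
    · intro i j
      rw [hu i j]
  have hBs : ∑ i, B i ^ 2 ≤ hs (g.transpose * g) := by
    refine le_trans (Finset.sum_le_sum fun i _ => A6_four g (f i) ?_)
      (bessel_hs (g.transpose * g) f (fun _ => True) ?_)
    · rw [hf i i, if_pos rfl]
    · intro i j
      rw [hf i j]
      by_cases hij : i = j
      · rw [if_pos hij, if_pos ⟨hij, trivial⟩]
      · rw [if_neg hij, if_neg (fun h => hij h.1)]
  have h5 : ∑ i, b i ^ 2 ≤ hs (g.transpose * g) := by
    have h6 : ∑ i, b i ^ 2 ≤ ∑ i, (1 / 2 * A i ^ 2 + 1 / 2 * B i ^ 2) := by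
      refine Finset.sum_le_sum fun i _ => ?_
      rw [hbb i]
      nlinarith [sq_nonneg (A i - B i)]
    rw [Finset.sum_add_distrib, ← Finset.mul_sum, ← Finset.mul_sum] at h6
    linarith
  have h7 : 0 ≤ (1 / 2) * ip L L := mul_nonneg (by norm_num) (ip_self_nonneg L)
  calc X.F (g * L * g.transpose) (g * L * g.transpose) ≤ (∑ i, (l i / 2) * b i) ^ 2 := h1
    _ ≤ (∑ i, (l i / 2) ^ 2) * ∑ i, b i ^ 2 := h2
    _ = ((1 / 2) * ip L L) * ∑ i, b i ^ 2 := by rw [h3]
    _ ≤ ((1 / 2) * ip L L) * hs (g.transpose * g) := mul_le_mul_of_nonneg_left h5 h7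
    _ = (1 / 2) * hs (g.transpose * g) * ip L L := by ring

end HopfBig
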