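import Pool.Agent.Lib.MP_4a593f_gt.Big.A5
import Pool.Agent.Lib.MP_4a593f_gt.Big.A2

/-! Task A7: consequences of the eigenvector property.

(1) `d_i ⟨E_i, x∧y⟩ = D(E_i, x∧y) ≤ √(D(E_i,E_i)) √(D(x∧y)) ≤ √d_i |x||y|`, and
`⟨E_i, x∧y⟩ = x · E_i y` (`ip_wd`), so `‖E_i‖_op ≤ 1/√d_i`.
(2) expansion of `D` in the eigenbasis. (3) the splitting off of the top eigenvector. -/

open scoped BigOperators

namespace HopfBig

variable {n : ℕ} {p : ℝ} {H : Type} [NormedAddCommGroup H] [InnerProductSpace ℝ H]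
  {X : FormData n p H} {m : ℕ} {E : Fin m → Mat n} {d : Fin m → ℝ}

theorem Eig.d_nonneg (h : Eig X E d) (i : Fin m) : 0 ≤ d i := by
  have h1 := h.eig i (E i) (h.skew i)
  rw [h.orth i i] at h1
  have h2 := X.D_nonneg (E i)
  rw [h1] at h2
  simpa using h2

theorem Eig.d_le (h : Eig X E d) (i : Fin m) : d i ≤ p := by
  have h1 := h.eig i (E i) (h.skew i)
  have h2 := X.D_le (h.skew i)
  rw [h1, h.orth i i] at h2
  simpa using h2

theorem Eig.opLe (h : Eig X E d) {i : Fin m} (hi : 0 < d i) : OpLe (E i) (1 / √(d i)) := by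
  have hs : 0 < √(d i) := Real.sqrt_pos.mpr hi
  refine OpLe.of_bilin (by positivity) ?_
  intro x y
  rw [← ip_wd (h.skew i) x y]
  have hD := X.D_cauchy (E i) (wd x y)
  have h1 := h.eig i (E i) (h.skew i)
  rw [h.orth i i] at h1
  simp only [if_true, mul_one] at h1
  rw [h.eig i _ (Skew.wd x y), h1] at hD
  have hw := X.D_wd_le x y
  have hw0 := X.D_nonneg (wd x y)
  have hsq : (d i * ip (E i) (wd x y)) ^ 2 ≤ d i * X.D (wd x y) (wd x y) := by
    have h3 : |d i * ip (E i) (wd x y)| ^ 2 ≤ (√(d i) * √(X.D (wd x y) (wd x y))) ^ 2 :=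
      pow_le_pow_left₀ (abs_nonneg _) hD 2
    rwa [sq_abs, mul_pow (√(d i)), Real.sq_sqrt hi.le, Real.sq_sqrt hw0] at h3
  have h4 : d i * ip (E i) (wd x y) ^ 2 ≤ (∑ i, x i ^ 2) * ∑ i, y i ^ 2 := by
    have h5 : d i * (d i * ip (E i) (wd x y) ^ 2) ≤ d i * ((∑ i, x i ^ 2) * ∑ i, y i ^ 2) := by
      calc d i * (d i * ip (E i) (wd x y) ^ 2) = (d i * ip (E i) (wd x y)) ^ 2 := by ring
        _ ≤ d i * X.D (wd x y) (wd x y) := hsq
        _ ≤ _ := mul_le_mul_of_nonneg_left hw hi.le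
    exact le_of_mul_le_mul_left h5 hi
  have h6 : (1 / √(d i)) ^ 2 = 1 / d i := by
    rw [div_pow, one_pow, Real.sq_sqrt hi.le]
  rw [h6, mul_assoc, one_div, ← div_eq_inv_mul, le_div_iff₀ hi, mul_comm]
  exact h4

theorem Eig.ip_expand (h : Eig X E d) {L M : Mat n} (hL : Skew L) (hM : Skew M) :
    ip L M = ∑ i, ip (E i) L * ip (E i) M := by
  conv_lhs => rw [h.complete L hL]
  rw [ip_sum_left]
  exact Finset.sum_congr rfl fun i _ => ip_smul_left _ _ _

private theorem D_smul_sum_left (X : FormData n p H) (c : Fin m → ℝ) (E : Fin m → Mat n)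
    (M : Mat n) : X.D (∑ i, c i • E i) M = ∑ i, c i * X.D (E i) M := by
  unfold FormData.D
  rw [map_sum, LinearMap.sum_apply, sum_inner]
  refine Finset.sum_congr rfl fun i _ => ?_
  rw [map_smul, LinearMap.smul_apply, real_inner_smul_left]

theorem Eig.D_expand (h : Eig X E d) {L M : Mat n} (hL : Skew L) (hM : Skew M) :
    X.D L M = ∑ i, d i * ip (E i) L * ip (E i) M := by
  conv_lhs => rw [h.complete L hL]
  rw [D_smul_sum_left]
  refine Finset.sum_congr rfl fun i _ => ?_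
  rw [h.eig i M hM]
  ring

/-- `D(L,L) ≤ (sup of the eigenvalues in the support) |L|²` -/
theorem Eig.D_le_of (h : Eig X E d) {L : Mat n} (hL : Skew L) {b : ℝ}
    (hb : ∀ i, ip (E i) L ≠ 0 → d i ≤ b) : X.D L L ≤ b * ip L L := by
  rw [h.D_expand hL hL, h.ip_expand hL hL, Finset.mul_sum]
  refine Finset.sum_le_sum fun i _ => ?_
  by_cases h0 : ip (E i) L = 0
  · rw [h0]; simp
  · rw [mul_assoc]
    exact mul_le_mul_of_nonneg_right (hb i h0) (mul_self_nonneg _)

/-- component orthogonal to `L0` -/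
noncomputable def perp {n : ℕ} (L0 L : Mat n) : Mat n := L - ip L0 L • L0

theorem Skew.perp {L0 L : Mat n} (h0 : Skew L0) (hL : Skew L) : Skew (perp L0 L) :=
  Skew.sub hL (Skew.smul _ h0)

theorem Eig.perp_ip (h : Eig X E d) (i0 : Fin m) {L : Mat n} (hL : Skew L) :
    ip (E i0) (HopfBig.perp (E i0) L) = 0 := by
  unfold HopfBig.perp
  rw [ip_sub_right, ip_smul_right, h.orth i0 i0]
  simp

theorem Eig.ip_perp_self (h : Eig X E d) (i0 : Fin m) {L : Mat n} (hL : Skew L) :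
    ip (HopfBig.perp (E i0) L) (HopfBig.perp (E i0) L) = ip L L - ip (E i0) L ^ 2 := by
  unfold HopfBig.perp
  rw [ip_sub_right, ip_smul_right, ip_sub_left, ip_sub_left, ip_smul_left, ip_smul_left,
    h.orth i0 i0, ip_symm L (E i0)]
  simp only [if_true]
  ring

theorem Eig.D_split (h : Eig X E d) (i0 : Fin m) {L : Mat n} (hL : Skew L) :
    X.D L L = d i0 * ip (E i0) L ^ 2 +
      X.D (HopfBig.perp (E i0) L) (HopfBig.perp (E i0) L) := by
  have hsk := Skew.perp (h.skew i0) hL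
  have hdec : L = HopfBig.perp (E i0) L + ip (E i0) L • E i0 := by
    unfold HopfBig.perp; abel
  have h1 : X.D (E i0) (HopfBig.perp (E i0) L) = 0 := by
    rw [h.eig i0 _ hsk, h.perp_ip i0 hL, mul_zero]
  have h1' : X.D (HopfBig.perp (E i0) L) (E i0) = 0 := by
    rw [X.D_symm, h1]
  have h2 : X.D (E i0) (E i0) = d i0 := by
    rw [h.eig i0 _ (h.skew i0), h.orth i0 i0]; simp
  have hadd : ∀ (P R : Mat n) (c : ℝ), X.D (P + c • R) (P + c • R) =
      X.D P P + c * X.D R P + c * X.D P R + c ^ 2 * X.D R R := by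
    intro P R c
    unfold FormData.D
    rw [map_add, map_smul, LinearMap.add_apply, LinearMap.smul_apply, inner_add_left,
      inner_add_right, inner_add_right, real_inner_smul_left, real_inner_smul_left,
      real_inner_smul_right, real_inner_smul_right]
    ring
  conv_lhs => rw [hdec, hadd, h1, h1', h2]
  ring

theorem Eig.ip_E0_br (h : Eig X E d) (i0 : Fin m) {L : Mat n} (hL : Skew L) :
    ip (E i0) (br (E i0) L) = 0 := by
  rw [ip_br (h.skew i0) (h.skew i0) hL, br_self]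
  unfold ip
  simp

theorem Eig.br_perp (h : Eig X E d) (i0 : Fin m) {L : Mat n} (hL : Skew L) :
    br (E i0) (HopfBig.perp (E i0) L) = br (E i0) L := by
  unfold HopfBig.perp br
  rw [mul_sub, sub_mul, Matrix.mul_smul, Matrix.smul_mul]
  abel

end HopfBig
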