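import Pool.Agent.Lib.MP_4a593f_gt.Big.A7

/-! Task B1: the uncertainty relation.

`T = ρ_{L0}`, `D(L0, M) = λ ⟨L0, M⟩` for all skew `M`.  With `ρ_L, T` skew and
`[T, ρ_L] = ρ_{[L0,L]}`:
`⟨ρ_L ψ, T ρ_M ψ⟩ = -⟨T ρ_L ψ, ρ_M ψ⟩ = -⟨ρ_L T ψ, ρ_M ψ⟩ - D([L0,L],M)
   = ⟨Tψ, ρ_L ρ_M ψ⟩ - D([L0,L],M)`,
`⟨ρ_L ψ, ρ_M T ψ⟩ = -⟨ρ_M ρ_L ψ, T ψ⟩`; the sum is `⟨Tψ, [ρ_L,ρ_M]ψ⟩ - D([L0,L],M)
   = D(L0,[L,M]) - D([L0,L],M) = λ ⟨[L0,L], M⟩ - D([L0,L],M)`.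

Upper bound: `T ρ_M + ρ_M T = 2 T ρ_M - ρ_{[L0,M]}` and `‖T x‖ ≤ √p ‖x‖`
(`X.bd` with `ip L0 L0 = 1`), so the norm of `{T,ρ_M}ψ` is
`≤ 2 √p √D(M,M) + √D([L0,M],[L0,M])`, and
`D([L0,M],[L0,M]) ≤ λ |[L0,M]|² ≤ λ 4 (1/λ) |M|²` (`Eig.D_le_of`, `ip_br_le`). -/

open scoped BigOperators

namespace HopfBig

variable {n : ℕ} {p : ℝ} {H : Type} [NormedAddCommGroup H] [InnerProductSpace ℝ H]
  {X : FormData n p H} {m : ℕ} {E : Fin m → Mat n} {d : Fin m → ℝ}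

theorem uncert_identity (X : FormData n p H) {L0 L M : Mat n} {lam : ℝ} (h0 : Skew L0)
    (hL : Skew L) (hM : Skew M) (heig : ∀ K, Skew K → X.D L0 K = lam * ip L0 K) :
    inner ℝ (X.ρ L X.ψ) (X.ρ L0 (X.ρ M X.ψ) + X.ρ M (X.ρ L0 X.ψ)) =
      lam * ip (br L0 L) M - X.D (br L0 L) M := by
  have h1 : inner ℝ (X.ρ L X.ψ) (X.ρ L0 (X.ρ M X.ψ)) =
      -inner ℝ (X.ρ L0 (X.ρ L X.ψ)) (X.ρ M X.ψ) := by
    have := X.skew L0 h0 (X.ρ L X.ψ) (X.ρ M X.ψ)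
    linarith
  have h2 : X.ρ L0 (X.ρ L X.ψ) = X.ρ L (X.ρ L0 X.ψ) + X.ρ (br L0 L) X.ψ := by
    rw [← X.lie L0 L h0 hL X.ψ]; abel
  have h3 : inner ℝ (X.ρ L (X.ρ L0 X.ψ)) (X.ρ M X.ψ) =
      -inner ℝ (X.ρ L0 X.ψ) (X.ρ L (X.ρ M X.ψ)) := X.skew L hL _ _
  have h4 : inner ℝ (X.ρ L X.ψ) (X.ρ M (X.ρ L0 X.ψ)) =
      -inner ℝ (X.ρ L0 X.ψ) (X.ρ M (X.ρ L X.ψ)) := by
    have := X.skew M hM (X.ρ L X.ψ) (X.ρ L0 X.ψ)
    rw [real_inner_comm (X.ρ M (X.ρ L X.ψ)) (X.ρ L0 X.ψ)]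
    linarith
  have h5 : inner ℝ (X.ρ L0 X.ψ) (X.ρ L (X.ρ M X.ψ)) -
      inner ℝ (X.ρ L0 X.ψ) (X.ρ M (X.ρ L X.ψ)) = lam * ip (br L0 L) M := by
    rw [← inner_sub_right, X.lie L M hL hM X.ψ, ← ip_br h0 hL hM]
    exact heig _ (hL.br hM)
  have h6 : X.D (br L0 L) M = inner ℝ (X.ρ (br L0 L) X.ψ) (X.ρ M X.ψ) := rfl
  rw [inner_add_right, h1, h2, inner_add_left, h3, h4, h6, ← h5]
  ring

private theorem norm_rho_sq (X : FormData n p H) (M : Mat n) :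
    ‖X.ρ M X.ψ‖ = √(X.D M M) := by
  have : X.D M M = ‖X.ρ M X.ψ‖ ^ 2 := by
    unfold FormData.D
    exact real_inner_self_eq_norm_sq _
  rw [this, Real.sqrt_sq (norm_nonneg _)]

theorem anticomm_le (h : Eig X E d) (i0 : Fin m) (hmax : ∀ i, d i ≤ d i0) (hpos : 0 < d i0)
    {M : Mat n} (hM : Skew M) :
    ‖X.ρ (E i0) (X.ρ M X.ψ) + X.ρ M (X.ρ (E i0) X.ψ)‖ ≤
      2 * √p * √(X.D M M) + 2 * √(ip M M) := by
  have hE := h.skew i0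
  have h1 : X.ρ (E i0) (X.ρ M X.ψ) + X.ρ M (X.ρ (E i0) X.ψ) =
      (2 : ℝ) • X.ρ (E i0) (X.ρ M X.ψ) - X.ρ (br (E i0) M) X.ψ := by
    rw [← X.lie (E i0) M hE hM X.ψ, two_smul]; abel
  have hn : ‖X.ρ (E i0) (X.ρ M X.ψ)‖ ≤ √p * √(X.D M M) := by
    have h2 := X.bd (E i0) hE (X.ρ M X.ψ)
    have h3 : ip (E i0) (E i0) = 1 := by rw [h.orth]; simp
    rw [h3, mul_one] at h2
    have hp : 0 ≤ p := (h.d_nonneg i0).trans (h.d_le i0)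
    rw [← norm_rho_sq]
    have h4 : ‖X.ρ (E i0) (X.ρ M X.ψ)‖ ^ 2 ≤ (√p * ‖X.ρ M X.ψ‖) ^ 2 := by
      rw [mul_pow, Real.sq_sqrt hp]; exact h2
    exact abs_le_of_sq_le_sq' h4 (by positivity) |>.2
  have hb : ‖X.ρ (br (E i0) M) X.ψ‖ ≤ 2 * √(ip M M) := by
    rw [norm_rho_sq]
    have h5 : X.D (br (E i0) M) (br (E i0) M) ≤ d i0 * ip (br (E i0) M) (br (E i0) M) :=
      h.D_le_of (hE.br hM) (fun i _ => hmax i)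
    have h6 := ip_br_le (B := M) (h.opLe hpos)
    have h7 : (1 / √(d i0)) ^ 2 = 1 / d i0 := by
      rw [div_pow, one_pow, Real.sq_sqrt hpos.le]
    rw [h7] at h6
    have h8 : X.D (br (E i0) M) (br (E i0) M) ≤ 4 * ip M M := by
      calc X.D (br (E i0) M) (br (E i0) M) ≤ d i0 * ip (br (E i0) M) (br (E i0) M) := h5
        _ ≤ d i0 * (4 * (1 / d i0) * ip M M) := by
            exact mul_le_mul_of_nonneg_left h6 hpos.le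
        _ = 4 * ip M M := by field_simp
    calc √(X.D (br (E i0) M) (br (E i0) M)) ≤ √(4 * ip M M) := Real.sqrt_le_sqrt h8
      _ = 2 * √(ip M M) := by
          rw [Real.sqrt_mul (by norm_num)]
          congr 1
          rw [show (4 : ℝ) = 2 ^ 2 by norm_num]
          exact Real.sqrt_sq (by norm_num)
  rw [h1]
  calc ‖(2 : ℝ) • X.ρ (E i0) (X.ρ M X.ψ) - X.ρ (br (E i0) M) X.ψ‖
      ≤ ‖(2 : ℝ) • X.ρ (E i0) (X.ρ M X.ψ)‖ + ‖X.ρ (br (E i0) M) X.ψ‖ := norm_sub_le _ _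
    _ ≤ 2 * (√p * √(X.D M M)) + 2 * √(ip M M) := by
        rw [norm_smul, Real.norm_ofNat]
        gcongr
    _ = 2 * √p * √(X.D M M) + 2 * √(ip M M) := by ring

/-- the uncertainty relation -/
theorem uncert (h : Eig X E d) (i0 : Fin m) (hmax : ∀ i, d i ≤ d i0) (hpos : 0 < d i0)
    {L M : Mat n} (hL : Skew L) (hM : Skew M) :
    d i0 * ip (br (E i0) L) M - X.D (br (E i0) L) M ≤
      √(X.D (perp (E i0) L) (perp (E i0) L)) *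
        (2 * √p * √(X.D M M) + 2 * √(ip M M)) := by
  have hE := h.skew i0
  have hP : Skew (perp (E i0) L) := Skew.perp hE hL
  have h1 := uncert_identity X (lam := d i0) hE hP hM (fun K hK => h.eig i0 K hK)
  rw [h.br_perp i0 hL] at h1
  rw [← h1]
  calc inner ℝ (X.ρ (perp (E i0) L) X.ψ)
        (X.ρ (E i0) (X.ρ M X.ψ) + X.ρ M (X.ρ (E i0) X.ψ))
      ≤ ‖X.ρ (perp (E i0) L) X.ψ‖ *
        ‖X.ρ (E i0) (X.ρ M X.ψ) + X.ρ M (X.ρ (E i0) X.ψ)‖ := real_inner_le_norm _ _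
    _ ≤ _ := by
        rw [norm_rho_sq X (perp (E i0) L)]
        exact mul_le_mul_of_nonneg_left (anticomm_le h i0 hmax hpos hM) (Real.sqrt_nonneg _)

end HopfBig
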