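import Pool.Agent.Lib.MP_4a593f_gt.Big.B1

/-! Task B2: two consequences of the uncertainty relation `uncert`.

(1) `M = V := [L0,L]`: `⟨V,V⟩ λ - D(V,V) ≥ (λ - λ₂)|V|² ≥ ε p |V|²` (as `⟨L0,V⟩ = 0`,
`D(V,V) ≤ b |V|²` with `b = p/2`), right side `≤ √D⊥ (2 √p √(p/2) + 2) |V| ≤ √D⊥ 2p |V|` for
`p ≥ 16`.  So `|V|² ≤ (4/ε²) D⊥`.

(2) low modes.  Put `v_i = ⟨E_i, V⟩` and `M = ∑_{i low} d_i v_i E_i` (low: `d_i < Δ`).  Then
`λ⟨V,M⟩ - D(V,M) = ∑_{low} (λ - d_i) d_i v_i² ≥ (λ-Δ) S`, `S = ∑_{low} d_i v_i²`,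
`D(M,M) = ∑_{low} d_i³ v_i² ≤ Δ² S`, `|M|² = ∑_{low} d_i² v_i² ≤ Δ S`.  So
`(λ-Δ) √S ≤ √D⊥ (2 √p Δ + 2 √Δ) ≤ 4 √p Δ √D⊥` (as `p Δ ≥ 1`) and with `λ - Δ ≥ p/4`:
`S ≤ 256 Δ²/p D⊥`. -/

open scoped BigOperators

namespace HopfBig

variable {n : ℕ} {p : ℝ} {H : Type} [NormedAddCommGroup H] [InnerProductSpace ℝ H]
  {X : FormData n p H} {m : ℕ} {E : Fin m → Mat n} {d : Fin m → ℝ}

theorem V_bound (h : Eig X E d) (i0 : Fin m) (hp : 16 ≤ p) {ε : ℝ} (hε : 0 < ε)
    (h2 : ∀ i, i ≠ i0 → d i ≤ p / 2) (hgap : ∀ i, i ≠ i0 → ε * p ≤ d i0 - d i)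
    (hhalf : p / 2 ≤ d i0) {L : Mat n} (hL : Skew L) :
    ε ^ 2 * ip (br (E i0) L) (br (E i0) L) ≤
      4 * X.D (perp (E i0) L) (perp (E i0) L) := by
  have hE := h.skew i0
  have hV : Skew (br (E i0) L) := hE.br hL
  have hmax : ∀ i, d i ≤ d i0 := by
    intro i
    rcases eq_or_ne i i0 with rfl | hi
    · exact le_rfl
    · exact (h2 i hi).trans hhalf
  have hpos : 0 < d i0 := by linarith
  have hu := uncert h i0 hmax hpos hL hV
  have h0 : ip (E i0) (br (E i0) L) = 0 := h.ip_E0_br i0 hL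
  have hD1 : X.D (br (E i0) L) (br (E i0) L) ≤
      (d i0 - ε * p) * ip (br (E i0) L) (br (E i0) L) := by
    apply h.D_le_of hV
    intro i hi
    have : i ≠ i0 := by rintro rfl; exact hi h0
    have := hgap i this
    linarith
  have hD2 : X.D (br (E i0) L) (br (E i0) L) ≤
      (p / 2) * ip (br (E i0) L) (br (E i0) L) := by
    apply h.D_le_of hV
    intro i hi
    have : i ≠ i0 := by rintro rfl; exact hi h0
    exact h2 i this
  have hA : 0 ≤ ip (br (E i0) L) (br (E i0) L) := ip_self_nonneg _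
  have hDp : 0 ≤ X.D (perp (E i0) L) (perp (E i0) L) := X.D_nonneg _
  generalize ip (br (E i0) L) (br (E i0) L) = A at *
  generalize X.D (br (E i0) L) (br (E i0) L) = B at *
  generalize X.D (perp (E i0) L) (perp (E i0) L) = C at *
  have hB : √B ≤ √(p / 2) * √A := by
    rw [← Real.sqrt_mul (by linarith)]
    exact Real.sqrt_le_sqrt hD2
  have hpp : √p * √(p / 2) ≤ 3 / 4 * p := by
    rw [← Real.sqrt_mul (by linarith)]
    rw [show 3 / 4 * p = √((3 / 4 * p) ^ 2) by rw [Real.sqrt_sq (by linarith)]]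
    apply Real.sqrt_le_sqrt
    nlinarith
  have hsA : √A * √A = A := Real.mul_self_sqrt hA
  have hsC : √C * √C = C := Real.mul_self_sqrt hDp
  have hAn : 0 ≤ √A := Real.sqrt_nonneg _
  have hCn : 0 ≤ √C := Real.sqrt_nonneg _
  have hpn : 0 ≤ √p := Real.sqrt_nonneg _
  have h3 : 2 * √p * √B + 2 * √A ≤ 2 * p * √A := by
    have h4 : √p * √B ≤ 3 / 4 * p * √A := by
      calc √p * √B ≤ √p * (√(p / 2) * √A) := mul_le_mul_of_nonneg_left hB hpn
        _ = (√p * √(p / 2)) * √A := by ring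
        _ ≤ 3 / 4 * p * √A := mul_le_mul_of_nonneg_right hpp hAn
    nlinarith
  have h5 : ε * p * A ≤ √C * (2 * p * √A) := by
    have h6 : d i0 * A - B ≥ ε * p * A := by nlinarith
    calc ε * p * A ≤ d i0 * A - B := h6
      _ ≤ √C * (2 * √p * √B + 2 * √A) := hu
      _ ≤ √C * (2 * p * √A) := mul_le_mul_of_nonneg_left h3 hCn
  have hp0 : 0 < p := by linarith
  have h7 : ε * √A ≤ 2 * √C := by
    rcases eq_or_lt_of_le hAn with h8 | h8
    · rw [← h8]; nlinarith
    · have h9 : (ε * √A) * (p * √A) ≤ (2 * √C) * (p * √A) := by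
        calc (ε * √A) * (p * √A) = ε * p * (√A * √A) := by ring
          _ = ε * p * A := by rw [hsA]
          _ ≤ √C * (2 * p * √A) := h5
          _ = (2 * √C) * (p * √A) := by ring
      exact le_of_mul_le_mul_right h9 (by positivity)
  calc ε ^ 2 * A = (ε * √A) * (ε * √A) := by
        rw [show (ε * √A) * (ε * √A) = ε ^ 2 * (√A * √A) by ring, hsA]
    _ ≤ (2 * √C) * (2 * √C) := by
        apply mul_le_mul h7 h7 (by positivity) (by positivity)
    _ = 4 * (√C * √C) := by ring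
    _ = 4 * C := by rw [hsC]

theorem low_bound (h : Eig X E d) (i0 : Fin m) (hmax : ∀ i, d i ≤ d i0) (hp : 16 ≤ p)
    {Δ : ℝ} (hΔ1 : 1 ≤ p * Δ) (hΔ2 : Δ ≤ p / 4) (hhalf : p / 2 ≤ d i0) {L : Mat n}
    (hL : Skew L) :
    p * ∑ i with d i < Δ, d i * ip (E i) (br (E i0) L) ^ 2 ≤
      256 * Δ ^ 2 * X.D (perp (E i0) L) (perp (E i0) L) := by
  classical
  have hE := h.skew i0
  have hV : Skew (br (E i0) L) := hE.br hL
  have hpos : 0 < d i0 := by linarith
  have hp0 : 0 < p := by linarith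
  have hΔ0 : 0 < Δ := by
    by_contra hcon
    push Not at hcon
    nlinarith
  set V := br (E i0) L with hVdef
  set M : Mat n := ∑ i, (if d i < Δ then d i * ip (E i) V else 0) • E i with hMdef
  have hM : Skew M := Skew.sum (fun i => (h.skew i).smul _)
  have hipM : ∀ j, ip (E j) M = if d j < Δ then d j * ip (E j) V else 0 := by
    intro j
    rw [hMdef, ip_sum_right]
    simp_rw [ip_smul_right, h.orth]
    simp
  set S := ∑ i with d i < Δ, d i * ip (E i) V ^ 2 with hSdef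
  have hS' : S = ∑ i, if d i < Δ then d i * ip (E i) V ^ 2 else 0 := by
    rw [hSdef, Finset.sum_filter]
  have hd0 := h.d_nonneg
  have hS0 : 0 ≤ S := by
    rw [hSdef]
    exact Finset.sum_nonneg (fun i _ => mul_nonneg (hd0 i) (sq_nonneg _))
  have e1 : ip V M = S := by
    rw [h.ip_expand hV hM, hS']
    apply Finset.sum_congr rfl
    intro i _
    rw [hipM]
    split_ifs <;> ring
  have e2 : X.D V M ≤ Δ * S := by
    rw [h.D_expand hV hM, hS', Finset.mul_sum]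
    apply Finset.sum_le_sum
    intro i _
    rw [hipM]
    split_ifs with hi
    · have : d i * ip (E i) V * (d i * ip (E i) V) = d i * (d i * ip (E i) V ^ 2) := by ring
      rw [this]
      exact mul_le_mul_of_nonneg_right hi.le (mul_nonneg (hd0 i) (sq_nonneg _))
    · simp
  have e3 : ip M M ≤ Δ * S := by
    rw [h.ip_expand hM hM, hS', Finset.mul_sum]
    apply Finset.sum_le_sum
    intro i _
    rw [hipM]
    split_ifs with hi
    · have : d i * ip (E i) V * (d i * ip (E i) V) = d i * (d i * ip (E i) V ^ 2) := by ring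
      rw [this]
      exact mul_le_mul_of_nonneg_right hi.le (mul_nonneg (hd0 i) (sq_nonneg _))
    · simp
  have e4 : X.D M M ≤ Δ ^ 2 * S := by
    rw [h.D_expand hM hM, hS', Finset.mul_sum]
    apply Finset.sum_le_sum
    intro i _
    rw [hipM]
    split_ifs with hi
    · have : d i * (d i * ip (E i) V) * (d i * ip (E i) V) =
          d i ^ 2 * (d i * ip (E i) V ^ 2) := by ring
      rw [this]
      exact mul_le_mul_of_nonneg_right (pow_le_pow_left₀ (hd0 i) hi.le 2)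
        (mul_nonneg (hd0 i) (sq_nonneg _))
    · simp
  have hu := uncert h i0 hmax hpos hL hM
  rw [← hVdef, e1] at hu
  have hDp : 0 ≤ X.D (perp (E i0) L) (perp (E i0) L) := X.D_nonneg _
  generalize X.D (perp (E i0) L) (perp (E i0) L) = C at *
  generalize X.D V M = B1 at *
  generalize X.D M M = B2 at *
  generalize ip M M = B3 at *
  clear_value S
  have hsS : √S * √S = S := Real.mul_self_sqrt hS0
  have hsC : √C * √C = C := Real.mul_self_sqrt hDp
  have hsp : √p * √p = p := Real.mul_self_sqrt hp0.le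
  have hsD : √Δ * √Δ = Δ := Real.mul_self_sqrt hΔ0.le
  have hSn : 0 ≤ √S := Real.sqrt_nonneg _
  have hCn : 0 ≤ √C := Real.sqrt_nonneg _
  have hpn : 0 < √p := Real.sqrt_pos.mpr hp0
  have hDn : 0 < √Δ := Real.sqrt_pos.mpr hΔ0
  have f1 : √B2 ≤ Δ * √S := by
    calc √B2 ≤ √(Δ ^ 2 * S) := Real.sqrt_le_sqrt e4
      _ = Δ * √S := by rw [Real.sqrt_mul (by positivity), Real.sqrt_sq hΔ0.le]
  have f2 : √B3 ≤ √Δ * √S := by
    calc √B3 ≤ √(Δ * S) := Real.sqrt_le_sqrt e3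
      _ = √Δ * √S := by rw [Real.sqrt_mul hΔ0.le]
  have f3 : √Δ ≤ √p * Δ := by
    have h1 : 1 ≤ √p * √Δ := by
      rw [← Real.sqrt_mul hp0.le]
      exact Real.one_le_sqrt.mpr hΔ1
    calc √Δ = 1 * √Δ := by ring
      _ ≤ (√p * √Δ) * √Δ := mul_le_mul_of_nonneg_right h1 hDn.le
      _ = √p * (√Δ * √Δ) := by ring
      _ = √p * Δ := by rw [hsD]
  have f4 : 2 * √p * √B2 + 2 * √B3 ≤ 4 * √p * Δ * √S := by
    have g1 : √p * √B2 ≤ √p * (Δ * √S) := mul_le_mul_of_nonneg_left f1 hpn.le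
    have g2 : √Δ * √S ≤ (√p * Δ) * √S := mul_le_mul_of_nonneg_right f3 hSn
    nlinarith
  have f5 : p / 4 * S ≤ √C * (4 * √p * Δ * √S) := by
    have g1 : p / 4 * S ≤ (d i0 - Δ) * S := mul_le_mul_of_nonneg_right (by linarith) hS0
    calc p / 4 * S ≤ (d i0 - Δ) * S := g1
      _ ≤ d i0 * S - B1 := by linarith
      _ ≤ √C * (2 * √p * √B2 + 2 * √B3) := hu
      _ ≤ √C * (4 * √p * Δ * √S) := mul_le_mul_of_nonneg_left f4 hCn
  have f6 : √p * √S ≤ 16 * Δ * √C := by
    rcases eq_or_lt_of_le hSn with h8 | h8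
    · rw [← h8]; simp only [mul_zero]; positivity
    · have h9 : (√p * √S) * (√p * √S) ≤ (16 * Δ * √C) * (√p * √S) := by
        calc (√p * √S) * (√p * √S) = (√p * √p) * (√S * √S) := by ring
          _ = p * S := by rw [hsp, hsS]
          _ ≤ 4 * (√C * (4 * √p * Δ * √S)) := by linarith
          _ = (16 * Δ * √C) * (√p * √S) := by ring
      exact le_of_mul_le_mul_right h9 (by positivity)
  calc p * S = (√p * √S) * (√p * √S) := by
        rw [show (√p * √S) * (√p * √S) = (√p * √p) * (√S * √S) by ring, hsp, hsS]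
    _ ≤ (16 * Δ * √C) * (16 * Δ * √C) := by
        apply mul_le_mul f6 f6 (by positivity) (by positivity)
    _ = 256 * Δ ^ 2 * (√C * √C) := by ring
    _ = 256 * Δ ^ 2 * C := by rw [hsC]

end HopfBig
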