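import Pool.Agent.Lib.MP_4a593f_gt.Big.A7

/-! Task C1: orthogonal changes of coordinates and diagonalisation of `L0²`. -/

open scoped BigOperators

namespace HopfBig

variable {n : ℕ} {p : ℝ} {H : Type} [NormedAddCommGroup H] [InnerProductSpace ℝ H]

/-- orthogonal matrices -/
def Orth {n : ℕ} (O : Mat n) : Prop := O.transpose * O = 1 ∧ O * O.transpose = 1

private theorem skew_iff (A : Mat n) : Skew A ↔ A.transpose = -A := by
  constructor
  · intro h
    ext i j
    exact h i j
  · intro h i j
    exact congrFun (congrFun h i) j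

private theorem ip_trace (A B : Mat n) : ip A B = (1 / 2) * (A.transpose * B).trace := by
  unfold ip
  congr 1
  rw [Matrix.trace, Finset.sum_comm]
  refine Finset.sum_congr rfl fun i _ => ?_
  rw [Matrix.diag_apply, Matrix.mul_apply]
  rfl

/-- spectral theorem for the symmetric matrix `-L0²` -/
theorem exists_diag (L0 : Mat n) (h : Skew L0) :
    ∃ (O : Mat n) (t : Fin n → ℝ), Orth O ∧
      -((O.transpose * L0 * O) * (O.transpose * L0 * O)) = Matrix.diagonal t ∧ ∀ i, 0 ≤ t i := by
  have hT := (skew_iff L0).mp h
  have hpos : (L0.conjTranspose * L0).PosSemidef := Matrix.posSemidef_conjTranspose_mul_self L0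
  have hH : (L0.conjTranspose * L0).IsHermitian := hpos.1
  have hct : ∀ M : Mat n, M.conjTranspose = M.transpose := fun M => by
    ext i j
    simp
  have hS : L0.conjTranspose * L0 = -(L0 * L0) := by
    rw [hct, hT, Matrix.neg_mul]
  have hsp := hH.spectral_theorem
  rw [Unitary.conjStarAlgAut_apply] at hsp
  set O : Mat n := (hH.eigenvectorUnitary : Mat n) with hO
  have hstar : star O = O.transpose := by
    rw [Matrix.star_eq_conjTranspose, hct]
  have h1 : O.transpose * O = 1 := by
    rw [← hstar]
    exact Unitary.coe_star_mul_self hH.eigenvectorUnitary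
  have h2 : O * O.transpose = 1 := by
    rw [← hstar]
    exact Unitary.coe_mul_star_self hH.eigenvectorUnitary
  refine ⟨O, hH.eigenvalues, ⟨h1, h2⟩, ?_, hpos.eigenvalues_nonneg⟩
  have h3 : (O.transpose * L0 * O) * (O.transpose * L0 * O) = O.transpose * (L0 * L0) * O := by
    calc (O.transpose * L0 * O) * (O.transpose * L0 * O)
        = O.transpose * L0 * (O * O.transpose) * (L0 * O) := by simp only [Matrix.mul_assoc]
      _ = O.transpose * (L0 * L0) * O := by rw [h2, Matrix.mul_one]; simp only [Matrix.mul_assoc]
  have h4 : -(O.transpose * (L0 * L0) * O) = O.transpose * (-(L0 * L0)) * O := by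
    rw [Matrix.mul_neg, Matrix.neg_mul]
  have h6 : O.transpose * (L0.conjTranspose * L0) * O = O.transpose *
      (O * Matrix.diagonal (RCLike.ofReal ∘ hH.eigenvalues) * star O) * O :=
    congrArg (fun M => O.transpose * M * O) hsp
  rw [h3, h4, ← hS, h6, hstar]
  have h5 : (RCLike.ofReal ∘ hH.eigenvalues : Fin n → ℝ) = hH.eigenvalues := by
    funext i
    simp
  rw [h5]
  calc O.transpose * (O * Matrix.diagonal hH.eigenvalues * O.transpose) * O
      = (O.transpose * O) * Matrix.diagonal hH.eigenvalues * (O.transpose * O) := by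
        simp only [Matrix.mul_assoc]
    _ = Matrix.diagonal hH.eigenvalues := by rw [h1, Matrix.one_mul, Matrix.mul_one]

theorem ip_conj {O : Mat n} (hO : Orth O) (A B : Mat n) :
    ip (O.transpose * A * O) (O.transpose * B * O) = ip A B := by
  rw [ip_trace, ip_trace]
  congr 1
  have h1 : (O.transpose * A * O).transpose * (O.transpose * B * O) =
      O.transpose * (A.transpose * B * O) := by
    rw [Matrix.transpose_mul, Matrix.transpose_mul, Matrix.transpose_transpose]
    calc O.transpose * (A.transpose * O) * (O.transpose * B * O)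
        = O.transpose * A.transpose * (O * O.transpose) * (B * O) := by
          simp only [Matrix.mul_assoc]
      _ = O.transpose * (A.transpose * B * O) := by
          rw [hO.2, Matrix.mul_one]; simp only [Matrix.mul_assoc]
  rw [h1, Matrix.trace_mul_comm, Matrix.mul_assoc, hO.2, Matrix.mul_one]

private theorem Orth.transpose {O : Mat n} (hO : Orth O) : Orth O.transpose := by
  refine ⟨?_, ?_⟩
  · rw [Matrix.transpose_transpose]; exact hO.2
  · rw [Matrix.transpose_transpose]; exact hO.1

theorem ip_conj' {O : Mat n} (hO : Orth O) (A B : Mat n) :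
    ip (O * A * O.transpose) (O * B * O.transpose) = ip A B := by
  have := ip_conj (Orth.transpose hO) A B
  rwa [Matrix.transpose_transpose] at this

private theorem orth_sq {O : Mat n} (hO : Orth O) (x : Fin n → ℝ) :
    ∑ i, (O.mulVec x) i ^ 2 = ∑ i, x i ^ 2 := by
  have h1 : ∀ v : Fin n → ℝ, ∑ i, v i ^ 2 = v ⬝ᵥ v := by
    intro v
    unfold dotProduct
    exact Finset.sum_congr rfl fun i _ => pow_two _
  rw [h1, h1, Matrix.dotProduct_mulVec, Matrix.vecMul_mulVec, hO.1, Matrix.vecMul_one]

theorem OpLe.conj' {O : Mat n} (hO : Orth O) {A : Mat n} {r : ℝ} (h : OpLe A r) :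
    OpLe (O * A * O.transpose) r := by
  refine ⟨h.1, fun x => ?_⟩
  rw [Matrix.mul_assoc, ← Matrix.mulVec_mulVec, orth_sq hO, ← Matrix.mulVec_mulVec]
  refine (h.2 _).trans ?_
  rw [orth_sq (Orth.transpose hO)]

theorem br_conj' {O : Mat n} (hO : Orth O) (A B : Mat n) :
    br (O * A * O.transpose) (O * B * O.transpose) = O * br A B * O.transpose := by
  have h1 : ∀ A B : Mat n, (O * A * O.transpose) * (O * B * O.transpose) =
      O * (A * B) * O.transpose := by
    intro A B
    calc (O * A * O.transpose) * (O * B * O.transpose)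
        = O * A * (O.transpose * O) * (B * O.transpose) := by simp only [Matrix.mul_assoc]
      _ = O * (A * B) * O.transpose := by rw [hO.1, Matrix.mul_one]; simp only [Matrix.mul_assoc]
  unfold br
  rw [h1, h1, Matrix.mul_sub, Matrix.sub_mul]

theorem Skew.conj {A : Mat n} (O : Mat n) (h : Skew A) : Skew (O.transpose * A * O) := by
  have := Skew.congr O.transpose h
  rwa [Matrix.transpose_transpose] at this

/-- the data in rotated coordinates: `ρ' L = ρ (O L Oᵀ)` -/
noncomputable def FormData.conj (X : FormData n p H) (O : Mat n) (hO : Orth O) :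
    FormData n p H where
  ρ := X.ρ.comp ((LinearMap.mulRight ℝ O.transpose).comp (LinearMap.mulLeft ℝ O))
  ψ := X.ψ
  Q := X.Q.compl₁₂ ((LinearMap.mulRight ℝ O.transpose).comp (LinearMap.mulLeft ℝ O))
    ((LinearMap.mulRight ℝ O.transpose).comp (LinearMap.mulLeft ℝ O))
  norm_ψ := X.norm_ψ
  skew := by
    intro L hL x y
    exact X.skew (O * L * O.transpose) (Skew.congr O hL) x y
  lie := by
    intro L M hL hM x
    have h := X.lie (O * L * O.transpose) (O * M * O.transpose) (Skew.congr O hL)
      (Skew.congr O hM) x
    rw [br_conj' hO] at h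
    exact h
  bd := by
    intro L hL x
    have h := X.bd (O * L * O.transpose) (Skew.congr O hL) x
    rw [ip_conj' hO] at h
    exact h
  bdop := by
    intro L r hL h x
    exact X.bdop (O * L * O.transpose) r (Skew.congr O hL) (OpLe.conj' hO h) x
  Qsymm := by
    intro L M
    exact X.Qsymm (O * L * O.transpose) (O * M * O.transpose)
  Qpos := by
    intro L
    exact X.Qpos (O * L * O.transpose)
  four := by
    have h := X.four.pull O
    refine h.congr_skew ?_
    intro L hL
    have h1 := ip_conj' hO L L
    show inner ℝ (X.ρ (O * L * O.transpose) X.ψ) (X.ρ (O * L * O.transpose) X.ψ) +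
      X.Q (O * L * O.transpose) (O * L * O.transpose) - ip L L = _
    rw [← h1]

theorem FormData.conj_D (X : FormData n p H) (O : Mat n) (hO : Orth O) (L M : Mat n) :
    (X.conj O hO).D L M = X.D (O * L * O.transpose) (O * M * O.transpose) := by
  rfl

private theorem conj_conj {O : Mat n} (hO : Orth O) (A : Mat n) :
    O * (O.transpose * A * O) * O.transpose = A := by
  calc O * (O.transpose * A * O) * O.transpose
      = (O * O.transpose) * A * (O * O.transpose) := by simp only [Matrix.mul_assoc]
    _ = A := by rw [hO.2, Matrix.one_mul, Matrix.mul_one]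

private theorem conj_conj' {O : Mat n} (hO : Orth O) (A : Mat n) :
    O.transpose * (O * A * O.transpose) * O = A := by
  calc O.transpose * (O * A * O.transpose) * O
      = (O.transpose * O) * A * (O.transpose * O) := by simp only [Matrix.mul_assoc]
    _ = A := by rw [hO.1, Matrix.one_mul, Matrix.mul_one]

private theorem ip_shift {O : Mat n} (hO : Orth O) (A B : Mat n) :
    ip (O.transpose * A * O) B = ip A (O * B * O.transpose) := by
  rw [← ip_conj' hO (O.transpose * A * O) B, conj_conj hO]

theorem Eig.conj {X : FormData n p H} {m : ℕ} {E : Fin m → Mat n} {d : Fin m → ℝ}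
    (h : Eig X E d) (O : Mat n) (hO : Orth O) :
    Eig (X.conj O hO) (fun i => O.transpose * E i * O) d := by
  refine ⟨fun i => (h.skew i).conj O, fun i j => ?_, fun L hL => ?_, fun i M hM => ?_⟩
  · rw [ip_conj hO]
    exact h.orth i j
  · have h1 := h.complete (O * L * O.transpose) (Skew.congr O hL)
    have h2 : L = O.transpose * (O * L * O.transpose) * O := (conj_conj' hO L).symm
    rw [h1, Finset.mul_sum, Finset.sum_mul] at h2
    conv_lhs => rw [h2]
    refine Finset.sum_congr rfl fun i _ => ?_
    rw [ip_shift hO, Matrix.mul_smul, Matrix.smul_mul]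
  · rw [FormData.conj_D]
    rw [conj_conj hO, h.eig i _ (Skew.congr O hM), ip_shift hO]

end HopfBig
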