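import Pool.Agent.Lib.MP_4a593f_gt.Big.C1

/-! Task C2: the frame of `L0`.

`-L0² = diagonal t`, `θ_i = √t_i`, `a_i = √λ θ_i`, `J_ij = L0_ij / θ_i` (0 if `θ_i = 0`).
`L0` commutes with `L0²`, so `L0_ij ≠ 0 → t_i = t_j`; if `θ_i = 0` then `∑_j L0_ij² = t_i = 0`.
Hence `√λ L0_ij = a_i J_ij`, `J` is skew, `J² = -1` on `{a_i ≠ 0}`, `a_i ≤ 1` because
`t_i = |L0 e_i|² ≤ 1/λ`, and `∑ t_i = ‖L0‖_HS² = 2`. -/

open scoped BigOperators

namespace HopfBig

variable {n : ℕ}

/-- the frame adapted to `L0` -/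
structure Frame {n : ℕ} (L0 J : Mat n) (a : Fin n → ℝ) (lam : ℝ) : Prop where
  lam_pos : 0 < lam
  a_nonneg : ∀ i, 0 ≤ a i
  a_le : ∀ i, a i ≤ 1
  skewJ : Skew J
  comm : ∀ i j, J i j ≠ 0 → a i = a j
  sq : J * J = Matrix.diagonal (fun i => if a i = 0 then 0 else -1)
  hL0 : ∀ i j, √lam * L0 i j = a i * J i j
  suma : ∑ i, a i ^ 2 = 2 * lam

theorem exists_frame (L0 : Mat n) (h : Skew L0) (t : Fin n → ℝ) (ht : ∀ i, 0 ≤ t i)
    (hd : -(L0 * L0) = Matrix.diagonal t) (lam : ℝ) (hl : 0 < lam) (h1 : ip L0 L0 = 1)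
    (hop : OpLe L0 (1 / √lam)) :
    ∃ (J : Mat n) (a : Fin n → ℝ), Frame L0 J a lam := by
  classical
  have hsl : 0 < √lam := Real.sqrt_pos.mpr hl
  have hsl2 : √lam * √lam = lam := Real.mul_self_sqrt hl.le
  have hLL : L0 * L0 = -Matrix.diagonal t := by rw [← hd, neg_neg]
  -- t i = ∑ j, L0 i j ^ 2
  have hti : ∀ i, t i = ∑ j, L0 i j ^ 2 := by
    intro i
    have := congrFun (congrFun hd i) i
    rw [Matrix.diagonal_apply_eq, Matrix.neg_apply, Matrix.mul_apply] at this
    rw [← this, ← Finset.sum_neg_distrib]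
    apply Finset.sum_congr rfl
    intro j _
    rw [h i j]; ring
  have hcomm : ∀ i j, L0 i j ≠ 0 → t i = t j := by
    intro i j hij
    have e : L0 * (L0 * L0) = (L0 * L0) * L0 := (Matrix.mul_assoc _ _ _).symm
    rw [hLL] at e
    have := congrFun (congrFun e i) j
    rw [Matrix.mul_neg, Matrix.neg_mul, Matrix.neg_apply, Matrix.neg_apply,
      Matrix.mul_diagonal, Matrix.diagonal_mul] at this
    have h3 : L0 i j * (t i - t j) = 0 := by linarith
    rcases mul_eq_zero.mp h3 with h4 | h4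
    · exact absurd h4 hij
    · linarith
  have hzero : ∀ i j, t i = 0 → L0 i j = 0 := by
    intro i j hi
    rw [hti] at hi
    have := (Finset.sum_eq_zero_iff_of_nonneg (fun j _ => sq_nonneg (L0 i j))).mp hi j
      (Finset.mem_univ j)
    exact pow_eq_zero_iff (two_ne_zero) |>.mp this
  have hθ : ∀ i, √(t i) * √(t i) = t i := fun i => Real.mul_self_sqrt (ht i)
  refine ⟨Matrix.of fun i j => L0 i j / √(t i), fun i => √lam * √(t i), ?_⟩
  have ha0 : ∀ i, (√lam * √(t i) = 0 ↔ t i = 0) := by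
    intro i
    rw [mul_eq_zero, Real.sqrt_eq_zero (ht i)]
    constructor
    · rintro (h4 | h4)
      · exact absurd h4 hsl.ne'
      · exact h4
    · intro h4; exact Or.inr h4
  refine ⟨hl, fun i => mul_nonneg hsl.le (Real.sqrt_nonneg _), ?_, ?_, ?_, ?_, ?_, ?_⟩
  · intro i
    have h2 := hop.2 (Pi.single i 1)
    have h3 : ∑ j, (L0.mulVec (Pi.single i 1)) j ^ 2 = t i := by
      rw [hti]
      apply Finset.sum_congr rfl
      intro j _
      rw [Matrix.mulVec_single_one]
      simp only [Matrix.col_apply]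
      rw [h i j]; ring
    have h4 : ∑ j, (Pi.single i (1 : ℝ) : Fin n → ℝ) j ^ 2 = 1 := by
      rw [Finset.sum_eq_single i]
      · simp
      · intro j _ hj
        rw [Pi.single_eq_of_ne hj]; simp
      · intro hi; exact absurd (Finset.mem_univ i) hi
    rw [h3, h4, mul_one, div_pow, one_pow, sq, hsl2] at h2
    have h5 : (√lam * √(t i)) ^ 2 ≤ 1 := by
      rw [show (√lam * √(t i)) ^ 2 = (√lam * √lam) * (√(t i) * √(t i)) by ring, hsl2, hθ]
      rw [le_div_iff₀ hl] at h2
      linarith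
    have h6 : 0 ≤ √lam * √(t i) := mul_nonneg hsl.le (Real.sqrt_nonneg _)
    nlinarith
  · intro i j
    simp only [Matrix.of_apply]
    rw [h i j]
    by_cases hij : L0 i j = 0
    · simp [hij]
    · rw [hcomm i j hij, neg_div]
  · intro i j hij
    simp only [Matrix.of_apply] at hij
    have : L0 i j ≠ 0 := by
      intro h0; rw [h0] at hij; simp at hij
    rw [hcomm i j this]
  · ext i k
    rw [Matrix.mul_apply]
    simp only [Matrix.of_apply]
    have e1 : ∀ j, L0 i j / √(t i) * (L0 j k / √(t j)) = L0 i j * L0 j k / t i := by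
      intro j
      by_cases hij : L0 i j = 0
      · simp [hij]
      · rw [← hcomm i j hij, div_mul_div_comm, hθ]
    simp_rw [e1]
    rw [← Finset.sum_div]
    have e2 : ∑ j, L0 i j * L0 j k = (L0 * L0) i k := by rw [Matrix.mul_apply]
    rw [e2, hLL, Matrix.neg_apply]
    rw [Matrix.diagonal_apply, Matrix.diagonal_apply]
    by_cases hik : i = k
    · subst hik
      simp only [if_true]
      by_cases hz : t i = 0
      · rw [if_pos ((ha0 i).mpr hz), hz]; simp
      · rw [if_neg (fun hc => hz ((ha0 i).mp hc)), neg_div, div_self hz]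
    · simp [hik]
  · intro i j
    simp only [Matrix.of_apply]
    by_cases hz : t i = 0
    · rw [hzero i j hz]; simp
    · have : √(t i) ≠ 0 := fun hc => hz ((Real.sqrt_eq_zero (ht i)).mp hc)
      field_simp
  · have e1 : ∀ i, (√lam * √(t i)) ^ 2 = lam * t i := by
      intro i
      rw [show (√lam * √(t i)) ^ 2 = (√lam * √lam) * (√(t i) * √(t i)) by ring, hsl2, hθ]
    simp_rw [e1]
    rw [← Finset.mul_sum]
    have e2 : ∑ i, t i = 2 := by
      have h3 := two_ip_self L0
      rw [h1] at h3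
      simp_rw [hti]
      unfold hs at h3
      linarith
    rw [e2]; ring

end HopfBig
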