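import Mathlib

/-!
# Large degree Weitzenböck terms: definitions

`Mat n` : real `n × n` matrices; 2-forms are skew matrices, `|e_i ∧ e_j| = 1`, i.e.
`ip A B = (1/2) ∑ A_ij B_ij`.
-/

open scoped BigOperators

namespace HopfBig

/-- real square matrices -/
abbrev Mat (n : ℕ) := Matrix (Fin n) (Fin n) ℝ

/-- the inner product of 2-forms -/
noncomputable def ip {n : ℕ} (A B : Mat n) : ℝ := (1 / 2) * ∑ i, ∑ j, A i j * B i j

/-- Hilbert-Schmidt norm squared -/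
noncomputable def hs {n : ℕ} (A : Mat n) : ℝ := ∑ i, ∑ j, A i j ^ 2

/-- skew matrices -/
def Skew {n : ℕ} (A : Mat n) : Prop := ∀ i j, A j i = -A i j

/-- the operator norm is at most `r` -/
def OpLe {n : ℕ} (A : Mat n) (r : ℝ) : Prop :=
  0 ≤ r ∧ ∀ x : Fin n → ℝ, ∑ i, (A.mulVec x) i ^ 2 ≤ r ^ 2 * ∑ i, x i ^ 2

/-- commutator -/
def br {n : ℕ} (A B : Mat n) : Mat n := A * B - B * A

/-- the 2-form `x ∧ y` -/
def wd {n : ℕ} (x y : Fin n → ℝ) : Mat n := Matrix.of fun i j => x i * y j - x j * y i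

/-- totally antisymmetric 4-tensors -/
def Alt4 {n : ℕ} (t : Fin n → Fin n → Fin n → Fin n → ℝ) : Prop :=
  (∀ a b c d, t b a c d = -t a b c d) ∧ (∀ a b c d, t a c b d = -t a b c d) ∧
    (∀ a b c d, t a b d c = -t a b c d)

/-- quadratic forms on 2-forms which are given by a 4-form -/
def Four {n : ℕ} (f : Mat n → ℝ) : Prop :=
  ∃ t : Fin n → Fin n → Fin n → Fin n → ℝ, Alt4 t ∧
    ∀ L : Mat n, Skew L → f L = ∑ a, ∑ b, ∑ c, ∑ d, t a b c d * L a b * L c d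

/-- The data coming from a unit `p`-form `ψ`: `ρ L` is the derivation action of the skew matrix
`L` on `p`-forms, `Q L L = |L ∧ ψ|² + |i_L ψ|²`. -/
structure FormData (n : ℕ) (p : ℝ) (H : Type) [NormedAddCommGroup H]
    [InnerProductSpace ℝ H] where
  ρ : Mat n →ₗ[ℝ] (H →ₗ[ℝ] H)
  ψ : H
  Q : Mat n →ₗ[ℝ] Mat n →ₗ[ℝ] ℝ
  norm_ψ : ‖ψ‖ = 1
  skew : ∀ L, Skew L → ∀ x y, inner ℝ (ρ L x) y = -inner ℝ x (ρ L y)
  lie : ∀ L M, Skew L → Skew M → ∀ x, ρ L (ρ M x) - ρ M (ρ L x) = ρ (br L M) x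
  bd : ∀ L, Skew L → ∀ x, ‖ρ L x‖ ^ 2 ≤ p * ip L L * ‖x‖ ^ 2
  bdop : ∀ L r, Skew L → OpLe L r → ∀ x, ‖ρ L x‖ ≤ p * r * ‖x‖
  Qsymm : ∀ L M, Q L M = Q M L
  Qpos : ∀ L, 0 ≤ Q L L
  four : Four (fun L => inner ℝ (ρ L ψ) (ρ L ψ) + Q L L - ip L L)

namespace FormData

variable {n : ℕ} {p : ℝ} {H : Type} [NormedAddCommGroup H] [InnerProductSpace ℝ H]

/-- the form `D(L,M) = ⟨ρ_L ψ, ρ_M ψ⟩` -/
noncomputable def D (X : FormData n p H) (L M : Mat n) : ℝ := inner ℝ (X.ρ L X.ψ) (X.ρ M X.ψ)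

/-- the 4-form `F = D + Q - |.|²` -/
noncomputable def F (X : FormData n p H) (L M : Mat n) : ℝ := X.D L M + X.Q L M - ip L M

end FormData

/-- an orthonormal eigensystem of `D` on the skew matrices -/
structure Eig {n : ℕ} {p : ℝ} {H : Type} [NormedAddCommGroup H] [InnerProductSpace ℝ H]
    (X : FormData n p H) {m : ℕ} (E : Fin m → Mat n) (d : Fin m → ℝ) : Prop where
  skew : ∀ i, Skew (E i)
  orth : ∀ i j, ip (E i) (E j) = if i = j then 1 else 0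
  complete : ∀ L, Skew L → L = ∑ i, ip (E i) L • E i
  eig : ∀ i M, Skew M → X.D (E i) M = d i * ip (E i) M

end HopfBig
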