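import Pool.Agent.Lib.MP_4a593f_gt.Big.A3

/-! Fock space of forms (definitions, no task).  A form on `ℝⁿ` is a function on the subsets of
`Fin n`; `an a` = contraction with `e_a`, `cr a` = wedge product with `e_a`. -/

open scoped BigOperators

namespace HopfBig

/-- forms on `ℝⁿ`: coefficients indexed by subsets -/
abbrev Fk (n : ℕ) := EuclideanSpace ℝ (Finset (Fin n))

variable {n : ℕ}

/-- the sign `(-1)^{#{b ∈ s, b < a}}` -/
def sg (a : Fin n) (s : Finset (Fin n)) : ℝ := (-1) ^ (s.filter (· < a)).card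

/-- contraction with `e_a` -/
noncomputable def an (a : Fin n) : Fk n →ₗ[ℝ] Fk n where
  toFun f := WithLp.toLp 2 fun s => if a ∈ s then 0 else sg a s * f (insert a s)
  map_add' f g := by
    ext s; simp only [PiLp.add_apply]; split_ifs <;> ring
  map_smul' r f := by
    ext s; simp only [PiLp.smul_apply, RingHom.id_apply, smul_eq_mul]; split_ifs <;> ring

/-- wedge product with `e_a` -/
noncomputable def cr (a : Fin n) : Fk n →ₗ[ℝ] Fk n where
  toFun f := WithLp.toLp 2 fun s => if a ∈ s then sg a s * f (s.erase a) else 0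
  map_add' f g := by
    ext s; simp only [PiLp.add_apply]; split_ifs <;> ring
  map_smul' r f := by
    ext s; simp only [PiLp.smul_apply, RingHom.id_apply, smul_eq_mul]; split_ifs <;> ring

theorem an_apply (a : Fin n) (f : Fk n) (s : Finset (Fin n)) :
    an a f s = if a ∈ s then 0 else sg a s * f (insert a s) := rfl

theorem cr_apply (a : Fin n) (f : Fk n) (s : Finset (Fin n)) :
    cr a f s = if a ∈ s then sg a s * f (s.erase a) else 0 := rfl

/-- contraction with a vector -/
noncomputable def anv (v : Fin n → ℝ) : Fk n →ₗ[ℝ] Fk n := ∑ a, v a • an a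

/-- wedge product with a vector -/
noncomputable def crv (v : Fin n → ℝ) : Fk n →ₗ[ℝ] Fk n := ∑ a, v a • cr a

/-- derivation action of a matrix: `ρ_L = ∑ L_ab e_a∧ i_{e_b}` -/
noncomputable def rho : Mat n →ₗ[ℝ] (Fk n →ₗ[ℝ] Fk n) where
  toFun L := ∑ a, ∑ b, L a b • (cr a ∘ₗ an b)
  map_add' L M := by
    simp only [Matrix.add_apply, add_smul, Finset.sum_add_distrib]
  map_smul' r L := by
    simp only [Matrix.smul_apply, smul_eq_mul, mul_smul, Finset.smul_sum, RingHom.id_apply]

/-- projection to degree `p` -/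
noncomputable def pr (p : ℕ) : Fk n →ₗ[ℝ] Fk n where
  toFun f := WithLp.toLp 2 fun s => if s.card = p then f s else 0
  map_add' f g := by
    ext s; simp only [PiLp.add_apply]; split_ifs <;> ring
  map_smul' r f := by
    ext s; simp only [PiLp.smul_apply, RingHom.id_apply, smul_eq_mul]; split_ifs <;> ring

/-- homogeneous of degree `p` -/
def Deg (p : ℕ) (f : Fk n) : Prop := ∀ s : Finset (Fin n), s.card ≠ p → f s = 0

/-- `L ∧ f`, `L = (1/2) ∑ L_ab e_a ∧ e_b` -/
noncomputable def wdg : Mat n →ₗ[ℝ] (Fk n →ₗ[ℝ] Fk n) where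
  toFun L := (1 / 2 : ℝ) • ∑ a, ∑ b, L a b • (cr a ∘ₗ cr b)
  map_add' L M := by
    simp only [Matrix.add_apply, add_smul, Finset.sum_add_distrib, smul_add]
  map_smul' r L := by
    simp only [Matrix.smul_apply, smul_eq_mul, mul_smul, Finset.smul_sum, RingHom.id_apply]
    refine Finset.sum_congr rfl fun a _ => Finset.sum_congr rfl fun b _ => ?_
    rw [smul_comm]

/-- contraction with `L` -/
noncomputable def ctr : Mat n →ₗ[ℝ] (Fk n →ₗ[ℝ] Fk n) where
  toFun L := (1 / 2 : ℝ) • ∑ a, ∑ b, L a b • (an b ∘ₗ an a)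
  map_add' L M := by
    simp only [Matrix.add_apply, add_smul, Finset.sum_add_distrib, smul_add]
  map_smul' r L := by
    simp only [Matrix.smul_apply, smul_eq_mul, mul_smul, Finset.smul_sum, RingHom.id_apply]
    refine Finset.sum_congr rfl fun a _ => Finset.sum_congr rfl fun b _ => ?_
    rw [smul_comm]

end HopfBig
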