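import Pool.Agent.Lib.MP_4a593f_gt.Big.G1

/-! Task G2: vector versions.

`‖anv v f‖² + ‖crv v f‖² = |v|²‖f‖²`.
Bessel: for a (partly zero) orthonormal family `g_i`: `∑_i ‖anv (g_i) f‖² ≤ ∑_a ‖an a f‖²`
(for every coordinate `s` this is Bessel's inequality in `ℝⁿ` for the vector `a ↦ (an a f) s`).
For orthonormal `u, v`: `ρ_{u∧v} f = crv u (anv v f) - crv v (anv u f)` and
`‖ρ_{u∧v} f‖² = ‖anv u f‖² + ‖anv v f‖² - 2 ‖anv u (anv v f)‖²`. -/

open scoped BigOperators

namespace HopfBig

variable {n : ℕ}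

theorem anv_apply (v : Fin n → ℝ) (f : Fk n) : anv v f = ∑ a, v a • an a f := by
  simp [anv, LinearMap.sum_apply]

theorem crv_apply (v : Fin n → ℝ) (f : Fk n) : crv v f = ∑ a, v a • cr a f := by
  simp [crv, LinearMap.sum_apply]

theorem inner_anv (v : Fin n → ℝ) (f g : Fk n) :
    inner ℝ (anv v f) g = inner ℝ f (crv v g) := by
  rw [anv_apply, crv_apply, sum_inner, inner_sum]
  refine Finset.sum_congr rfl fun a _ => ?_
  rw [real_inner_smul_left, real_inner_smul_right, inner_an]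

theorem anv_anv (u v : Fin n → ℝ) (f : Fk n) : anv u (anv v f) = -anv v (anv u f) := by
  have h1 : anv u (anv v f) = ∑ a, ∑ b, (u a * v b) • an a (an b f) := by
    rw [anv_apply v, anv_apply u]
    refine Finset.sum_congr rfl fun a _ => ?_
    rw [map_sum, Finset.smul_sum]
    refine Finset.sum_congr rfl fun b _ => ?_
    rw [map_smul, smul_smul]
  have h2 : anv v (anv u f) = ∑ b, ∑ a, (v b * u a) • an b (an a f) := by
    rw [anv_apply u, anv_apply v]
    refine Finset.sum_congr rfl fun a _ => ?_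
    rw [map_sum, Finset.smul_sum]
    refine Finset.sum_congr rfl fun b _ => ?_
    rw [map_smul, smul_smul]
  rw [h1, h2, Finset.sum_comm, ← Finset.sum_neg_distrib]
  refine Finset.sum_congr rfl fun b _ => ?_
  rw [← Finset.sum_neg_distrib]
  refine Finset.sum_congr rfl fun a _ => ?_
  rw [an_an, smul_neg, mul_comm]

theorem crv_crv (u v : Fin n → ℝ) (f : Fk n) : crv u (crv v f) = -crv v (crv u f) := by
  have h1 : crv u (crv v f) = ∑ a, ∑ b, (u a * v b) • cr a (cr b f) := by
    rw [crv_apply v, crv_apply u]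
    refine Finset.sum_congr rfl fun a _ => ?_
    rw [map_sum, Finset.smul_sum]
    refine Finset.sum_congr rfl fun b _ => ?_
    rw [map_smul, smul_smul]
  have h2 : crv v (crv u f) = ∑ b, ∑ a, (v b * u a) • cr b (cr a f) := by
    rw [crv_apply u, crv_apply v]
    refine Finset.sum_congr rfl fun a _ => ?_
    rw [map_sum, Finset.smul_sum]
    refine Finset.sum_congr rfl fun b _ => ?_
    rw [map_smul, smul_smul]
  rw [h1, h2, Finset.sum_comm, ← Finset.sum_neg_distrib]
  refine Finset.sum_congr rfl fun b _ => ?_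
  rw [← Finset.sum_neg_distrib]
  refine Finset.sum_congr rfl fun a _ => ?_
  rw [cr_cr, smul_neg, mul_comm]

private theorem crv_anv_expand (u v : Fin n → ℝ) (f : Fk n) :
    crv v (anv u f) = ∑ b, ∑ a, (v b * u a) • cr b (an a f) := by
  rw [anv_apply u, crv_apply v]
  refine Finset.sum_congr rfl fun a _ => ?_
  rw [map_sum, Finset.smul_sum]
  refine Finset.sum_congr rfl fun b _ => ?_
  rw [map_smul, smul_smul]

theorem anv_crv (u v : Fin n → ℝ) (f : Fk n) :
    anv u (crv v f) = (∑ i, u i * v i) • f - crv v (anv u f) := by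
  have h1 : anv u (crv v f) = ∑ a, ∑ b, (u a * v b) • an a (cr b f) := by
    rw [crv_apply v, anv_apply u]
    refine Finset.sum_congr rfl fun a _ => ?_
    rw [map_sum, Finset.smul_sum]
    refine Finset.sum_congr rfl fun b _ => ?_
    rw [map_smul, smul_smul]
  rw [h1, crv_anv_expand, Finset.sum_comm (f := fun b a => (v b * u a) • cr b (an a f)),
    Finset.sum_smul, ← Finset.sum_sub_distrib]
  refine Finset.sum_congr rfl fun a _ => ?_
  have h3 : (u a * v a) • f = ∑ b, (u a * v b) • (if a = b then f else 0) := by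
    simp
  rw [h3, ← Finset.sum_sub_distrib]
  refine Finset.sum_congr rfl fun b _ => ?_
  rw [an_cr, smul_sub, mul_comm (v b)]

theorem norm_anv_crv (v : Fin n → ℝ) (f : Fk n) :
    ‖anv v f‖ ^ 2 + ‖crv v f‖ ^ 2 = (∑ i, v i ^ 2) * ‖f‖ ^ 2 := by
  have h1 : ‖anv v f‖ ^ 2 = inner ℝ f (crv v (anv v f)) := by
    rw [← real_inner_self_eq_norm_sq, inner_anv]
  have h2 : ‖crv v f‖ ^ 2 = inner ℝ f (anv v (crv v f)) := by
    rw [← real_inner_self_eq_norm_sq, ← inner_anv, real_inner_comm]
  rw [h1, h2, anv_crv, inner_sub_right, real_inner_smul_right, real_inner_self_eq_norm_sq]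
  have h3 : ∑ i, v i * v i = ∑ i, v i ^ 2 := Finset.sum_congr rfl fun i _ => by ring
  rw [h3]
  ring

private theorem bessel_aux (g : Fin n → Fin n → ℝ) (s : Fin n → Prop) [DecidablePred s]
    (h : ∀ i j, ∑ k, g i k * g j k = if i = j ∧ s i then 1 else 0) (w : Fin n → ℝ) :
    ∑ i, (∑ k, g i k * w k) ^ 2 ≤ ∑ k, w k ^ 2 := by
  set c : Fin n → ℝ := fun i => ∑ k, g i k * w k with hc
  have h0 : 0 ≤ ∑ k, (w k - ∑ i, c i * g i k) ^ 2 := Finset.sum_nonneg fun k _ => sq_nonneg _
  have h1 : ∑ k, (w k - ∑ i, c i * g i k) ^ 2 =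
      ∑ k, w k ^ 2 - 2 * ∑ i, c i ^ 2 + ∑ i, (if s i then c i ^ 2 else 0) := by
    have e1 : ∀ k, (w k - ∑ i, c i * g i k) ^ 2 =
        w k ^ 2 - 2 * ∑ i, c i * (g i k * w k) +
          ∑ i, ∑ j, c i * c j * (g i k * g j k) := by
      intro k
      have e2 : (∑ i, c i * g i k) ^ 2 = ∑ i, ∑ j, c i * c j * (g i k * g j k) := by
        rw [sq, Finset.sum_mul_sum]
        refine Finset.sum_congr rfl fun i _ => Finset.sum_congr rfl fun j _ => ?_
        ring
      have e3 : ∑ i, c i * (g i k * w k) = (∑ i, c i * g i k) * w k := by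
        rw [Finset.sum_mul]
        refine Finset.sum_congr rfl fun i _ => ?_
        ring
      rw [← e2, e3]
      ring
    rw [Finset.sum_congr rfl fun k _ => e1 k, Finset.sum_add_distrib, Finset.sum_sub_distrib,
      ← Finset.mul_sum]
    have e4 : ∑ k, ∑ i, c i * (g i k * w k) = ∑ i, c i ^ 2 := by
      rw [Finset.sum_comm]
      refine Finset.sum_congr rfl fun i _ => ?_
      rw [← Finset.mul_sum, sq]
    have e5 : ∑ k, ∑ i, ∑ j, c i * c j * (g i k * g j k) = ∑ i, (if s i then c i ^ 2 else 0) := by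
      rw [Finset.sum_comm]
      refine Finset.sum_congr rfl fun i _ => ?_
      rw [Finset.sum_comm]
      have e6 : ∀ j, ∑ k, c i * c j * (g i k * g j k) =
          if i = j then (if s i then c i * c j else 0) else 0 := by
        intro j
        rw [← Finset.mul_sum, h i j]
        by_cases hij : i = j
        · by_cases hs : s i
          · subst hij
            simp [hs]
          · subst hij
            simp [hs]
        · simp [hij]
      rw [Finset.sum_congr rfl fun j _ => e6 j, Finset.sum_ite_eq Finset.univ i]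
      simp only [Finset.mem_univ, if_true, sq]
    rw [e4, e5]
  have h2 : ∑ i, (if s i then c i ^ 2 else 0) ≤ ∑ i, c i ^ 2 := by
    refine Finset.sum_le_sum fun i _ => ?_
    split_ifs
    · exact le_rfl
    · exact sq_nonneg _
  have h3 : ∑ i, (∑ k, g i k * w k) ^ 2 = ∑ i, c i ^ 2 := rfl
  rw [h3]
  linarith

private theorem fk_norm_sq (f : Fk n) : ‖f‖ ^ 2 = ∑ s, f s ^ 2 :=
  EuclideanSpace.real_norm_sq_eq f

theorem bessel_anv (g : Fin n → Fin n → ℝ) (s : Fin n → Prop) [DecidablePred s]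
    (h : ∀ i j, ∑ k, g i k * g j k = if i = j ∧ s i then 1 else 0) (f : Fk n) :
    ∑ i, ‖anv (g i) f‖ ^ 2 ≤ ∑ a, ‖an a f‖ ^ 2 := by
  have h1 : ∀ i, ‖anv (g i) f‖ ^ 2 = ∑ t, (∑ a, g i a * (an a f) t) ^ 2 := by
    intro i
    rw [fk_norm_sq]
    refine Finset.sum_congr rfl fun t _ => ?_
    congr 1
    rw [anv_apply]
    simp [WithLp.ofLp_sum]
  have h2 : ∀ a : Fin n, ‖an a f‖ ^ 2 = ∑ t, ((an a f) t) ^ 2 := fun a => fk_norm_sq _
  rw [Finset.sum_congr rfl fun i _ => h1 i, Finset.sum_congr rfl fun a _ => h2 a,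
    Finset.sum_comm, Finset.sum_comm (f := fun a t => ((an a f) t) ^ 2)]
  refine Finset.sum_le_sum fun t _ => ?_
  exact bessel_aux g s h fun a => (an a f) t

theorem rho_wd (u v : Fin n → ℝ) (f : Fk n) :
    rho (wd u v) f = crv u (anv v f) - crv v (anv u f) := by
  rw [crv_anv_expand, crv_anv_expand, ← Finset.sum_sub_distrib]
  have h1 : rho (wd u v) f = ∑ a, ∑ b, (wd u v) a b • cr a (an b f) := by
    simp [rho, LinearMap.sum_apply]
  rw [h1]
  refine Finset.sum_congr rfl fun a _ => ?_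
  rw [← Finset.sum_sub_distrib]
  refine Finset.sum_congr rfl fun b _ => ?_
  rw [← sub_smul]
  congr 1
  simp only [wd, Matrix.of_apply]
  ring

theorem norm_rho_wd_le (u v : Fin n → ℝ) (hu : ∑ i, u i ^ 2 = 1) (hv : ∑ i, v i ^ 2 = 1)
    (huv : ∑ i, u i * v i = 0) (f : Fk n) :
    ‖rho (wd u v) f‖ ^ 2 ≤ ‖anv u f‖ ^ 2 + ‖anv v f‖ ^ 2 := by
  have h1 := norm_anv_crv u (anv v f)
  have h2 := norm_anv_crv v (anv u f)
  rw [hu, one_mul] at h1
  rw [hv, one_mul] at h2
  have h0 : anv u (anv u f) = 0 := by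
    have h := anv_anv u u f
    have h' : (2 : ℝ) • anv u (anv u f) = 0 := by
      rw [two_smul]
      nth_rewrite 1 [h]
      simp
    exact (smul_eq_zero.mp h').resolve_left (by norm_num)
  have h3 : inner ℝ (crv u (anv v f)) (crv v (anv u f)) = 0 := by
    rw [real_inner_comm, ← inner_anv, real_inner_comm, anv_crv, huv, zero_smul, h0, map_zero,
      sub_zero, inner_zero_right]
  rw [rho_wd, norm_sub_sq_real, h3]
  have h5 := sq_nonneg ‖anv u (anv v f)‖
  have h6 := sq_nonneg ‖anv v (anv u f)‖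
  nlinarith

end HopfBig
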