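import Pool.Agent.Lib.MP_4a593f_gt.Big.K4

/-! Task K5: the version for a single degree: `(2-ε)(n-p)`-positive implies a positive
Weitzenböck term on `p`-forms, `p ≥ p₀(ε)`, `2p ≤ n`.

As `main` in K4 (same proof): `core` with `ε' = ε/4` gives the constant `C = (1/2+ε/4) p`, and
`k C ≤ (2-ε)(n-p)(1/2+ε/4)p = (1-ε²/4) p (n-p) ≤ p (n-p)`; `k ≤ 2(n-1) ≤ n(n-1)/2` for `n ≥ 4`
(take `p₀ ≥ 2`).  Then `pos_of_kpos`, `exists_comp`, `bochner_comp`. -/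

open scoped BigOperators

namespace HopfBig

private theorem comp_zero'' {n : ℕ} (p : ℕ) (I : Fin p → Fin n) : comp p (0 : Fk n) I = 0 := by
  induction p with
  | zero => rfl
  | succ p ih =>
    show comp p (an (I 0) 0) (Fin.tail I) = 0
    rw [map_zero]
    exact ih _

theorem main_degree (ε : ℝ) (hε : 0 < ε) : ∃ p₀ : ℕ, ∀ p : ℕ, p₀ ≤ p → ∀ n : ℕ, 2 * p ≤ n →
    ∀ k : ℕ, (k : ℝ) ≤ (2 - ε) * (n - p) → ∀ R : Fin n → Fin n → Fin n → Fin n → ℝ,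
    IsCurvature R → KPositive R k → ∀ φ : (Fin p → Fin n) → ℝ, IsForm φ →
    φ ≠ 0 → 0 < bochner R φ := by
  obtain ⟨p₀, hp₀⟩ := core (ε / 4) (by positivity)
  refine ⟨max 2 ⌈p₀⌉₊, fun p hp n hpn0 k hk R hR hKP φ hφ hφ0 => ?_⟩
  have hp2 : 2 ≤ p := le_trans (le_max_left _ _) hp
  have hp3 : p₀ ≤ p := (Nat.le_ceil _).trans (by exact_mod_cast le_trans (le_max_right _ _) hp)
  have hpr : (2 : ℝ) ≤ p := by exact_mod_cast hp2
  have hpn : 2 * (p : ℝ) ≤ n := by exact_mod_cast hpn0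
  have hk0 : (0 : ℝ) ≤ k := Nat.cast_nonneg k
  have hk2 : k ≤ 2 * (n - 1) := by
    have h1 : (k : ℝ) ≤ 2 * ((n : ℝ) - 1) := by nlinarith
    have h2 : ((2 * (n - 1) : ℕ) : ℝ) = 2 * ((n : ℝ) - 1) := by
      rw [Nat.cast_mul, Nat.cast_sub (by omega)]
      norm_num
    rw [← h2] at h1
    exact_mod_cast h1
  have hkm : k ≤ n * (n - 1) / 2 := by
    refine hk2.trans ?_
    rw [Nat.le_div_iff_mul_le (by norm_num)]
    have h1 : 4 ≤ n := by omega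
    calc 2 * (n - 1) * 2 = 4 * (n - 1) := by ring
      _ ≤ n * (n - 1) := Nat.mul_le_mul_right _ h1
  obtain ⟨q, rfl⟩ : ∃ q, p = q + 1 := ⟨p - 1, by omega⟩
  obtain ⟨f, hfd, rfl⟩ := exists_comp φ hφ
  have hf0 : f ≠ 0 := by
    rintro rfl
    apply hφ0
    funext I
    exact comp_zero'' _ I
  rw [bochner_comp R hfd]
  refine mul_pos (by positivity) ?_
  refine pos_of_kpos (C := (1 / 2 + ε / 4) * ((q + 1 : ℕ) : ℝ)) (by positivity) ?_ hkm hR hKP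
    (fun m X P N hP hN hb => ?_) hfd hf0
  · have hnP : (0 : ℝ) ≤ n - ((q + 1 : ℕ) : ℝ) := by linarith
    have h1 : (k : ℝ) * ((1 / 2 + ε / 4) * ((q + 1 : ℕ) : ℝ)) ≤
        ((2 - ε) * (n - ((q + 1 : ℕ) : ℝ))) * ((1 / 2 + ε / 4) * ((q + 1 : ℕ) : ℝ)) :=
      mul_le_mul_of_nonneg_right hk (by positivity)
    have h3 : (2 - ε) * (1 / 2 + ε / 4) ≤ 1 := by nlinarith
    have h4 : 0 ≤ ((q + 1 : ℕ) : ℝ) * (n - ((q + 1 : ℕ) : ℝ)) := by positivity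
    calc (k : ℝ) * ((1 / 2 + ε / 4) * ((q + 1 : ℕ) : ℝ)) ≤
        ((2 - ε) * (n - ((q + 1 : ℕ) : ℝ))) * ((1 / 2 + ε / 4) * ((q + 1 : ℕ) : ℝ)) := h1
      _ = ((2 - ε) * (1 / 2 + ε / 4)) * (((q + 1 : ℕ) : ℝ) * (n - ((q + 1 : ℕ) : ℝ))) := by
          ring
      _ ≤ 1 * (((q + 1 : ℕ) : ℝ) * (n - ((q + 1 : ℕ) : ℝ))) := mul_le_mul_of_nonneg_right h3 h4
      _ = ((q + 1 : ℕ) : ℝ) * (n - ((q + 1 : ℕ) : ℝ)) := one_mul _
  · exact hp₀ n _ (Fk n) X (Fin m) (Fin m) P N hp3 (by positivity) hP hN hb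

end HopfBig
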