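import Pool.Agent.Lib.MP_4a593f_gt.Big.K0

/-! The example `ℝ × S^{n-1}`: its curvature operator is `n`-positive, but the Weitzenböck term
vanishes on the 1-form `dx₀`. -/

open scoped BigOperators

namespace HopfBig

/-- Bessel's inequality for 2-forms -/
theorem bessel2 {n k : ℕ} (ω : Fin k → Fin n → Fin n → ℝ)
    (ho : ∀ i j, inner2 (ω i) (ω j) = if i = j then 1 else 0) (α : Fin n → Fin n → ℝ) :
    ∑ i, inner2 (ω i) α ^ 2 ≤ inner2 α α := by
  let T : (Fin n → Fin n → ℝ) → EuclideanSpace ℝ (Fin n × Fin n) := fun α =>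
    WithLp.toLp 2 fun q => (√2)⁻¹ * α q.1 q.2
  have hT : ∀ α β, inner ℝ (T α) (T β) = inner2 α β := by
    intro α β
    rw [PiLp.inner_apply]
    simp only [T, RCLike.inner_apply, conj_trivial]
    rw [Fintype.sum_prod_type]
    unfold inner2
    rw [Finset.mul_sum]
    refine Finset.sum_congr rfl fun a _ => ?_
    rw [Finset.mul_sum]
    refine Finset.sum_congr rfl fun b _ => ?_
    have h2 : (√2)⁻¹ * (√2)⁻¹ = (1 / 2 : ℝ) := by
      rw [← mul_inv, Real.mul_self_sqrt (by norm_num)]; norm_num
    linear_combination (α a b * β a b) * h2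
  have hon : Orthonormal ℝ (fun i => T (ω i)) := by
    rw [orthonormal_iff_ite]
    intro i j
    rw [hT]; exact ho i j
  have h := hon.sum_inner_products_le (x := T α) (s := Finset.univ)
  rw [← real_inner_self_eq_norm_sq, hT] at h
  simpa only [hT, Real.norm_eq_abs, sq_abs] using h

/-- the curvature tensor of `ℝ × S^{n-1}` -/
def cyl (n : ℕ) [NeZero n] (i j k l : Fin n) : ℝ :=
  if i = 0 ∨ j = 0 then 0 else (if i = k then 1 else 0) * (if j = l then 1 else 0) -
    (if i = l then 1 else 0) * (if j = k then 1 else 0)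

theorem cyl_curv (n : ℕ) [NeZero n] : IsCurvature (cyl n) := by
  refine ⟨?_, ?_, ?_⟩
  · intro i j k l
    unfold cyl
    by_cases h1 : i = 0 <;> by_cases h2 : j = 0 <;> simp only [h1, h2, or_true, true_or,
      or_self, if_true, if_false, neg_zero]
    ring
  · intro i j k l
    unfold cyl
    by_cases h1 : i = 0 <;> by_cases h2 : j = 0 <;> simp [h1, h2]
  · intro i j k l
    have e : ∀ a b c : Fin n, cyl n a b c l =
        (if c = 0 then 0 else cyl n a b c l) := by
      intro a b c
      split_ifs with hc
      · unfold cyl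
        split_ifs <;> simp_all
      · rfl
    rw [e i j k, e j k i, e k i j]
    unfold cyl
    by_cases h1 : i = 0 <;> by_cases h2 : j = 0 <;> by_cases h3 : k = 0 <;> simp [h1, h2, h3]
    by_cases a1 : i = k <;> by_cases a2 : j = l <;> by_cases a3 : i = l <;> by_cases a4 : j = k <;>
      by_cases a5 : i = j <;> by_cases a6 : k = l <;> simp_all [eq_comm]

theorem cyl_curvOp (n : ℕ) [NeZero n] (α : Fin n → Fin n → ℝ) (hα : IsTwoForm α) :
    curvOp (cyl n) α = inner2 α α - ∑ j, α 0 j ^ 2 := by
  have h1 : ∀ i j, (∑ k, ∑ l, cyl n i j k l * α i j * α k l) =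
      2 * α i j ^ 2 - (if i = 0 then 2 * α 0 j ^ 2 else 0) -
        (if j = 0 then 2 * α 0 i ^ 2 else 0) := by
    intro i j
    have h0 : α 0 0 = 0 := by have := hα 0 0; linarith
    by_cases hi : i = 0
    · by_cases hj : j = 0
      · simp [cyl, hi, hj, h0]
      · simp [cyl, hi, hj]
    · by_cases hj : j = 0
      · have := hα 0 i
        simp [cyl, hi, hj, this]
      · have hs : ∀ k l, cyl n i j k l * α i j * α k l =
            (if i = k then (if j = l then α i j * α k l else 0) else 0) -
            (if i = l then (if j = k then α i j * α k l else 0) else 0) := by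
          intro k l
          unfold cyl
          rw [if_neg (by simp [hi, hj])]
          split_ifs <;> ring
        simp only [hs, Finset.sum_sub_distrib, hi, hj, if_false]
        have t1 : (∑ k, ∑ l, if i = k then (if j = l then α i j * α k l else 0) else 0) =
            α i j * α i j := by
          rw [Finset.sum_eq_single i (by intro b _ hb; simp [Ne.symm hb]) (by simp)]
          simp
        have t2 : (∑ k, ∑ l, if i = l then (if j = k then α i j * α k l else 0) else 0) =
            α i j * α j i := by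
          rw [Finset.sum_eq_single j (by intro b _ hb; simp [Ne.symm hb]) (by simp)]
          simp
        rw [t1, t2, hα i j]; ring
  unfold curvOp inner2
  simp only [h1, Finset.sum_sub_distrib]
  have t3 : (∑ i : Fin n, ∑ j : Fin n, if i = 0 then 2 * α 0 j ^ 2 else 0) =
      2 * ∑ j, α 0 j ^ 2 := by
    rw [Finset.sum_eq_single 0 (by intro b _ hb; simp [hb]) (by simp)]
    simp [Finset.mul_sum]
  have t4 : (∑ i : Fin n, ∑ j : Fin n, if j = 0 then 2 * α 0 i ^ 2 else 0) =
      2 * ∑ j, α 0 j ^ 2 := by
    rw [Finset.sum_comm, Finset.sum_eq_single 0 (by intro b _ hb; simp [hb]) (by simp)]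
    simp [Finset.mul_sum]
  rw [t3, t4]
  have t5 : (∑ i : Fin n, ∑ j : Fin n, 2 * α i j ^ 2) = 2 * ∑ i, ∑ j, α i j * α i j := by
    rw [Finset.mul_sum]
    refine Finset.sum_congr rfl fun i _ => ?_
    rw [Finset.mul_sum]
    refine Finset.sum_congr rfl fun j _ => by ring
  rw [t5]; ring

theorem cyl_kpos (n : ℕ) [NeZero n] : KPositive (cyl n) n := by
  intro ω hs ho
  have h1 : ∀ i, curvOp (cyl n) (ω i) = 1 - ∑ j, ω i 0 j ^ 2 := by
    intro i
    rw [cyl_curvOp n _ (hs i), ho i i, if_pos rfl]
  simp only [h1, Finset.sum_sub_distrib]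
  rw [Finset.sum_comm]
  have h2 : ∀ j : Fin n, ∑ i, ω i 0 j ^ 2 ≤ if j = 0 then 0 else 1 := by
    intro j
    split_ifs with hj
    · subst hj
      refine le_of_eq (Finset.sum_eq_zero fun i _ => ?_)
      have := hs i 0 0
      have h0 : ω i 0 0 = 0 := by linarith
      rw [h0]; ring
    · let β : Fin n → Fin n → ℝ := fun a b =>
        (if a = 0 then 1 else 0) * (if b = j then 1 else 0) -
          (if a = j then 1 else 0) * (if b = 0 then 1 else 0)
      have hb := bessel2 ω ho β
      have e1 : ∀ α : Fin n → Fin n → ℝ, IsTwoForm α → inner2 α β = α 0 j := by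
        intro α hα
        unfold inner2
        have : ∀ a b, α a b * β a b = (if a = 0 then (if b = j then α 0 j else 0) else 0) +
            (if a = j then (if b = 0 then α 0 j else 0) else 0) := by
          intro a b
          have h3 := hα 0 j
          by_cases a1 : a = 0 <;> by_cases a2 : b = j <;> by_cases a3 : a = j <;>
            by_cases a4 : b = 0 <;> simp_all [β]
        simp only [this, Finset.sum_add_distrib]
        simp
        ring
      have hβ : IsTwoForm β := by intro a b; simp only [β]; ring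
      have e2 : inner2 β β = 1 := by
        rw [e1 β hβ]
        simp [β, hj]
      rw [e2] at hb
      refine le_trans (le_of_eq ?_) hb
      exact Finset.sum_congr rfl fun i _ => by rw [e1 _ (hs i)]
  have h3 : ∑ j : Fin n, ∑ i, ω i 0 j ^ 2 ≤ (n : ℝ) - 1 := by
    refine le_trans (Finset.sum_le_sum fun j _ => h2 j) ?_
    have : (∑ j : Fin n, if j = 0 then (0 : ℝ) else 1) = ∑ j : Fin n, ((1 : ℝ) -
        if j = 0 then 1 else 0) := by
      refine Finset.sum_congr rfl fun j _ => by split_ifs <;> ring
    rw [this, Finset.sum_sub_distrib]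
    simp
  have h4 : ∑ _i : Fin n, (1 : ℝ) = n := by simp
  rw [h4]; linarith

/-- for every `n ≥ 1` the number `n` is too large -/
theorem sharp (n : ℕ) (hn : 1 ≤ n) : ∃ R : Fin n → Fin n → Fin n → Fin n → ℝ, IsCurvature R ∧
    KPositive R n ∧ ∃ φ : (Fin 1 → Fin n) → ℝ, IsForm φ ∧ φ ≠ 0 ∧ bochner R φ = 0 := by
  have : NeZero n := ⟨by omega⟩
  refine ⟨cyl n, cyl_curv n, cyl_kpos n, fun I => if I 0 = 0 then 1 else 0, ?_, ?_, ?_⟩
  · intro σ I
    have : σ = 1 := Subsingleton.elim _ _
    subst this
    simp
  · intro h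
    have := congrFun h (fun _ => 0)
    simp at this
  · unfold bochner
    refine Finset.sum_eq_zero fun i _ => Finset.sum_eq_zero fun j _ => ?_
    by_cases hi : i = 0
    · have : ricci (cyl n) i j = 0 := by
        unfold ricci
        refine Finset.sum_eq_zero fun a _ => ?_
        simp [cyl, hi]
      rw [this]; ring
    · simp [hi]

end HopfBig
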