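import Mathlib

/-! Task S1: one step of localisation for a symmetric contraction `B`.

Put `χ_k = B^k χ`.  By Cauchy-Schwarz and symmetry `‖B^{k+1}χ‖² ≤ ‖B^kχ‖ ‖B^{k+2}χ‖`, so
`x_k = ‖B^{k+1}χ‖/‖B^kχ‖` is nondecreasing, `η ≤ x_0 ≤ x_k ≤ 1`, `‖B^kχ‖ ≥ η^k`.  Among
`k = 0..K-1` there is one with `x_{k+1}² - x_k² ≤ 1/K`.  For it
`‖(B² - x_k²) χ_k‖² = ‖χ_k‖² x_k² (x_{k+1}² - x_k²) ≤ ‖χ_k‖²/K` (expand, `⟨B²χ_k,χ_k⟩ = x_k²‖χ_k‖²`).
`‖(B + x_k)χ_k‖² + ‖(B - x_k)χ_k‖² = 4 x_k² ‖χ_k‖²`, so for `y = x_k` or `y = -x_k` the vector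
`q = (B + y) χ_k` has `‖q‖ ≥ √2 x_k ‖χ_k‖ ≥ η ‖χ_k‖`, and `(B - y) q = (B² - x_k²) χ_k`. -/

open scoped BigOperators

namespace HopfBig

variable {G : Type} [NormedAddCommGroup G] [InnerProductSpace ℝ G]

namespace S1Aux

theorem pow_norm_le (B : G →ₗ[ℝ] G) (h1 : ∀ x, ‖B x‖ ≤ ‖x‖) (χ : G) (hχ : ‖χ‖ = 1) (k : ℕ) :
    ‖(B ^ k) χ‖ ≤ 1 := by
  induction k with
  | zero => simp [hχ]
  | succ k ih =>
    rw [pow_succ', Module.End.mul_apply]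
    exact (h1 _).trans ih

/-- the vector `v` with the almost eigenvalue relation -/
theorem core (B : G →ₗ[ℝ] G) (hB : ∀ x y, inner ℝ (B x) y = inner ℝ x (B y)) (v : G)
    {x x' K : ℝ} (hx0 : 0 < x) (hK : 0 < K)
    (e1 : ‖B v‖ = x * ‖v‖) (e2 : ‖B (B v)‖ = x' * ‖B v‖) (e3 : x' ^ 2 - x ^ 2 ≤ 1 / K) :
    ∃ y : ℝ, |y| = x ∧ x * ‖v‖ ≤ ‖B v + y • v‖ ∧
      ‖B (B v + y • v) - y • (B v + y • v)‖ ≤ x * ‖v‖ / √K := by
  have i1 : inner ℝ (B (B v)) v = ‖B v‖ ^ 2 := by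
    rw [hB, real_inner_self_eq_norm_sq]
  have n1 : ‖B (B v) - (x ^ 2) • v‖ ^ 2 = x ^ 2 * ‖v‖ ^ 2 * (x' ^ 2 - x ^ 2) := by
    rw [norm_sub_sq_real, inner_smul_right, i1, norm_smul, Real.norm_eq_abs, abs_of_nonneg
      (sq_nonneg x), e2, e1]
    ring
  have n2 : ‖B (B v) - (x ^ 2) • v‖ ≤ x * ‖v‖ / √K := by
    apply le_of_sq_le_sq' (by positivity)
    rw [n1, div_pow, mul_pow, Real.sq_sqrt hK.le]
    calc x ^ 2 * ‖v‖ ^ 2 * (x' ^ 2 - x ^ 2) ≤ x ^ 2 * ‖v‖ ^ 2 * (1 / K) :=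
          mul_le_mul_of_nonneg_left e3 (by positivity)
      _ = x ^ 2 * ‖v‖ ^ 2 / K := by ring
  have hpar : ‖B v + x • v‖ ^ 2 + ‖B v + (-x) • v‖ ^ 2 = 4 * (x * ‖v‖) ^ 2 := by
    rw [norm_add_sq_real, norm_add_sq_real, norm_smul, norm_smul, inner_smul_right,
      inner_smul_right, e1, Real.norm_eq_abs, Real.norm_eq_abs, abs_neg, abs_of_pos hx0]
    ring
  have hq : ∀ y : ℝ, y ^ 2 = x ^ 2 →
      B (B v + y • v) - y • (B v + y • v) = B (B v) - (x ^ 2) • v := by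
    intro y hy
    rw [map_add, map_smul, smul_add, smul_smul, ← hy, sq]
    abel
  by_cases hc : x * ‖v‖ ≤ ‖B v + x • v‖
  · refine ⟨x, abs_of_pos hx0, hc, ?_⟩
    rw [hq x rfl]; exact n2
  · refine ⟨-x, by rw [abs_neg, abs_of_pos hx0], ?_, ?_⟩
    · push Not at hc
      apply le_of_sq_le_sq' (norm_nonneg _)
      have : ‖B v + x • v‖ ^ 2 ≤ (x * ‖v‖) ^ 2 := pow_le_pow_left₀ (norm_nonneg _) hc.le 2
      nlinarith [sq_nonneg (x * ‖v‖)]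
    · rw [hq (-x) (by ring)]; exact n2
where
  le_of_sq_le_sq' {a b : ℝ} (hb : 0 ≤ b) (h : a ^ 2 ≤ b ^ 2) : a ≤ b :=
    le_of_sq_le_sq h hb

end S1Aux

theorem push (B : G →ₗ[ℝ] G) (hB : ∀ x y, inner ℝ (B x) y = inner ℝ x (B y))
    (h1 : ∀ x, ‖B x‖ ≤ ‖x‖) (χ : G) (hχ : ‖χ‖ = 1) {η : ℝ} (hη : 0 < η) (hb : η ≤ ‖B χ‖)
    {K : ℕ} (hK : 0 < K) :
    ∃ k < K, ∃ y : ℝ, |y| ≤ 1 ∧
      η ^ (k + 1) ≤ ‖B ((B ^ k) χ) + y • (B ^ k) χ‖ ∧
      ‖B (B ((B ^ k) χ) + y • (B ^ k) χ) - y • (B ((B ^ k) χ) + y • (B ^ k) χ)‖ ≤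
        1 / (η * √K) * ‖B ((B ^ k) χ) + y • (B ^ k) χ‖ := by
  set a : ℕ → ℝ := fun k => ‖(B ^ k) χ‖ with ha
  have hs : ∀ k, (B ^ (k + 1)) χ = B ((B ^ k) χ) := by
    intro k; rw [pow_succ', Module.End.mul_apply]
  have ha0 : a 0 = 1 := by simp [ha, hχ]
  have hconv : ∀ k, a (k + 1) ^ 2 ≤ a k * a (k + 2) := by
    intro k
    have : a (k + 1) ^ 2 = inner ℝ ((B ^ k) χ) ((B ^ (k + 2)) χ) := by
      simp only [ha]
      rw [← real_inner_self_eq_norm_sq, hs (k + 1), ← hB, ← hs k]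
    rw [this]
    exact real_inner_le_norm _ _
  have hstep : ∀ k, 0 < a k ∧ η * a k ≤ a (k + 1) := by
    intro k
    induction k with
    | zero =>
      refine ⟨by rw [ha0]; norm_num, ?_⟩
      rw [ha0, mul_one]
      simpa [ha] using hb
    | succ k ih =>
      obtain ⟨p1, p2⟩ := ih
      have p3 : 0 < a (k + 1) := lt_of_lt_of_le (mul_pos hη p1) p2
      refine ⟨p3, ?_⟩
      have h2 := hconv k
      have h3 : a k * (η * a (k + 1)) ≤ a k * a (k + 2) := by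
        calc a k * (η * a (k + 1)) = (η * a k) * a (k + 1) := by ring
          _ ≤ a (k + 1) * a (k + 1) := mul_le_mul_of_nonneg_right p2 p3.le
          _ = a (k + 1) ^ 2 := by ring
          _ ≤ _ := h2
      exact le_of_mul_le_mul_left h3 p1
  have hpow : ∀ k, η ^ k ≤ a k := by
    intro k
    induction k with
    | zero => rw [ha0, pow_zero]
    | succ k ih =>
      calc η ^ (k + 1) = η * η ^ k := by ring
        _ ≤ η * a k := mul_le_mul_of_nonneg_left ih hη.le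
        _ ≤ _ := (hstep k).2
  set x : ℕ → ℝ := fun k => a (k + 1) / a k with hx
  have hxpos : ∀ k, 0 < x k := fun k => div_pos (hstep (k + 1)).1 (hstep k).1
  have hxη : ∀ k, η ≤ x k := fun k => by
    simp only [hx]
    rw [le_div_iff₀ (hstep k).1]
    exact (hstep k).2
  have hx1 : ∀ k, x k ≤ 1 := fun k => by
    simp only [hx]
    rw [div_le_one (hstep k).1]
    simp only [ha]
    rw [hs k]
    exact h1 _
  have hex : ∃ k < K, x (k + 1) ^ 2 - x k ^ 2 ≤ 1 / K := by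
    by_contra hcon
    push Not at hcon
    have hsum : ∑ k ∈ Finset.range K, (x (k + 1) ^ 2 - x k ^ 2) = x K ^ 2 - x 0 ^ 2 :=
      Finset.sum_range_sub (fun k => x k ^ 2) K
    have hlt : ∑ k ∈ Finset.range K, (1 / (K : ℝ)) <
        ∑ k ∈ Finset.range K, (x (k + 1) ^ 2 - x k ^ 2) := by
      apply Finset.sum_lt_sum_of_nonempty
      · exact ⟨0, Finset.mem_range.2 hK⟩
      · intro k hk
        exact hcon k (Finset.mem_range.1 hk)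
    rw [hsum, Finset.sum_const, Finset.card_range, nsmul_eq_mul] at hlt
    have hKr : (0 : ℝ) < K := by exact_mod_cast hK
    rw [mul_one_div_cancel hKr.ne'] at hlt
    have h5 : x K ^ 2 ≤ 1 := by
      have := pow_le_pow_left₀ (hxpos K).le (hx1 K) 2
      simpa using this
    have h6 := sq_nonneg (x 0)
    linarith
  obtain ⟨k, hkK, hk⟩ := hex
  have hKr : (0 : ℝ) < K := by exact_mod_cast hK
  have e1 : ‖B ((B ^ k) χ)‖ = x k * ‖(B ^ k) χ‖ := by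
    rw [← hs k]
    show a (k + 1) = a (k + 1) / a k * a k
    rw [div_mul_cancel₀ _ (hstep k).1.ne']
  have e2 : ‖B (B ((B ^ k) χ))‖ = x (k + 1) * ‖B ((B ^ k) χ)‖ := by
    rw [← hs k, ← hs (k + 1)]
    show a (k + 2) = a (k + 2) / a (k + 1) * a (k + 1)
    rw [div_mul_cancel₀ _ (hstep (k + 1)).1.ne']
  obtain ⟨y, hy1, hy2, hy3⟩ := S1Aux.core B hB ((B ^ k) χ) (hxpos k) hKr e1 e2 hk
  have hak : x k * ‖(B ^ k) χ‖ = a (k + 1) := by rw [← e1, ← hs k]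
  have hη1 : η ≤ 1 := hb.trans ((h1 χ).trans hχ.le)
  refine ⟨k, hkK, y, by rw [hy1]; exact hx1 k, ?_, ?_⟩
  · calc η ^ (k + 1) ≤ a (k + 1) := hpow (k + 1)
      _ ≤ _ := by rw [← hak]; exact hy2
  · have hsq : 0 < √(K : ℝ) := Real.sqrt_pos.2 hKr
    calc _ ≤ x k * ‖(B ^ k) χ‖ / √K := hy3
      _ ≤ ‖B ((B ^ k) χ) + y • (B ^ k) χ‖ / √K := div_le_div_of_nonneg_right hy2 hsq.le
      _ = 1 / √K * ‖B ((B ^ k) χ) + y • (B ^ k) χ‖ := by ring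
      _ ≤ 1 / (η * √K) * ‖B ((B ^ k) χ) + y • (B ^ k) χ‖ := by
          apply mul_le_mul_of_nonneg_right _ (norm_nonneg _)
          apply one_div_le_one_div_of_le (mul_pos hη hsq)
          calc η * √K ≤ 1 * √K := mul_le_mul_of_nonneg_right hη1 hsq.le
            _ = √K := one_mul _

/-- other almost eigenvector relations survive -/
theorem push_comm (B C : G →ₗ[ℝ] G) (h1 : ∀ x, ‖B x‖ ≤ ‖x‖) {δ : ℝ} (hδ : 0 ≤ δ)
    (hc : ∀ x, ‖C (B x) - B (C x)‖ ≤ δ * ‖x‖) (χ : G) (hχ : ‖χ‖ = 1) (k : ℕ) {y c : ℝ}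
    (hy : |y| ≤ 1) :
    ‖C (B ((B ^ k) χ) + y • (B ^ k) χ) - c • (B ((B ^ k) χ) + y • (B ^ k) χ)‖ ≤
      2 * ‖C χ - c • χ‖ + (2 * k + 1) * δ := by
  have hs : ∀ k, (B ^ (k + 1)) χ = B ((B ^ k) χ) := by
    intro k; rw [pow_succ', Module.End.mul_apply]
  have hk : ∀ k : ℕ, ‖C ((B ^ k) χ) - c • (B ^ k) χ‖ ≤ ‖C χ - c • χ‖ + k * δ := by
    intro k
    induction k with
    | zero => simp
    | succ k ih =>
      have e : C ((B ^ (k + 1)) χ) - c • (B ^ (k + 1)) χ =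
          (C (B ((B ^ k) χ)) - B (C ((B ^ k) χ))) + B (C ((B ^ k) χ) - c • (B ^ k) χ) := by
        rw [hs k, map_sub, map_smul]
        abel
      rw [e]
      calc _ ≤ ‖C (B ((B ^ k) χ)) - B (C ((B ^ k) χ))‖ +
            ‖B (C ((B ^ k) χ) - c • (B ^ k) χ)‖ := norm_add_le _ _
        _ ≤ δ * ‖(B ^ k) χ‖ + ‖C ((B ^ k) χ) - c • (B ^ k) χ‖ := add_le_add (hc _) (h1 _)
        _ ≤ δ * 1 + (‖C χ - c • χ‖ + k * δ) := by
            apply add_le_add _ ih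
            exact mul_le_mul_of_nonneg_left (S1Aux.pow_norm_le B h1 χ hχ k) hδ
        _ = ‖C χ - c • χ‖ + ((k + 1 : ℕ) : ℝ) * δ := by push_cast; ring
  have e2 : C (B ((B ^ k) χ) + y • (B ^ k) χ) - c • (B ((B ^ k) χ) + y • (B ^ k) χ) =
      (C ((B ^ (k + 1)) χ) - c • (B ^ (k + 1)) χ) + y • (C ((B ^ k) χ) - c • (B ^ k) χ) := by
    rw [hs k, map_add, map_smul, smul_add, smul_sub, smul_comm c y]
    abel
  rw [e2]
  calc _ ≤ ‖C ((B ^ (k + 1)) χ) - c • (B ^ (k + 1)) χ‖ +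
        ‖y • (C ((B ^ k) χ) - c • (B ^ k) χ)‖ := norm_add_le _ _
    _ ≤ (‖C χ - c • χ‖ + ((k + 1 : ℕ) : ℝ) * δ) + 1 * (‖C χ - c • χ‖ + k * δ) := by
        apply add_le_add (hk (k + 1))
        rw [norm_smul, Real.norm_eq_abs]
        exact mul_le_mul hy (hk k) (norm_nonneg _) zero_le_one
    _ = _ := by push_cast; ring

end HopfBig
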