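import Pool.Agent.Lib.MP_4a593f_gt.Big.S1

/-! Task S2: simultaneous localisation, induction on `j`.

`A = ∑ B_i²`, `A χ = μ χ`.  Claim for `j ≤ h`: there is a unit vector `χ'` with
`‖B_i χ' - y_i χ'‖ ≤ τ` for `i < j` and `‖A χ' - μ χ'‖ ≤ τ`.
Step `j → j+1` (`B = B_j`): if `‖B χ'‖ ≤ η` take `y_j = 0`.  Otherwise use `push` with the number
`K` and normalise `q`; error for `B`: `1/(η √K)`; errors for `C = B_i` (`i<j`) and `C = A`:
`(2 τ_j + (2K+1) 2hδ)/η^{K}` (`‖q‖ ≥ η^{k+1} ≥ η^K` for `η ≤ 1`), because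
`‖[A, B]‖ ≤ ∑ ‖[B_i², B]‖ ≤ 2hδ`.  Choose first `η = min(τ,1)`, then `K` with
`1/(η√K) ≤ τ`, then `τ_j` and `δ` small.  The order of quantifiers: for given `h, j, τ` a single
`δ` works for all spaces and operators. -/

open scoped BigOperators

namespace HopfBig

private theorem norm_normalise {G : Type} [NormedAddCommGroup G] [InnerProductSpace ℝ G]
    (C : G →ₗ[ℝ] G) (c : ℝ) (q : G) {s : ℝ} (hq : 0 < ‖q‖) (h : ‖C q - c • q‖ ≤ s * ‖q‖) :
    ‖C (‖q‖⁻¹ • q) - c • (‖q‖⁻¹ • q)‖ ≤ s := by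
  have h1 : C (‖q‖⁻¹ • q) - c • (‖q‖⁻¹ • q) = ‖q‖⁻¹ • (C q - c • q) := by
    rw [map_smul, smul_sub, smul_comm]
  rw [h1, norm_smul, norm_inv, norm_norm]
  calc ‖q‖⁻¹ * ‖C q - c • q‖ ≤ ‖q‖⁻¹ * (s * ‖q‖) :=
        mul_le_mul_of_nonneg_left h (inv_nonneg.mpr hq.le)
    _ = s := by field_simp

private theorem comm_sum {G : Type} [NormedAddCommGroup G] [InnerProductSpace ℝ G] {h : ℕ}
    (B : Fin h → (G →ₗ[ℝ] G)) (h1 : ∀ i x, ‖B i x‖ ≤ ‖x‖) {δ : ℝ} (hδ : 0 ≤ δ)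
    (hc : ∀ i l x, ‖B i (B l x) - B l (B i x)‖ ≤ δ * ‖x‖) (l : Fin h) (x : G) :
    ‖(∑ i, (B i).comp (B i)) (B l x) - B l ((∑ i, (B i).comp (B i)) x)‖ ≤
      (2 * (h : ℝ) * δ) * ‖x‖ := by
  have e1 : (∑ i, (B i).comp (B i)) (B l x) - B l ((∑ i, (B i).comp (B i)) x) =
      ∑ i, (B i (B i (B l x)) - B l (B i (B i x))) := by
    rw [LinearMap.sum_apply, LinearMap.sum_apply, map_sum, ← Finset.sum_sub_distrib]
    rfl
  rw [e1]
  have e2 : ∀ i, ‖B i (B i (B l x)) - B l (B i (B i x))‖ ≤ 2 * δ * ‖x‖ := by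
    intro i
    have e3 : B i (B i (B l x)) - B l (B i (B i x)) =
        B i (B i (B l x) - B l (B i x)) + (B i (B l (B i x)) - B l (B i (B i x))) := by
      rw [map_sub]
      abel
    rw [e3]
    calc ‖B i (B i (B l x) - B l (B i x)) + (B i (B l (B i x)) - B l (B i (B i x)))‖
        ≤ ‖B i (B i (B l x) - B l (B i x))‖ + ‖B i (B l (B i x)) - B l (B i (B i x))‖ :=
          norm_add_le _ _
      _ ≤ δ * ‖x‖ + δ * ‖B i x‖ :=
          add_le_add ((h1 i _).trans (hc i l x)) (hc i l (B i x))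
      _ ≤ δ * ‖x‖ + δ * ‖x‖ :=
          add_le_add le_rfl (mul_le_mul_of_nonneg_left (h1 i x) hδ)
      _ = 2 * δ * ‖x‖ := by ring
  calc ‖∑ i, (B i (B i (B l x)) - B l (B i (B i x)))‖
      ≤ ∑ i, ‖B i (B i (B l x)) - B l (B i (B i x))‖ := norm_sum_le _ _
    _ ≤ ∑ _i : Fin h, 2 * δ * ‖x‖ := Finset.sum_le_sum fun i _ => e2 i
    _ = (2 * (h : ℝ) * δ) * ‖x‖ := by
        rw [Finset.sum_const, Finset.card_univ, Fintype.card_fin, nsmul_eq_mul]
        ring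

theorem localise (h j : ℕ) (hj : j ≤ h) (τ : ℝ) (hτ : 0 < τ) :
    ∃ δ : ℝ, 0 < δ ∧ ∀ (G : Type) [NormedAddCommGroup G] [InnerProductSpace ℝ G]
      (B : Fin h → (G →ₗ[ℝ] G)),
      (∀ i x y, inner ℝ (B i x) y = inner ℝ x (B i y)) →
      (∀ i x, ‖B i x‖ ≤ ‖x‖) →
      (∀ i l x, ‖B i (B l x) - B l (B i x)‖ ≤ δ * ‖x‖) →
      ∀ (μ : ℝ) (χ : G), ‖χ‖ = 1 → (∑ i, B i (B i χ)) = μ • χ →
      ∃ (χ' : G) (y : Fin h → ℝ), ‖χ'‖ = 1 ∧
        (∀ i : Fin h, (i : ℕ) < j → ‖B i χ' - y i • χ'‖ ≤ τ) ∧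
        ‖(∑ i, B i (B i χ')) - μ • χ'‖ ≤ τ := by
  induction j generalizing τ with
  | zero =>
    refine ⟨1, one_pos, ?_⟩
    intro G _ _ B _ _ _ μ χ hχ hA
    refine ⟨χ, fun _ => 0, hχ, fun i hi => absurd hi (Nat.not_lt_zero _), ?_⟩
    rw [hA, sub_self, norm_zero]
    exact hτ.le
  | succ j ih =>
    have hjh : j < h := hj
    set η : ℝ := min τ 1 with hη
    have hη0 : 0 < η := lt_min hτ one_pos
    have hη1 : η ≤ 1 := min_le_right _ _
    have hητ : η ≤ τ := min_le_left _ _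
    obtain ⟨K0, hK0⟩ := exists_nat_gt ((1 / (η * τ)) ^ 2)
    set K : ℕ := K0 + 1 with hK
    have hKpos : 0 < K := Nat.succ_pos _
    have hKerr : 1 / (η * √(K : ℝ)) ≤ τ := by
      have h1 : 1 / (η * τ) ≤ √(K : ℝ) := by
        apply Real.le_sqrt_of_sq_le
        refine hK0.le.trans ?_
        rw [hK]
        push_cast
        linarith
      have h2 : 0 < η * τ := mul_pos hη0 hτ
      have h3 : 0 < √(K : ℝ) := Real.sqrt_pos.mpr (by exact_mod_cast hKpos)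
      rw [div_le_iff₀ (mul_pos hη0 h3)]
      rw [div_le_iff₀ h2] at h1
      nlinarith [h1]
    set c1 : ℝ := η ^ K with hc1
    have hc10 : 0 < c1 := pow_pos hη0 K
    have hc11 : c1 ≤ 1 := pow_le_one₀ hη0.le hη1
    have hτ' : 0 < τ * c1 / 4 := by positivity
    obtain ⟨δ', hδ', hloc⟩ := ih hjh.le (τ * c1 / 4) hτ'
    have hτ'le : τ * c1 / 4 ≤ τ := by nlinarith
    set δ : ℝ := min δ' (τ * c1 / (2 * ((2 * (K : ℝ) + 1) * (2 * (h : ℝ) + 1)))) with hδdef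
    have hden : 0 < 2 * ((2 * (K : ℝ) + 1) * (2 * (h : ℝ) + 1)) := by positivity
    have hδ0 : 0 < δ := lt_min hδ' (div_pos (by positivity) hden)
    have hδ1 : δ ≤ δ' := min_le_left _ _
    have hδ2 : (2 * (K : ℝ) + 1) * (2 * (h : ℝ) + 1) * δ ≤ τ * c1 / 2 := by
      have h1 : δ ≤ τ * c1 / (2 * ((2 * (K : ℝ) + 1) * (2 * (h : ℝ) + 1))) := min_le_right _ _
      rw [le_div_iff₀ hden] at h1
      linarith
    refine ⟨δ, hδ0, ?_⟩
    intro G _ _ B hsym hcon hcomm μ χ hχ hA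
    obtain ⟨χ', y', hχ', hy', hA'⟩ := hloc G B hsym hcon
      (fun i l x => (hcomm i l x).trans (mul_le_mul_of_nonneg_right hδ1 (norm_nonneg x))) μ χ hχ hA
    set l : Fin h := ⟨j, hjh⟩ with hl
    by_cases hcase : ‖B l χ'‖ ≤ η
    · refine ⟨χ', Function.update y' l 0, hχ', ?_, hA'.trans hτ'le⟩
      intro i hi
      by_cases hil : i = l
      · subst hil
        rw [Function.update_self, zero_smul, sub_zero]
        exact hcase.trans hητ
      · rw [Function.update_of_ne hil]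
        refine (hy' i ?_).trans hτ'le
        have : (i : ℕ) ≠ j := fun hh => hil (Fin.ext hh)
        omega
    · push Not at hcase
      obtain ⟨k, hkK, y0, hy0, hqlow, hqerr⟩ :=
        push (B l) (hsym l) (hcon l) χ' hχ' hη0 hcase.le hKpos
      set q : G := B l ((B l ^ k) χ') + y0 • (B l ^ k) χ' with hq
      have hqc : c1 ≤ ‖q‖ := by
        refine le_trans ?_ hqlow
        exact pow_le_pow_of_le_one hη0.le hη1 hkK
      have hq0 : 0 < ‖q‖ := hc10.trans_le hqc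
      have hkK' : (k : ℝ) ≤ K := by exact_mod_cast hkK.le
      have hh0 : (0 : ℝ) ≤ h := Nat.cast_nonneg h
      have hk0 : (0 : ℝ) ≤ k := Nat.cast_nonneg k
      have hgen : ∀ (C : G →ₗ[ℝ] G) (c δc : ℝ), 0 ≤ δc → δc ≤ (2 * (h : ℝ) + 1) * δ →
          (∀ x, ‖C (B l x) - B l (C x)‖ ≤ δc * ‖x‖) → ‖C χ' - c • χ'‖ ≤ τ * c1 / 4 →
          ‖C (‖q‖⁻¹ • q) - c • (‖q‖⁻¹ • q)‖ ≤ τ := by
        intro C c δc hδc hδc2 hcomm' herr
        apply norm_normalise C c q hq0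
        have h1 := push_comm (B l) C (hcon l) hδc hcomm' χ' hχ' k (c := c) hy0
        refine h1.trans ?_
        have h2 : (2 * (k : ℝ) + 1) * δc ≤ (2 * (K : ℝ) + 1) * ((2 * (h : ℝ) + 1) * δ) := by
          apply mul_le_mul _ hδc2 hδc (by positivity)
          linarith
        have h3 : τ * c1 ≤ τ * ‖q‖ := mul_le_mul_of_nonneg_left hqc hτ.le
        nlinarith
      refine ⟨‖q‖⁻¹ • q, Function.update y' l y0, ?_, ?_, ?_⟩
      · rw [norm_smul, norm_inv, norm_norm]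
        exact inv_mul_cancel₀ hq0.ne'
      · intro i hi
        by_cases hil : i = l
        · subst hil
          rw [Function.update_self]
          exact (norm_normalise (B l) y0 q hq0 hqerr).trans hKerr
        · rw [Function.update_of_ne hil]
          have hij : (i : ℕ) ≠ j := fun hh => hil (Fin.ext hh)
          refine hgen (B i) (y' i) δ hδ0.le ?_ (fun x => hcomm i l x) (hy' i (by omega))
          nlinarith
      · have h1 := hgen (∑ i, (B i).comp (B i)) μ (2 * (h : ℝ) * δ) (by positivity) (by nlinarith)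
          (fun x => comm_sum B hcon hδ0.le hcomm l x)
          (by
            rw [LinearMap.sum_apply]
            exact hA')
        rw [LinearMap.sum_apply] at h1
        exact h1

end HopfBig
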