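import Pool.Agent.Lib.MP_4a593f_gt.Big.S2

/-! Task S3: the sum rule for almost commuting operators.

`A = ∑ B_i²` is symmetric, positive; let `μ` be its largest eigenvalue, `χ` a unit eigenvector
(`G` finite dimensional, nontrivial; `∑ ‖B_i x‖² = ⟨A x, x⟩ ≤ μ ‖x‖²`).  Apply `localise` with
`j = h` and small `τ'`: `B_i χ' ≈ y_i χ'`.  Then
`‖∑ y_i B_i χ'‖ ≥ ∑ y_i² - τ' ∑|y_i|` and `≤ √(∑ y_i²)`, so `√(∑y_i²) ≤ 1 + τ' √h`; and
`μ ≤ ⟨A χ', χ'⟩ + τ' = ∑ ‖B_i χ'‖² + τ' ≤ ∑ (|y_i| + τ')² + τ' ≤ 1 + τ` for small `τ'`.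

The skew version: on `G = WithLp 2 (H × H)` put `B_i (x,y) = (-A_i y, A_i x)`; it is symmetric,
`‖∑ v_i B_i (x,y)‖² = ‖∑ v_i A_i x‖² + ‖∑ v_i A_i y‖²`, `[B_i,B_j](x,y) = -([A_i,A_j]x,[A_i,A_j]y)`,
`‖B_i (x,0)‖ = ‖A_i x‖`. -/

open scoped BigOperators

namespace HopfBig

theorem sumRule_symm (h : ℕ) (τ : ℝ) (hτ : 0 < τ) :
    ∃ δ : ℝ, 0 < δ ∧ ∀ (G : Type) [NormedAddCommGroup G] [InnerProductSpace ℝ G]
      [FiniteDimensional ℝ G] (B : Fin h → (G →ₗ[ℝ] G)),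
      (∀ i x y, inner ℝ (B i x) y = inner ℝ x (B i y)) →
      (∀ (v : Fin h → ℝ) x, ‖∑ i, v i • B i x‖ ^ 2 ≤ (∑ i, v i ^ 2) * ‖x‖ ^ 2) →
      (∀ i l x, ‖B i (B l x) - B l (B i x)‖ ≤ δ * ‖x‖) →
      ∀ x, ∑ i, ‖B i x‖ ^ 2 ≤ (1 + τ) * ‖x‖ ^ 2 := by
  set c : ℝ := (h : ℝ) + 1 with hc
  have hc1 : 1 ≤ c := by
    have : (0 : ℝ) ≤ h := Nat.cast_nonneg h
    linarith
  have hc0 : 0 < c := by linarith
  set t : ℝ := min (1 / c ^ 2) (τ / (9 * c)) with ht
  have ht0 : 0 < t := lt_min (by positivity) (by positivity)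
  have ht1 : t * c ^ 2 ≤ 1 := by
    have := min_le_left (1 / c ^ 2) (τ / (9 * c))
    rw [← ht] at this
    rwa [le_div_iff₀ (by positivity)] at this
  have ht2 : t * (9 * c) ≤ τ := by
    have := min_le_right (1 / c ^ 2) (τ / (9 * c))
    rw [← ht] at this
    rwa [le_div_iff₀ (by positivity)] at this
  obtain ⟨δ, hδ, hloc⟩ := localise h h le_rfl t ht0
  refine ⟨δ, hδ, ?_⟩
  intro G _ _ _ B hsymm hbd hcomm x
  by_cases hx : x = 0
  · subst hx; simp
  have : Nontrivial G := ⟨x, 0, hx⟩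
  have h1 : ∀ i x, ‖B i x‖ ≤ ‖x‖ := by
    intro i x
    have := hbd (Pi.single i 1) x
    have e1 : ∑ j, (Pi.single i (1 : ℝ) : Fin h → ℝ) j • B j x = B i x := by
      rw [Finset.sum_eq_single i]
      · simp
      · intro j _ hj
        simp [Pi.single_apply, hj]
      · simp
    have e2 : ∑ j, ((Pi.single i (1 : ℝ) : Fin h → ℝ) j) ^ 2 = 1 := by
      rw [Finset.sum_eq_single i]
      · simp
      · intro j _ hj
        simp [Pi.single_apply, hj]
      · simp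
    rw [e1, e2, one_mul] at this
    exact le_of_sq_le_sq this (norm_nonneg x)
  let A : G →ₗ[ℝ] G := ∑ i, (B i) ∘ₗ (B i)
  have hAapp : ∀ x, A x = ∑ i, B i (B i x) := by
    intro x
    simp [A, LinearMap.sum_apply]
  have hAsymm : A.IsSymmetric := by
    intro x y
    rw [hAapp, hAapp, sum_inner, inner_sum]
    refine Finset.sum_congr rfl fun i _ => ?_
    rw [hsymm, hsymm]
  have hAinner : ∀ x, inner ℝ (A x) x = ∑ i, ‖B i x‖ ^ 2 := by
    intro x
    rw [hAapp, sum_inner]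
    refine Finset.sum_congr rfl fun i _ => ?_
    rw [hsymm, real_inner_self_eq_norm_sq]
  have hev := hAsymm.hasEigenvalue_iSup_of_finiteDimensional
  set μ : ℝ := ⨆ x : { x : G // x ≠ 0 }, RCLike.re (inner ℝ (A x) x) / ‖(x : G)‖ ^ 2 with hμ
  have hbdd : BddAbove (Set.range fun x : { x : G // x ≠ 0 } =>
      (RCLike.re (inner ℝ (A (x : G)) (x : G)) / ‖(x : G)‖ ^ 2 : ℝ)) := by
    refine ⟨h, ?_⟩
    rintro _ ⟨⟨z, hz⟩, rfl⟩
    have hz' : 0 < ‖z‖ ^ 2 := by positivity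
    simp only [RCLike.re_to_real]
    rw [div_le_iff₀ hz', hAinner]
    calc ∑ i, ‖B i z‖ ^ 2 ≤ ∑ _i : Fin h, ‖z‖ ^ 2 :=
          Finset.sum_le_sum fun i _ => by
            have := h1 i z
            have := norm_nonneg (B i z)
            gcongr
      _ = h * ‖z‖ ^ 2 := by simp
  have hRay : ∀ z : G, ∑ i, ‖B i z‖ ^ 2 ≤ μ * ‖z‖ ^ 2 := by
    intro z
    by_cases hz : z = 0
    · subst hz; simp
    have hz' : 0 < ‖z‖ ^ 2 := by positivity
    have := le_ciSup hbdd ⟨z, hz⟩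
    simp only [RCLike.re_to_real] at this
    rw [div_le_iff₀ hz', hAinner] at this
    simpa [hμ] using this
  obtain ⟨v, hv⟩ := hev.exists_hasEigenvector
  have hv0 : v ≠ 0 := hv.2
  have hvA : A v = μ • v := by
    have := hv.apply_eq_smul
    simpa using this
  have hvn : 0 < ‖v‖ := norm_pos_iff.2 hv0
  obtain ⟨χ, y, hχ, hy, hA⟩ := hloc G B hsymm h1 hcomm μ ((‖v‖)⁻¹ • v)
    (by rw [norm_smul, norm_inv, norm_norm]; exact inv_mul_cancel₀ hvn.ne')
    (by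
      rw [← hAapp, map_smul, hvA, smul_comm])
  have hy' : ∀ i, ‖B i χ - y i • χ‖ ≤ t := fun i => hy i i.2
  -- the sum of squares
  set s : ℝ := √(∑ i, y i ^ 2) with hs
  have hs0 : 0 ≤ s := Real.sqrt_nonneg _
  have hs2 : s ^ 2 = ∑ i, y i ^ 2 := Real.sq_sqrt (Finset.sum_nonneg fun i _ => sq_nonneg _)
  have hcs : ∑ i, |y i| ≤ c * s := by
    have h2 : (∑ i, |y i|) ^ 2 ≤ (c * s) ^ 2 := by
      have := sq_sum_le_card_mul_sum_sq (s := (Finset.univ : Finset (Fin h))) (f := fun i => |y i|)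
      simp only [Finset.card_univ, Fintype.card_fin, sq_abs] at this
      calc (∑ i, |y i|) ^ 2 ≤ h * ∑ i, y i ^ 2 := this
        _ ≤ c ^ 2 * ∑ i, y i ^ 2 := by
            refine mul_le_mul_of_nonneg_right ?_ (Finset.sum_nonneg fun i _ => sq_nonneg _)
            nlinarith
        _ = (c * s) ^ 2 := by rw [mul_pow, hs2]
    exact le_of_sq_le_sq h2 (by positivity)
  have hle1 : s ≤ 1 + t * c := by
    have hup := hbd y χ
    rw [hχ, one_pow, mul_one, ← hs2] at hup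
    have hup' : ‖∑ i, y i • B i χ‖ ≤ s := le_of_sq_le_sq hup hs0
    have hdec : ∑ i, y i • B i χ = s ^ 2 • χ + ∑ i, y i • (B i χ - y i • χ) := by
      rw [hs2, Finset.sum_smul, ← Finset.sum_add_distrib]
      refine Finset.sum_congr rfl fun i _ => ?_
      rw [smul_sub, smul_smul, ← pow_two]
      abel
    have herr : ‖∑ i, y i • (B i χ - y i • χ)‖ ≤ t * (c * s) := by
      calc ‖∑ i, y i • (B i χ - y i • χ)‖ ≤ ∑ i, ‖y i • (B i χ - y i • χ)‖ := norm_sum_le _ _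
        _ ≤ ∑ i, |y i| * t := by
            refine Finset.sum_le_sum fun i _ => ?_
            rw [norm_smul, Real.norm_eq_abs]
            exact mul_le_mul_of_nonneg_left (hy' i) (abs_nonneg _)
        _ = t * ∑ i, |y i| := by rw [← Finset.sum_mul, mul_comm]
        _ ≤ t * (c * s) := mul_le_mul_of_nonneg_left hcs ht0.le
    have hlow : s ^ 2 - t * (c * s) ≤ ‖∑ i, y i • B i χ‖ := by
      rw [hdec]
      have := norm_sub_norm_le (s ^ 2 • χ) (-∑ i, y i • (B i χ - y i • χ))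
      rw [sub_neg_eq_add, norm_neg, norm_smul, hχ, mul_one, Real.norm_eq_abs,
        abs_of_nonneg (sq_nonneg s)] at this
      linarith
    by_contra hcon
    push Not at hcon
    have hspos : 0 < s := by
      have : 0 < t * c := by positivity
      linarith
    nlinarith
  have hμle : μ ≤ 1 + τ := by
    have e1 : μ = inner ℝ (A χ) χ - inner ℝ (A χ - μ • χ) χ := by
      rw [inner_sub_left, real_inner_smul_left, real_inner_self_eq_norm_sq, hχ]
      ring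
    have e2 : |inner ℝ (A χ - μ • χ) χ| ≤ t := by
      calc |inner ℝ (A χ - μ • χ) χ| ≤ ‖A χ - μ • χ‖ * ‖χ‖ := abs_real_inner_le_norm _ _
        _ ≤ t := by rw [hχ, mul_one, hAapp]; exact hA
    have e3 : ∑ i, ‖B i χ‖ ^ 2 ≤ (s + t * c) ^ 2 := by
      calc ∑ i, ‖B i χ‖ ^ 2 ≤ ∑ i, (|y i| + t) ^ 2 := by
            refine Finset.sum_le_sum fun i _ => ?_
            have : ‖B i χ‖ ≤ |y i| + t := by
              have h3 : B i χ = y i • χ + (B i χ - y i • χ) := by abel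
              rw [h3]
              refine (norm_add_le _ _).trans ?_
              rw [norm_smul, hχ, mul_one, Real.norm_eq_abs]
              have := hy' i
              linarith
            have := norm_nonneg (B i χ)
            gcongr
        _ = ∑ i, y i ^ 2 + 2 * t * ∑ i, |y i| + h * t ^ 2 := by
            have : ∀ i, (|y i| + t) ^ 2 = y i ^ 2 + 2 * t * |y i| + t ^ 2 := by
              intro i
              rw [add_sq, sq_abs]; ring
            simp only [this, Finset.sum_add_distrib, ← Finset.mul_sum]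
            simp
        _ ≤ s ^ 2 + 2 * t * (c * s) + c ^ 2 * t ^ 2 := by
            rw [← hs2]
            have h4 : 2 * t * ∑ i, |y i| ≤ 2 * t * (c * s) :=
              mul_le_mul_of_nonneg_left hcs (by positivity)
            have h5 : (h : ℝ) * t ^ 2 ≤ c ^ 2 * t ^ 2 := by
              refine mul_le_mul_of_nonneg_right ?_ (sq_nonneg t)
              nlinarith
            linarith
        _ = (s + t * c) ^ 2 := by ring
    have e4 : (s + t * c) ^ 2 ≤ (1 + 2 * (t * c)) ^ 2 := by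
      have : 0 ≤ t * c := by positivity
      exact pow_le_pow_left₀ (by positivity) (by linarith) 2
    have e5 : inner ℝ (A χ) χ ≤ (1 + 2 * (t * c)) ^ 2 := by
      rw [hAinner]; linarith
    have e6 := neg_abs_le (inner ℝ (A χ - μ • χ) χ)
    have e7 : μ ≤ (1 + 2 * (t * c)) ^ 2 + t := by linarith
    have e8 : t ^ 2 * c ^ 2 ≤ t := by nlinarith
    have e9 : t ≤ t * c := by nlinarith
    have e10 : (1 + 2 * (t * c)) ^ 2 = 1 + 4 * (t * c) + 4 * (t ^ 2 * c ^ 2) := by ring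
    linarith
  calc ∑ i, ‖B i x‖ ^ 2 ≤ μ * ‖x‖ ^ 2 := hRay x
    _ ≤ (1 + τ) * ‖x‖ ^ 2 := mul_le_mul_of_nonneg_right hμle (sq_nonneg _)

/-- the doubled operator `(x,y) ↦ (-A y, A x)` -/
private noncomputable def dbl {H : Type} [NormedAddCommGroup H] [InnerProductSpace ℝ H]
    (A : H →ₗ[ℝ] H) : WithLp 2 (H × H) →ₗ[ℝ] WithLp 2 (H × H) :=
  (WithLp.linearEquiv 2 ℝ (H × H)).symm.toLinearMap ∘ₗ
    ((-(A ∘ₗ LinearMap.snd ℝ H H)).prod (A ∘ₗ LinearMap.fst ℝ H H)) ∘ₗ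
    (WithLp.linearEquiv 2 ℝ (H × H)).toLinearMap

private theorem dbl_fst {H : Type} [NormedAddCommGroup H] [InnerProductSpace ℝ H]
    (A : H →ₗ[ℝ] H) (z : WithLp 2 (H × H)) : (dbl A z).fst = -A z.snd := rfl

private theorem dbl_snd {H : Type} [NormedAddCommGroup H] [InnerProductSpace ℝ H]
    (A : H →ₗ[ℝ] H) (z : WithLp 2 (H × H)) : (dbl A z).snd = A z.fst := rfl

theorem sumRule_skew (h : ℕ) (τ : ℝ) (hτ : 0 < τ) :
    ∃ δ : ℝ, 0 < δ ∧ ∀ (H : Type) [NormedAddCommGroup H] [InnerProductSpace ℝ H]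
      [FiniteDimensional ℝ H] (A : Fin h → (H →ₗ[ℝ] H)),
      (∀ i x y, inner ℝ (A i x) y = -inner ℝ x (A i y)) →
      (∀ (v : Fin h → ℝ) x, ‖∑ i, v i • A i x‖ ^ 2 ≤ (∑ i, v i ^ 2) * ‖x‖ ^ 2) →
      (∀ i l x, ‖A i (A l x) - A l (A i x)‖ ≤ δ * ‖x‖) →
      ∀ x, ∑ i, ‖A i x‖ ^ 2 ≤ (1 + τ) * ‖x‖ ^ 2 := by
  obtain ⟨δ, hδ, key⟩ := sumRule_symm h τ hτ
  refine ⟨δ, hδ, ?_⟩
  intro H _ _ _ A hskew hbd hcomm x
  have hfin : FiniteDimensional ℝ (WithLp 2 (H × H)) := inferInstance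
  have nsq : ∀ z : WithLp 2 (H × H), ‖z‖ ^ 2 = ‖z.fst‖ ^ 2 + ‖z.snd‖ ^ 2 := fun z =>
    WithLp.prod_norm_sq_eq_of_L2 z
  have fst_sum : ∀ (f : Fin h → WithLp 2 (H × H)), (∑ i, f i).fst = ∑ i, (f i).fst := by
    intro f
    exact map_sum ((LinearMap.fst ℝ H H) ∘ₗ (WithLp.linearEquiv 2 ℝ (H × H)).toLinearMap) f _
  have snd_sum : ∀ (f : Fin h → WithLp 2 (H × H)), (∑ i, f i).snd = ∑ i, (f i).snd := by
    intro f
    exact map_sum ((LinearMap.snd ℝ H H) ∘ₗ (WithLp.linearEquiv 2 ℝ (H × H)).toLinearMap) f _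
  have := key (WithLp 2 (H × H)) (fun i => dbl (A i)) ?_ ?_ ?_ (WithLp.toLp 2 (x, 0))
  · have e1 : ∀ i, ‖dbl (A i) (WithLp.toLp 2 (x, 0))‖ ^ 2 = ‖A i x‖ ^ 2 := by
      intro i
      rw [nsq, dbl_fst, dbl_snd]
      simp
    have e2 : ‖(WithLp.toLp 2 (x, (0 : H)) : WithLp 2 (H × H))‖ ^ 2 = ‖x‖ ^ 2 := by
      rw [nsq]
      simp
    simp only [e1, e2] at this
    exact this
  · intro i z w
    rw [WithLp.prod_inner_apply, WithLp.prod_inner_apply]
    change inner ℝ (-A i z.snd) w.fst + inner ℝ (A i z.fst) w.snd =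
      inner ℝ z.fst (-A i w.snd) + inner ℝ z.snd (A i w.fst)
    rw [inner_neg_left, inner_neg_right, hskew, hskew]
    ring
  · intro v z
    rw [nsq, nsq z, fst_sum, snd_sum]
    have e1 : ∑ i, (v i • dbl (A i) z).fst = -∑ i, v i • A i z.snd := by
      rw [← Finset.sum_neg_distrib]
      refine Finset.sum_congr rfl fun i _ => ?_
      rw [WithLp.smul_fst, dbl_fst, smul_neg]
    have e2 : ∑ i, (v i • dbl (A i) z).snd = ∑ i, v i • A i z.fst := by
      refine Finset.sum_congr rfl fun i _ => ?_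
      rw [WithLp.smul_snd, dbl_snd]
    rw [e1, e2, norm_neg]
    have h1 := hbd v z.fst
    have h2 := hbd v z.snd
    linarith
  · intro i l z
    have e0 : 0 ≤ δ * ‖z‖ := by positivity
    refine le_of_sq_le_sq ?_ e0
    rw [nsq, mul_pow, nsq z]
    have e1 : (dbl (A i) (dbl (A l) z) - dbl (A l) (dbl (A i) z)).fst =
        -(A i (A l z.fst) - A l (A i z.fst)) := by
      rw [WithLp.sub_fst, dbl_fst, dbl_fst, dbl_snd, dbl_snd]
      abel
    have e2 : (dbl (A i) (dbl (A l) z) - dbl (A l) (dbl (A i) z)).snd =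
        -(A i (A l z.snd) - A l (A i z.snd)) := by
      rw [WithLp.sub_snd, dbl_snd, dbl_snd, dbl_fst, dbl_fst, map_neg, map_neg]
      abel
    rw [e1, e2, norm_neg, norm_neg]
    have h1 := hcomm i l z.fst
    have h2 := hcomm i l z.snd
    have h3 : ‖A i (A l z.fst) - A l (A i z.fst)‖ ^ 2 ≤ (δ * ‖z.fst‖) ^ 2 := by
      gcongr
    have h4 : ‖A i (A l z.snd) - A l (A i z.snd)‖ ^ 2 ≤ (δ * ‖z.snd‖) ^ 2 := by
      gcongr
    rw [mul_pow] at h3 h4
    linarith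

end HopfBig
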