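import Pool.Agent.Lib.MP_4a593f_gt.Big.S3
import Pool.Agent.Lib.MP_4a593f_gt.Big.A7

/-! Task S4: the sum rule for the eigenvalues of `D`.

Operators `A_i = ρ_{E_i}/√p`: for an orthonormal family `‖∑ v_i A_i x‖² = ‖ρ_{∑ v_i E_i} x‖²/p
≤ (∑ v_i²) ‖x‖²` (`X.bd`).  Commutators: `‖ρ_{[E_i,E_l]} x‖/p ≤ √(p |[E_i,E_l]|²) ‖x‖/p`,
`|[E_i,E_l]|² ≤ 4 r²` if `‖E_i‖_op ≤ r` (`ip_br_le`), and `r = 1/√(d_i)` (`Eig.opLe`).

(1) `h = 2`, `E_{i0}, E_i`: `r² = 1/d_{i0} ≤ 2/p`, commutator `≤ √8/p ≤ δ` for `p` large.  With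
`x = ψ`: `d_{i0} + d_i ≤ (1+τ) p`.
(2) If more than `2/c` eigenvalues are `≥ c p`, choose `h = ⌊2/c⌋ + 1` of them:
commutators `≤ 2 √(p/(c p))/p = 2/(√c p) ≤ δ(h, 1)`, so `h c p ≤ ∑ d_i ≤ 2p`, contradiction. -/

open scoped BigOperators

namespace HopfBig

namespace S4aux

variable {n : ℕ} {p : ℝ} {H : Type} [NormedAddCommGroup H] [InnerProductSpace ℝ H]
  {X : FormData n p H} {m : ℕ} {E : Fin m → Mat n} {d : Fin m → ℝ}

theorem ip_comb (h : Eig X E d) {k : ℕ} (f : Fin k → Fin m) (hf : Function.Injective f)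
    (v : Fin k → ℝ) : ip (∑ i, v i • E (f i)) (∑ i, v i • E (f i)) = ∑ i, v i ^ 2 := by
  rw [ip_sum_left]
  refine Finset.sum_congr rfl (fun i _ => ?_)
  rw [ip_smul_left, ip_sum_right]
  have h1 : ∀ l, ip (E (f i)) (v l • E (f l)) = if i = l then v l else 0 := by
    intro l
    rw [ip_smul_right, h.orth]
    by_cases hil : i = l
    · rw [if_pos (congrArg f hil), if_pos hil, mul_one]
    · rw [if_neg (fun hh => hil (hf hh)), if_neg hil, mul_zero]
  simp only [h1]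
  rw [Finset.sum_ite_eq Finset.univ i v, if_pos (Finset.mem_univ i)]
  ring

theorem br_le (h : Eig X E d) {i l : Fin m} (hi : 0 < d i) :
    ip (br (E i) (E l)) (br (E i) (E l)) ≤ 4 / d i := by
  have h1 := ip_br_le (B := E l) (h.opLe hi)
  rw [h.orth l l, if_pos rfl, mul_one, div_pow, Real.sq_sqrt hi.le, one_pow] at h1
  calc ip (br (E i) (E l)) (br (E i) (E l)) ≤ 4 * (1 / d i) := h1
    _ = 4 / d i := by ring

theorem ip_neg_neg' (A : Mat n) : ip (-A) (-A) = ip A A := by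
  unfold ip
  simp

theorem br_le' (h : Eig X E d) {i l : Fin m} (hi : 0 < d i) :
    ip (br (E l) (E i)) (br (E l) (E i)) ≤ 4 / d i := by
  rw [br_neg_comm, ip_neg_neg']
  exact br_le h hi

/-- the sum rule for an injective family of indices -/
theorem main [FiniteDimensional ℝ H] (hp : 0 < p) (h : Eig X E d) {k : ℕ} (f : Fin k → Fin m)
    (hf : Function.Injective f) {τ δ η : ℝ}
    (hrule : ∀ (A : Fin k → (H →ₗ[ℝ] H)),
      (∀ i x y, inner ℝ (A i x) y = -inner ℝ x (A i y)) →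
      (∀ (v : Fin k → ℝ) x, ‖∑ i, v i • A i x‖ ^ 2 ≤ (∑ i, v i ^ 2) * ‖x‖ ^ 2) →
      (∀ i l x, ‖A i (A l x) - A l (A i x)‖ ≤ δ * ‖x‖) →
      ∀ x, ∑ i, ‖A i x‖ ^ 2 ≤ (1 + τ) * ‖x‖ ^ 2)
    (hδ : 0 ≤ δ) (hη : η ≤ δ ^ 2 * p)
    (hbr : ∀ i l, i ≠ l → ip (br (E (f i)) (E (f l))) (br (E (f i)) (E (f l))) ≤ η) :
    ∑ i, d (f i) ≤ (1 + τ) * p := by
  have hsp : 0 < √p := Real.sqrt_pos.2 hp
  have hsq : √p ^ 2 = p := Real.sq_sqrt hp.le
  set A : Fin k → (H →ₗ[ℝ] H) := fun i => (1 / √p) • X.ρ (E (f i)) with hA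
  have hAx : ∀ i x, A i x = (1 / √p) • X.ρ (E (f i)) x := fun i x => rfl
  have h1 : ∀ i x y, inner ℝ (A i x) y = -inner ℝ x (A i y) := by
    intro i x y
    rw [hAx, hAx, real_inner_smul_left, real_inner_smul_right, X.skew _ (h.skew (f i))]
    ring
  have h2 : ∀ (v : Fin k → ℝ) x, ‖∑ i, v i • A i x‖ ^ 2 ≤ (∑ i, v i ^ 2) * ‖x‖ ^ 2 := by
    intro v x
    have h3 : ∑ i, v i • A i x = (1 / √p) • X.ρ (∑ i, v i • E (f i)) x := by
      rw [map_sum, LinearMap.sum_apply, Finset.smul_sum]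
      refine Finset.sum_congr rfl (fun i _ => ?_)
      rw [hAx, map_smul, LinearMap.smul_apply, smul_comm]
    have h4 : Skew (∑ i, v i • E (f i)) := Skew.sum (fun i => (h.skew (f i)).smul (v i))
    have h5 := X.bd _ h4 x
    rw [ip_comb h f hf v] at h5
    rw [h3, norm_smul, mul_pow, Real.norm_eq_abs, sq_abs, div_pow, one_pow, hsq]
    calc 1 / p * ‖X.ρ (∑ i, v i • E (f i)) x‖ ^ 2
        ≤ 1 / p * (p * (∑ i, v i ^ 2) * ‖x‖ ^ 2) :=
          mul_le_mul_of_nonneg_left h5 (by positivity)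
      _ = (∑ i, v i ^ 2) * ‖x‖ ^ 2 := by field_simp
  have h6 : ∀ i l x, ‖A i (A l x) - A l (A i x)‖ ≤ δ * ‖x‖ := by
    intro i l x
    have h7 : A i (A l x) - A l (A i x) = (1 / p) • X.ρ (br (E (f i)) (E (f l))) x := by
      rw [hAx, hAx, hAx, hAx, map_smul, map_smul, smul_smul, smul_smul, ← smul_sub,
        X.lie _ _ (h.skew (f i)) (h.skew (f l))]
      congr 1
      rw [div_mul_div_comm, one_mul, ← sq, hsq]
    rw [h7]
    by_cases hil : i = l
    · subst hil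
      rw [br_self, map_zero, LinearMap.zero_apply, smul_zero, norm_zero]
      positivity
    · have h8 := X.bd _ ((h.skew (f i)).br (h.skew (f l))) x
      have h9 := hbr i l hil
      apply le_of_sq_le_sq _ (by positivity)
      rw [norm_smul, mul_pow, mul_pow, Real.norm_eq_abs, sq_abs, div_pow, one_pow]
      calc 1 / p ^ 2 * ‖X.ρ (br (E (f i)) (E (f l))) x‖ ^ 2
          ≤ 1 / p ^ 2 * (p * (δ ^ 2 * p) * ‖x‖ ^ 2) := by
            refine mul_le_mul_of_nonneg_left (h8.trans ?_) (by positivity)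
            refine mul_le_mul_of_nonneg_right ?_ (by positivity)
            exact mul_le_mul_of_nonneg_left (h9.trans hη) hp.le
        _ = δ ^ 2 * ‖x‖ ^ 2 := by field_simp
  have h10 := hrule A h1 h2 h6 X.ψ
  rw [X.norm_ψ, one_pow, mul_one] at h10
  have h11 : ∀ i, ‖A i X.ψ‖ ^ 2 = d (f i) / p := by
    intro i
    have h12 := h.eig (f i) (E (f i)) (h.skew (f i))
    rw [h.orth, if_pos rfl, mul_one] at h12
    rw [hAx, norm_smul, mul_pow, Real.norm_eq_abs, sq_abs, div_pow, one_pow, hsq,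
      ← real_inner_self_eq_norm_sq]
    rw [FormData.D] at h12
    rw [h12]
    ring
  simp only [h11] at h10
  rw [← Finset.sum_div, div_le_iff₀ hp] at h10
  exact h10

end S4aux

theorem eig_pair (τ : ℝ) (hτ : 0 < τ) : ∃ p₀ : ℝ, ∀ (n : ℕ) (p : ℝ) (H : Type)
    [NormedAddCommGroup H] [InnerProductSpace ℝ H] [FiniteDimensional ℝ H]
    (X : FormData n p H) (m : ℕ) (E : Fin m → Mat n) (d : Fin m → ℝ), p₀ ≤ p → 0 < p →
    Eig X E d → ∀ i0, p / 2 ≤ d i0 → ∀ i, i ≠ i0 → d i0 + d i ≤ (1 + τ) * p := by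
  obtain ⟨δ, hδ, hrule⟩ := sumRule_skew 2 τ hτ
  refine ⟨3 / δ, ?_⟩
  intro n p H _ _ _ X m E d hp0 hp h i0 hi0 i hi
  have hd0 : 0 < d i0 := by linarith
  have hf : Function.Injective (![i0, i] : Fin 2 → Fin m) := by
    intro x y hxy
    fin_cases x <;> fin_cases y <;> simp_all
  have h3 : 3 ≤ δ * p := by
    rw [div_le_iff₀ hδ] at hp0
    linarith
  have hη : 8 / p ≤ δ ^ 2 * p := by
    rw [div_le_iff₀ hp]
    nlinarith
  have h48 : 4 / d i0 ≤ 8 / p := by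
    rw [div_le_div_iff₀ hd0 hp]
    linarith
  have key := S4aux.main (δ := δ) (τ := τ) (η := 8 / p) hp h ![i0, i] hf (hrule H) hδ.le hη (by
    intro a b hab
    fin_cases a <;> fin_cases b
    · exact absurd rfl hab
    · exact (S4aux.br_le h hd0).trans h48
    · exact (S4aux.br_le' h hd0).trans h48
    · exact absurd rfl hab)
  simpa [Fin.sum_univ_two] using key

theorem eig_count (c : ℝ) (hc : 0 < c) : ∃ p₀ : ℝ, ∀ (n : ℕ) (p : ℝ) (H : Type)
    [NormedAddCommGroup H] [InnerProductSpace ℝ H] [FiniteDimensional ℝ H]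
    (X : FormData n p H) (m : ℕ) (E : Fin m → Mat n) (d : Fin m → ℝ), p₀ ≤ p → 0 < p →
    Eig X E d → ((Finset.univ.filter fun i => c * p ≤ d i).card : ℝ) ≤ 2 / c := by
  obtain ⟨δ, hδ, hrule⟩ := sumRule_skew (⌊2 / c⌋₊ + 1) 1 one_pos
  refine ⟨2 / (√c * δ), ?_⟩
  intro n p H _ _ _ X m E d hp0 hp h
  by_contra hcon
  push Not at hcon
  set S : Finset (Fin m) := Finset.univ.filter fun i => c * p ≤ d i with hS
  have h1 : ⌊2 / c⌋₊ + 1 ≤ S.card := by
    have : ⌊2 / c⌋₊ < S.card := (Nat.floor_lt (by positivity)).2 hcon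
    exact this
  obtain ⟨T, hTS, hT⟩ := Finset.exists_subset_card_eq h1
  set f : Fin (⌊2 / c⌋₊ + 1) → Fin m := fun i => T.orderEmbOfFin hT i with hfdef
  have hf : Function.Injective f := (T.orderEmbOfFin hT).injective
  have hfd : ∀ i, c * p ≤ d (f i) := by
    intro i
    have h2 : f i ∈ S := hTS (T.orderEmbOfFin_mem hT i)
    rw [hS, Finset.mem_filter] at h2
    exact h2.2
  have hcp : 0 < c * p := by positivity
  have hsc : 0 < √c := Real.sqrt_pos.2 hc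
  have h3 : 2 ≤ √c * δ * p := by
    rw [div_le_iff₀ (by positivity)] at hp0
    linarith
  have hη : 4 / (c * p) ≤ δ ^ 2 * p := by
    rw [div_le_iff₀ hcp]
    have h4 : (√c * δ * p) ^ 2 = δ ^ 2 * p * (c * p) := by
      have : √c ^ 2 = c := Real.sq_sqrt hc.le
      calc (√c * δ * p) ^ 2 = √c ^ 2 * δ ^ 2 * p ^ 2 := by ring
        _ = δ ^ 2 * p * (c * p) := by rw [this]; ring
    rw [← h4]
    nlinarith
  have key := S4aux.main (δ := δ) (τ := 1) (η := 4 / (c * p)) hp h f hf (hrule H) hδ.le hη (by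
    intro a b _
    have hda : 0 < d (f a) := lt_of_lt_of_le hcp (hfd a)
    refine (S4aux.br_le h hda).trans ?_
    exact div_le_div_of_nonneg_left (by norm_num) hcp (hfd a))
  have h5 : ((⌊2 / c⌋₊ + 1 : ℕ) : ℝ) * (c * p) ≤ ∑ i, d (f i) := by
    calc ((⌊2 / c⌋₊ + 1 : ℕ) : ℝ) * (c * p) = ∑ _i : Fin (⌊2 / c⌋₊ + 1), c * p := by
          rw [Finset.sum_const, Finset.card_univ, Fintype.card_fin, nsmul_eq_mul]
      _ ≤ ∑ i, d (f i) := Finset.sum_le_sum (fun i _ => hfd i)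
  have h6 : 2 / c < ((⌊2 / c⌋₊ + 1 : ℕ) : ℝ) := by
    push_cast
    exact Nat.lt_floor_add_one (2 / c)
  have h7 : 2 / c * (c * p) < ((⌊2 / c⌋₊ + 1 : ℕ) : ℝ) * (c * p) :=
    mul_lt_mul_of_pos_right h6 hcp
  have h8 : 2 / c * (c * p) = 2 * p := by field_simp
  linarith

end HopfBig
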