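import Pool.Agent.Lib.MP_4a593f_gt.Big.W1

/-! Task W3: coordinates.  `Z = Zf J L = (1/2)[J,L]` (skew), `Yu_ij = u_i Z_ij u_j`.

(1) `√λ [L0,L]_ij = a_i (JL)_ij - a_j (LJ)_ij`.  With `S = (JL+LJ)/2` (symmetric):
`JL = Z + S`, `LJ = S - Z`, so `√λ V_ij = (a_i+a_j) Z_ij + (a_i-a_j) S_ij`, and
`√λ ⟨V, Yu⟩ = (1/2) ∑ (a_i+a_j) u_i u_j Z_ij² + (1/2) ∑ (a_i-a_j) u_i u_j S_ij Z_ij`.  The last
sum vanishes: `4 S_ij Z_ij = (JL)_ij² - (LJ)_ij²`, and for functions `g, h` which are constant on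
the blocks of `J` and vanish where `a = 0`:
`∑ g_i h_j (JL)_ij² = ∑ g_i h_j L_ij² = ∑ g_i h_j (LJ)_ij²`
(`∑_i g_i (J v)_i² = ∑_i g_i v_i²`, because `J` commutes with `g` and `JᵀJ = 1` where `a ≠ 0`).
Apply with `(g,h) = (a u, u)` and `(u, a u)`.

(2) `‖L0 L‖_HS² = ⟨V,V⟩ + tr(L0 L L0 L)`, `tr (L0 L L0 L) = (2/λ)(|Bc|² - |Yc|²)`, `c = √a`
(`Frame.trJMJM` with `L0 = λ^{-1/2} c J c`), and
`‖c_S L‖_HS² = ∑_{a_i ≥ ω} a_i L_ij² ≤ (1/ω) ∑ a_i² L_ij² = (λ/ω) ‖L0 L‖_HS²`. -/

open scoped BigOperators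

namespace HopfBig

variable {n : ℕ} {L0 J : Mat n} {a u : Fin n → ℝ} {lam : ℝ}

private theorem W3.Wt_vanish (hu : Wt J a u) {i : Fin n} (hi : a i = 0) : u i = 0 := by
  have h := (hu.2 i).2
  rw [hi] at h
  nlinarith [(hu.2 i).1]

private theorem W3.left (hu : ∀ i j, J i j ≠ 0 → u i = u j) (i j : Fin n) :
    J i j * u j = u i * J i j := by
  by_cases h : J i j = 0
  · rw [h]; ring
  · rw [hu i j h]; ring

private theorem W3.Mu_eq (u : Fin n → ℝ) (L : Mat n) :
    Mu u L = Matrix.diagonal u * L * Matrix.diagonal u := by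
  ext i j
  rw [Matrix.mul_diagonal, Matrix.diagonal_mul]
  rfl

private theorem W3.comm (hu : ∀ i j, J i j ≠ 0 → u i = u j) :
    Matrix.diagonal u * J = J * Matrix.diagonal u := by
  ext i j
  rw [Matrix.mul_diagonal, Matrix.diagonal_mul, W3.left hu]

private theorem W3.key (h : Frame L0 J a lam) (g : Fin n → ℝ)
    (hg : ∀ i j, J i j ≠ 0 → g i = g j) (hg0 : ∀ i, a i = 0 → g i = 0) (M : Mat n)
    (j : Fin n) : ∑ i, g i * (J * M) i j ^ 2 = ∑ i, g i * M i j ^ 2 := by
  have hGJ := W3.comm hg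
  have hJJ : Matrix.diagonal g * (J * J) = -Matrix.diagonal g := by
    rw [h.sq, Matrix.diagonal_mul_diagonal]
    ext i j
    rw [Matrix.neg_apply]
    by_cases hij : i = j
    · subst hij
      rw [Matrix.diagonal_apply_eq, Matrix.diagonal_apply_eq]
      by_cases hi : a i = 0
      · simp [hi, hg0 i hi]
      · simp [hi]
    · rw [Matrix.diagonal_apply_ne _ hij, Matrix.diagonal_apply_ne _ hij, neg_zero]
  have hJT : J.transpose = -J := h.skewJ.transpose
  have hM : (J * M).transpose * (Matrix.diagonal g * (J * M)) =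
      M.transpose * (Matrix.diagonal g * M) := by
    calc (J * M).transpose * (Matrix.diagonal g * (J * M))
        = M.transpose * (-(J * Matrix.diagonal g * J * M)) := by
          rw [Matrix.transpose_mul, hJT]
          simp only [Matrix.mul_assoc, Matrix.neg_mul, Matrix.mul_neg]
      _ = M.transpose * (-(Matrix.diagonal g * (J * J) * M)) := by
          rw [← hGJ]
          simp only [Matrix.mul_assoc]
      _ = M.transpose * (Matrix.diagonal g * M) := by
          rw [hJJ, Matrix.neg_mul, neg_neg]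
  have hE := congrFun (congrFun hM j) j
  rw [Matrix.mul_apply, Matrix.mul_apply] at hE
  simp only [Matrix.transpose_apply, Matrix.diagonal_mul] at hE
  calc ∑ i, g i * (J * M) i j ^ 2 = ∑ i, (J * M) i j * (g i * (J * M) i j) :=
        Finset.sum_congr rfl fun i _ => by ring
    _ = ∑ i, M i j * (g i * M i j) := hE
    _ = _ := Finset.sum_congr rfl fun i _ => by ring

private theorem W3.swap (hJ : Skew J) {L : Mat n} (hL : Skew L) (i j : Fin n) :
    (L * J) i j = (J * L) j i := by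
  rw [Matrix.mul_apply, Matrix.mul_apply]
  refine Finset.sum_congr rfl fun k _ => ?_
  rw [hJ k j, hL i k]
  ring

theorem Frame.Yu_apply (h : Frame L0 J a lam) (hu : Wt J a u) (L : Mat n) (i j : Fin n) :
    Yu J u L i j = u i * Zf J L i j * u j := by
  have hc := W3.comm hu.1
  have hY : Yu J u L = Matrix.diagonal u * Zf J L * Matrix.diagonal u := by
    unfold Yu Zf
    rw [W3.Mu_eq, Matrix.mul_smul, Matrix.smul_mul, Matrix.mul_sub, Matrix.sub_mul]
    congr 1
    congr 1
    · rw [← Matrix.mul_assoc, ← Matrix.mul_assoc, ← hc, Matrix.mul_assoc (Matrix.diagonal u) J L]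
    · rw [Matrix.mul_assoc, hc]
      simp only [Matrix.mul_assoc]
  rw [hY, Matrix.mul_diagonal, Matrix.diagonal_mul]

theorem Zf_skew (hJ : Skew J) {L : Mat n} (hL : Skew L) : Skew (Zf J L) :=
  Skew.smul (1 / 2 : ℝ) (Skew.br hJ hL)

theorem Frame.ip_Yu (h : Frame L0 J a lam) (hu : Wt J a u) (L : Mat n) :
    ip (Yu J u L) (Yu J u L) = (1 / 2) * ∑ i, ∑ j, u i ^ 2 * u j ^ 2 * Zf J L i j ^ 2 := by
  unfold ip
  congr 1
  refine Finset.sum_congr rfl fun i _ => Finset.sum_congr rfl fun j _ => ?_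
  rw [h.Yu_apply hu]
  ring

private theorem W3.cross (h : Frame L0 J a lam) (hu : Wt J a u) {L : Mat n} (hL : Skew L) :
    ∑ i, ∑ j, (a i - a j) * (u i * u j) * ((J * L) i j ^ 2 - (L * J) i j ^ 2) = 0 := by
  have hau : ∀ i j, J i j ≠ 0 → (fun i => a i * u i) i = (fun i => a i * u i) j := by
    intro i j hij
    simp only
    rw [h.comm i j hij, hu.1 i j hij]
  have hau0 : ∀ i, a i = 0 → (fun i => a i * u i) i = 0 := by
    intro i hi
    simp [hi]
  -- the two evaluations
  have E1 : ∑ i, ∑ j, (a i * u i) * u j * (J * L) i j ^ 2 =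
      ∑ i, ∑ j, (a i * u i) * u j * L i j ^ 2 := by
    rw [Finset.sum_comm]
    conv_rhs => rw [Finset.sum_comm]
    refine Finset.sum_congr rfl fun j _ => ?_
    have hk := W3.key h (fun i => a i * u i) hau hau0 L j
    calc ∑ i, a i * u i * u j * (J * L) i j ^ 2
        = u j * ∑ i, (fun i => a i * u i) i * (J * L) i j ^ 2 := by
          rw [Finset.mul_sum]
          exact Finset.sum_congr rfl fun i _ => by ring
      _ = u j * ∑ i, (fun i => a i * u i) i * L i j ^ 2 := by rw [hk]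
      _ = _ := by
          rw [Finset.mul_sum]
          exact Finset.sum_congr rfl fun i _ => by ring
  have E2 : ∑ i, ∑ j, u i * (a j * u j) * (J * L) i j ^ 2 =
      ∑ i, ∑ j, u i * (a j * u j) * L i j ^ 2 := by
    rw [Finset.sum_comm]
    conv_rhs => rw [Finset.sum_comm]
    refine Finset.sum_congr rfl fun j _ => ?_
    have hk := W3.key h u hu.1 (fun i hi => W3.Wt_vanish hu hi) L j
    calc ∑ i, u i * (a j * u j) * (J * L) i j ^ 2
        = (a j * u j) * ∑ i, u i * (J * L) i j ^ 2 := by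
          rw [Finset.mul_sum]
          exact Finset.sum_congr rfl fun i _ => by ring
      _ = (a j * u j) * ∑ i, u i * L i j ^ 2 := by rw [hk]
      _ = _ := by
          rw [Finset.mul_sum]
          exact Finset.sum_congr rfl fun i _ => by ring
  have E3 : ∑ i, ∑ j, u i * (a j * u j) * L i j ^ 2 =
      ∑ i, ∑ j, (a i * u i) * u j * L i j ^ 2 := by
    rw [Finset.sum_comm]
    refine Finset.sum_congr rfl fun i _ => Finset.sum_congr rfl fun j _ => ?_
    rw [hL i j]
    ring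
  have F1 : ∑ i, ∑ j, (a i * u i) * u j * (L * J) i j ^ 2 =
      ∑ i, ∑ j, u i * (a j * u j) * (J * L) i j ^ 2 := by
    rw [Finset.sum_comm]
    refine Finset.sum_congr rfl fun i _ => Finset.sum_congr rfl fun j _ => ?_
    rw [W3.swap h.skewJ hL]
    ring
  have F2 : ∑ i, ∑ j, u i * (a j * u j) * (L * J) i j ^ 2 =
      ∑ i, ∑ j, (a i * u i) * u j * (J * L) i j ^ 2 := by
    rw [Finset.sum_comm]
    refine Finset.sum_congr rfl fun i _ => Finset.sum_congr rfl fun j _ => ?_
    rw [W3.swap h.skewJ hL]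
    ring
  have hsplit : ∑ i, ∑ j, (a i - a j) * (u i * u j) * ((J * L) i j ^ 2 - (L * J) i j ^ 2) =
      (∑ i, ∑ j, (a i * u i) * u j * (J * L) i j ^ 2 -
        ∑ i, ∑ j, (a i * u i) * u j * (L * J) i j ^ 2) -
      (∑ i, ∑ j, u i * (a j * u j) * (J * L) i j ^ 2 -
        ∑ i, ∑ j, u i * (a j * u j) * (L * J) i j ^ 2) := by
    simp only [← Finset.sum_sub_distrib]
    refine Finset.sum_congr rfl fun i _ => Finset.sum_congr rfl fun j _ => ?_
    ring
  rw [hsplit, F1, F2, E1, E2, E3]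
  ring

private theorem W3.L0L (h : Frame L0 J a lam) (L : Mat n) (i j : Fin n) :
    √lam * (L0 * L) i j = a i * (J * L) i j := by
  rw [Matrix.mul_apply, Matrix.mul_apply, Finset.mul_sum, Finset.mul_sum]
  refine Finset.sum_congr rfl fun k _ => ?_
  rw [← mul_assoc, h.hL0, mul_assoc]

private theorem W3.LL0 (h : Frame L0 J a lam) (L : Mat n) (i j : Fin n) :
    √lam * (L * L0) i j = a j * (L * J) i j := by
  rw [Matrix.mul_apply, Matrix.mul_apply, Finset.mul_sum, Finset.mul_sum]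
  refine Finset.sum_congr rfl fun k _ => ?_
  have h1 := W3.left (J := J) (u := a) h.comm k j
  calc √lam * (L i k * L0 k j) = L i k * (√lam * L0 k j) := by ring
    _ = L i k * (J k j * a j) := by rw [h.hL0, h1]
    _ = _ := by ring

theorem Frame.ip_V_Yu (h : Frame L0 J a lam) (hu : Wt J a u) {L : Mat n} (hL : Skew L) :
    √lam * ip (br L0 L) (Yu J u L) =
      (1 / 2) * ∑ i, ∑ j, (a i + a j) * (u i * u j) * Zf J L i j ^ 2 := by
  have hc := W3.cross h hu hL
  have h1 : √lam * ip (br L0 L) (Yu J u L) =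
      (1 / 2) * ∑ i, ∑ j, (a i + a j) * (u i * u j) * Zf J L i j ^ 2 +
      (1 / 8) * ∑ i, ∑ j, (a i - a j) * (u i * u j) *
        ((J * L) i j ^ 2 - (L * J) i j ^ 2) := by
    unfold ip
    rw [← mul_assoc, mul_comm (√lam), mul_assoc, Finset.mul_sum, Finset.mul_sum,
      Finset.mul_sum, Finset.mul_sum, ← Finset.sum_add_distrib]
    refine Finset.sum_congr rfl fun i _ => ?_
    rw [Finset.mul_sum, Finset.mul_sum, Finset.mul_sum, Finset.mul_sum,
      ← Finset.sum_add_distrib]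
    refine Finset.sum_congr rfl fun j _ => ?_
    have hV : √lam * br L0 L i j = a i * (J * L) i j - a j * (L * J) i j := by
      unfold br
      rw [Matrix.sub_apply, mul_sub, W3.L0L h, W3.LL0 h]
    have hZ : Zf J L i j = (1 / 2) * ((J * L) i j - (L * J) i j) := by
      unfold Zf
      rw [Matrix.smul_apply, Matrix.sub_apply, smul_eq_mul]
    rw [h.Yu_apply hu, hZ]
    have : √lam * (br L0 L i j * (u i * ((1 / 2) * ((J * L) i j - (L * J) i j)) * u j)) =
        (√lam * br L0 L i j) * (u i * ((1 / 2) * ((J * L) i j - (L * J) i j)) * u j) := by ring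
    rw [this, hV]
    ring
  rw [h1, hc]
  ring

/-- `(a_i + a_j) u_i u_j ≥ 2 u_i² u_j²` -/
theorem Frame.ip_V_Yu_ge (h : Frame L0 J a lam) (hu : Wt J a u) {L : Mat n} (hL : Skew L) :
    2 * ip (Yu J u L) (Yu J u L) ≤ √lam * ip (br L0 L) (Yu J u L) := by
  rw [h.ip_V_Yu hu hL, h.ip_Yu hu]
  rw [← mul_assoc, mul_comm (2 : ℝ), mul_assoc]
  refine mul_le_mul_of_nonneg_left ?_ (by norm_num)
  rw [Finset.mul_sum]
  refine Finset.sum_le_sum fun i _ => ?_
  rw [Finset.mul_sum]
  refine Finset.sum_le_sum fun j _ => ?_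
  have hi := hu.2 i
  have hj := hu.2 j
  have h2 : 2 * (u i * u j) ≤ a i + a j := by nlinarith [sq_nonneg (u i - u j), hi.2, hj.2]
  have h3 : 0 ≤ u i * u j := mul_nonneg hi.1 hj.1
  have h4 : 2 * (u i * u j) * (u i * u j) ≤ (a i + a j) * (u i * u j) :=
    mul_le_mul_of_nonneg_right h2 h3
  calc 2 * (u i ^ 2 * u j ^ 2 * Zf J L i j ^ 2) =
        2 * (u i * u j) * (u i * u j) * Zf J L i j ^ 2 := by ring
    _ ≤ _ := mul_le_mul_of_nonneg_right h4 (sq_nonneg _)

/-- `(1,1)` parts in coordinates; gives monotonicity in the weight -/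
theorem Frame.Bu_apply (h : Frame L0 J a lam) (hu : Wt J a u) (L : Mat n) (i j : Fin n) :
    Bu J u L i j = u i * ((1 / 2) * (L i j - (J * L * J) i j)) * u j := by
  have hc := W3.comm hu.1
  have hB : Bu J u L = Matrix.diagonal u * ((1 / 2 : ℝ) • (L - J * L * J)) *
      Matrix.diagonal u := by
    unfold Bu
    rw [W3.Mu_eq, Matrix.mul_smul, Matrix.smul_mul, Matrix.mul_sub, Matrix.sub_mul]
    congr 1
    congr 1
    calc J * (Matrix.diagonal u * L * Matrix.diagonal u) * J
        = (J * Matrix.diagonal u) * L * (Matrix.diagonal u * J) := by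
          simp only [Matrix.mul_assoc]
      _ = (Matrix.diagonal u * J) * L * (J * Matrix.diagonal u) := by rw [← hc]
      _ = _ := by simp only [Matrix.mul_assoc]
  rw [hB, Matrix.mul_diagonal, Matrix.diagonal_mul, Matrix.smul_apply, Matrix.sub_apply,
    smul_eq_mul]

private theorem W3.lam_L0 (h : Frame L0 J a lam) :
    √lam • L0 = Matrix.diagonal (cw a) * J * Matrix.diagonal (cw a) := by
  ext i j
  rw [Matrix.mul_diagonal, Matrix.diagonal_mul, Matrix.smul_apply, smul_eq_mul, h.hL0]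
  unfold cw
  by_cases hJ : J i j = 0
  · rw [hJ]; ring
  · rw [← h.comm i j hJ]
    have := Real.mul_self_sqrt (h.a_nonneg i)
    calc a i * J i j = (√(a i) * √(a i)) * J i j := by rw [this]
      _ = _ := by ring

private theorem W3.trL0 (h : Frame L0 J a lam) (L : Mat n) :
    lam * ∑ i, (L0 * L * (L0 * L)) i i =
      ∑ i, (J * Mu (cw a) L * J * Mu (cw a) L) i i := by
  have hl : √lam * √lam = lam := Real.mul_self_sqrt h.lam_pos.le
  have h0 := W3.lam_L0 h
  have h1 : lam • (L0 * L * (L0 * L)) = (√lam • L0) * L * ((√lam • L0) * L) := by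
    rw [Matrix.smul_mul, Matrix.mul_smul, Matrix.smul_mul, smul_smul, hl]
  have h2 : lam * ∑ i, (L0 * L * (L0 * L)) i i = Matrix.trace (lam • (L0 * L * (L0 * L))) := by
    rw [Matrix.trace_smul, smul_eq_mul]
    rfl
  have h3 : ∑ i, (J * Mu (cw a) L * J * Mu (cw a) L) i i =
      Matrix.trace (J * Mu (cw a) L * J * Mu (cw a) L) := rfl
  rw [h2, h3, h1, h0, W3.Mu_eq]
  set U := Matrix.diagonal (cw a) with hU
  calc Matrix.trace (U * J * U * L * (U * J * U * L))
      = Matrix.trace (U * (J * U * L * U * J * U * L)) := by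
        congr 1
        simp only [Matrix.mul_assoc]
    _ = Matrix.trace (J * U * L * U * J * U * L * U) := Matrix.trace_mul_comm _ _
    _ = _ := by
        congr 1
        simp only [Matrix.mul_assoc]

theorem Frame.hs_L0L (h : Frame L0 J a lam) {L : Mat n} (hL : Skew L) :
    lam * hs (L0 * L) ≤ lam * ip (br L0 L) (br L0 L) +
      2 * ip (Bu J (cw a) L) (Bu J (cw a) L) := by
  have hlam := h.lam_pos
  have hL0 : Skew L0 := by
    intro i j
    have hl : 0 < √lam := Real.sqrt_pos.mpr hlam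
    have h1 : √lam * L0 j i = √lam * (-L0 i j) := by
      have h2 := W3.left (J := J) (u := a) h.comm i j
      calc √lam * L0 j i = a j * J j i := h.hL0 j i
        _ = -(J i j * a j) := by rw [h.skewJ i j]; ring
        _ = -(a i * J i j) := by rw [h2]
        _ = √lam * (-L0 i j) := by rw [← h.hL0]; ring
    exact mul_left_cancel₀ hl.ne' h1
  have hA : ∀ i j, (L * L0) i j = (L0 * L) j i := W3.swap hL0 hL
  have hid : ip (br L0 L) (br L0 L) = hs (L0 * L) - ∑ i, (L0 * L * (L0 * L)) i i := by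
    have e1 : ip (br L0 L) (br L0 L) = (1 / 2) * ∑ i, ∑ j,
        ((L0 * L) i j - (L0 * L) j i) * ((L0 * L) i j - (L0 * L) j i) := by
      unfold ip br
      congr 1
      refine Finset.sum_congr rfl fun i _ => Finset.sum_congr rfl fun j _ => ?_
      rw [Matrix.sub_apply, hA]
    have e2 : ∑ i, (L0 * L * (L0 * L)) i i = ∑ i, ∑ j, (L0 * L) i j * (L0 * L) j i :=
      Finset.sum_congr rfl fun i _ => Matrix.mul_apply
    have e3 : ∑ i, ∑ j, (L0 * L) j i ^ 2 = ∑ i, ∑ j, (L0 * L) i j ^ 2 := Finset.sum_comm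
    have e4 : ∑ i, ∑ j, ((L0 * L) i j - (L0 * L) j i) * ((L0 * L) i j - (L0 * L) j i) =
        ∑ i, ∑ j, (L0 * L) i j ^ 2 + ∑ i, ∑ j, (L0 * L) j i ^ 2 -
          2 * ∑ i, ∑ j, (L0 * L) i j * (L0 * L) j i := by
      rw [Finset.mul_sum, ← Finset.sum_add_distrib, ← Finset.sum_sub_distrib]
      refine Finset.sum_congr rfl fun i _ => ?_
      rw [Finset.mul_sum, ← Finset.sum_add_distrib, ← Finset.sum_sub_distrib]
      exact Finset.sum_congr rfl fun j _ => by ring
    rw [e1, e4, e3, e2]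
    unfold hs
    ring
  have htr := W3.trL0 h L
  have hB := h.trJMJM (h.wt_cw) hL
  have hY := ip_self_nonneg (Yu J (cw a) L)
  rw [hid]
  have h5 : lam * ∑ i, (L0 * L * (L0 * L)) i i ≤ 2 * ip (Bu J (cw a) L) (Bu J (cw a) L) := by
    rw [htr, hB]
    linarith
  linarith

theorem Frame.hs_cSL (h : Frame L0 J a lam) {ω : ℝ} (hω : 0 < ω) {L : Mat n} (hL : Skew L) :
    ω * hs (Matrix.diagonal (cS a ω) * L) ≤ lam * ip (br L0 L) (br L0 L) +
      2 * ip (Bu J (cw a) L) (Bu J (cw a) L) := by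
  refine le_trans ?_ (h.hs_L0L hL)
  have hlam := h.lam_pos
  have e1 : lam * hs (L0 * L) = ∑ i, ∑ j, a i ^ 2 * L i j ^ 2 := by
    have hl : √lam * √lam = lam := Real.mul_self_sqrt hlam.le
    have hk : ∀ j, ∑ i, (fun i => a i ^ 2) i * (J * L) i j ^ 2 =
        ∑ i, (fun i => a i ^ 2) i * L i j ^ 2 := by
      intro j
      refine W3.key h (fun i => a i ^ 2) ?_ ?_ L j
      · intro i j hij
        show a i ^ 2 = a j ^ 2
        rw [h.comm i j hij]
      · intro i hi
        simp [hi]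
    unfold hs
    rw [Finset.mul_sum]
    calc ∑ i, lam * ∑ j, (L0 * L) i j ^ 2 = ∑ i, ∑ j, a i ^ 2 * (J * L) i j ^ 2 := by
          refine Finset.sum_congr rfl fun i _ => ?_
          rw [Finset.mul_sum]
          refine Finset.sum_congr rfl fun j _ => ?_
          calc lam * (L0 * L) i j ^ 2 = (√lam * (L0 * L) i j) ^ 2 := by
                rw [mul_pow, pow_two (√lam), hl]
            _ = _ := by rw [W3.L0L h]; ring
      _ = ∑ j, ∑ i, a i ^ 2 * (J * L) i j ^ 2 := Finset.sum_comm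
      _ = ∑ j, ∑ i, a i ^ 2 * L i j ^ 2 := Finset.sum_congr rfl fun j _ => hk j
      _ = _ := Finset.sum_comm
  rw [e1]
  unfold hs
  rw [Finset.mul_sum]
  refine Finset.sum_le_sum fun i _ => ?_
  rw [Finset.mul_sum]
  refine Finset.sum_le_sum fun j _ => ?_
  rw [Matrix.diagonal_mul, mul_pow, ← mul_assoc]
  refine mul_le_mul_of_nonneg_right ?_ (sq_nonneg _)
  unfold cS
  split_ifs with hi
  · rw [Real.sq_sqrt (h.a_nonneg i)]
    nlinarith [h.a_nonneg i]
  · have := sq_nonneg (a i)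
    nlinarith

end HopfBig
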