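import Pool.Agent.Lib.MP_4a593f_gt.Big.W2
import Pool.Agent.Lib.MP_4a593f_gt.Big.W3
import Pool.Agent.Lib.MP_4a593f_gt.Big.B2
import Pool.Agent.Lib.MP_4a593f_gt.Big.S4

/-! The situation of the dual argument (definitions, no task).

`P`, `N` are two finite families of 2-forms which are balanced (`∑ f(P_i) = ∑ f(N_j)` for all
4-forms `f`), `∑ |N_j|² = 1`, and (for contradiction)
`∑ D(P_i) - ∑ D(N_j) < -(1/2+ε) p`. -/

open scoped BigOperators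

namespace HopfBig

/-- the situation -/
structure Sit {n : ℕ} {p : ℝ} {H : Type} [NormedAddCommGroup H] [InnerProductSpace ℝ H]
    (X : FormData n p H) {m : ℕ} (E : Fin m → Mat n) (d : Fin m → ℝ) (i0 : Fin m) (J : Mat n)
    (a : Fin n → ℝ) {ι κ : Type} [Fintype ι] [Fintype κ] (P : ι → Mat n) (N : κ → Mat n)
    (ε : ℝ) : Prop where
  eig : Eig X E d
  frame : Frame (E i0) J a (d i0)
  hp : 1000 / ε ^ 2 ≤ p
  eps_pos : 0 < ε
  eps_le : ε ≤ 1 / 10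
  max : ∀ i, d i ≤ d i0
  lam_gt : (1 / 2 + ε) * p < d i0
  lam2 : ∀ i, i ≠ i0 → d i0 + d i ≤ (1 + ε / 2) * p
  skP : ∀ i, Skew (P i)
  skN : ∀ j, Skew (N j)
  bal : ∀ f : Mat n → ℝ, Four f → ∑ i, f (P i) = ∑ j, f (N j)
  trN : ∑ j, ip (N j) (N j) = 1
  contra : ∑ i, X.D (P i) (P i) - ∑ j, X.D (N j) (N j) < -((1 / 2 + ε) * p)

section defs

variable {n : ℕ} {ι : Type} [Fintype ι]

/-- mass of a family on `L0` -/
noncomputable def mass0 (L0 : Mat n) (P : ι → Mat n) : ℝ := ∑ i, ip L0 (P i) ^ 2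

/-- `∑ |Yu P_i|²` -/
noncomputable def yA (J : Mat n) (u : Fin n → ℝ) (P : ι → Mat n) : ℝ :=
  ∑ i, ip (Yu J u (P i)) (Yu J u (P i))

/-- `∑ |Bu P_i|²` -/
noncomputable def yB (J : Mat n) (u : Fin n → ℝ) (P : ι → Mat n) : ℝ :=
  ∑ i, ip (Bu J u (P i)) (Bu J u (P i))

/-- `∑ |[L0, P_i]|²` -/
noncomputable def vV (L0 : Mat n) (P : ι → Mat n) : ℝ :=
  ∑ i, ip (br L0 (P i)) (br L0 (P i))

/-- `∑ (Z_ij)²` -/
noncomputable def ZZ (J : Mat n) (P : ι → Mat n) (i j : Fin n) : ℝ :=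
  ∑ α, Zf J (P α) i j ^ 2

/-- the mass of the blocks crossing the level `ω` -/
noncomputable def cross (a : Fin n → ℝ) (Z : Fin n → Fin n → ℝ) (ω : ℝ) : ℝ :=
  (1 / 2) * ∑ i, ∑ j, if (ω ≤ a i ∧ a j < ω) ∨ (a i < ω ∧ ω ≤ a j) then
    a i * a j * Z i j else 0

variable {p : ℝ} {H : Type} [NormedAddCommGroup H] [InnerProductSpace ℝ H]

/-- `∑ D(P_i^⊥, P_i^⊥)` -/
noncomputable def dPerp (X : FormData n p H) (L0 : Mat n) (P : ι → Mat n) : ℝ :=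
  ∑ i, X.D (perp L0 (P i)) (perp L0 (P i))

/-- `∑ D(Yu P_i, Yu P_i)` -/
noncomputable def dY (X : FormData n p H) (J : Mat n) (u : Fin n → ℝ) (P : ι → Mat n) : ℝ :=
  ∑ i, X.D (Yu J u (P i)) (Yu J u (P i))

/-- `∑ D([L0,P_i], Yu P_i)`: the error term -/
noncomputable def err (X : FormData n p H) (L0 J : Mat n) (u : Fin n → ℝ) (P : ι → Mat n) : ℝ :=
  ∑ i, X.D (br L0 (P i)) (Yu J u (P i))

end defs

end HopfBig
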