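import Pool.Agent.Lib.MP_4a593f_gt.Big.T0

/-! Task T1: first consequences.  Write `λ = d i0`, `ν = mass0 N`, `π0 = mass0 P`, `w = ν - π0`.

* `∑ D(N_j) ≤ λ ∑|N_j|² = λ ≤ p` so `∑ D(P_i) < λ - (1/2+ε) p ≤ p/2`; with `D_split`,
  `λ π0 + dPerp = ∑ D(P_i)`, both terms are `≥ 0`.
* `d i ≤ p/2` and `d i0 - d i ≥ ε p` for `i ≠ i0` (from `lam_gt`, `lam2`).
* `∑ D(N_j) ≤ λ ν + λ₂ (1-ν)` with `λ₂ = (1+ε/2)p - λ`
  (`D_split`, `ip_perp_self`, `D_le_of`), so
  `dPerp < λ w + ((1+ε/2) p - λ)(1-ν) - (1/2+ε) p`.  As `(1+ε/2)p - λ ≤ p/2 - ...` this forces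
  `w > 0`; and `1 - ν ≤ 1 - w`, so `dPerp < λ w + (p-λ)(1-w) + (ε/2)p - (1/2+ε)p`.
* `vV ≤ (4/ε²) dPerp ≤ 2p/ε²` (`V_bound`), `∑ D(V_i) ≤ (p/2) vV ≤ p²/ε²`. -/

open scoped BigOperators

namespace HopfBig

variable {n : ℕ} {p : ℝ} {H : Type} [NormedAddCommGroup H] [InnerProductSpace ℝ H]
  {X : FormData n p H} {m : ℕ} {E : Fin m → Mat n} {d : Fin m → ℝ} {i0 : Fin m} {J : Mat n}
  {a : Fin n → ℝ} {ι κ : Type} [Fintype ι] [Fintype κ] {P : ι → Mat n} {N : κ → Mat n} {ε : ℝ}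

theorem Sit.p_big (S : Sit X E d i0 J a P N ε) : 100000 ≤ p := by
  have h1 := S.eps_pos
  have h2 := S.eps_le
  have h3 := S.hp
  have h4 : ε ^ 2 ≤ 1 / 100 := by nlinarith
  have h5 : 100000 ≤ 1000 / ε ^ 2 := by
    rw [le_div_iff₀ (by positivity)]
    linarith
  linarith

theorem Sit.lam_le (S : Sit X E d i0 J a P N ε) : d i0 ≤ p := S.eig.d_le i0

theorem Sit.lam_half (S : Sit X E d i0 J a P N ε) : p / 2 ≤ d i0 := by
  have h1 := S.lam_gt
  have h2 := S.p_big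
  have h3 := S.eps_pos
  have h4 : 0 ≤ ε * p := mul_nonneg h3.le (by linarith)
  linarith

theorem Sit.d_half (S : Sit X E d i0 J a P N ε) {i : Fin m} (hi : i ≠ i0) : d i ≤ p / 2 := by
  have h1 := S.lam_gt
  have h2 := S.p_big
  have h3 := S.eps_pos
  have h4 : 0 ≤ ε * p := mul_nonneg h3.le (by linarith)
  have h5 := S.lam2 i hi
  linarith

theorem Sit.gap (S : Sit X E d i0 J a P N ε) {i : Fin m} (hi : i ≠ i0) :
    ε * p ≤ d i0 - d i := by
  have h1 := S.lam_gt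
  have h2 := S.p_big
  have h3 := S.eps_pos
  have h4 : 0 ≤ ε * p := mul_nonneg h3.le (by linarith)
  have h5 := S.lam2 i hi
  linarith

private theorem D_self_nonneg (X : FormData n p H) (L : Mat n) : 0 ≤ X.D L L := by
  unfold FormData.D
  exact real_inner_self_nonneg

private theorem mass0_nonneg {ι' : Type} [Fintype ι'] (L0 : Mat n) (Q : ι' → Mat n) :
    0 ≤ mass0 L0 Q := by
  unfold mass0
  exact Finset.sum_nonneg (fun i _ => sq_nonneg _)

theorem Sit.dPerp_nonneg (S : Sit X E d i0 J a P N ε) : 0 ≤ dPerp X (E i0) P := by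
  unfold dPerp
  exact Finset.sum_nonneg (fun i _ => D_self_nonneg X _)

private theorem split_sum (h : Eig X E d) {ι' : Type} [Fintype ι'] {Q : ι' → Mat n}
    (hQ : ∀ i, Skew (Q i)) :
    ∑ i, X.D (Q i) (Q i) = d i0 * mass0 (E i0) Q + dPerp X (E i0) Q := by
  unfold mass0 dPerp
  rw [Finset.mul_sum, ← Finset.sum_add_distrib]
  exact Finset.sum_congr rfl (fun i _ => h.D_split i0 (hQ i))

theorem Sit.dP_le (S : Sit X E d i0 J a P N ε) :
    d i0 * mass0 (E i0) P + dPerp X (E i0) P ≤ p / 2 := by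
  have h1 := split_sum (i0 := i0) S.eig S.skP
  have h2 : ∑ j, X.D (N j) (N j) ≤ d i0 := by
    calc ∑ j, X.D (N j) (N j) ≤ ∑ j, d i0 * ip (N j) (N j) :=
          Finset.sum_le_sum (fun j _ => S.eig.D_le_of (S.skN j) (fun i _ => S.max i))
      _ = d i0 * 1 := by rw [← Finset.mul_sum, S.trN]
      _ = d i0 := mul_one _
  have h3 := S.contra
  have h4 := S.lam_le
  have h5 : 0 ≤ ε * p := mul_nonneg S.eps_pos.le (by linarith [S.p_big])
  linarith

theorem Sit.dPerp_le (S : Sit X E d i0 J a P N ε) : dPerp X (E i0) P ≤ p / 2 := by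
  have h1 := S.dP_le
  have h2 : 0 ≤ d i0 * mass0 (E i0) P :=
    mul_nonneg (by linarith [S.lam_half, S.p_big]) (mass0_nonneg _ _)
  linarith

private theorem Sit.nu_le (S : Sit X E d i0 J a P N ε) : mass0 (E i0) N ≤ 1 := by
  rw [← S.trN]
  unfold mass0
  apply Finset.sum_le_sum
  intro j _
  have h1 := S.eig.ip_perp_self i0 (S.skN j)
  have h2 := ip_self_nonneg (HopfBig.perp (E i0) (N j))
  linarith

private theorem Sit.main (S : Sit X E d i0 J a P N ε) :
    dPerp X (E i0) P < d i0 * (mass0 (E i0) N - mass0 (E i0) P) +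
      ((1 + ε / 2) * p - d i0) * (1 - mass0 (E i0) N) - (1 / 2 + ε) * p := by
  have h1 := split_sum (i0 := i0) S.eig S.skP
  have h2 := split_sum (i0 := i0) S.eig S.skN
  have h3 : dPerp X (E i0) N ≤ ((1 + ε / 2) * p - d i0) * (1 - mass0 (E i0) N) := by
    have e : (1 - mass0 (E i0) N) =
        ∑ j, ip (HopfBig.perp (E i0) (N j)) (HopfBig.perp (E i0) (N j)) := by
      rw [← S.trN]
      unfold mass0
      rw [← Finset.sum_sub_distrib]
      exact Finset.sum_congr rfl (fun j _ => (S.eig.ip_perp_self i0 (S.skN j)).symm)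
    rw [e, Finset.mul_sum]
    unfold dPerp
    apply Finset.sum_le_sum
    intro j _
    apply S.eig.D_le_of (Skew.perp (S.eig.skew i0) (S.skN j))
    intro i hi
    have hne : i ≠ i0 := by
      rintro rfl
      exact hi (S.eig.perp_ip i (S.skN j))
    have := S.lam2 i hne
    linarith
  have h4 := S.contra
  rw [h1, h2] at h4
  linarith

theorem Sit.w_pos (S : Sit X E d i0 J a P N ε) : 0 < mass0 (E i0) N - mass0 (E i0) P := by
  by_contra hw
  have hw' : mass0 (E i0) N - mass0 (E i0) P ≤ 0 := not_lt.1 hw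
  have h1 := S.main
  have h2 := S.dPerp_nonneg
  have h3 : d i0 * (mass0 (E i0) N - mass0 (E i0) P) ≤ 0 :=
    mul_nonpos_of_nonneg_of_nonpos (by linarith [S.lam_half, S.p_big]) hw'
  have h5 : 0 ≤ ε * p := mul_nonneg S.eps_pos.le (by linarith [S.p_big])
  have h4 : ((1 + ε / 2) * p - d i0) * (1 - mass0 (E i0) N) ≤ ((1 + ε / 2) * p - d i0) * 1 := by
    apply mul_le_mul_of_nonneg_left
    · linarith [mass0_nonneg (E i0) N]
    · linarith [S.lam_le]
  have h6 := S.lam_gt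
  linarith [S.p_big]

theorem Sit.w_le (S : Sit X E d i0 J a P N ε) : mass0 (E i0) N - mass0 (E i0) P ≤ 1 := by
  linarith [S.nu_le, mass0_nonneg (E i0) P]

theorem Sit.dPerp_lt (S : Sit X E d i0 J a P N ε) {w : ℝ}
    (hw : w = mass0 (E i0) N - mass0 (E i0) P) :
    dPerp X (E i0) P < d i0 * w + (p - d i0) * (1 - w) - p / 2 - ε / 2 * p := by
  have h1 := S.main
  rw [← hw] at h1
  have h2 : (p - d i0) * (1 - mass0 (E i0) N) ≤ (p - d i0) * (1 - w) := by
    apply mul_le_mul_of_nonneg_left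
    · rw [hw]
      linarith [mass0_nonneg (E i0) P]
    · linarith [S.lam_le]
  have h3 : ε / 2 * p * (1 - mass0 (E i0) N) ≤ ε / 2 * p * 1 := by
    apply mul_le_mul_of_nonneg_left
    · linarith [mass0_nonneg (E i0) N]
    · have := S.eps_pos
      have := S.p_big
      positivity
  have h4 : ((1 + ε / 2) * p - d i0) * (1 - mass0 (E i0) N) =
      (p - d i0) * (1 - mass0 (E i0) N) + ε / 2 * p * (1 - mass0 (E i0) N) := by ring
  rw [h4] at h1
  linarith

theorem Sit.vV_le (S : Sit X E d i0 J a P N ε) : ε ^ 2 * vV (E i0) P ≤ 2 * p := by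
  have h1 : ε ^ 2 * vV (E i0) P ≤ 4 * dPerp X (E i0) P := by
    unfold vV dPerp
    rw [Finset.mul_sum, Finset.mul_sum]
    apply Finset.sum_le_sum
    intro i _
    exact V_bound S.eig i0 (by linarith [S.p_big]) S.eps_pos (fun i hi => S.d_half hi)
      (fun i hi => S.gap hi) S.lam_half (S.skP i)
  linarith [S.dPerp_le]

theorem Sit.dV_le (S : Sit X E d i0 J a P N ε) :
    ε ^ 2 * ∑ i, X.D (br (E i0) (P i)) (br (E i0) (P i)) ≤ p ^ 2 := by
  have h1 : ∑ i, X.D (br (E i0) (P i)) (br (E i0) (P i)) ≤ p / 2 * vV (E i0) P := by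
    unfold vV
    rw [Finset.mul_sum]
    apply Finset.sum_le_sum
    intro i _
    apply S.eig.D_le_of (Skew.br (S.eig.skew i0) (S.skP i))
    intro k hk
    apply S.d_half
    rintro rfl
    exact hk (S.eig.ip_E0_br k (S.skP i))
  have h2 := S.vV_le
  have hp : 0 ≤ p / 2 := by linarith [S.p_big]
  calc ε ^ 2 * ∑ i, X.D (br (E i0) (P i)) (br (E i0) (P i))
      ≤ ε ^ 2 * (p / 2 * vV (E i0) P) := mul_le_mul_of_nonneg_left h1 (sq_nonneg _)
    _ = p / 2 * (ε ^ 2 * vV (E i0) P) := by ring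
    _ ≤ p / 2 * (2 * p) := mul_le_mul_of_nonneg_left h2 hp
    _ = p ^ 2 := by ring

end HopfBig
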