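import Pool.Agent.Lib.MP_4a593f_gt.Big.T1

/-! Task T2: the balanced families tested against 4-forms.

(T2) `bal` with `Fav X J u`: `∑ Fav(P_i) = ∑ Fav(N_j) ≤ λ` (`Fav_le`, `trN`) and `Fav_ge`.
(T1) `bal` with `four_wedge L0 L0` (`wedge_u` with `u = cw a`, `Lu_cw`):
`π0 + (yA P - yB P)/λ = ν + (yA N - yB N)/λ`, and `yA N + yB N = ∑ |M(N_j)|² ≤ ∑ |N_j|² = 1`
(`pyth`, and `|Mu u L|² ≤ |L|²` as `0 ≤ u ≤ 1`).
(T1') the difference of `four_wedge` for `L_c` and `L_F` (`u = cF a ω`):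
`π0 - ∑⟨L_F,P_i⟩² + (1/λ)[(yA_c - yA_F) - (yB_c - yB_F)](P) = ν - ∑⟨L_F,N_j⟩² + (1/λ)[...](N)`.
`yA_c - yA_F = yA_S + cross` (coordinates: `ip_Yu`; `u_i²u_j²` is `a_i a_j` on all pairs, resp.
on the pairs with both `a < ω`, both `≥ ω`), `yB_c - yB_F ≥ yB_S` (`Bu_apply`), the right side is
`≥ ν - |L_F|² - 1/λ` (`|⟨L_F,N⟩|² ≤ |L_F|²|N|²`, `yA_F ≤ yA_c`, `yB_c - yB_F ≤ yB_c ≤ 1`), and
`λ |L_F|² ≤ ω p`: `λ|L_F|² = λ⟨L0,L_F⟩ = D(L0,L_F) ≤ √λ ‖ρ_{L_F}ψ‖ ≤ √λ p ω/√λ`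
(`X.bdop`, `‖L_F‖_op ≤ ω/√λ`). -/

open scoped BigOperators

namespace HopfBig

variable {n : ℕ} {p : ℝ} {H : Type} [NormedAddCommGroup H] [InnerProductSpace ℝ H]
  {X : FormData n p H} {m : ℕ} {E : Fin m → Mat n} {d : Fin m → ℝ} {i0 : Fin m} {J : Mat n}
  {a : Fin n → ℝ} {ι κ : Type} [Fintype ι] [Fintype κ] {P : ι → Mat n} {N : κ → Mat n} {ε : ℝ}

theorem Sit.dY_le (S : Sit X E d i0 J a P N ε) {u : Fin n → ℝ} (hu : Wt J a u) :
    dY X J u P ≤ d i0 + yA J u P + yB J u P := by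
  have hb := S.bal _ (four_Fav X J u)
  have h1 : ∑ j, Fav X J u (N j) ≤ d i0 := by
    calc ∑ j, Fav X J u (N j) ≤ ∑ j, d i0 * ip (N j) (N j) :=
          Finset.sum_le_sum fun j _ => S.frame.Fav_le X hu (S.skN j)
      _ = d i0 := by rw [← Finset.mul_sum, S.trN, mul_one]
  have h2 : dY X J u P - yA J u P - yB J u P ≤ ∑ i, Fav X J u (P i) := by
    unfold dY yA yB
    rw [← Finset.sum_sub_distrib, ← Finset.sum_sub_distrib]
    exact Finset.sum_le_sum fun i _ => S.frame.Fav_ge X hu (S.skP i)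
  linarith

/-- `|Mu u L|² ≤ |L|²` for weights `0 ≤ u ≤ 1` -/
theorem T2.ip_Mu_le {u : Fin n → ℝ} (h0 : ∀ i, 0 ≤ u i) (h1 : ∀ i, u i ≤ 1) (L : Mat n) :
    ip (Mu u L) (Mu u L) ≤ ip L L := by
  unfold ip
  refine mul_le_mul_of_nonneg_left ?_ (by norm_num)
  refine Finset.sum_le_sum fun i _ => Finset.sum_le_sum fun j _ => ?_
  have e : Mu u L i j * Mu u L i j = (u i * u j) ^ 2 * (L i j * L i j) := by
    simp only [Mu, Matrix.of_apply]; ring
  rw [e]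
  have h3 : (u i * u j) ^ 2 ≤ 1 := by
    have : u i * u j ≤ 1 := mul_le_one₀ (h1 i) (h0 j) (h1 j)
    have h4 : 0 ≤ u i * u j := mul_nonneg (h0 i) (h0 j)
    nlinarith
  nlinarith [mul_self_nonneg (L i j)]

theorem T2.wt_le_one (S : Sit X E d i0 J a P N ε) {u : Fin n → ℝ} (hu : Wt J a u) (i : Fin n) :
    u i ≤ 1 := by
  have h1 := hu.2 i
  have h2 := S.frame.a_le i
  nlinarith [h1.1, h1.2]

theorem T2.yAB_N_le (S : Sit X E d i0 J a P N ε) {u : Fin n → ℝ} (hu : Wt J a u) :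
    yA J u N + yB J u N ≤ 1 := by
  unfold yA yB
  rw [← Finset.sum_add_distrib, ← S.trN]
  refine Finset.sum_le_sum fun j _ => ?_
  rw [S.frame.pyth hu (S.skN j)]
  exact T2.ip_Mu_le (fun i => (hu.2 i).1) (T2.wt_le_one S hu) _

theorem T2.yA_nonneg' (u : Fin n → ℝ) (P : ι → Mat n) : 0 ≤ yA J u P :=
  Finset.sum_nonneg fun _ _ => ip_self_nonneg _

theorem T2.yB_nonneg' (u : Fin n → ℝ) (P : ι → Mat n) : 0 ≤ yB J u P :=
  Finset.sum_nonneg fun _ _ => ip_self_nonneg _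

/-- sum of the wedge 4-form over a family -/
theorem T2.sum_wedge {L0 : Mat n} {lam : ℝ} (h : Frame L0 J a lam) {u : Fin n → ℝ}
    (hu : Wt J a u) {P : ι → Mat n} (hP : ∀ i, Skew (P i)) :
    lam * ∑ i, (ip (Lu J lam u) (P i) * ip (Lu J lam u) (P i) -
        (1 / 2) * ∑ k, (Lu J lam u * (P i) * Lu J lam u * (P i)) k k) =
      lam * mass0 (Lu J lam u) P + yA J u P - yB J u P := by
  have hl := h.lam_pos
  unfold mass0 yA yB
  rw [Finset.mul_sum, Finset.mul_sum, ← Finset.sum_add_distrib, ← Finset.sum_sub_distrib]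
  refine Finset.sum_congr rfl fun i _ => ?_
  rw [h.wedge_u hu (hP i)]
  field_simp
  ring

theorem T2.mass_bal (S : Sit X E d i0 J a P N ε) {u : Fin n → ℝ} (hu : Wt J a u) :
    d i0 * mass0 (Lu J (d i0) u) P + yA J u P - yB J u P =
      d i0 * mass0 (Lu J (d i0) u) N + yA J u N - yB J u N := by
  rw [← T2.sum_wedge S.frame hu S.skP, ← T2.sum_wedge S.frame hu S.skN]
  congr 1
  exact S.bal _ (four_wedge (S.frame.skew_Lu hu) (S.frame.skew_Lu hu))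

theorem Sit.test1 (S : Sit X E d i0 J a P N ε) :
    yB J (cw a) P ≤ yA J (cw a) P - d i0 * (mass0 (E i0) N - mass0 (E i0) P) + 1 := by
  have h := T2.mass_bal S S.frame.wt_cw
  rw [S.frame.Lu_cw] at h
  have h1 := T2.yAB_N_le S S.frame.wt_cw
  have h2 := T2.yA_nonneg' (J := J) (cw a) N
  have h3 := T2.yB_nonneg' (J := J) (cw a) N
  nlinarith

theorem T2.cF_sq (ha : ∀ i, 0 ≤ a i) (ω : ℝ) (i : Fin n) :
    cF a ω i ^ 2 = if ω ≤ a i then 0 else a i := by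
  unfold cF
  split_ifs
  · norm_num
  · exact Real.sq_sqrt (ha i)

theorem T2.cS_sq (ha : ∀ i, 0 ≤ a i) (ω : ℝ) (i : Fin n) :
    cS a ω i ^ 2 = if ω ≤ a i then a i else 0 := by
  unfold cS
  split_ifs
  · exact Real.sq_sqrt (ha i)
  · norm_num

theorem T2.cw_sq (ha : ∀ i, 0 ≤ a i) (i : Fin n) : cw a i ^ 2 = a i :=
  Real.sq_sqrt (ha i)

theorem Sit.LF_le (S : Sit X E d i0 J a P N ε) {ω : ℝ} (hω : 0 < ω) :
    d i0 * ip (Lu J (d i0) (cF a ω)) (Lu J (d i0) (cF a ω)) ≤ ω * p := by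
  have hl : 0 < d i0 := S.frame.lam_pos
  have hsl : 0 < √(d i0) := Real.sqrt_pos.2 hl
  have ha := S.frame.a_nonneg
  set LF := Lu J (d i0) (cF a ω) with hLF
  have hskew : Skew LF := S.frame.skew_Lu (S.frame.wt_cF ω)
  -- `⟨L0, LF⟩ = ⟨LF, LF⟩`
  have hL0 : E i0 = Lu J (d i0) (cw a) := S.frame.Lu_cw.symm
  have e1 : ip (E i0) LF = ip LF LF := by
    rw [hL0, hLF]
    unfold ip
    congr 1
    refine Finset.sum_congr rfl fun i _ => Finset.sum_congr rfl fun j _ => ?_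
    simp only [Lu, Matrix.of_apply, T2.cF_sq ha, T2.cw_sq ha]
    split_ifs <;> ring
  -- operator norm
  have hop : OpLe LF (ω / √(d i0)) := by
    have e : LF = Matrix.diagonal (fun i => cF a ω i ^ 2 / √(d i0)) * J := by
      ext i j
      rw [Matrix.diagonal_mul, hLF]
      simp only [Lu, Matrix.of_apply]
      ring
    rw [e]
    have h1 : OpLe (Matrix.diagonal (fun i => cF a ω i ^ 2 / √(d i0))) (ω / √(d i0)) := by
      refine OpLe.diag (by positivity) fun i => ?_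
      rw [abs_of_nonneg (by positivity), T2.cF_sq ha]
      refine div_le_div_of_nonneg_right ?_ hsl.le
      split_ifs with hc
      · exact hω.le
      · exact (not_le.1 hc).le
    have h2 := h1.mul S.frame.opLe_J
    rwa [mul_one] at h2
  have h1 : X.D (E i0) LF = d i0 * ip (E i0) LF := S.eig.eig i0 LF hskew
  have h2 : ‖X.ρ LF X.ψ‖ ≤ p * (ω / √(d i0)) * ‖X.ψ‖ := X.bdop LF _ hskew hop _
  rw [X.norm_ψ, mul_one] at h2
  have h3 : ‖X.ρ (E i0) X.ψ‖ ^ 2 = d i0 := by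
    have h4 : X.D (E i0) (E i0) = d i0 * ip (E i0) (E i0) := S.eig.eig i0 _ (S.eig.skew i0)
    rw [S.eig.orth i0 i0, if_pos rfl, mul_one] at h4
    rw [← h4]
    unfold FormData.D
    rw [real_inner_self_eq_norm_sq]
  have h3' : ‖X.ρ (E i0) X.ψ‖ = √(d i0) := by
    rw [← h3, Real.sqrt_sq (norm_nonneg _)]
  have h5 : X.D (E i0) LF ≤ ‖X.ρ (E i0) X.ψ‖ * ‖X.ρ LF X.ψ‖ := real_inner_le_norm _ _
  rw [h3'] at h5
  have h6 : √(d i0) * ‖X.ρ LF X.ψ‖ ≤ √(d i0) * (p * (ω / √(d i0))) :=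
    mul_le_mul_of_nonneg_left h2 hsl.le
  have h7 : √(d i0) * (p * (ω / √(d i0))) = ω * p := by field_simp
  rw [← e1, ← h1]
  linarith

/-- coordinates of the `(1,1)` part, summed over a family -/
noncomputable def T2.BB (J : Mat n) (P : ι → Mat n) (i j : Fin n) : ℝ :=
  ∑ α, ((1 / 2) * ((P α) i j - (J * P α * J) i j)) ^ 2

theorem T2.BB_nonneg (P : ι → Mat n) (i j : Fin n) : 0 ≤ T2.BB J P i j :=
  Finset.sum_nonneg fun _ _ => sq_nonneg _

theorem T2.ZZ_nonneg' (P : ι → Mat n) (i j : Fin n) : 0 ≤ ZZ J P i j :=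
  Finset.sum_nonneg fun _ _ => sq_nonneg _

theorem T2.yA_co {L0 : Mat n} {lam : ℝ} (h : Frame L0 J a lam) {u : Fin n → ℝ}
    (hu : Wt J a u) (P : ι → Mat n) :
    yA J u P = (1 / 2) * ∑ i, ∑ j, u i ^ 2 * u j ^ 2 * ZZ J P i j := by
  unfold yA ZZ
  rw [Finset.sum_congr rfl fun α _ => h.ip_Yu hu (P α), ← Finset.mul_sum]
  congr 1
  rw [Finset.sum_comm]
  refine Finset.sum_congr rfl fun i _ => ?_
  rw [Finset.sum_comm]
  refine Finset.sum_congr rfl fun j _ => ?_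
  rw [Finset.mul_sum]

theorem T2.yB_co {L0 : Mat n} {lam : ℝ} (h : Frame L0 J a lam) {u : Fin n → ℝ}
    (hu : Wt J a u) (P : ι → Mat n) :
    yB J u P = (1 / 2) * ∑ i, ∑ j, u i ^ 2 * u j ^ 2 * T2.BB J P i j := by
  unfold yB T2.BB ip
  rw [← Finset.mul_sum]
  congr 1
  rw [Finset.sum_comm]
  refine Finset.sum_congr rfl fun i _ => ?_
  rw [Finset.sum_comm]
  refine Finset.sum_congr rfl fun j _ => ?_
  rw [Finset.mul_sum]
  refine Finset.sum_congr rfl fun α _ => ?_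
  rw [h.Bu_apply hu]
  ring

/-- the weights `c`, `c_S`, `c_F` in coordinates -/
theorem T2.split_co (ha : ∀ i, 0 ≤ a i) (ω : ℝ) (Z : Fin n → Fin n → ℝ) :
    (1 / 2) * (∑ i, ∑ j, cw a i ^ 2 * cw a j ^ 2 * Z i j) =
      (1 / 2) * (∑ i, ∑ j, cF a ω i ^ 2 * cF a ω j ^ 2 * Z i j) +
      (1 / 2) * (∑ i, ∑ j, cS a ω i ^ 2 * cS a ω j ^ 2 * Z i j) + cross a Z ω := by
  unfold cross
  rw [← mul_add, ← mul_add, ← Finset.sum_add_distrib, ← Finset.sum_add_distrib]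
  congr 1
  refine Finset.sum_congr rfl fun i _ => ?_
  rw [← Finset.sum_add_distrib, ← Finset.sum_add_distrib]
  refine Finset.sum_congr rfl fun j _ => ?_
  simp only [T2.cF_sq ha, T2.cS_sq ha, T2.cw_sq ha]
  by_cases hi : ω ≤ a i <;> by_cases hj : ω ≤ a j
  · simp [hi, hj, not_lt.2 hi, not_lt.2 hj]
  · simp [hi, hj, not_le.1 hj]
  · simp [hi, hj, not_le.1 hi]
  · simp [hi, hj]

theorem T2.cross_nonneg' (ha : ∀ i, 0 ≤ a i) (ω : ℝ) {Z : Fin n → Fin n → ℝ}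
    (hZ : ∀ i j, 0 ≤ Z i j) : 0 ≤ cross a Z ω := by
  unfold cross
  refine mul_nonneg (by norm_num) (Finset.sum_nonneg fun i _ => Finset.sum_nonneg fun j _ => ?_)
  split_ifs
  · exact mul_nonneg (mul_nonneg (ha i) (ha j)) (hZ i j)
  · exact le_refl _

theorem T2.yA_split {L0 : Mat n} {lam : ℝ} (h : Frame L0 J a lam) (ω : ℝ) (P : ι → Mat n) :
    yA J (cw a) P = yA J (cF a ω) P + yA J (cS a ω) P + cross a (ZZ J P) ω := by
  rw [T2.yA_co h h.wt_cw, T2.yA_co h (h.wt_cF ω), T2.yA_co h (h.wt_cS ω)]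
  exact T2.split_co h.a_nonneg ω _

theorem T2.yB_split {L0 : Mat n} {lam : ℝ} (h : Frame L0 J a lam) (ω : ℝ) (P : ι → Mat n) :
    yB J (cw a) P = yB J (cF a ω) P + yB J (cS a ω) P + cross a (T2.BB J P) ω := by
  rw [T2.yB_co h h.wt_cw, T2.yB_co h (h.wt_cF ω), T2.yB_co h (h.wt_cS ω)]
  exact T2.split_co h.a_nonneg ω _

theorem Sit.test1' (S : Sit X E d i0 J a P N ε) {ω : ℝ} (hω : 0 < ω) :
    d i0 * (mass0 (E i0) N - mass0 (E i0) P) + yB J (cS a ω) P ≤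
      yA J (cS a ω) P + cross a (ZZ J P) ω + ω * p + 1 := by
  have hl : 0 < d i0 := S.frame.lam_pos
  have hc := T2.mass_bal S S.frame.wt_cw
  rw [S.frame.Lu_cw] at hc
  have hF := T2.mass_bal S (S.frame.wt_cF ω)
  have a1 := T2.yA_split S.frame ω P
  have b1 := T2.yB_split S.frame ω P
  have a2 := T2.yA_split S.frame ω N
  have b2 := T2.yB_split S.frame ω N
  have a3 := T2.cross_nonneg' S.frame.a_nonneg ω (T2.ZZ_nonneg' (J := J) N)
  have b3 := T2.cross_nonneg' S.frame.a_nonneg ω (T2.BB_nonneg (J := J) P)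
  have b4 := T2.cross_nonneg' S.frame.a_nonneg ω (T2.BB_nonneg (J := J) N)
  have a4 := T2.yA_nonneg' (J := J) (cS a ω) N
  have a5 := T2.yA_nonneg' (J := J) (cF a ω) N
  have b5 := T2.yB_nonneg' (J := J) (cF a ω) N
  have h1 := T2.yAB_N_le S S.frame.wt_cw
  have h2 := T2.yA_nonneg' (J := J) (cw a) N
  -- mass of `P` on `L_F` is nonnegative
  have m1 : 0 ≤ d i0 * mass0 (Lu J (d i0) (cF a ω)) P :=
    mul_nonneg hl.le (Finset.sum_nonneg fun _ _ => sq_nonneg _)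
  -- mass of `N` on `L_F`
  have m2 : mass0 (Lu J (d i0) (cF a ω)) N ≤
      ip (Lu J (d i0) (cF a ω)) (Lu J (d i0) (cF a ω)) := by
    unfold mass0
    have : ∀ j, ip (Lu J (d i0) (cF a ω)) (N j) ^ 2 ≤
        ip (Lu J (d i0) (cF a ω)) (Lu J (d i0) (cF a ω)) * ip (N j) (N j) := by
      intro j
      have hcs := ip_cauchy (Lu J (d i0) (cF a ω)) (N j)
      have h0 := abs_nonneg (ip (Lu J (d i0) (cF a ω)) (N j))
      have := pow_le_pow_left₀ h0 hcs 2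
      rw [sq_abs, mul_pow, Real.sq_sqrt (ip_self_nonneg _), Real.sq_sqrt (ip_self_nonneg _)] at this
      exact this
    calc ∑ j, ip (Lu J (d i0) (cF a ω)) (N j) ^ 2
        ≤ ∑ j, ip (Lu J (d i0) (cF a ω)) (Lu J (d i0) (cF a ω)) * ip (N j) (N j) :=
          Finset.sum_le_sum fun j _ => this j
      _ = _ := by rw [← Finset.mul_sum, S.trN, mul_one]
  have m3 := S.LF_le hω
  have m4 : d i0 * mass0 (Lu J (d i0) (cF a ω)) N ≤ ω * p :=
    le_trans (mul_le_mul_of_nonneg_left m2 hl.le) m3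
  nlinarith

end HopfBig
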