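import Pool.Agent.Lib.MP_4a593f_gt.Big.T2

/-! Task T3: the first use of the uncertainty relation: `yA ≤ K p`, `K = 8/ε²`.

Sum `uncert` over the family with `M = Yu`, `u = cw a`:
`λ ∑⟨V_i,Y_i⟩ - ∑ D(V_i,Y_i) ≤ √dPerp (2√p √dY + 2√yA)` (Cauchy-Schwarz for the sums).
`∑ D(V_i,Y_i) ≤ √(∑D(V_i)) √dY ≤ (p/ε) √dY`, `dPerp ≤ p/2`, and by `test1`, `dP_le`, `dY_le`:
`yB ≤ yA + p/2 + 1`, `dY ≤ λ + yA + yB ≤ 2 yA + 2p =: s²`.  So with
`W = √λ ∑⟨V_i,Y_i⟩`:  `√λ W ≤ (p/ε) s + √2 p s + √(2p) s ≤ (2p/ε) s` (`ε ≤ 1/10`).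
As `W ≥ 2 yA` (`ip_V_Yu_ge`) and `√λ ≥ √(p/2)`: `yA ≤ (√(2p)/ε) s`, so
`yA² ≤ (2p/ε²)(2yA+2p)`, which gives `yA ≤ 8p/ε²`; then `W ≤ (2√(2p)/ε) √(4·8p/ε²) = 16p/ε²`.
`W = (1/2) ∑_ij (a_i+a_j) √(a_i a_j) ZZ_ij` and `yA = (1/2) ∑ a_i a_j ZZ_ij`
(`ip_V_Yu`, `ip_Yu`). -/

open scoped BigOperators

namespace HopfBig

variable {n : ℕ} {p : ℝ} {H : Type} [NormedAddCommGroup H] [InnerProductSpace ℝ H]
  {X : FormData n p H} {m : ℕ} {E : Fin m → Mat n} {d : Fin m → ℝ} {i0 : Fin m} {J : Mat n}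
  {a : Fin n → ℝ} {ι κ : Type} [Fintype ι] [Fintype κ] {P : ι → Mat n} {N : κ → Mat n} {ε : ℝ}

/-- the summed uncertainty relation -/
theorem Sit.uncert_sum (S : Sit X E d i0 J a P N ε) {u : Fin n → ℝ} (hu : Wt J a u) :
    d i0 * ∑ i, ip (br (E i0) (P i)) (Yu J u (P i)) - err X (E i0) J u P ≤
      √(dPerp X (E i0) P) * (2 * √p * √(dY X J u P) + 2 * √(yA J u P)) := by
  have hl : 0 < d i0 := S.frame.lam_pos
  have h1 : d i0 * ∑ i, ip (br (E i0) (P i)) (Yu J u (P i)) - err X (E i0) J u P =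
      ∑ i, (d i0 * ip (br (E i0) (P i)) (Yu J u (P i)) -
        X.D (br (E i0) (P i)) (Yu J u (P i))) := by
    rw [Finset.sum_sub_distrib, Finset.mul_sum]; rfl
  rw [h1]
  have h2 : ∀ i, d i0 * ip (br (E i0) (P i)) (Yu J u (P i)) -
        X.D (br (E i0) (P i)) (Yu J u (P i)) ≤
      2 * √p * (√(X.D (perp (E i0) (P i)) (perp (E i0) (P i))) *
        √(X.D (Yu J u (P i)) (Yu J u (P i)))) +
      2 * (√(X.D (perp (E i0) (P i)) (perp (E i0) (P i))) *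
        √(ip (Yu J u (P i)) (Yu J u (P i)))) := by
    intro i
    have := uncert S.eig i0 S.max hl (S.skP i) (Skew.Yu S.frame.skewJ u (S.skP i))
    refine this.trans (le_of_eq ?_)
    ring
  refine (Finset.sum_le_sum fun i _ => h2 i).trans ?_
  rw [Finset.sum_add_distrib, ← Finset.mul_sum, ← Finset.mul_sum]
  have h3 := Real.sum_sqrt_mul_sqrt_le Finset.univ
    (f := fun i => X.D (perp (E i0) (P i)) (perp (E i0) (P i)))
    (g := fun i => X.D (Yu J u (P i)) (Yu J u (P i)))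
    (fun i => X.D_nonneg _) (fun i => X.D_nonneg _)
  have h4 := Real.sum_sqrt_mul_sqrt_le Finset.univ
    (f := fun i => X.D (perp (E i0) (P i)) (perp (E i0) (P i)))
    (g := fun i => ip (Yu J u (P i)) (Yu J u (P i)))
    (fun i => X.D_nonneg _) (fun i => ip_self_nonneg _)
  have h5 := mul_le_mul_of_nonneg_left h3 (show 0 ≤ 2 * √p by positivity)
  have h6 := mul_le_mul_of_nonneg_left h4 (show (0 : ℝ) ≤ 2 by norm_num)
  refine (add_le_add h5 h6).trans (le_of_eq ?_)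
  unfold dPerp dY yA
  ring

/-- `err ≤ √(∑ D(V_i)) √dY` -/
theorem Sit.err_cauchy (S : Sit X E d i0 J a P N ε) (u : Fin n → ℝ) :
    ε * err X (E i0) J u P ≤ p * √(dY X J u P) := by
  have hε := S.eps_pos
  have h1 : err X (E i0) J u P ≤
      √(∑ i, X.D (br (E i0) (P i)) (br (E i0) (P i))) * √(dY X J u P) := by
    unfold err dY
    refine (Finset.sum_le_sum fun i _ => (le_abs_self _).trans (X.D_cauchy _ _)).trans ?_
    exact Real.sum_sqrt_mul_sqrt_le Finset.univ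
      (f := fun i => X.D (br (E i0) (P i)) (br (E i0) (P i)))
      (g := fun i => X.D (Yu J u (P i)) (Yu J u (P i)))
      (fun i => X.D_nonneg _) (fun i => X.D_nonneg _)
  have hp := S.p_big
  have h2 : ε * √(∑ i, X.D (br (E i0) (P i)) (br (E i0) (P i))) ≤ p := by
    refine (pow_le_pow_iff_left₀ (by positivity) (by linarith) two_ne_zero).1 ?_
    rw [mul_pow, Real.sq_sqrt (Finset.sum_nonneg fun i _ => X.D_nonneg _)]
    exact S.dV_le
  have h3 := mul_le_mul_of_nonneg_right h2 (Real.sqrt_nonneg (dY X J u P))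
  have h4 := mul_le_mul_of_nonneg_left h1 hε.le
  linarith

theorem T3.dY_nonneg (X : FormData n p H) (u : Fin n → ℝ) (P : ι → Mat n) : 0 ≤ dY X J u P :=
  Finset.sum_nonneg fun _ _ => X.D_nonneg _

/-- the main step: with `t = ∑⟨V_i,Y_i⟩` for the full weight,
`ε λ t ≤ 2 p s`, `s = √(2 yA + 2 p)` -/
theorem Sit.main_t (S : Sit X E d i0 J a P N ε) :
    ε * (d i0 * ∑ i, ip (br (E i0) (P i)) (Yu J (cw a) (P i))) ≤
      2 * p * √(2 * yA J (cw a) P + 2 * p) := by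
  have hε := S.eps_pos
  have hε1 := S.eps_le
  have hl : 0 < d i0 := S.frame.lam_pos
  have hp := S.p_big
  have hp0 : 0 ≤ p := by linarith
  have hA := T2.yA_nonneg' (J := J) (cw a) P
  set s := √(2 * yA J (cw a) P + 2 * p) with hs
  have hs0 : 0 ≤ s := Real.sqrt_nonneg _
  have hw := S.w_pos
  have hlam := S.lam_le
  have hyB : yB J (cw a) P ≤ yA J (cw a) P + 1 := by
    have := S.test1
    nlinarith
  have hdY : dY X J (cw a) P ≤ 2 * yA J (cw a) P + 2 * p := by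
    have := S.dY_le S.frame.wt_cw
    linarith
  have hsd : √(dY X J (cw a) P) ≤ s := Real.sqrt_le_sqrt hdY
  have hu := S.uncert_sum S.frame.wt_cw
  have he := S.err_cauchy (cw a)
  have hD := S.dPerp_le
  have hD0 := S.dPerp_nonneg
  -- `√dPerp √p ≤ p √(1/2)`, in the form `√dPerp * √p ≤ p`
  have h1 : √(dPerp X (E i0) P) * √p ≤ (3 / 4) * p := by
    rw [← Real.sqrt_mul hD0]
    refine Real.sqrt_le_iff.2 ⟨by positivity, ?_⟩
    nlinarith
  have h2 : √(dPerp X (E i0) P) * √(yA J (cw a) P) ≤ √p * s := by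
    have e1 : √(dPerp X (E i0) P) ≤ √p := Real.sqrt_le_sqrt (by linarith)
    have e2 : √(yA J (cw a) P) ≤ s := Real.sqrt_le_sqrt (by linarith)
    exact mul_le_mul e1 e2 (Real.sqrt_nonneg _) (Real.sqrt_nonneg _)
  -- `√p ≤ p/100`
  have h3 : √p ≤ p / 100 := by
    refine Real.sqrt_le_iff.2 ⟨by positivity, ?_⟩
    nlinarith
  have h4 : √(dPerp X (E i0) P) *
      (2 * √p * √(dY X J (cw a) P) + 2 * √(yA J (cw a) P)) ≤ (3 / 2) * p * s + p / 50 * s := by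
    have e1 : √(dPerp X (E i0) P) * √p * √(dY X J (cw a) P) ≤ (3 / 4) * p * s :=
      mul_le_mul h1 hsd (Real.sqrt_nonneg _) (by positivity)
    have e2 : √p * s ≤ p / 100 * s := mul_le_mul_of_nonneg_right h3 hs0
    nlinarith
  have h5 : ε * err X (E i0) J (cw a) P ≤ p * s :=
    he.trans (mul_le_mul_of_nonneg_left hsd hp0)
  have h6 : ε * (d i0 * ∑ i, ip (br (E i0) (P i)) (Yu J (cw a) (P i)) -
      err X (E i0) J (cw a) P) ≤ ε * ((3 / 2) * p * s + p / 50 * s) :=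
    mul_le_mul_of_nonneg_left (hu.trans h4) hε.le
  have h7 : ε * ((3 / 2) * p * s + p / 50 * s) ≤ p * s := by
    have : 0 ≤ p * s := mul_nonneg hp0 hs0
    nlinarith
  nlinarith

/-- `2 yA ≤ √λ t` -/
theorem Sit.yA_le_t (S : Sit X E d i0 J a P N ε) :
    2 * yA J (cw a) P ≤
      √(d i0) * ∑ i, ip (br (E i0) (P i)) (Yu J (cw a) (P i)) := by
  unfold yA
  rw [Finset.mul_sum, Finset.mul_sum]
  exact Finset.sum_le_sum fun i _ => S.frame.ip_V_Yu_ge S.frame.wt_cw (S.skP i)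

theorem Sit.yA_le (S : Sit X E d i0 J a P N ε) : ε ^ 2 * yA J (cw a) P ≤ 8 * p := by
  have hε := S.eps_pos
  have hε1 := S.eps_le
  have hl : 0 < d i0 := S.frame.lam_pos
  have hp := S.p_big
  have hp0 : 0 < p := by linarith
  have hA := T2.yA_nonneg' (J := J) (cw a) P
  have h1 := S.main_t
  have h2 := S.yA_le_t
  have hh := S.lam_half
  set y := yA J (cw a) P
  set t := ∑ i, ip (br (E i0) (P i)) (Yu J (cw a) (P i))
  set s := √(2 * y + 2 * p) with hs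
  have hs2 : s ^ 2 = 2 * y + 2 * p := Real.sq_sqrt (by positivity)
  have hs0 : 0 ≤ s := Real.sqrt_nonneg _
  have hsl : √(d i0) ^ 2 = d i0 := Real.sq_sqrt hl.le
  have hsl0 : 0 < √(d i0) := Real.sqrt_pos.2 hl
  -- `ε √λ 2 y ≤ ε λ t ≤ 2 p s`
  have h3 : ε * (√(d i0) * (2 * y)) ≤ 2 * p * s := by
    have e1 : √(d i0) * (2 * y) ≤ √(d i0) * (√(d i0) * t) := mul_le_mul_of_nonneg_left h2 hsl0.le
    have e2 : √(d i0) * (√(d i0) * t) = d i0 * t := by rw [← mul_assoc, ← sq, hsl]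
    rw [e2] at e1
    exact (mul_le_mul_of_nonneg_left e1 hε.le).trans h1
  have h4 : (ε * (√(d i0) * (2 * y))) ^ 2 ≤ (2 * p * s) ^ 2 :=
    pow_le_pow_left₀ (by positivity) h3 2
  have h5 : ε ^ 2 * (4 * d i0 * y ^ 2) ≤ 4 * p ^ 2 * (2 * y + 2 * p) := by
    have e1 : (ε * (√(d i0) * (2 * y))) ^ 2 = ε ^ 2 * (4 * √(d i0) ^ 2 * y ^ 2) := by ring
    have e2 : (2 * p * s) ^ 2 = 4 * p ^ 2 * s ^ 2 := by ring
    rw [e1, e2, hsl, hs2] at h4
    exact h4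
  have h6 : ε ^ 2 * (2 * p * y ^ 2) ≤ 4 * p ^ 2 * (2 * y + 2 * p) := by
    refine le_trans ?_ h5
    refine mul_le_mul_of_nonneg_left ?_ (by positivity)
    nlinarith [sq_nonneg y]
  have h7 : ε ^ 2 * y ^ 2 ≤ 4 * p * y + 4 * p ^ 2 := by
    have : p * (ε ^ 2 * y ^ 2) ≤ p * (4 * p * y + 4 * p ^ 2) := by nlinarith
    exact le_of_mul_le_mul_left this hp0
  by_contra hc
  push Not at hc
  -- `y > 8p/ε² ≥ 8 p`
  have hε2 : ε ^ 2 ≤ 1 := by nlinarith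
  have hy8 : 8 * p < y := by nlinarith
  have h8 : 8 * p * y < ε ^ 2 * y ^ 2 := by nlinarith
  nlinarith

theorem Sit.yB_le (S : Sit X E d i0 J a P N ε) : ε ^ 2 * yB J (cw a) P ≤ 9 * p := by
  have hε := S.eps_pos
  have hε1 := S.eps_le
  have hl : 0 < d i0 := S.frame.lam_pos
  have hp := S.p_big
  have h1 := S.yA_le
  have hw := S.w_pos
  have h2 : yB J (cw a) P ≤ yA J (cw a) P + 1 := by
    have := S.test1
    nlinarith
  have h3 : ε ^ 2 * yB J (cw a) P ≤ ε ^ 2 * (yA J (cw a) P + 1) :=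
    mul_le_mul_of_nonneg_left h2 (by positivity)
  have hε2 : ε ^ 2 ≤ 1 := by nlinarith
  nlinarith

theorem Sit.dYc_le (S : Sit X E d i0 J a P N ε) (ω : ℝ) :
    ε ^ 2 * dY X J (cS a ω) P ≤ 24 * p := by
  have hε := S.eps_pos
  have hε1 := S.eps_le
  have hp := S.p_big
  have h1 := S.yA_le
  have h2 := S.yB_le
  have h3 := S.dY_le (S.frame.wt_cS ω)
  have hlam := S.lam_le
  have a1 := T2.yA_split S.frame ω P
  have b1 := T2.yB_split S.frame ω P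
  have a3 := T2.cross_nonneg' S.frame.a_nonneg ω (T2.ZZ_nonneg' (J := J) P)
  have b3 := T2.cross_nonneg' S.frame.a_nonneg ω (T2.BB_nonneg (J := J) P)
  have a5 := T2.yA_nonneg' (J := J) (cF a ω) P
  have b5 := T2.yB_nonneg' (J := J) (cF a ω) P
  have h4 : dY X J (cS a ω) P ≤ p + yA J (cw a) P + yB J (cw a) P := by linarith
  have h5 : ε ^ 2 * dY X J (cS a ω) P ≤ ε ^ 2 * (p + yA J (cw a) P + yB J (cw a) P) :=
    mul_le_mul_of_nonneg_left h4 (by positivity)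
  have hε2 : ε ^ 2 ≤ 1 := by nlinarith
  nlinarith

theorem Sit.yA_coord (S : Sit X E d i0 J a P N ε) :
    yA J (cw a) P = (1 / 2) * ∑ i, ∑ j, a i * a j * ZZ J P i j := by
  rw [T2.yA_co S.frame S.frame.wt_cw]
  simp only [T2.cw_sq S.frame.a_nonneg]

theorem Sit.W_coord (S : Sit X E d i0 J a P N ε) :
    (1 / 2) * ∑ i, ∑ j, (a i + a j) * (√(a i) * √(a j)) * ZZ J P i j =
      √(d i0) * ∑ i, ip (br (E i0) (P i)) (Yu J (cw a) (P i)) := by
  unfold ZZ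
  rw [Finset.mul_sum (a := √(d i0)),
    Finset.sum_congr rfl fun α _ => S.frame.ip_V_Yu S.frame.wt_cw (S.skP α), ← Finset.mul_sum]
  congr 1
  symm
  rw [Finset.sum_comm]
  refine Finset.sum_congr rfl fun i _ => ?_
  rw [Finset.sum_comm]
  refine Finset.sum_congr rfl fun j _ => ?_
  rw [Finset.mul_sum]
  rfl

theorem Sit.W_le (S : Sit X E d i0 J a P N ε) :
    ε ^ 2 * ((1 / 2) * ∑ i, ∑ j, (a i + a j) * (√(a i) * √(a j)) * ZZ J P i j) ≤ 16 * p := by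
  rw [S.W_coord]
  have hε := S.eps_pos
  have hε1 := S.eps_le
  have hl : 0 < d i0 := S.frame.lam_pos
  have hp := S.p_big
  have hp0 : 0 < p := by linarith
  have hA := T2.yA_nonneg' (J := J) (cw a) P
  have h1 := S.main_t
  have h2 := S.yA_le_t
  have h3 := S.yA_le
  have hh := S.lam_half
  set y := yA J (cw a) P
  set t := ∑ i, ip (br (E i0) (P i)) (Yu J (cw a) (P i))
  set s := √(2 * y + 2 * p) with hs
  have hs2 : s ^ 2 = 2 * y + 2 * p := Real.sq_sqrt (by positivity)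
  have hs0 : 0 ≤ s := Real.sqrt_nonneg _
  have hsl : √(d i0) ^ 2 = d i0 := Real.sq_sqrt hl.le
  have hsl0 : 0 < √(d i0) := Real.sqrt_pos.2 hl
  have hW0 : 0 ≤ √(d i0) * t := by linarith
  have hε2 : ε ^ 2 ≤ 1 := by nlinarith
  -- `ε² s² ≤ 18 p`
  have h4 : ε ^ 2 * s ^ 2 ≤ 18 * p := by rw [hs2]; nlinarith
  -- `ε √λ W ≤ 2 p s`
  have h5 : ε * (√(d i0) * (√(d i0) * t)) ≤ 2 * p * s := by
    have e2 : √(d i0) * (√(d i0) * t) = d i0 * t := by rw [← mul_assoc, ← sq, hsl]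
    rw [e2]; exact h1
  set W := √(d i0) * t with hW
  have h6 : (ε * (√(d i0) * W)) ^ 2 ≤ (2 * p * s) ^ 2 :=
    pow_le_pow_left₀ (by positivity) h5 2
  have h7 : ε ^ 2 * (d i0 * W ^ 2) ≤ 4 * p ^ 2 * s ^ 2 := by
    have e1 : (ε * (√(d i0) * W)) ^ 2 = ε ^ 2 * (√(d i0) ^ 2 * W ^ 2) := by ring
    have e2 : (2 * p * s) ^ 2 = 4 * p ^ 2 * s ^ 2 := by ring
    rw [e1, e2, hsl] at h6
    exact h6
  have h8 : ε ^ 2 * (p / 2 * W ^ 2) ≤ 4 * p ^ 2 * s ^ 2 := by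
    refine le_trans ?_ h7
    refine mul_le_mul_of_nonneg_left ?_ (by positivity)
    exact mul_le_mul_of_nonneg_right hh (sq_nonneg W)
  have h9 : ε ^ 2 * W ^ 2 ≤ 8 * p * s ^ 2 := by
    have : p * (ε ^ 2 * W ^ 2) ≤ p * (8 * p * s ^ 2) := by nlinarith
    exact le_of_mul_le_mul_left this hp0
  have h10 : (ε ^ 2 * W) ^ 2 ≤ (16 * p) ^ 2 := by
    have e1 : (ε ^ 2 * W) ^ 2 = ε ^ 2 * (ε ^ 2 * W ^ 2) := by ring
    rw [e1]
    have e2 : ε ^ 2 * (ε ^ 2 * W ^ 2) ≤ ε ^ 2 * (8 * p * s ^ 2) :=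
      mul_le_mul_of_nonneg_left h9 (by positivity)
    nlinarith
  exact (pow_le_pow_iff_left₀ (by positivity) (by positivity) two_ne_zero).1 h10

end HopfBig
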