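import Pool.Agent.Lib.MP_4a593f_gt.Big.T0

/-! Task T4 (pure real analysis): choice of the cut.

Let `ρ = (4K/κ)²+1` (any `ρ > 1` with `K/√ρ ≤ κ/2`), levels `ω_j = ω₀ ρ^{-j}`, `j = 0..I`,
`I + 1 ≥ 2K/κ`.  Blocks crossing `ω_j` (say `ω_j ≤ a_i`, `a_j < ω_j`):
far: `a_i ≥ ρ a_j`: then `(a_i+a_j)√(a_i a_j) ≥ √ρ a_i a_j`, total `≤ K/√ρ` by the second bound;
near: `a_i < ρ a_j`: the interval `(a_j, a_i]` contains at most one level, so the near parts of
different levels are disjoint and their sum is `≤ (1/2)∑ a_i a_j Z_ij ≤ K`; one of them is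
`≤ K/(I+1) ≤ κ/2`.
Here everything is divided by `p`. -/

open scoped BigOperators

namespace HopfBig

namespace T4aux

/-- crossing of the level `ω` -/
def Cr {n : ℕ} (a : Fin n → ℝ) (ω : ℝ) (i j : Fin n) : Prop :=
  (ω ≤ a i ∧ a j < ω) ∨ (a i < ω ∧ ω ≤ a j)

/-- far pairs -/
def Far {n : ℕ} (a : Fin n → ℝ) (ρ : ℝ) (i j : Fin n) : Prop :=
  ρ * a j ≤ a i ∨ ρ * a i ≤ a j

theorem far_le {x y r : ℝ} (hx : 0 ≤ x) (hy : 0 ≤ y) (hr : 0 ≤ r) (h : (r ^ 2 + 1) * y ≤ x) :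
    r * (x * y) ≤ (x + y) * (√x * √y) := by
  have h1 : r * √y ≤ √x := by
    apply Real.le_sqrt_of_sq_le
    rw [mul_pow, Real.sq_sqrt hy]
    nlinarith
  have h2 : 0 ≤ √y := Real.sqrt_nonneg y
  have h3 : √y * √y = y := Real.mul_self_sqrt hy
  have h4 : 0 ≤ √x := Real.sqrt_nonneg x
  have h5 : r * y ≤ √x * √y := by
    calc r * y = (r * √y) * √y := by rw [mul_assoc, h3]
      _ ≤ √x * √y := mul_le_mul_of_nonneg_right h1 h2
  have h6 : 0 ≤ √x * √y := mul_nonneg h4 h2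
  calc r * (x * y) = x * (r * y) := by ring
    _ ≤ x * (√x * √y) := mul_le_mul_of_nonneg_left h5 hx
    _ ≤ (x + y) * (√x * √y) := by nlinarith

/-- a near pair crosses at most one of the levels -/
theorem near_unique {n : ℕ} (a : Fin n → ℝ) {ρ ω₀ : ℝ} (hρ : 1 < ρ) (hω₀ : 0 < ω₀)
    (i j : Fin n) (hn : ¬ Far a ρ i j) {k l : ℕ} (hkl : k < l)
    (hk : Cr a (ω₀ / ρ ^ k) i j) (hl : Cr a (ω₀ / ρ ^ l) i j) : False := by
  have hρ0 : 0 < ρ := by linarith
  have h1 : ρ * (ω₀ / ρ ^ l) ≤ ω₀ / ρ ^ k := by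
    rw [← mul_div_assoc, div_le_div_iff₀ (pow_pos hρ0 l) (pow_pos hρ0 k)]
    have h2 : ρ ^ (k + 1) ≤ ρ ^ l := pow_le_pow_right₀ hρ.le hkl
    calc ρ * ω₀ * ρ ^ k = ω₀ * ρ ^ (k + 1) := by ring
      _ ≤ ω₀ * ρ ^ l := mul_le_mul_of_nonneg_left h2 hω₀.le
  have hωl : 0 < ω₀ / ρ ^ l := div_pos hω₀ (pow_pos hρ0 l)
  have h3 : ω₀ / ρ ^ l < ω₀ / ρ ^ k := by nlinarith
  apply hn
  rcases hk with ⟨h4, h5⟩ | ⟨h4, h5⟩
  · rcases hl with ⟨h6, h7⟩ | ⟨h6, h7⟩
    · left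
      nlinarith
    · exfalso
      linarith
  · rcases hl with ⟨h6, h7⟩ | ⟨h6, h7⟩
    · exfalso
      linarith
    · right
      nlinarith

end T4aux

open T4aux in
theorem exists_cut (K κ ω₀ : ℝ) (hK : 0 < K) (hκ : 0 < κ) (hω₀ : 0 < ω₀) :
    ∃ ω₁ : ℝ, 0 < ω₁ ∧ ω₁ ≤ ω₀ ∧ ∀ (n : ℕ) (a : Fin n → ℝ) (Z : Fin n → Fin n → ℝ) (p : ℝ),
      0 ≤ p → (∀ i, 0 ≤ a i) → (∀ i, a i ≤ 1) → (∀ i j, 0 ≤ Z i j) →
      (∀ i j, Z i j = Z j i) →
      (1 / 2) * (∑ i, ∑ j, a i * a j * Z i j) ≤ K * p →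
      (1 / 2) * (∑ i, ∑ j, (a i + a j) * (√(a i) * √(a j)) * Z i j) ≤ K * p →
      ∃ ω : ℝ, ω₁ ≤ ω ∧ ω ≤ ω₀ ∧ cross a Z ω ≤ κ * p := by
  classical
  set r : ℝ := 2 * K / κ with hrdef
  have hr : 0 < r := by positivity
  set ρ : ℝ := r ^ 2 + 1 with hρdef
  have hρ : 1 < ρ := by
    have : 0 < r ^ 2 := by positivity
    linarith
  have hρ0 : 0 < ρ := by linarith
  set I : ℕ := ⌈r⌉₊ with hIdef
  have hI : r ≤ I := Nat.le_ceil r
  refine ⟨ω₀ / ρ ^ I, div_pos hω₀ (pow_pos hρ0 I), ?_, ?_⟩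
  · exact div_le_self hω₀.le (one_le_pow₀ hρ.le)
  intro n a Z p hp ha ha1 hZ hZs h1 h2
  -- the near part of a level
  set near : ℕ → ℝ := fun k => (1 / 2) * ∑ i, ∑ j,
    (if Cr a (ω₀ / ρ ^ k) i j ∧ ¬ Far a ρ i j then a i * a j * Z i j else 0) with hnear
  have hT : ∀ i j, 0 ≤ a i * a j * Z i j :=
    fun i j => mul_nonneg (mul_nonneg (ha i) (ha j)) (hZ i j)
  -- some level has a small near part
  have hex : ∃ k ∈ Finset.range (I + 1), near k ≤ κ * p / 2 := by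
    by_contra hcon
    push Not at hcon
    have h3 : ((I + 1 : ℕ) : ℝ) * (κ * p / 2) < ∑ k ∈ Finset.range (I + 1), near k := by
      calc ((I + 1 : ℕ) : ℝ) * (κ * p / 2) = ∑ _k ∈ Finset.range (I + 1), κ * p / 2 := by
            rw [Finset.sum_const, Finset.card_range, nsmul_eq_mul]
        _ < ∑ k ∈ Finset.range (I + 1), near k :=
            Finset.sum_lt_sum_of_nonempty ⟨0, Finset.mem_range.2 (Nat.succ_pos I)⟩ hcon
    have h4 : ∑ k ∈ Finset.range (I + 1), near k ≤ K * p := by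
      refine le_trans ?_ h1
      rw [hnear, ← Finset.mul_sum]
      refine mul_le_mul_of_nonneg_left ?_ (by norm_num)
      rw [Finset.sum_comm]
      refine Finset.sum_le_sum (fun i _ => ?_)
      rw [Finset.sum_comm]
      refine Finset.sum_le_sum (fun j _ => ?_)
      by_cases hex : ∃ k ∈ Finset.range (I + 1), Cr a (ω₀ / ρ ^ k) i j ∧ ¬ Far a ρ i j
      · obtain ⟨k, hk, hk1, hk2⟩ := hex
        rw [Finset.sum_eq_single k]
        · rw [if_pos ⟨hk1, hk2⟩]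
        · intro l _ hlk
          rw [if_neg]
          rintro ⟨hl1, -⟩
          rcases lt_or_gt_of_ne hlk with h | h
          · exact near_unique a hρ hω₀ i j hk2 h hl1 hk1
          · exact near_unique a hρ hω₀ i j hk2 h hk1 hl1
        · intro h
          exact absurd hk h
      · have : ∀ k ∈ Finset.range (I + 1),
            (if Cr a (ω₀ / ρ ^ k) i j ∧ ¬ Far a ρ i j then a i * a j * Z i j else 0) = 0 := by
          intro k hk
          rw [if_neg]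
          intro h
          exact hex ⟨k, hk, h⟩
        rw [Finset.sum_congr rfl this, Finset.sum_const_zero]
        exact hT i j
    have h5 : K * p ≤ ((I + 1 : ℕ) : ℝ) * (κ * p / 2) := by
      have h6 : r * (κ * p / 2) = K * p := by
        rw [hrdef]
        field_simp
      have h7 : (r : ℝ) ≤ ((I + 1 : ℕ) : ℝ) := by
        push_cast
        linarith
      rw [← h6]
      exact mul_le_mul_of_nonneg_right h7 (by positivity)
    linarith
  obtain ⟨k, hk, hkn⟩ := hex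
  have hkI : k ≤ I := Nat.lt_succ_iff.1 (Finset.mem_range.1 hk)
  refine ⟨ω₀ / ρ ^ k, ?_, ?_, ?_⟩
  · exact div_le_div_of_nonneg_left hω₀.le (pow_pos hρ0 k) (pow_le_pow_right₀ hρ.le hkI)
  · exact div_le_self hω₀.le (one_le_pow₀ hρ.le)
  -- far part
  have hfar : (1 / 2) * ∑ i, ∑ j,
      (if Cr a (ω₀ / ρ ^ k) i j ∧ Far a ρ i j then a i * a j * Z i j else 0) ≤ κ * p / 2 := by
    have h8 : r * ((1 / 2) * ∑ i, ∑ j,
        (if Cr a (ω₀ / ρ ^ k) i j ∧ Far a ρ i j then a i * a j * Z i j else 0)) ≤ K * p := by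
      refine le_trans ?_ h2
      rw [← mul_assoc, mul_comm r, mul_assoc]
      refine mul_le_mul_of_nonneg_left ?_ (by norm_num)
      rw [Finset.mul_sum]
      refine Finset.sum_le_sum (fun i _ => ?_)
      rw [Finset.mul_sum]
      refine Finset.sum_le_sum (fun j _ => ?_)
      split_ifs with h9
      · rcases h9.2 with h10 | h10
        · have h11 := far_le (ha i) (ha j) hr.le h10
          calc r * (a i * a j * Z i j) = (r * (a i * a j)) * Z i j := by ring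
            _ ≤ ((a i + a j) * (√(a i) * √(a j))) * Z i j :=
                mul_le_mul_of_nonneg_right h11 (hZ i j)
        · have h11 := far_le (ha j) (ha i) hr.le h10
          calc r * (a i * a j * Z i j) = (r * (a j * a i)) * Z i j := by ring
            _ ≤ ((a j + a i) * (√(a j) * √(a i))) * Z i j :=
                mul_le_mul_of_nonneg_right h11 (hZ i j)
            _ = (a i + a j) * (√(a i) * √(a j)) * Z i j := by ring
      · rw [mul_zero]
        exact mul_nonneg (mul_nonneg (add_nonneg (ha i) (ha j))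
          (mul_nonneg (Real.sqrt_nonneg _) (Real.sqrt_nonneg _))) (hZ i j)
    have h9 : K * p = r * (κ * p / 2) := by
      rw [hrdef]
      field_simp
    rw [h9] at h8
    exact le_of_mul_le_mul_left h8 hr
  have hsplit : cross a Z (ω₀ / ρ ^ k) = (1 / 2) * ∑ i, ∑ j,
      (if Cr a (ω₀ / ρ ^ k) i j ∧ Far a ρ i j then a i * a j * Z i j else 0) + near k := by
    rw [hnear]
    simp only [cross]
    rw [← mul_add, ← Finset.sum_add_distrib]
    congr 1
    refine Finset.sum_congr rfl (fun i _ => ?_)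
    rw [← Finset.sum_add_distrib]
    refine Finset.sum_congr rfl (fun j _ => ?_)
    by_cases hc : Cr a (ω₀ / ρ ^ k) i j
    · have hc' : (ω₀ / ρ ^ k ≤ a i ∧ a j < ω₀ / ρ ^ k) ∨ (a i < ω₀ / ρ ^ k ∧ ω₀ / ρ ^ k ≤ a j) := hc
      by_cases hf : Far a ρ i j
      · rw [if_pos hc', if_pos ⟨hc, hf⟩, if_neg (fun h => h.2 hf), add_zero]
      · rw [if_pos hc', if_neg (fun h => hf h.2), if_pos ⟨hc, hf⟩, zero_add]
    · have hc' : ¬ ((ω₀ / ρ ^ k ≤ a i ∧ a j < ω₀ / ρ ^ k) ∨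
          (a i < ω₀ / ρ ^ k ∧ ω₀ / ρ ^ k ≤ a j)) := hc
      rw [if_neg hc', if_neg (fun h => hc h.1), if_neg (fun h => hc h.1), add_zero]
  rw [hsplit]
  linarith

end HopfBig
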