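import Pool.Agent.Lib.MP_4a593f_gt.Big.T3

/-! Task T5: the error of the low modes.

`err = ∑_i ∑_α d_i v_{iα} y_{iα}`, `v = ⟨E_i,[L0,P_α]⟩`, `y = ⟨E_i, Yu P_α⟩` (`D_expand`).  The
part with `d_i < Δ`, `Δ = c p`, is by Cauchy-Schwarz at most
`√(∑_α ∑_{low} d_i v²) √(∑_α ∑_i d_i y²) ≤ √(256 c² p dPerp) √dY ≤ √(128) c p √dY`
(`low_bound`, `dPerp_le`), `dY ≤ 24p/ε²`.  `√(128·24) ≤ 56`. -/

open scoped BigOperators

namespace HopfBig

variable {n : ℕ} {p : ℝ} {H : Type} [NormedAddCommGroup H] [InnerProductSpace ℝ H]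
  {X : FormData n p H} {m : ℕ} {E : Fin m → Mat n} {d : Fin m → ℝ} {i0 : Fin m} {J : Mat n}
  {a : Fin n → ℝ} {ι κ : Type} [Fintype ι] [Fintype κ] {P : ι → Mat n} {N : κ → Mat n} {ε : ℝ}

theorem Sit.err_expand (S : Sit X E d i0 J a P N ε) {u : Fin n → ℝ} (hu : Wt J a u) :
    err X (E i0) J u P =
      ∑ i, d i * ∑ α, ip (E i) (br (E i0) (P α)) * ip (E i) (Yu J u (P α)) := by
  have _ := hu
  unfold err
  have h1 : ∀ α, X.D (br (E i0) (P α)) (Yu J u (P α)) =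
      ∑ i, d i * (ip (E i) (br (E i0) (P α)) * ip (E i) (Yu J u (P α))) := by
    intro α
    rw [S.eig.D_expand (Skew.br (S.eig.skew i0) (S.skP α)) (Skew.Yu S.frame.skewJ u (S.skP α))]
    exact Finset.sum_congr rfl fun i _ => by ring
  rw [Finset.sum_congr rfl fun α _ => h1 α, Finset.sum_comm]
  exact Finset.sum_congr rfl fun i _ => by rw [Finset.mul_sum]

private theorem cs_aux {ι' : Type} [Fintype ι'] {m' : ℕ} (s : Finset (Fin m')) (w : Fin m' → ℝ)
    (hw : ∀ i, 0 ≤ w i) (v y : Fin m' → ι' → ℝ) :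
    (∑ i ∈ s, w i * ∑ α, v i α * y i α) ^ 2 ≤
      (∑ i ∈ s, ∑ α, w i * v i α ^ 2) * (∑ i ∈ s, ∑ α, w i * y i α ^ 2) := by
  have h1 : ∑ i ∈ s, w i * ∑ α, v i α * y i α =
      ∑ x ∈ s ×ˢ (Finset.univ : Finset ι'),
        (√(w x.1) * v x.1 x.2) * (√(w x.1) * y x.1 x.2) := by
    rw [Finset.sum_product]
    refine Finset.sum_congr rfl fun i _ => ?_
    rw [Finset.mul_sum]
    refine Finset.sum_congr rfl fun α _ => ?_
    have : √(w i) * √(w i) = w i := Real.mul_self_sqrt (hw i)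
    calc w i * (v i α * y i α) = (√(w i) * √(w i)) * (v i α * y i α) := by rw [this]
      _ = _ := by ring
  have h2 : ∀ z : Fin m' → ι' → ℝ, ∑ i ∈ s, ∑ α, w i * z i α ^ 2 =
      ∑ x ∈ s ×ˢ (Finset.univ : Finset ι'), (√(w x.1) * z x.1 x.2) ^ 2 := by
    intro z
    rw [Finset.sum_product]
    refine Finset.sum_congr rfl fun i _ => ?_
    refine Finset.sum_congr rfl fun α _ => ?_
    rw [mul_pow, Real.sq_sqrt (hw i)]
  rw [h1, h2, h2]
  exact Finset.sum_mul_sq_le_sq_mul_sq _ _ _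

theorem Sit.low (S : Sit X E d i0 J a P N ε) (ω : ℝ) {c : ℝ} (hc : 0 < c) (hc4 : c ≤ 1 / 4)
    (hcp : 1 ≤ c * p ^ 2) :
    ∑ i with d i < c * p,
      d i * ∑ α, ip (E i) (br (E i0) (P α)) * ip (E i) (Yu J (cS a ω) (P α)) ≤
      56 * c * p * √p / ε := by
  have hp := S.p_big
  have hp0 : (0 : ℝ) < p := by linarith
  have hε := S.eps_pos
  have hd : ∀ i, 0 ≤ d i := fun i => S.eig.d_nonneg i
  -- first factor
  have hA : p * (∑ i with d i < c * p, ∑ α, d i * ip (E i) (br (E i0) (P α)) ^ 2) ≤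
      256 * (c * p) ^ 2 * (p / 2) := by
    rw [Finset.sum_comm, Finset.mul_sum]
    have h1 : ∀ α, p * ∑ i with d i < c * p, d i * ip (E i) (br (E i0) (P α)) ^ 2 ≤
        256 * (c * p) ^ 2 * X.D (perp (E i0) (P α)) (perp (E i0) (P α)) := fun α =>
      low_bound S.eig i0 S.max (by linarith) (by nlinarith) (by nlinarith) S.lam_half (S.skP α)
    refine (Finset.sum_le_sum fun α _ => h1 α).trans ?_
    rw [← Finset.mul_sum]
    exact mul_le_mul_of_nonneg_left S.dPerp_le (by positivity)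
  have hA' : (∑ i with d i < c * p, ∑ α, d i * ip (E i) (br (E i0) (P α)) ^ 2) ≤
      128 * (c * p) ^ 2 := by
    have : p * (∑ i with d i < c * p, ∑ α, d i * ip (E i) (br (E i0) (P α)) ^ 2) ≤
        p * (128 * (c * p) ^ 2) := by
      refine hA.trans (le_of_eq ?_)
      ring
    exact le_of_mul_le_mul_left this hp0
  -- second factor
  have hB : ∑ i with d i < c * p, ∑ α, d i * ip (E i) (Yu J (cS a ω) (P α)) ^ 2 ≤
      dY X J (cS a ω) P := by
    have h1 : dY X J (cS a ω) P = ∑ i, ∑ α, d i * ip (E i) (Yu J (cS a ω) (P α)) ^ 2 := by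
      unfold dY
      rw [Finset.sum_comm]
      refine Finset.sum_congr rfl fun α _ => ?_
      have hs := Skew.Yu S.frame.skewJ (cS a ω) (S.skP α)
      rw [S.eig.D_expand hs hs]
      exact Finset.sum_congr rfl fun i _ => by ring
    rw [h1]
    refine Finset.sum_le_sum_of_subset_of_nonneg (Finset.filter_subset _ _) fun i _ _ => ?_
    exact Finset.sum_nonneg fun α _ => mul_nonneg (hd i) (sq_nonneg _)
  have hB2 := S.dYc_le ω
  have hcs := cs_aux (Finset.univ.filter fun i => d i < c * p) d hd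
    (fun i α => ip (E i) (br (E i0) (P α))) (fun i α => ip (E i) (Yu J (cS a ω) (P α)))
  set T := ∑ i with d i < c * p,
      d i * ∑ α, ip (E i) (br (E i0) (P α)) * ip (E i) (Yu J (cS a ω) (P α)) with hT
  have hBnn : 0 ≤ ∑ i with d i < c * p, ∑ α, d i * ip (E i) (Yu J (cS a ω) (P α)) ^ 2 :=
    Finset.sum_nonneg fun i _ => Finset.sum_nonneg fun α _ => mul_nonneg (hd i) (sq_nonneg _)
  have h3 : T ^ 2 ≤ 128 * (c * p) ^ 2 * dY X J (cS a ω) P :=
    hcs.trans (mul_le_mul hA' hB hBnn (by positivity))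
  have h4 : (ε * T) ^ 2 ≤ (56 * c * p * √p) ^ 2 := by
    have h5 : (56 * c * p * √p) ^ 2 = 3136 * (c * p) ^ 2 * p := by
      have : √p ^ 2 = p := Real.sq_sqrt hp0.le
      calc (56 * c * p * √p) ^ 2 = 3136 * (c * p) ^ 2 * (√p ^ 2) := by ring
        _ = _ := by rw [this]
    rw [h5]
    calc (ε * T) ^ 2 = ε ^ 2 * T ^ 2 := by ring
      _ ≤ ε ^ 2 * (128 * (c * p) ^ 2 * dY X J (cS a ω) P) :=
        mul_le_mul_of_nonneg_left h3 (by positivity)
      _ = 128 * (c * p) ^ 2 * (ε ^ 2 * dY X J (cS a ω) P) := by ring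
      _ ≤ 128 * (c * p) ^ 2 * (24 * p) := mul_le_mul_of_nonneg_left hB2 (by positivity)
      _ = 3072 * ((c * p) ^ 2 * p) := by ring
      _ ≤ 3136 * ((c * p) ^ 2 * p) :=
        mul_le_mul_of_nonneg_right (by norm_num) (by positivity)
      _ = _ := by ring
  have h6 : ε * T ≤ 56 * c * p * √p := by
    have hnn : 0 ≤ 56 * c * p * √p := by positivity
    exact le_of_abs_le (abs_le_of_sq_le_sq h4 hnn)
  rw [le_div_iff₀ hε]
  linarith [h6, mul_comm ε T]

end HopfBig
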