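import Pool.Agent.Lib.MP_4a593f_gt.Big.T3

/-! Task T6: the error of one high mode (the key new point).

`i ≠ i0`, `d = d_i > 0`, `E = E_i`, `u = cS a ω`, `λ = d i0`.  `G = [E, L0]`, `⟨E,[L0,L]⟩ = ⟨G,L⟩`;
`A = (1/2) Mu u [E,J]`, `⟨E, Yu L⟩ = ⟨A, L⟩`.  `bal` with the 4-form `four_wedge G A`:
`∑⟨G,P⟩⟨A,P⟩ = ∑_j (⟨G,N_j⟩⟨A,N_j⟩ - (1/2)tr(G N_j A N_j)) + (1/2) ∑ tr(G P A P)`.
N-part: `≤ 3 |G||A| ∑|N_j|²` (`ip_cauchy`, `abs_trace4_le`), `|G| ≤ 2/√λ`, `|A| ≤ 1`; times `d ≤ p`,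
`λ ≥ p/2`: `≤ 9 √p`.
P-part: `L0 = λ^{-1/2} c J c`, so
`tr(G P A P) = tr(E L0 P A P) - tr(L0 E P A P)`,
`tr(E L0 P u H u P) = λ^{-1/2} tr( (E c J) (c P u) · H (u P) )`, `H = (1/2)[E,J]`, bounded by
`λ^{-1/2} ‖E‖ ‖H‖ ‖cPu‖_HS ‖uP‖_HS`, `‖E‖, ‖H‖ ≤ 1/√d` (`Eig.opLe`, `opLe_J`), and the second
trace in the same way (`P u = -(u P)ᵀ`).  `‖cPu‖² ≤ ‖cPc‖² = 2|M|² = 2(|Y|²+|B|²)` (weights `cw a`),
`‖uP‖² ≤ (1/ω)(λ|V|² + 2|B|²)` (`hs_cSL`).  Sum over the family by Cauchy-Schwarz: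
`(d/2) ∑|tr| ≤ λ^{-1/2} √(2(yA+yB)) √((λ vV + 2 yB)/ω) ≤ √(2/p) √(34p/ε²) √((2p²+18p)/(ε²ω))
 ≤ 18 p/(ε² √ω)`. -/

open scoped BigOperators

namespace HopfBig

variable {n : ℕ} {p : ℝ} {H : Type} [NormedAddCommGroup H] [InnerProductSpace ℝ H]
  {X : FormData n p H} {m : ℕ} {E : Fin m → Mat n} {d : Fin m → ℝ} {i0 : Fin m} {J : Mat n}
  {a : Fin n → ℝ} {ι κ : Type} [Fintype ι] [Fintype κ] {P : ι → Mat n} {N : κ → Mat n} {ε : ℝ}


private theorem T6_Mu_eq (u : Fin n → ℝ) (L : Mat n) :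
    Mu u L = Matrix.diagonal u * L * Matrix.diagonal u := by
  ext i j
  rw [Matrix.mul_diagonal, Matrix.diagonal_mul]
  rfl

/-- `⟨E, Yu L⟩ = ⟨(1/2) u [E,J] u, L⟩` -/
theorem ip_Yu_adj {E L : Mat n} (hE : Skew E) (hJ : Skew J) (hL : Skew L) (u : Fin n → ℝ) :
    ip E (Yu J u L) = ip ((1 / 2 : ℝ) • Mu u (br E J)) L := by
  have h1 : Yu J u L = (1 / 2 : ℝ) • br J (Mu u L) := rfl
  rw [h1, ip_smul_right, ip_smul_left, ip_br hE hJ (Skew.Mu u hL)]
  congr 1
  unfold ip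
  congr 1
  refine Finset.sum_congr rfl fun i _ => Finset.sum_congr rfl fun j _ => ?_
  simp only [Mu, Matrix.of_apply]
  ring

private theorem T6_hs_neg (A : Mat n) : hs (-A) = hs A := by
  unfold hs
  refine Finset.sum_congr rfl fun i _ => Finset.sum_congr rfl fun j _ => ?_
  rw [Matrix.neg_apply, neg_sq]

private theorem T6_sqrt {r x y : ℝ} (hr : 0 ≤ r) (h : x ≤ r ^ 2 * y) : √x ≤ r * √y := by
  calc √x ≤ √(r ^ 2 * y) := Real.sqrt_le_sqrt h
    _ = r * √y := by rw [Real.sqrt_mul (sq_nonneg _), Real.sqrt_sq hr]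

private theorem T6_cJc {L0 : Mat n} {lam : ℝ} (h : Frame L0 J a lam) :
    √lam • L0 = Matrix.diagonal (cw a) * J * Matrix.diagonal (cw a) := by
  ext i j
  rw [Matrix.smul_apply, smul_eq_mul, h.hL0, Matrix.mul_diagonal, Matrix.diagonal_mul]
  by_cases hJ : J i j = 0
  · rw [hJ]; ring
  · have e : cw a j = cw a i := by
      unfold cw
      rw [h.comm i j hJ]
    rw [e]
    have : cw a i * cw a i = a i := Real.mul_self_sqrt (h.a_nonneg i)
    calc a i * J i j = (cw a i * cw a i) * J i j := by rw [this]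
      _ = cw a i * J i j * cw a i := by ring

/-- the trace estimate for one 2-form `L` -/
theorem Frame.trace_bound {L0 : Mat n} {lam : ℝ} (h : Frame L0 J a lam) {E L : Mat n}
    (hE : Skew E) (hL : Skew L) {r : ℝ} (hr : OpLe E r) (ω : ℝ) :
    √lam * |∑ i, (br E L0 * L * ((1 / 2 : ℝ) • Mu (cS a ω) (br E J)) * L) i i| ≤
      2 * r ^ 2 * √(hs (Mu (cw a) L)) * √(hs (Matrix.diagonal (cS a ω) * L)) := by
  obtain ⟨c, hc⟩ : ∃ c, c = Matrix.diagonal (cw a) := ⟨_, rfl⟩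
  obtain ⟨u, hu⟩ : ∃ u, u = Matrix.diagonal (cS a ω) := ⟨_, rfl⟩
  obtain ⟨Hm, hHm⟩ : ∃ Hm, Hm = (1 / 2 : ℝ) • br E J := ⟨_, rfl⟩
  have hr0 := hr.1
  have hcop : OpLe c 1 := by
    rw [hc]
    refine OpLe.diag zero_le_one fun i => ?_
    unfold cw
    rw [abs_of_nonneg (Real.sqrt_nonneg _)]
    exact Real.sqrt_le_one.2 (h.a_le i)
  have hJop : OpLe J 1 := h.opLe_J
  have hHop : OpLe Hm r := by
    have h1 : OpLe (br E J) (r * 1 + 1 * r) := (hr.mul hJop).sub (hJop.mul hr)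
    have h2 := h1.smul (1 / 2)
    rw [← hHm] at h2
    refine h2.mono (le_of_eq ?_)
    rw [abs_of_pos (by norm_num)]
    ring
  have hA : (1 / 2 : ℝ) • Mu (cS a ω) (br E J) = u * Hm * u := by
    rw [T6_Mu_eq, hu, hHm, Matrix.mul_smul, Matrix.smul_mul]
  have hLt := hL.transpose
  have hut : u.transpose = u := by rw [hu, Matrix.diagonal_transpose]
  have hct : c.transpose = c := by rw [hc, Matrix.diagonal_transpose]
  have hLu : hs (L * u) = hs (u * L) := by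
    rw [← hs_transpose, Matrix.transpose_mul, hLt, hut, Matrix.mul_neg, T6_hs_neg]
  have huLc : hs (u * L * c) = hs (c * L * u) := by
    rw [← hs_transpose, Matrix.transpose_mul, Matrix.transpose_mul, hLt, hut, hct,
      Matrix.neg_mul, Matrix.mul_neg, T6_hs_neg, Matrix.mul_assoc]
  have hcLu : hs (c * L * u) ≤ hs (Mu (cw a) L) := by
    rw [hc, hu]
    unfold hs
    refine Finset.sum_le_sum fun i _ => Finset.sum_le_sum fun j _ => ?_
    rw [Matrix.mul_diagonal, Matrix.diagonal_mul]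
    simp only [Mu, Matrix.of_apply]
    unfold cS
    split_ifs with hω
    · exact le_of_eq rfl
    · rw [mul_zero, zero_pow two_ne_zero]
      exact sq_nonneg _
  have hs1 : √(hs (c * L * u)) ≤ √(hs (Mu (cw a) L)) := Real.sqrt_le_sqrt hcLu
  -- the two traces
  have key : √lam * ∑ i, (br E L0 * L * ((1 / 2 : ℝ) • Mu (cS a ω) (br E J)) * L) i i =
      ∑ i, ((E * c * J * (c * L * u)) * (Hm * (u * L))) i i -
        ∑ i, ((u * L * c) * (J * c * E) * ((L * u) * Hm)) i i := by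
    have e1 : ∀ M : Mat n, ∑ i, M i i = M.trace := fun M => rfl
    rw [e1, e1, e1, hA, ← smul_eq_mul, ← Matrix.trace_smul, ← Matrix.smul_mul, ← Matrix.smul_mul,
      ← Matrix.smul_mul]
    have e2 : √lam • br E L0 = E * (c * J * c) - (c * J * c) * E := by
      unfold br
      rw [smul_sub, ← Matrix.mul_smul, ← Matrix.smul_mul, T6_cJc h, ← hc]
    rw [e2, Matrix.sub_mul, Matrix.sub_mul, Matrix.sub_mul, Matrix.trace_sub]
    have f1 : E * (c * J * c) * L * (u * Hm * u) * L =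
        (E * c * J * (c * L * u)) * (Hm * (u * L)) := by
      simp only [Matrix.mul_assoc]
    have f2 : c * J * c * E * L * (u * Hm * u) * L =
        (c * J * c * E * L * u * Hm) * (u * L) := by
      simp only [Matrix.mul_assoc]
    have f3 : (u * L) * (c * J * c * E * L * u * Hm) =
        (u * L * c) * (J * c * E) * ((L * u) * Hm) := by
      simp only [Matrix.mul_assoc]
    rw [f1, f2, Matrix.trace_mul_comm (c * J * c * E * L * u * Hm) (u * L), f3]
  have t1 : |∑ i, ((E * c * J * (c * L * u)) * (Hm * (u * L))) i i| ≤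
      (r * √(hs (Mu (cw a) L))) * (r * √(hs (u * L))) := by
    refine (abs_trace_mul_le _ _).trans ?_
    have h1 : OpLe (E * c * J) r := by
      refine ((hr.mul hcop).mul hJop).mono (le_of_eq ?_)
      ring
    have h2 := T6_sqrt hr0 (hs_mul_le_left h1 (c * L * u))
    have h3 := T6_sqrt hr0 (hs_mul_le_left hHop (u * L))
    refine mul_le_mul (h2.trans ?_) h3 (Real.sqrt_nonneg _) (by positivity)
    exact mul_le_mul_of_nonneg_left hs1 hr0
  have t2 : |∑ i, ((u * L * c) * (J * c * E) * ((L * u) * Hm)) i i| ≤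
      (r * √(hs (Mu (cw a) L))) * (r * √(hs (u * L))) := by
    refine (abs_trace_mul_le _ _).trans ?_
    have h1 : OpLe (J * c * E) r := by
      refine ((hJop.mul hcop).mul hr).mono (le_of_eq ?_)
      ring
    have h2 := T6_sqrt hr0 (hs_mul_le_right h1 (u * L * c))
    have h3 := T6_sqrt hr0 (hs_mul_le_right hHop (L * u))
    rw [huLc] at h2
    rw [hLu] at h3
    refine mul_le_mul (h2.trans ?_) h3 (Real.sqrt_nonneg _) (by positivity)
    exact mul_le_mul_of_nonneg_left hs1 hr0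
  rw [← abs_of_nonneg (Real.sqrt_nonneg lam), ← abs_mul, key]
  refine (abs_sub _ _).trans ?_
  rw [← hu]
  calc _ ≤ (r * √(hs (Mu (cw a) L))) * (r * √(hs (u * L))) +
        (r * √(hs (Mu (cw a) L))) * (r * √(hs (u * L))) := add_le_add t1 t2
    _ = 2 * r ^ 2 * √(hs (Mu (cw a) L)) * √(hs (u * L)) := by ring


private theorem T6_G_le (S : Sit X E d i0 J a P N ε) (i : Fin m) :
    √(d i0) * √(ip (br (E i) (E i0)) (br (E i) (E i0))) ≤ 2 := by
  have hl : 0 < d i0 := S.frame.lam_pos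
  have h1 : OpLe (E i0) (1 / √(d i0)) := S.eig.opLe hl
  have h2 := ip_br_le h1 (B := E i)
  have h3 : ip (E i) (E i) = 1 := by rw [S.eig.orth, if_pos rfl]
  have h4 : ip (br (E i) (E i0)) (br (E i) (E i0)) =
      ip (br (E i0) (E i)) (br (E i0) (E i)) := by
    rw [br_neg_comm (E i) (E i0)]
    unfold ip
    congr 1
    refine Finset.sum_congr rfl fun k _ => Finset.sum_congr rfl fun l _ => ?_
    rw [Matrix.neg_apply]
    ring
  rw [← Real.sqrt_mul hl.le, h4]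
  rw [h3, mul_one, div_pow, Real.sq_sqrt hl.le, one_pow] at h2
  have h5 : d i0 * ip (br (E i0) (E i)) (br (E i0) (E i)) ≤ 2 ^ 2 := by
    calc d i0 * ip (br (E i0) (E i)) (br (E i0) (E i)) ≤ d i0 * (4 * (1 / d i0)) :=
          mul_le_mul_of_nonneg_left h2 hl.le
      _ = 2 ^ 2 := by
        field_simp
        norm_num
  calc √(d i0 * ip (br (E i0) (E i)) (br (E i0) (E i))) ≤ √(2 ^ 2) := Real.sqrt_le_sqrt h5
    _ = 2 := Real.sqrt_sq (by norm_num)

private theorem T6_A_le (S : Sit X E d i0 J a P N ε) {u : Fin n → ℝ} (hu : Wt J a u)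
    (i : Fin m) :
    ip ((1 / 2 : ℝ) • Mu u (br (E i) J)) ((1 / 2 : ℝ) • Mu u (br (E i) J)) ≤ 1 := by
  have h2 := ip_br_le S.frame.opLe_J (B := E i)
  have h3 : ip (E i) (E i) = 1 := by rw [S.eig.orth, if_pos rfl]
  have h4 : ip (br (E i) J) (br (E i) J) = ip (br J (E i)) (br J (E i)) := by
    rw [br_neg_comm (E i) J]
    unfold ip
    congr 1
    refine Finset.sum_congr rfl fun k _ => Finset.sum_congr rfl fun l _ => ?_
    rw [Matrix.neg_apply]
    ring
  have h5 := T2.ip_Mu_le (fun i => (hu.2 i).1) (T2.wt_le_one S hu) (br (E i) J)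
  rw [ip_smul_left, ip_smul_right]
  rw [h4] at h5
  rw [h3] at h2
  linarith

private theorem T6_pieces (S : Sit X E d i0 J a P N ε) {ω : ℝ} {i : Fin m}
    (hdi : 0 < d i) {L : Mat n} (hL : Skew L) :
    √(d i0) * (d i * |∑ k, (br (E i) (E i0) * L *
      ((1 / 2 : ℝ) • Mu (cS a ω) (br (E i) J)) * L) k k|) ≤
      2 * (√(hs (Mu (cw a) L)) * √(hs (Matrix.diagonal (cS a ω) * L))) := by
  have h1 := S.frame.trace_bound (S.eig.skew i) hL (S.eig.opLe hdi) ω
  rw [div_pow, Real.sq_sqrt hdi.le, one_pow] at h1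
  calc _ = d i * (√(d i0) * |∑ k, (br (E i) (E i0) * L *
      ((1 / 2 : ℝ) • Mu (cS a ω) (br (E i) J)) * L) k k|) := by ring
    _ ≤ d i * (2 * (1 / d i) * √(hs (Mu (cw a) L)) *
        √(hs (Matrix.diagonal (cS a ω) * L))) := mul_le_mul_of_nonneg_left h1 hdi.le
    _ = 2 * (√(hs (Mu (cw a) L)) * √(hs (Matrix.diagonal (cS a ω) * L))) := by
      field_simp

private theorem T6_Ppart (S : Sit X E d i0 J a P N ε) {ω : ℝ} (hω : 0 < ω) {i : Fin m}
    (hdi : 0 < d i) :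
    √(d i0) * (d i * ∑ α, |∑ k, (br (E i) (E i0) * P α *
      ((1 / 2 : ℝ) • Mu (cS a ω) (br (E i) J)) * P α) k k|) ≤
      2 * (√(34 * p / ε ^ 2) * √((2 * p ^ 2 + 18 * p) / (ε ^ 2 * ω))) := by
  have hε := S.eps_pos
  have hp := S.p_big
  have hl : 0 < d i0 := S.frame.lam_pos
  have e1 : √(d i0) * (d i * ∑ α, |∑ k, (br (E i) (E i0) * P α *
      ((1 / 2 : ℝ) • Mu (cS a ω) (br (E i) J)) * P α) k k|) =
      ∑ α, √(d i0) * (d i * |∑ k, (br (E i) (E i0) * P α *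
      ((1 / 2 : ℝ) • Mu (cS a ω) (br (E i) J)) * P α) k k|) := by
    rw [Finset.mul_sum, Finset.mul_sum]
  rw [e1]
  refine (Finset.sum_le_sum fun α _ => T6_pieces S hdi (S.skP α)).trans ?_
  rw [← Finset.mul_sum]
  have h3 := Real.sum_sqrt_mul_sqrt_le Finset.univ
    (f := fun α => hs (Mu (cw a) (P α)))
    (g := fun α => hs (Matrix.diagonal (cS a ω) * P α))
    (fun α => hs_nonneg _) (fun α => hs_nonneg _)
  refine mul_le_mul_of_nonneg_left (h3.trans ?_) (by norm_num)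
  have hA : ∑ α, hs (Mu (cw a) (P α)) ≤ 34 * p / ε ^ 2 := by
    have e : ∑ α, hs (Mu (cw a) (P α)) = 2 * (yA J (cw a) P + yB J (cw a) P) := by
      unfold yA yB
      rw [← Finset.sum_add_distrib, Finset.mul_sum]
      refine Finset.sum_congr rfl fun α _ => ?_
      rw [S.frame.pyth S.frame.wt_cw (S.skP α), two_ip_self]
    rw [e, le_div_iff₀ (by positivity)]
    have h1 := S.yA_le
    have h2 := S.yB_le
    nlinarith
  have hB : ∑ α, hs (Matrix.diagonal (cS a ω) * P α) ≤ (2 * p ^ 2 + 18 * p) / (ε ^ 2 * ω) := by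
    have e : ω * ∑ α, hs (Matrix.diagonal (cS a ω) * P α) ≤
        d i0 * vV (E i0) P + 2 * yB J (cw a) P := by
      unfold vV yB
      rw [Finset.mul_sum, Finset.mul_sum, Finset.mul_sum, ← Finset.sum_add_distrib]
      exact Finset.sum_le_sum fun α _ => S.frame.hs_cSL hω (S.skP α)
    rw [le_div_iff₀ (by positivity)]
    have h1 := S.vV_le
    have h2 := S.yB_le
    have h4 := S.lam_le
    have hv : 0 ≤ vV (E i0) P := Finset.sum_nonneg fun _ _ => ip_self_nonneg _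
    calc (∑ α, hs (Matrix.diagonal (cS a ω) * P α)) * (ε ^ 2 * ω)
        = ε ^ 2 * (ω * ∑ α, hs (Matrix.diagonal (cS a ω) * P α)) := by ring
      _ ≤ ε ^ 2 * (d i0 * vV (E i0) P + 2 * yB J (cw a) P) :=
          mul_le_mul_of_nonneg_left e (sq_nonneg _)
      _ = d i0 * (ε ^ 2 * vV (E i0) P) + 2 * (ε ^ 2 * yB J (cw a) P) := by ring
      _ ≤ d i0 * (2 * p) + 2 * (9 * p) :=
          add_le_add (mul_le_mul_of_nonneg_left h1 hl.le)
            (mul_le_mul_of_nonneg_left h2 (by norm_num))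
      _ ≤ p * (2 * p) + 2 * (9 * p) :=
          add_le_add (mul_le_mul_of_nonneg_right h4 (by linarith)) le_rfl
      _ = 2 * p ^ 2 + 18 * p := by ring
  exact mul_le_mul (Real.sqrt_le_sqrt hA) (Real.sqrt_le_sqrt hB) (Real.sqrt_nonneg _)
    (Real.sqrt_nonneg _)

theorem Sit.high (S : Sit X E d i0 J a P N ε) {ω : ℝ} (hω : 0 < ω) {i : Fin m} (hi : i ≠ i0)
    (hdi : 0 < d i) :
    d i * ∑ α, ip (E i) (br (E i0) (P α)) * ip (E i) (Yu J (cS a ω) (P α)) ≤
      9 * √p + 18 * p / (ε ^ 2 * √ω) := by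
  have hε := S.eps_pos
  have hp := S.p_big
  have hl : 0 < d i0 := S.frame.lam_pos
  have hpp : 0 < p := by linarith
  have hwt := S.frame.wt_cS ω
  obtain ⟨G, hG⟩ : ∃ G, G = br (E i) (E i0) := ⟨_, rfl⟩
  obtain ⟨A, hA⟩ : ∃ A, A = (1 / 2 : ℝ) • Mu (cS a ω) (br (E i) J) := ⟨_, rfl⟩
  have skG : Skew G := by
    rw [hG]
    exact Skew.br (S.eig.skew i) (S.eig.skew i0)
  have skA : Skew A := by
    rw [hA]
    exact Skew.smul _ (Skew.Mu _ (Skew.br (S.eig.skew i) S.frame.skewJ))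
  have e1 : ∀ α, ip (E i) (br (E i0) (P α)) * ip (E i) (Yu J (cS a ω) (P α)) =
      ip G (P α) * ip A (P α) := by
    intro α
    rw [ip_br (S.eig.skew i) (S.eig.skew i0) (S.skP α),
      ip_Yu_adj (S.eig.skew i) S.frame.skewJ (S.skP α), hG, hA]
  rw [Finset.sum_congr rfl fun α _ => e1 α]
  have hbal := S.bal _ (four_wedge skG skA)
  rw [Finset.sum_sub_distrib, Finset.sum_sub_distrib] at hbal
  -- N part
  have hGl := T6_G_le S i
  rw [← hG] at hGl
  have hAl := T6_A_le S hwt i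
  rw [← hA] at hAl
  have hAs : √(ip A A) ≤ 1 := Real.sqrt_le_one.2 hAl
  have hN : √(d i0) * (∑ j, ip G (N j) * ip A (N j) -
      ∑ j, (1 / 2) * ∑ k, (G * N j * A * N j) k k) ≤ 6 := by
    have h1 : ∀ j, ip G (N j) * ip A (N j) - (1 / 2) * ∑ k, (G * N j * A * N j) k k ≤
        3 * (√(ip G G) * √(ip A A)) * ip (N j) (N j) := by
      intro j
      have h2 := abs_trace4_le G A (N j)
      have h3 : ip G (N j) * ip A (N j) ≤ √(ip G G) * √(ip A A) * ip (N j) (N j) := by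
        calc ip G (N j) * ip A (N j) ≤ |ip G (N j) * ip A (N j)| := le_abs_self _
          _ = |ip G (N j)| * |ip A (N j)| := abs_mul _ _
          _ ≤ (√(ip G G) * √(ip (N j) (N j))) * (√(ip A A) * √(ip (N j) (N j))) :=
              mul_le_mul (ip_cauchy _ _) (ip_cauchy _ _) (abs_nonneg _) (by positivity)
          _ = √(ip G G) * √(ip A A) * (√(ip (N j) (N j)) * √(ip (N j) (N j))) := by ring
          _ = √(ip G G) * √(ip A A) * ip (N j) (N j) := by
            rw [Real.mul_self_sqrt (ip_self_nonneg _)]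
      have h4 := (abs_le.1 h2).1
      linarith
    rw [← Finset.sum_sub_distrib]
    calc √(d i0) * ∑ j, (ip G (N j) * ip A (N j) - (1 / 2) * ∑ k, (G * N j * A * N j) k k)
        ≤ √(d i0) * ∑ j, 3 * (√(ip G G) * √(ip A A)) * ip (N j) (N j) :=
          mul_le_mul_of_nonneg_left (Finset.sum_le_sum fun j _ => h1 j) (Real.sqrt_nonneg _)
      _ = 3 * (√(d i0) * √(ip G G)) * √(ip A A) := by
          rw [← Finset.mul_sum, S.trN]
          ring
      _ ≤ 3 * 2 * 1 := by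
          apply mul_le_mul _ hAs (Real.sqrt_nonneg _) (by norm_num)
          exact mul_le_mul_of_nonneg_left hGl (by norm_num)
      _ = 6 := by norm_num
  -- P part
  have hP := T6_Ppart S hω hdi
  rw [← hG, ← hA] at hP
  have hPsum : (∑ α, (1 / 2) * ∑ k, (G * P α * A * P α) k k) ≤
      1 / 2 * ∑ α, |∑ k, (G * P α * A * P α) k k| := by
    rw [Finset.mul_sum]
    exact Finset.sum_le_sum fun α _ =>
      mul_le_mul_of_nonneg_left (le_abs_self _) (by norm_num)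
  have hsl : √(p / 2) ≤ √(d i0) := Real.sqrt_le_sqrt S.lam_half
  have hsp : 0 < √(p / 2) := Real.sqrt_pos.2 (by linarith)
  have hsl0 : 0 < √(d i0) := Real.sqrt_pos.2 hl
  have hdp := S.d_half hi
  -- total
  have htot : √(d i0) * (d i * ∑ α, ip G (P α) * ip A (P α)) ≤
      d i * 6 + √(34 * p / ε ^ 2) * √((2 * p ^ 2 + 18 * p) / (ε ^ 2 * ω)) := by
    have h5 : ∑ α, ip G (P α) * ip A (P α) =
        (∑ j, ip G (N j) * ip A (N j) - ∑ j, (1 / 2) * ∑ k, (G * N j * A * N j) k k) +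
          ∑ α, (1 / 2) * ∑ k, (G * P α * A * P α) k k := by linarith
    have h6 : √(d i0) * (d i * ∑ α, (1 / 2) * ∑ k, (G * P α * A * P α) k k) ≤
        √(34 * p / ε ^ 2) * √((2 * p ^ 2 + 18 * p) / (ε ^ 2 * ω)) := by
      have h7 := mul_le_mul_of_nonneg_left hPsum (mul_nonneg hsl0.le hdi.le)
      calc _ = √(d i0) * d i * ∑ α, (1 / 2) * ∑ k, (G * P α * A * P α) k k := by ring
        _ ≤ √(d i0) * d i * (1 / 2 * ∑ α, |∑ k, (G * P α * A * P α) k k|) := h7
        _ = 1 / 2 * (√(d i0) * (d i * ∑ α, |∑ k, (G * P α * A * P α) k k|)) := by ring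
        _ ≤ 1 / 2 * (2 * (√(34 * p / ε ^ 2) * √((2 * p ^ 2 + 18 * p) / (ε ^ 2 * ω)))) :=
            mul_le_mul_of_nonneg_left hP (by norm_num)
        _ = _ := by ring
    rw [h5]
    have h8 := mul_le_mul_of_nonneg_left hN hdi.le
    calc _ = d i * (√(d i0) * (∑ j, ip G (N j) * ip A (N j) -
          ∑ j, (1 / 2) * ∑ k, (G * N j * A * N j) k k)) +
          √(d i0) * (d i * ∑ α, (1 / 2) * ∑ k, (G * P α * A * P α) k k) := by ring
      _ ≤ _ := add_le_add h8 h6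
  set T := d i * ∑ α, ip G (P α) * ip A (P α) with hT
  by_cases hT0 : T ≤ 0
  · refine hT0.trans ?_
    positivity
  push Not at hT0
  have h9 : √(p / 2) * T ≤ p / 2 * 6 +
      √(34 * p / ε ^ 2) * √((2 * p ^ 2 + 18 * p) / (ε ^ 2 * ω)) := by
    calc √(p / 2) * T ≤ √(d i0) * T := mul_le_mul_of_nonneg_right hsl hT0.le
      _ ≤ _ := htot
      _ ≤ _ := by linarith
  have h10 : p / 2 * 6 ≤ √(p / 2) * (9 * √p) := by
    have e : √(p / 2) * √p = p / √2 := by
      rw [Real.sqrt_div hpp.le, div_mul_eq_mul_div, Real.mul_self_sqrt hpp.le]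
    have h2 : √2 ≤ 2 := by
      rw [Real.sqrt_le_left (by norm_num)]
      norm_num
    calc p / 2 * 6 ≤ 9 * (p / 2) := by linarith
      _ ≤ 9 * (p / √2) := by
          apply mul_le_mul_of_nonneg_left _ (by norm_num)
          exact div_le_div_of_nonneg_left hpp.le (by positivity) h2
      _ = √(p / 2) * (9 * √p) := by rw [← e]; ring
  have h11 : √(34 * p / ε ^ 2) * √((2 * p ^ 2 + 18 * p) / (ε ^ 2 * ω)) ≤
      √(p / 2) * (18 * p / (ε ^ 2 * √ω)) := by
    rw [← Real.sqrt_mul (by positivity)]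
    have e : √(p / 2) * (18 * p / (ε ^ 2 * √ω)) =
        √((p / 2) * (18 * p / (ε ^ 2 * √ω)) ^ 2) := by
      rw [Real.sqrt_mul (by positivity), Real.sqrt_sq (by positivity)]
    rw [e]
    apply Real.sqrt_le_sqrt
    rw [div_pow, mul_pow (ε ^ 2), Real.sq_sqrt hω.le, div_mul_div_comm, ← mul_div_assoc,
      div_le_div_iff₀ (by positivity) (by positivity)]
    have h12 : 34 * p * (2 * p ^ 2 + 18 * p) ≤ p / 2 * (18 * p) ^ 2 := by
      nlinarith [mul_pos hpp hpp, mul_nonneg (mul_pos hpp hpp).le (sub_nonneg.2 hp)]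
    calc 34 * p * (2 * p ^ 2 + 18 * p) * ((ε ^ 2) ^ 2 * ω)
        ≤ p / 2 * (18 * p) ^ 2 * ((ε ^ 2) ^ 2 * ω) :=
          mul_le_mul_of_nonneg_right h12 (by positivity)
      _ = p / 2 * (18 * p) ^ 2 * (ε ^ 2 * (ε ^ 2 * ω)) := by ring
  have h12 : √(p / 2) * T ≤ √(p / 2) * (9 * √p + 18 * p / (ε ^ 2 * √ω)) := by
    rw [mul_add]
    linarith
  exact le_of_mul_le_mul_left h12 hsp

end HopfBig
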