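import Pool.Agent.Lib.MP_4a593f_gt.Big.T4
import Pool.Agent.Lib.MP_4a593f_gt.Big.T5
import Pool.Agent.Lib.MP_4a593f_gt.Big.T6

/-! Task T7: end of the dual argument.

`final_real`: put `L = √(λ/p) ∈ (0,1]`, `s = (1+w)/(L w)`.  From (i) and
`2√(D 𝒟) ≤ s D + 𝒟/s`:  `2√λ y - E - 2√(D y) ≤ √p (s D + (λ(1-w) + 2y + e)/s)`; divide by `√p`:
`(2L - 2/s) y ≤ s D + (λ(1-w)+e)/s + (E + 2√(D y))/√p`, where `2L - 2/s = 2L/(1+w) ≥ 0`, use
`y ≥ λ w - e`:  `s D ≥ (2L/(1+w)) (λw - e) - (λ(1-w)+e) L w/(1+w) - (E+2√(Dy))/√p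
 = L λ w - e L (2+w)/(1+w) - (E+2√(Dy))/√p`; multiply by `L w/(1+w) ≤ 1` and by `p`.

`square_identity`: `λ²w² - p(1+w)(λw + (p-λ)(1-w) - p/2)
   = ((p-b)²/4) w² + (b p/2)(1-w)` with `b = 2λ - p ≥ 0`.

Final: `c = ε²/1000`, `κ = ω₀ = ε/16`, `K = 16/ε²` in `exists_cut`; choose `ω` for the family;
`e = cross + ω p + 1 ≤ (ε/8) p + 1`, `E = ` low + number of high modes times the bound
`≤ 56 c p√p/ε + (2/c)(9√p + 18p/(ε²√ω₁))`, `y = yA (cS)`, `𝒟 = dY (cS) ≤ λ + yA + yB ≤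
λ(1-w) + 2y + e` (`dY_le`, `test1'`), (i) from `uncert_sum` and `ip_V_Yu_ge`.
Together with `dPerp_lt` and the identity this is a contradiction for large `p`:
`(ε/2) p² < 2 e p + √p (E + 2√(D y))`, `2√(D y) ≤ 4p/ε`. -/

open scoped BigOperators

namespace HopfBig

theorem final_real {p lam w y D DD e E : ℝ} (hp : 0 < p) (hl : p / 2 ≤ lam) (hl' : lam ≤ p)
    (hw : 0 < w) (hw1 : w ≤ 1) (hy : 0 ≤ y) (hD : 0 ≤ D) (hDD : 0 ≤ DD) (he : 0 ≤ e)
    (hE : 0 ≤ E)
    (h1 : 2 * √lam * y - E ≤ √D * (2 * √p * √DD + 2 * √y))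
    (h2 : DD ≤ lam * (1 - w) + 2 * y + e) (h3 : lam * w - e ≤ y) :
    lam ^ 2 * w ^ 2 / (1 + w) ≤ p * D + 2 * e * p + √p * (E + 2 * √(D * y)) := by
  have hlam : 0 < lam := by linarith
  have hw1' : 0 < 1 + w := by linarith
  have hsp : 0 < √p := Real.sqrt_pos.2 hp
  have hsl : 0 < √lam := Real.sqrt_pos.2 hlam
  have hsp2 : √p * √p = p := Real.mul_self_sqrt hp.le
  have hsl2 : √lam * √lam = lam := Real.mul_self_sqrt hlam.le
  have hD2 : √D * √D = D := Real.mul_self_sqrt hD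
  have hDD2 : √DD * √DD = DD := Real.mul_self_sqrt hDD
  have hDy : √(D * y) = √D * √y := Real.sqrt_mul hD y
  have hslp : √lam ≤ √p := Real.sqrt_le_sqrt hl'
  set G : ℝ := E + 2 * √(D * y) with hG
  have hG0 : 0 ≤ G := by
    have := Real.sqrt_nonneg (D * y)
    rw [hG]
    linarith
  -- from the uncertainty relation
  have h4 : 2 * √lam * y - G ≤ 2 * √p * (√D * √DD) := by
    have : √D * (2 * √p * √DD + 2 * √y) = 2 * √p * (√D * √DD) + 2 * (√D * √y) := by ring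
    rw [this] at h1
    rw [hG, hDy]
    linarith
  -- arithmetic-geometric mean
  have h5 : 2 * (√D * √DD) * (√lam * w * (√p * (1 + w))) ≤
      p * (1 + w) ^ 2 * D + lam * w ^ 2 * DD := by
    have h6 := sq_nonneg (√p * (1 + w) * √D - √lam * w * √DD)
    have h7 : (√p * (1 + w) * √D - √lam * w * √DD) ^ 2 =
        (√p * √p) * (1 + w) ^ 2 * (√D * √D) + (√lam * √lam) * w ^ 2 * (√DD * √DD) -
          2 * (√D * √DD) * (√lam * w * (√p * (1 + w))) := by ring
    rw [h7, hsp2, hsl2, hD2, hDD2] at h6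
    linarith
  have h8 : (2 * lam * y - √lam * G) * (w * (1 + w)) ≤
      p * (1 + w) ^ 2 * D + lam * w ^ 2 * DD := by
    have h9 : (2 * √lam * y - G) * (√lam * w * (1 + w)) ≤
        2 * √p * (√D * √DD) * (√lam * w * (1 + w)) :=
      mul_le_mul_of_nonneg_right h4 (by positivity)
    have h10 : (2 * √lam * y - G) * (√lam * w * (1 + w)) =
        (2 * (√lam * √lam) * y - √lam * G) * (w * (1 + w)) := by ring
    have h11 : 2 * √p * (√D * √DD) * (√lam * w * (1 + w)) =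
        2 * (√D * √DD) * (√lam * w * (√p * (1 + w))) := by ring
    rw [h10, h11, hsl2] at h9
    linarith
  -- the key inequality
  have h12 : lam ^ 2 * w ^ 2 * (1 + w) ≤
      p * (1 + w) ^ 2 * D + lam * w * (2 + w) * e + √lam * w * (1 + w) * G := by
    have h13 : lam * w ^ 2 * DD ≤ lam * w ^ 2 * (lam * (1 - w) + 2 * y + e) :=
      mul_le_mul_of_nonneg_left h2 (by positivity)
    have h14 : 2 * lam * w * (lam * w - e) ≤ 2 * lam * w * y :=
      mul_le_mul_of_nonneg_left h3 (by positivity)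
    nlinarith
  -- conclusion
  rw [div_le_iff₀ hw1']
  have h15 : lam * w * (2 + w) * e ≤ (1 + w) ^ 2 * (2 * e * p) := by
    have h16 : w * (2 + w) ≤ 2 * (1 + w) ^ 2 := by nlinarith
    calc lam * w * (2 + w) * e = (lam * e) * (w * (2 + w)) := by ring
      _ ≤ (p * e) * (2 * (1 + w) ^ 2) :=
          mul_le_mul (mul_le_mul_of_nonneg_right hl' he) h16 (by positivity) (by positivity)
      _ = (1 + w) ^ 2 * (2 * e * p) := by ring
  have h17 : √lam * w * (1 + w) * G ≤ (1 + w) ^ 2 * (√p * G) := by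
    have h18 : √lam * w ≤ √p * (1 + w) :=
      mul_le_mul hslp (by linarith) hw.le hsp.le
    calc √lam * w * (1 + w) * G = (√lam * w) * ((1 + w) * G) := by ring
      _ ≤ (√p * (1 + w)) * ((1 + w) * G) := mul_le_mul_of_nonneg_right h18 (by positivity)
      _ = (1 + w) ^ 2 * (√p * G) := by ring
  have h19 : (1 + w) * (lam ^ 2 * w ^ 2) ≤
      (1 + w) * ((p * D + 2 * e * p + √p * G) * (1 + w)) := by
    calc (1 + w) * (lam ^ 2 * w ^ 2) = lam ^ 2 * w ^ 2 * (1 + w) := by ring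
      _ ≤ p * (1 + w) ^ 2 * D + lam * w * (2 + w) * e + √lam * w * (1 + w) * G := h12
      _ ≤ p * (1 + w) ^ 2 * D + (1 + w) ^ 2 * (2 * e * p) + (1 + w) ^ 2 * (√p * G) := by
          linarith
      _ = (1 + w) * ((p * D + 2 * e * p + √p * G) * (1 + w)) := by ring
  exact le_of_mul_le_mul_left h19 hw1'

theorem square_identity {p lam w : ℝ} (hp : 0 < p) (hl : p / 2 ≤ lam) (hl' : lam ≤ p)
    (hw : 0 < w) (hw1 : w ≤ 1) :
    p * (lam * w + (p - lam) * (1 - w) - p / 2) ≤ lam ^ 2 * w ^ 2 / (1 + w) := by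
  have hw1' : 0 < 1 + w := by linarith
  rw [le_div_iff₀ hw1']
  have h1 : lam ^ 2 * w ^ 2 - p * (lam * w + (p - lam) * (1 - w) - p / 2) * (1 + w) =
      ((p - (2 * lam - p)) ^ 2 / 4) * w ^ 2 + ((2 * lam - p) * p / 2) * (1 - w) := by ring
  have h2 : 0 ≤ ((p - (2 * lam - p)) ^ 2 / 4) * w ^ 2 := by positivity
  have h3 : 0 ≤ ((2 * lam - p) * p / 2) * (1 - w) := by
    have h4 : 0 ≤ 2 * lam - p := by linarith
    have h5 : 0 ≤ 1 - w := by linarith
    positivity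
  linarith

variable {n : ℕ} {p : ℝ} {H : Type} [NormedAddCommGroup H] [InnerProductSpace ℝ H]
  {X : FormData n p H} {m : ℕ} {E : Fin m → Mat n} {d : Fin m → ℝ} {i0 : Fin m} {J : Mat n}
  {a : Fin n → ℝ} {ι κ : Type} [Fintype ι] [Fintype κ] {P : ι → Mat n} {N : κ → Mat n} {ε : ℝ}

/-- the total error; `h` = bound for the number of high modes -/
theorem Sit.err_le (S : Sit X E d i0 J a P N ε) {ω : ℝ} (hω : 0 < ω) {c : ℝ} (hc : 0 < c)
    (hc4 : c ≤ 1 / 4) (hcp : 1 ≤ c * p ^ 2)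
    (hcount : ((Finset.univ.filter fun i => c * p ≤ d i).card : ℝ) ≤ 2 / c) :
    err X (E i0) J (cS a ω) P ≤
      56 * c * p * √p / ε + 2 / c * (9 * √p + 18 * p / (ε ^ 2 * √ω)) := by
  have hp : 0 < p := by linarith [S.p_big]
  have hε : 0 < ε := S.eps_pos
  have hB : 0 ≤ 9 * √p + 18 * p / (ε ^ 2 * √ω) := by positivity
  rw [S.err_expand (S.frame.wt_cS ω)]
  rw [← Finset.sum_filter_add_sum_filter_not Finset.univ (fun i => d i < c * p)]
  have hlow := S.low ω hc hc4 hcp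
  have hfil : (Finset.univ.filter fun i => ¬ d i < c * p) =
      Finset.univ.filter fun i => c * p ≤ d i := by
    refine Finset.filter_congr (fun i _ => ?_)
    exact not_lt
  have hhigh : ∑ i with ¬ d i < c * p,
      d i * ∑ α, ip (E i) (br (E i0) (P α)) * ip (E i) (Yu J (cS a ω) (P α)) ≤
      2 / c * (9 * √p + 18 * p / (ε ^ 2 * √ω)) := by
    rw [hfil]
    calc ∑ i with c * p ≤ d i,
          d i * ∑ α, ip (E i) (br (E i0) (P α)) * ip (E i) (Yu J (cS a ω) (P α))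
        ≤ ∑ i with c * p ≤ d i, (9 * √p + 18 * p / (ε ^ 2 * √ω)) := by
          refine Finset.sum_le_sum (fun i hi => ?_)
          have hdi : 0 < d i :=
            lt_of_lt_of_le (by positivity) (Finset.mem_filter.1 hi).2
          by_cases h0 : i = i0
          · subst h0
            have h1 : ∀ α, ip (E i) (br (E i) (P α)) = 0 :=
              fun α => S.eig.ip_E0_br i (S.skP α)
            simp only [h1, zero_mul, Finset.sum_const_zero, mul_zero]
            exact hB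
          · exact S.high hω h0 hdi
      _ = ((Finset.univ.filter fun i => c * p ≤ d i).card : ℝ) *
            (9 * √p + 18 * p / (ε ^ 2 * √ω)) := by
          rw [Finset.sum_const, nsmul_eq_mul]
      _ ≤ 2 / c * (9 * √p + 18 * p / (ε ^ 2 * √ω)) := mul_le_mul_of_nonneg_right hcount hB
  linarith

theorem T7_yA_nonneg (J : Mat n) (u : Fin n → ℝ) (P : ι → Mat n) : 0 ≤ yA J u P :=
  Finset.sum_nonneg (fun _ _ => ip_self_nonneg _)

theorem T7_yB_nonneg (J : Mat n) (u : Fin n → ℝ) (P : ι → Mat n) : 0 ≤ yB J u P :=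
  Finset.sum_nonneg (fun _ _ => ip_self_nonneg _)

theorem T7_yA_mono (S : Sit X E d i0 J a P N ε) (ω : ℝ) :
    yA J (cS a ω) P ≤ yA J (cw a) P := by
  refine Finset.sum_le_sum (fun α _ => ?_)
  rw [S.frame.ip_Yu (S.frame.wt_cS ω), S.frame.ip_Yu S.frame.wt_cw]
  refine mul_le_mul_of_nonneg_left ?_ (by norm_num)
  have h1 : ∀ i, cS a ω i ^ 2 ≤ cw a i ^ 2 := by
    intro i
    unfold cS cw
    split_ifs
    · exact le_rfl
    · rw [zero_pow two_ne_zero]
      positivity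
  refine Finset.sum_le_sum (fun i _ => Finset.sum_le_sum (fun j _ => ?_))
  refine mul_le_mul_of_nonneg_right ?_ (sq_nonneg _)
  exact mul_le_mul (h1 i) (h1 j) (sq_nonneg _) (sq_nonneg _)

theorem sit_false (ε : ℝ) (hε : 0 < ε) (hε1 : ε ≤ 1 / 10) : ∃ p₀ : ℝ, ∀ (n : ℕ) (p : ℝ)
    (H : Type) [NormedAddCommGroup H] [InnerProductSpace ℝ H]
    (X : FormData n p H) (m : ℕ) (E : Fin m → Mat n) (d : Fin m → ℝ) (i0 : Fin m) (J : Mat n)
    (a : Fin n → ℝ) (ι κ : Type) [Fintype ι] [Fintype κ] (P : ι → Mat n) (N : κ → Mat n),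
    p₀ ≤ p →
    ((Finset.univ.filter fun i => ε ^ 2 / 1000 * p ≤ d i).card : ℝ) ≤ 2 / (ε ^ 2 / 1000) →
    ¬ Sit X E d i0 J a P N ε := by
  obtain ⟨ω₁, hω₁, -, hcut⟩ := exists_cut (16 / ε ^ 2) (ε / 16) (ε / 16) (by positivity)
    (by positivity) (by positivity)
  have hc : 0 < ε ^ 2 / 1000 := by positivity
  set c : ℝ := ε ^ 2 / 1000 with hcdef
  have hsω₁ : 0 < √ω₁ := Real.sqrt_pos.2 hω₁
  set C : ℝ := 2 + 18 / c + 36 / (c * (ε ^ 2 * √ω₁)) + 4 / ε with hC
  have hC0 : 0 < C := by positivity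
  refine ⟨(6 * C / ε) ^ 2, ?_⟩
  intro n p H _ _ X m E d i0 J a ι κ _ _ P N hp0 hcount S
  have hpb := S.p_big
  have hp : 0 < p := by linarith
  have hfr := S.frame
  have hsp : 0 < √p := Real.sqrt_pos.2 hp
  have hsp2 : √p * √p = p := Real.mul_self_sqrt hp.le
  have hsp1 : 1 ≤ √p := Real.one_le_sqrt.2 (by linarith)
  -- the size of `√p`
  have hspC : 6 * C ≤ ε * √p := by
    have h1 : 6 * C / ε ≤ √p := Real.le_sqrt_of_sq_le hp0
    rw [div_le_iff₀ hε] at h1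
    linarith
  -- the cut
  have hyA := S.yA_le
  have hW := S.W_le
  have hε2 : 0 < ε ^ 2 := by positivity
  have hKx : ∀ x : ℝ, ε ^ 2 * x ≤ 16 * p → x ≤ 16 / ε ^ 2 * p := by
    intro x hx
    rw [div_mul_eq_mul_div, le_div_iff₀ hε2]
    linarith
  obtain ⟨ω, hω1, hω2, hcr⟩ := hcut n a (ZZ J P) p hp.le hfr.a_nonneg hfr.a_le
    (fun i j => Finset.sum_nonneg (fun _ _ => sq_nonneg _))
    (fun i j => by
      refine Finset.sum_congr rfl (fun α _ => ?_)
      have h1 := Zf_skew hfr.skewJ (S.skP α) i j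
      rw [h1]
      ring)
    (by
      rw [← S.yA_coord]
      exact hKx _ (by linarith))
    (hKx _ hW)
  have hω : 0 < ω := lt_of_lt_of_le hω₁ hω1
  have hwt := hfr.wt_cS ω
  -- the error
  have hpe : 1000 / ε ^ 2 ≤ p := S.hp
  have hcp1 : 1 ≤ c * p := by
    rw [div_le_iff₀ hε2] at hpe
    rw [hcdef]
    linarith
  have hcp : 1 ≤ c * p ^ 2 := by
    have : c * p ^ 2 = (c * p) * p := by ring
    rw [this]
    nlinarith
  have hc4 : c ≤ 1 / 4 := by
    rw [hcdef]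
    nlinarith
  have herr := S.err_le hω hc hc4 hcp hcount
  have hsω : √ω₁ ≤ √ω := Real.sqrt_le_sqrt hω1
  set EE : ℝ := 56 * c * p * √p / ε + 2 / c * (9 * √p + 18 * p / (ε ^ 2 * √ω₁)) with hEE
  have herr' : err X (E i0) J (cS a ω) P ≤ EE := by
    refine herr.trans ?_
    have h1 : 18 * p / (ε ^ 2 * √ω) ≤ 18 * p / (ε ^ 2 * √ω₁) := by
      refine div_le_div_of_nonneg_left (by positivity) (by positivity) ?_
      exact mul_le_mul_of_nonneg_left hsω hε2.le
    have h2 : 2 / c * (9 * √p + 18 * p / (ε ^ 2 * √ω)) ≤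
        2 / c * (9 * √p + 18 * p / (ε ^ 2 * √ω₁)) :=
      mul_le_mul_of_nonneg_left (by linarith) (by positivity)
    rw [hEE]
    linarith
  have hEE0 : 0 ≤ EE := by
    rw [hEE]
    positivity
  -- the ingredients of `final_real`
  set w : ℝ := mass0 (E i0) N - mass0 (E i0) P with hw
  have hwpos : 0 < w := S.w_pos
  have hw1 : w ≤ 1 := S.w_le
  have hl := S.lam_half
  have hl' := S.lam_le
  set y : ℝ := yA J (cS a ω) P with hy
  have hy0 : 0 ≤ y := T7_yA_nonneg _ _ _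
  have hD0 := S.dPerp_nonneg
  have hDD0 : 0 ≤ dY X J (cS a ω) P := Finset.sum_nonneg (fun _ _ => X.D_nonneg _)
  set e : ℝ := ε / 8 * p + 1 with he
  have he0 : 0 ≤ e := by
    rw [he]
    positivity
  have htest := S.test1' hω
  have hyB0 := T7_yB_nonneg J (cS a ω) P
  have hωp : ω * p ≤ ε / 16 * p := mul_le_mul_of_nonneg_right hω2 hp.le
  have hce : cross a (ZZ J P) ω + ω * p + 1 ≤ e := by
    rw [he]
    linarith
  have hdY := S.dY_le hwt
  have h1 : 2 * √(d i0) * y - EE ≤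
      √(dPerp X (E i0) P) * (2 * √p * √(dY X J (cS a ω) P) + 2 * √y) := by
    have h2 := S.uncert_sum hwt
    have h3 : 2 * y ≤ √(d i0) * ∑ i, ip (br (E i0) (P i)) (Yu J (cS a ω) (P i)) := by
      rw [hy, yA, Finset.mul_sum, Finset.mul_sum]
      exact Finset.sum_le_sum (fun α _ => hfr.ip_V_Yu_ge hwt (S.skP α))
    have h4 : √(d i0) * (2 * y) ≤
        √(d i0) * (√(d i0) * ∑ i, ip (br (E i0) (P i)) (Yu J (cS a ω) (P i))) :=
      mul_le_mul_of_nonneg_left h3 (Real.sqrt_nonneg _)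
    have hlam : 0 ≤ d i0 := hfr.lam_pos.le
    have h5 : √(d i0) * (√(d i0) * ∑ i, ip (br (E i0) (P i)) (Yu J (cS a ω) (P i))) =
        d i0 * ∑ i, ip (br (E i0) (P i)) (Yu J (cS a ω) (P i)) := by
      rw [← mul_assoc, Real.mul_self_sqrt hlam]
    rw [h5] at h4
    linarith
  have h2 : dY X J (cS a ω) P ≤ d i0 * (1 - w) + 2 * y + e := by
    linarith
  have h3 : d i0 * w - e ≤ y := by
    linarith
  have hfin := final_real hp hl hl' hwpos hw1 hy0 hD0 hDD0 he0 hEE0 h1 h2 h3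
  have hsqi := square_identity hp hl hl' hwpos hw1
  have hlt := S.dPerp_lt hw
  -- `2 √(D y) ≤ 4 p / ε`
  have hDle := S.dPerp_le
  have hyle : ε ^ 2 * y ≤ 8 * p :=
    (mul_le_mul_of_nonneg_left (T7_yA_mono S ω) hε2.le).trans hyA
  have hsq : √(dPerp X (E i0) P * y) ≤ 2 * p / ε := by
    apply Real.sqrt_le_iff.2
    refine ⟨by positivity, ?_⟩
    rw [div_pow, le_div_iff₀ hε2]
    calc dPerp X (E i0) P * y * ε ^ 2 = dPerp X (E i0) P * (ε ^ 2 * y) := by ring
      _ ≤ (p / 2) * (8 * p) := mul_le_mul hDle hyle (by positivity) (by positivity)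
      _ = (2 * p) ^ 2 := by ring
  have h4 : √p * (EE + 2 * √(dPerp X (E i0) P * y)) ≤ √p * (EE + 2 * (2 * p / ε)) :=
    mul_le_mul_of_nonneg_left (by linarith) hsp.le
  have h5 : p * dPerp X (E i0) P <
      p * (d i0 * w + (p - d i0) * (1 - w) - p / 2 - ε / 2 * p) :=
    mul_lt_mul_of_pos_left hlt hp
  have h6 : ε / 2 * p ^ 2 < 2 * e * p + √p * (EE + 2 * (2 * p / ε)) := by
    have h7 : p * (d i0 * w + (p - d i0) * (1 - w) - p / 2 - ε / 2 * p) =
        p * (d i0 * w + (p - d i0) * (1 - w) - p / 2) - ε / 2 * p ^ 2 := by ring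
    linarith
  -- the numbers
  have h8 : √p * (EE + 2 * (2 * p / ε)) =
      56 * c / ε * (p * p) + 18 / c * p + (36 / (c * (ε ^ 2 * √ω₁)) + 4 / ε) * (p * √p) := by
    rw [hEE]
    have h9 : √p * (56 * c * p * √p / ε + 2 / c * (9 * √p + 18 * p / (ε ^ 2 * √ω₁)) +
        2 * (2 * p / ε)) = 56 * c / ε * (p * (√p * √p)) + 18 / c * (√p * √p) +
          (36 / (c * (ε ^ 2 * √ω₁)) + 4 / ε) * (p * √p) := by
      field_simp
      ring
    rw [h9, hsp2]
  have h10 : 56 * c / ε = 56 / 1000 * ε := by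
    rw [hcdef]
    field_simp
  have h11 : 2 * e * p = ε / 4 * p ^ 2 + 2 * p := by
    rw [he]
    ring
  rw [h8, h10, h11] at h6
  have hpp : p ≤ p * √p := by nlinarith
  have h12 : (2 + 18 / c) * p ≤ (2 + 18 / c) * (p * √p) :=
    mul_le_mul_of_nonneg_left hpp (by positivity)
  have h13 : C * (p * √p) = (2 + 18 / c) * (p * √p) +
      (36 / (c * (ε ^ 2 * √ω₁)) + 4 / ε) * (p * √p) := by
    rw [hC]
    ring
  have h14 : 6 * C * (p * √p) ≤ ε * (p * p) := by
    calc 6 * C * (p * √p) ≤ (ε * √p) * (p * √p) :=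
          mul_le_mul_of_nonneg_right hspC (by positivity)
      _ = ε * (p * (√p * √p)) := by ring
      _ = ε * (p * p) := by rw [hsp2]
  have h15 : 0 < ε * (p * p) := by positivity
  nlinarith

end HopfBig
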