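import Pool.Agent.Lib.MP_4a593f_gt.Big.C2

/-! Definitions for weights (no task). -/

open scoped BigOperators

namespace HopfBig

variable {n : ℕ}

/-- `u L u` for a diagonal weight `u` -/
def Mu (u : Fin n → ℝ) (L : Mat n) : Mat n := Matrix.of fun i j => u i * L i j * u j

/-- the rotated `(2,0)` part `J M^A = (1/2)[J, M]` of `M = u L u` -/
noncomputable def Yu (J : Mat n) (u : Fin n → ℝ) (L : Mat n) : Mat n :=
  (1 / 2 : ℝ) • (J * Mu u L - Mu u L * J)

/-- the `(1,1)` part `(M - J M J)/2` of `M = u L u` -/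
noncomputable def Bu (J : Mat n) (u : Fin n → ℝ) (L : Mat n) : Mat n :=
  (1 / 2 : ℝ) • (Mu u L - J * Mu u L * J)

/-- `(1/2) [J, L]` -/
noncomputable def Zf (J L : Mat n) : Mat n := (1 / 2 : ℝ) • (J * L - L * J)

/-- admissible weights for a frame: constant on the blocks of `J` and `u² ≤ a` -/
def Wt (J : Mat n) (a u : Fin n → ℝ) : Prop :=
  (∀ i j, J i j ≠ 0 → u i = u j) ∧ ∀ i, 0 ≤ u i ∧ u i ^ 2 ≤ a i

/-- the 2-form `L_u = λ^{-1/2} u² J` -/
noncomputable def Lu (J : Mat n) (lam : ℝ) (u : Fin n → ℝ) : Mat n :=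
  Matrix.of fun i j => u i ^ 2 * J i j / √lam

/-- the full weight `c = √a` -/
noncomputable def cw (a : Fin n → ℝ) : Fin n → ℝ := fun i => √(a i)

/-- the weight `c` cut off to `{a ≥ ω}` -/
noncomputable def cS (a : Fin n → ℝ) (ω : ℝ) : Fin n → ℝ := fun i => if ω ≤ a i then √(a i) else 0

/-- the weight `c` cut off to `{a < ω}` -/
noncomputable def cF (a : Fin n → ℝ) (ω : ℝ) : Fin n → ℝ := fun i => if ω ≤ a i then 0 else √(a i)

end HopfBig
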