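import Pool.Agent.Lib.MP_4a593f_gt.Big.W0

/-! Task W1: algebra of the weights, I.

For a weight `u` constant on the blocks of `J` the diagonal matrix of `u` commutes with `J`
(`u_i J_ij = J_ij u_j`), and `J² = -1` on the support of `u` (because `u_i ≠ 0 → a_i ≠ 0`).
Put `M = Mu u L`; `J² M = -M = M J²`.  `M^A = (M + J M J)/2`, `M^B = (M - J M J)/2 = Bu`,
`J M^A = Yu`, `|Yu|² + |Bu|² = |M|²`, `⟨Yu, ·⟩`...
`tr (J M J M) = 2|Bu|² - 2|Yu|²`. -/

open scoped BigOperators

namespace HopfBig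

variable {n : ℕ} {L0 J : Mat n} {a u : Fin n → ℝ} {lam : ℝ}

private theorem W1_skew_iff {A : Mat n} : Skew A ↔ A.transpose = -A := by
  constructor
  · intro h
    ext i j
    exact h i j
  · intro h i j
    exact congrFun (congrFun h i) j

private theorem W1_Mu (u : Fin n → ℝ) (L : Mat n) :
    Mu u L = Matrix.diagonal u * L * Matrix.diagonal u := by
  ext i j
  rw [Matrix.mul_diagonal, Matrix.diagonal_mul]
  rfl

private theorem W1_ip {A B : Mat n} (hB : Skew B) : ip A B = -(1 / 2) * (A * B).trace := by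
  have h : (A * B).trace = -∑ i, ∑ j, A i j * B i j := by
    simp only [Matrix.trace, Matrix.diag_apply, Matrix.mul_apply]
    rw [← Finset.sum_neg_distrib]
    refine Finset.sum_congr rfl fun i _ => ?_
    rw [← Finset.sum_neg_distrib]
    refine Finset.sum_congr rfl fun j _ => ?_
    rw [hB i j]
    ring
  rw [h]
  unfold ip
  ring

private theorem W1_tJMMJ {J M : Mat n} (h1 : J * J * M = -M) :
    (J * M * M * J).trace = -(M * M).trace := by
  rw [Matrix.trace_mul_comm, ← Matrix.mul_assoc, ← Matrix.mul_assoc, h1, Matrix.neg_mul,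
    Matrix.trace_neg]

private theorem W1_tY {J M : Mat n} (h1 : J * J * M = -M) (h2 : M * J * J = -M) :
    ((J * M - M * J) * (J * M - M * J)).trace =
      2 * (J * M * J * M).trace + 2 * (M * M).trace := by
  have e1 : (J * M - M * J) * (J * M - M * J) =
      J * M * J * M - J * M * M * J - M * J * J * M + M * J * M * J := by
    noncomm_ring
  have e2 : (M * J * M * J).trace = (J * M * J * M).trace := by
    rw [Matrix.trace_mul_comm, ← Matrix.mul_assoc, ← Matrix.mul_assoc]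
  rw [e1, Matrix.trace_add, Matrix.trace_sub, Matrix.trace_sub, W1_tJMMJ h1, h2, Matrix.neg_mul,
    Matrix.trace_neg, e2]
  ring

private theorem W1_tB {J M : Mat n} (h1 : J * J * M = -M) (h2 : M * J * J = -M) :
    ((M - J * M * J) * (M - J * M * J)).trace =
      2 * (M * M).trace - 2 * (J * M * J * M).trace := by
  have e1 : (M - J * M * J) * (M - J * M * J) =
      M * M - M * J * M * J - J * M * J * M + J * (M * J * J) * M * J := by
    noncomm_ring
  have e2 : (M * J * M * J).trace = (J * M * J * M).trace := by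
    rw [Matrix.trace_mul_comm, ← Matrix.mul_assoc, ← Matrix.mul_assoc]
  have e3 : J * -M * M * J = -(J * M * M * J) := by
    noncomm_ring
  rw [e1, Matrix.trace_add, Matrix.trace_sub, Matrix.trace_sub, h2, e3, Matrix.trace_neg,
    W1_tJMMJ h1, e2]
  ring

theorem Skew.Mu {L : Mat n} (u : Fin n → ℝ) (hL : Skew L) : Skew (Mu u L) := by
  intro i j
  show u j * L j i * u i = -(u i * L i j * u j)
  rw [hL i j]
  ring

theorem Skew.Yu (hJ : Skew J) {L : Mat n} (u : Fin n → ℝ) (hL : Skew L) : Skew (Yu J u L) := by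
  have hM := W1_skew_iff.1 (Skew.Mu u hL)
  have hJ' := W1_skew_iff.1 hJ
  rw [W1_skew_iff]
  unfold HopfBig.Yu
  rw [Matrix.transpose_smul, Matrix.transpose_sub, Matrix.transpose_mul, Matrix.transpose_mul, hM,
    hJ', ← smul_neg]
  congr 1
  noncomm_ring

theorem Skew.Bu (hJ : Skew J) {L : Mat n} (u : Fin n → ℝ) (hL : Skew L) : Skew (Bu J u L) := by
  have hM := W1_skew_iff.1 (Skew.Mu u hL)
  have hJ' := W1_skew_iff.1 hJ
  rw [W1_skew_iff]
  unfold HopfBig.Bu
  rw [Matrix.transpose_smul, Matrix.transpose_sub, Matrix.transpose_mul, Matrix.transpose_mul, hM,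
    hJ', ← smul_neg]
  congr 1
  noncomm_ring

theorem Wt.diag_comm (hu : Wt J a u) : Matrix.diagonal u * J = J * Matrix.diagonal u := by
  ext i j
  rw [Matrix.mul_diagonal, Matrix.diagonal_mul]
  by_cases h : J i j = 0
  · rw [h, mul_zero, zero_mul]
  · rw [hu.1 i j h, mul_comm]

private theorem W1_zero (hu : Wt J a u) {i : Fin n} (h : a i = 0) : u i = 0 := by
  have h1 := (hu.2 i).2
  rw [h] at h1
  exact pow_eq_zero_iff (two_ne_zero) |>.1 (le_antisymm h1 (sq_nonneg _))

theorem Frame.JJMu (h : Frame L0 J a lam) (hu : Wt J a u) (L : Mat n) :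
    J * J * Mu u L = -Mu u L := by
  rw [h.sq]
  ext i j
  rw [Matrix.diagonal_mul]
  show (if a i = 0 then (0 : ℝ) else -1) * (u i * L i j * u j) = -(u i * L i j * u j)
  split_ifs with ha
  · rw [W1_zero hu ha]
    ring
  · ring

theorem Frame.MuJJ (h : Frame L0 J a lam) (hu : Wt J a u) (L : Mat n) :
    Mu u L * J * J = -Mu u L := by
  rw [Matrix.mul_assoc, h.sq]
  ext i j
  rw [Matrix.mul_diagonal]
  show (u i * L i j * u j) * (if a j = 0 then (0 : ℝ) else -1) = -(u i * L i j * u j)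
  split_ifs with ha
  · rw [W1_zero hu ha]
    ring
  · ring

private theorem W1_ipY (h : Frame L0 J a lam) (hu : Wt J a u) {L : Mat n} (hL : Skew L) :
    ip (Yu J u L) (Yu J u L) =
      -(1 / 4) * ((J * Mu u L * J * Mu u L).trace + (Mu u L * Mu u L).trace) := by
  rw [W1_ip (Skew.Yu h.skewJ u hL)]
  unfold Yu
  rw [Matrix.smul_mul, Matrix.mul_smul, Matrix.trace_smul, Matrix.trace_smul,
    W1_tY (h.JJMu hu L) (h.MuJJ hu L)]
  simp only [smul_eq_mul]
  ring

private theorem W1_ipB (h : Frame L0 J a lam) (hu : Wt J a u) {L : Mat n} (hL : Skew L) :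
    ip (Bu J u L) (Bu J u L) =
      -(1 / 4) * ((Mu u L * Mu u L).trace - (J * Mu u L * J * Mu u L).trace) := by
  rw [W1_ip (Skew.Bu h.skewJ u hL)]
  unfold Bu
  rw [Matrix.smul_mul, Matrix.mul_smul, Matrix.trace_smul, Matrix.trace_smul,
    W1_tB (h.JJMu hu L) (h.MuJJ hu L)]
  simp only [smul_eq_mul]
  ring

theorem Frame.pyth (h : Frame L0 J a lam) (hu : Wt J a u) {L : Mat n} (hL : Skew L) :
    ip (Yu J u L) (Yu J u L) + ip (Bu J u L) (Bu J u L) = ip (Mu u L) (Mu u L) := by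
  rw [W1_ipY h hu hL, W1_ipB h hu hL, W1_ip (Skew.Mu u hL)]
  ring

private theorem W1_tr (h : Frame L0 J a lam) (hu : Wt J a u) {L : Mat n} (hL : Skew L) :
    (J * Mu u L * J * Mu u L).trace =
      2 * ip (Bu J u L) (Bu J u L) - 2 * ip (Yu J u L) (Yu J u L) := by
  rw [W1_ipY h hu hL, W1_ipB h hu hL]
  ring

theorem Frame.trJMJM (h : Frame L0 J a lam) (hu : Wt J a u) {L : Mat n} (hL : Skew L) :
    ∑ i, (J * Mu u L * J * Mu u L) i i =
      2 * ip (Bu J u L) (Bu J u L) - 2 * ip (Yu J u L) (Yu J u L) :=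
  W1_tr h hu hL

private theorem W1_Lu (hu : Wt J a u) :
    Lu J lam u = (1 / √lam) • (Matrix.diagonal u * J * Matrix.diagonal u) := by
  ext i j
  rw [Matrix.smul_apply, Matrix.mul_diagonal, Matrix.diagonal_mul, smul_eq_mul]
  show u i ^ 2 * J i j / √lam = _
  by_cases hJ : J i j = 0
  · rw [hJ]
    ring
  · rw [← hu.1 i j hJ]
    ring

/-- `-(1/2) tr (L_u L L_u L) = (|Yu|² - |Bu|²)/λ`, where `L_u = λ^{-1/2} u² J`, because
`tr (u²J L u²J L) = tr (J M J M)`. -/
theorem Frame.wedge_u (h : Frame L0 J a lam) (hu : Wt J a u) {L : Mat n} (hL : Skew L) :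
    ip (Lu J lam u) L * ip (Lu J lam u) L -
        (1 / 2) * ∑ i, (Lu J lam u * L * Lu J lam u * L) i i =
      ip (Lu J lam u) L ^ 2 +
        (ip (Yu J u L) (Yu J u L) - ip (Bu J u L) (Bu J u L)) / lam := by
  have h1 : ∑ i, (Lu J lam u * L * Lu J lam u * L) i i =
      (2 * ip (Bu J u L) (Bu J u L) - 2 * ip (Yu J u L) (Yu J u L)) / lam := by
    show (Lu J lam u * L * Lu J lam u * L).trace = _
    rw [← W1_tr h hu hL, W1_Lu hu, W1_Mu]
    have e1 : (1 / √lam) • (Matrix.diagonal u * J * Matrix.diagonal u) * L *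
        (1 / √lam) • (Matrix.diagonal u * J * Matrix.diagonal u) * L =
        (1 / √lam * (1 / √lam)) • (Matrix.diagonal u *
          (J * Matrix.diagonal u * L * Matrix.diagonal u * J * Matrix.diagonal u * L)) := by
      simp only [Matrix.smul_mul, Matrix.mul_smul, smul_smul, Matrix.mul_assoc]
    have e2 : J * Matrix.diagonal u * L * Matrix.diagonal u * J * Matrix.diagonal u * L *
        Matrix.diagonal u = J * (Matrix.diagonal u * L * Matrix.diagonal u) * J *
        (Matrix.diagonal u * L * Matrix.diagonal u) := by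
      simp only [Matrix.mul_assoc]
    have e3 : 1 / √lam * (1 / √lam) = 1 / lam := by
      rw [div_mul_div_comm, one_mul, Real.mul_self_sqrt h.lam_pos.le]
    rw [e1, Matrix.trace_smul, Matrix.trace_mul_comm, e2, e3, smul_eq_mul]
    ring
  rw [h1]
  ring

theorem Frame.Lu_cw (h : Frame L0 J a lam) : Lu J lam (cw a) = L0 := by
  ext i j
  show √(a i) ^ 2 * J i j / √lam = L0 i j
  rw [Real.sq_sqrt (h.a_nonneg i), ← h.hL0 i j]
  have : √lam ≠ 0 := (Real.sqrt_pos.2 h.lam_pos).ne'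
  field_simp

theorem Frame.wt_cw (h : Frame L0 J a lam) : Wt J a (cw a) := by
  refine ⟨fun i j hJ => ?_, fun i => ⟨Real.sqrt_nonneg _, ?_⟩⟩
  · show √(a i) = √(a j)
    rw [h.comm i j hJ]
  · show √(a i) ^ 2 ≤ a i
    rw [Real.sq_sqrt (h.a_nonneg i)]

theorem Frame.wt_cS (h : Frame L0 J a lam) (ω : ℝ) : Wt J a (cS a ω) := by
  refine ⟨fun i j hJ => ?_, fun i => ⟨?_, ?_⟩⟩
  · show (if ω ≤ a i then √(a i) else 0) = (if ω ≤ a j then √(a j) else 0)
    rw [h.comm i j hJ]
  · show 0 ≤ (if ω ≤ a i then √(a i) else 0)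
    split_ifs
    · exact Real.sqrt_nonneg _
    · exact le_rfl
  · show (if ω ≤ a i then √(a i) else 0) ^ 2 ≤ a i
    split_ifs
    · rw [Real.sq_sqrt (h.a_nonneg i)]
    · rw [zero_pow two_ne_zero]
      exact h.a_nonneg i

theorem Frame.wt_cF (h : Frame L0 J a lam) (ω : ℝ) : Wt J a (cF a ω) := by
  refine ⟨fun i j hJ => ?_, fun i => ⟨?_, ?_⟩⟩
  · show (if ω ≤ a i then 0 else √(a i)) = (if ω ≤ a j then 0 else √(a j))
    rw [h.comm i j hJ]
  · show 0 ≤ (if ω ≤ a i then 0 else √(a i))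
    split_ifs
    · exact le_rfl
    · exact Real.sqrt_nonneg _
  · show (if ω ≤ a i then 0 else √(a i)) ^ 2 ≤ a i
    split_ifs
    · rw [zero_pow two_ne_zero]
      exact h.a_nonneg i
    · rw [Real.sq_sqrt (h.a_nonneg i)]

theorem Frame.skew_Lu (h : Frame L0 J a lam) (hu : Wt J a u) : Skew (Lu J lam u) := by
  intro i j
  show u j ^ 2 * J j i / √lam = -(u i ^ 2 * J i j / √lam)
  rw [h.skewJ i j]
  by_cases hJ : J i j = 0
  · rw [hJ]
    ring
  · rw [hu.1 i j hJ]
    ring

theorem Frame.opLe_J (h : Frame L0 J a lam) : OpLe J 1 := by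
  refine ⟨zero_le_one, fun x => ?_⟩
  have hT := W1_skew_iff.1 h.skewJ
  have e1 : ∑ i, (J.mulVec x) i ^ 2 = (J.mulVec x) ⬝ᵥ (J.mulVec x) := by
    simp only [dotProduct, pow_two]
  have e2 : (J.mulVec x) ⬝ᵥ (J.mulVec x) = -(x ⬝ᵥ ((J * J).mulVec x)) := by
    rw [← Matrix.mulVec_mulVec, Matrix.dotProduct_mulVec x, ← Matrix.mulVec_transpose, hT,
      Matrix.neg_mulVec, neg_dotProduct, neg_neg]
  rw [e1, e2, h.sq]
  have e3 : ∀ i, (Matrix.diagonal (fun i => if a i = 0 then (0 : ℝ) else -1)).mulVec x i =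
      (if a i = 0 then (0 : ℝ) else -1) * x i := by
    intro i
    rw [Matrix.mulVec_diagonal]
  rw [one_pow, one_mul]
  simp only [dotProduct]
  rw [← Finset.sum_neg_distrib]
  refine Finset.sum_le_sum fun i _ => ?_
  rw [e3]
  split_ifs
  · nlinarith [sq_nonneg (x i)]
  · nlinarith [sq_nonneg (x i)]

end HopfBig
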