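import Pool.Agent.Lib.MP_4a593f_gt.Big.W1
import Pool.Agent.Lib.MP_4a593f_gt.Big.A6

/-! Task W2: the rotated weights.

`g± = (u ± u J)/√2` (`u` = diagonal matrix).  As `Jᵀ = -J` and `u`, `J` commute,
`g± L g±ᵀ = (1/2)(u ± uJ) L (u ∓ Ju) = Bu ± Yu`, `g±ᵀ g± = u²` on the support, and
`hs (g±ᵀ g±) = ∑ u_i⁴ ≤ ∑ a_i² = 2λ`.
Lower bound: `F(K,K) ≥ D(K,K) - |K|²` (`Q ≥ 0`) and
`(1/2) ∑_± D(B ± Y) = D(B,B) + D(Y,Y)`, `(1/2) ∑_± |B ± Y|² = |B|² + |Y|²`.
Upper bound: `F_congr_le`. -/

open scoped BigOperators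

namespace HopfBig

variable {n : ℕ} {p : ℝ} {H : Type} [NormedAddCommGroup H] [InnerProductSpace ℝ H]
variable {L0 J : Mat n} {a u : Fin n → ℝ} {lam : ℝ}

/-- `g± = (u ± u J)/√2` -/
noncomputable def gp (J : Mat n) (u : Fin n → ℝ) (s : ℝ) : Mat n :=
  (1 / √2 : ℝ) • (Matrix.diagonal u + s • (Matrix.diagonal u * J))

private theorem Mu_eq_mul (u : Fin n → ℝ) (L : Mat n) :
    Mu u L = Matrix.diagonal u * L * Matrix.diagonal u := by
  ext i j
  simp [Mu, Matrix.mul_diagonal, Matrix.diagonal_mul]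

private theorem gp_transpose (hJ : Skew J) (hc : Matrix.diagonal u * J = J * Matrix.diagonal u)
    (s : ℝ) : (gp J u s).transpose =
      (1 / √2 : ℝ) • (Matrix.diagonal u - s • (Matrix.diagonal u * J)) := by
  have hT : J.transpose = -J := hJ.transpose
  unfold gp
  rw [Matrix.transpose_smul, Matrix.transpose_add, Matrix.transpose_smul, Matrix.transpose_mul,
    Matrix.diagonal_transpose, hT, hc, Matrix.neg_mul, smul_neg, sub_eq_add_neg]

private theorem half_sqrt : (1 / √2 : ℝ) * (1 / √2) = 1 / 2 := by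
  rw [div_mul_div_comm, one_mul, Real.mul_self_sqrt (by norm_num)]

theorem Frame.gp_congr (h : Frame L0 J a lam) (hu : Wt J a u) {L : Mat n} (hL : Skew L) {s : ℝ}
    (hs1 : s = 1 ∨ s = -1) :
    gp J u s * L * (gp J u s).transpose = Bu J u L + s • Yu J u L := by
  have hc := hu.diag_comm
  have hss : s * s = 1 := by rcases hs1 with h | h <;> rw [h] <;> norm_num
  rw [gp_transpose h.skewJ hc s]
  unfold gp Bu Yu
  rw [Mu_eq_mul]
  set U : Mat n := Matrix.diagonal u with hU
  have e1 : U * J * L * U = J * (U * L * U) := by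
    rw [hc]; simp only [Matrix.mul_assoc]
  have e2 : U * L * (U * J) = U * L * U * J := by simp only [Matrix.mul_assoc]
  have e3 : U * J * L * (U * J) = J * (U * L * U) * J := by
    have h1 : J * U * L * (U * J) = J * (U * L * U) * J := by simp only [Matrix.mul_assoc]
    calc U * J * L * (U * J) = J * U * L * (U * J) := by rw [hc]
      _ = J * (U * L * U) * J := h1
  have key : (U + s • (U * J)) * L * (U - s • (U * J)) =
      U * L * U + s • (J * (U * L * U)) - s • (U * L * U * J) - (s * s) • (J * (U * L * U) * J) := by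
    rw [← e3, ← e2, ← e1]
    simp only [Matrix.add_mul, Matrix.mul_sub, Matrix.smul_mul, Matrix.mul_smul]
    module
  rw [Matrix.smul_mul, Matrix.smul_mul, Matrix.mul_smul, smul_smul, half_sqrt, key, hss]
  module

theorem Frame.hs_gp (h : Frame L0 J a lam) (hu : Wt J a u) {s : ℝ} (hs1 : s = 1 ∨ s = -1) :
    hs ((gp J u s).transpose * gp J u s) ≤ 2 * lam := by
  have hc := hu.diag_comm
  have hss : s * s = 1 := by rcases hs1 with h | h <;> rw [h] <;> norm_num
  have hmat : (gp J u s).transpose * gp J u s = Matrix.diagonal (fun i => u i ^ 2) := by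
    rw [gp_transpose h.skewJ hc s]
    unfold gp
    set U : Mat n := Matrix.diagonal u with hU
    have e3 : U * J * (U * J) = - (U * U) := by
      have : U * J * (U * J) = U * U * (J * J) := by
        calc U * J * (U * J) = U * (J * U) * J := by simp only [Matrix.mul_assoc]
          _ = U * (U * J) * J := by rw [hc]
          _ = U * U * (J * J) := by simp only [Matrix.mul_assoc]
      rw [this, h.sq, hU, Matrix.diagonal_mul_diagonal, Matrix.diagonal_mul_diagonal]
      ext i j
      by_cases hij : i = j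
      · subst hij
        simp only [Matrix.diagonal_apply_eq, Matrix.neg_apply]
        by_cases ha : a i = 0
        · have := (hu.2 i).2
          have h0 : u i = 0 := by
            have : u i ^ 2 ≤ 0 := by rw [← ha]; exact this
            nlinarith [sq_nonneg (u i)]
          simp [ha, h0]
        · simp [ha]
      · simp [Matrix.diagonal_apply_ne _ hij]
    have e1 : U * (U * J) = U * J * U := by
      rw [Matrix.mul_assoc, hc]
    have key : (U - s • (U * J)) * (U + s • (U * J)) = (2 : ℝ) • (U * U) := by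
      have : (U - s • (U * J)) * (U + s • (U * J)) =
          U * U + s • (U * (U * J)) - s • (U * J * U) - (s * s) • (U * J * (U * J)) := by
        simp only [Matrix.sub_mul, Matrix.mul_add, Matrix.smul_mul, Matrix.mul_smul]
        module
      rw [this, hss, e3, e1, one_smul, two_smul]
      abel
    rw [Matrix.smul_mul, Matrix.mul_smul, smul_smul, half_sqrt, key, smul_smul]
    norm_num
    rw [hU, Matrix.diagonal_mul_diagonal]
    congr 1
    ext i
    ring
  rw [hmat]
  have : hs (Matrix.diagonal (fun i => u i ^ 2) : Mat n) = ∑ i, (u i ^ 2) ^ 2 := by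
    unfold hs
    apply Finset.sum_congr rfl
    intro i _
    rw [Finset.sum_eq_single i]
    · simp
    · intro j _ hj
      rw [Matrix.diagonal_apply_ne _ (Ne.symm hj)]
      norm_num
    · intro hi
      exact absurd (Finset.mem_univ i) hi
  rw [this, ← h.suma]
  apply Finset.sum_le_sum
  intro i _
  have h1 := (hu.2 i).2
  have h2 : 0 ≤ u i ^ 2 := sq_nonneg _
  exact pow_le_pow_left₀ h2 h1 2

/-- the averaged 4-form `L ↦ (1/2) ∑_± F(g± L g±ᵀ)` -/
noncomputable def Fav (X : FormData n p H) (J : Mat n) (u : Fin n → ℝ) (L : Mat n) : ℝ :=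
  (1 / 2) * (X.F (gp J u 1 * L * (gp J u 1).transpose) (gp J u 1 * L * (gp J u 1).transpose) +
    X.F (gp J u (-1) * L * (gp J u (-1)).transpose) (gp J u (-1) * L * (gp J u (-1)).transpose))

theorem four_Fav (X : FormData n p H) (J : Mat n) (u : Fin n → ℝ) : Four (Fav X J u) := by
  have h0 : Four (fun L => X.F L L) := X.four
  have h1 := h0.pull (gp J u 1)
  have h2 := h0.pull (gp J u (-1))
  exact (h1.add h2).smul (1 / 2)

theorem Frame.Fav_le (X : FormData n p H) (h : Frame L0 J a lam) (hu : Wt J a u) {L : Mat n}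
    (hL : Skew L) : Fav X J u L ≤ lam * ip L L := by
  have h1 := X.F_congr_le (gp J u 1) L hL
  have h2 := X.F_congr_le (gp J u (-1)) L hL
  have g1 := h.hs_gp hu (s := 1) (Or.inl rfl)
  have g2 := h.hs_gp hu (s := -1) (Or.inr rfl)
  have h3 := ip_self_nonneg L
  have k1 : (1 / 2) * hs ((gp J u 1).transpose * gp J u 1) * ip L L ≤ lam * ip L L := by
    apply mul_le_mul_of_nonneg_right _ h3
    linarith
  have k2 : (1 / 2) * hs ((gp J u (-1)).transpose * gp J u (-1)) * ip L L ≤ lam * ip L L := by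
    apply mul_le_mul_of_nonneg_right _ h3
    linarith
  unfold Fav
  linarith

private theorem D_bilin (X : FormData n p H) (A B : Mat n) (s : ℝ) :
    X.D (A + s • B) (A + s • B) = X.D A A + 2 * s * X.D A B + s * s * X.D B B := by
  unfold FormData.D
  simp only [map_add, map_smul, LinearMap.add_apply, LinearMap.smul_apply, inner_add_left,
    inner_add_right, inner_smul_left, inner_smul_right]
  rw [real_inner_comm (X.ρ A X.ψ) (X.ρ B X.ψ)]
  simp only [conj_trivial]
  ring

theorem Frame.Fav_ge (X : FormData n p H) (h : Frame L0 J a lam) (hu : Wt J a u) {L : Mat n}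
    (hL : Skew L) :
    X.D (Yu J u L) (Yu J u L) - ip (Yu J u L) (Yu J u L) - ip (Bu J u L) (Bu J u L) ≤
      Fav X J u L := by
  unfold Fav
  rw [h.gp_congr hu hL (s := 1) (Or.inl rfl), h.gp_congr hu hL (s := -1) (Or.inr rfl)]
  unfold FormData.F
  have q1 := X.Qpos (Bu J u L + (1 : ℝ) • Yu J u L)
  have q2 := X.Qpos (Bu J u L + (-1 : ℝ) • Yu J u L)
  have d1 := D_bilin X (Bu J u L) (Yu J u L) 1
  have d2 := D_bilin X (Bu J u L) (Yu J u L) (-1)
  have d3 := X.D_nonneg (Bu J u L)
  have i1 : ip (Bu J u L + (1 : ℝ) • Yu J u L) (Bu J u L + (1 : ℝ) • Yu J u L) =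
      ip (Bu J u L) (Bu J u L) + 2 * ip (Bu J u L) (Yu J u L) + ip (Yu J u L) (Yu J u L) := by
    rw [ip_add_left, ip_add_right, ip_add_right, ip_smul_left, ip_smul_right, ip_smul_left,
      ip_smul_right, ip_symm (Yu J u L) (Bu J u L)]
    ring
  have i2 : ip (Bu J u L + (-1 : ℝ) • Yu J u L) (Bu J u L + (-1 : ℝ) • Yu J u L) =
      ip (Bu J u L) (Bu J u L) - 2 * ip (Bu J u L) (Yu J u L) + ip (Yu J u L) (Yu J u L) := by
    rw [ip_add_left, ip_add_right, ip_add_right, ip_smul_left, ip_smul_right, ip_smul_left,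
      ip_smul_right, ip_symm (Yu J u L) (Bu J u L)]
    ring
  rw [d1, d2, i1, i2]
  nlinarith

end HopfBig
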